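import Pool.Agent.Helper37.VFG.Avg

/-! The weighted mean of `G(x,Q)` from below. -/

set_option autoImplicit false
set_option linter.unusedSectionVars false

open MeasureTheory Filter Topology Set Complex H37F
open scoped ENNReal

namespace Pool.Agent.Helper37.VFG

open H370.DL H429.GP H855R2.SF

noncomputable section

/-- `∫_1^∞ G(x,Q) x^{-2-2δ} dx` -/
def VG (Q : ℕ) (δ : ℝ) : ℝ≥0∞ := ∫⁻ x in Ioi (1:ℝ), ENNReal.ofReal (GV Q x * x ^ (-(2 + 2 * δ)))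

lemma GV_nonneg (Q : ℕ) (x : ℝ) : 0 ≤ GV Q x := Finset.sum_nonneg fun _ _ => sq_nonneg _

lemma psiAP_meas (Q a : ℕ) : Measurable (psiAP Q a) := by
  have h : psiAP Q a = (fun m : ℕ => ∑ n ∈ (Finset.Icc 1 m).filter (fun n => n % Q = a), ArithmeticFunction.vonMangoldt n) ∘
      (fun x : ℝ => ⌊x⌋₊) := by
    ext x; rfl
  rw [h]
  exact (measurable_from_nat).comp Nat.measurable_floor

lemma GV_meas (Q : ℕ) : Measurable (GV Q) := by
  unfold GV
  refine Finset.measurable_sum _ fun a _ => ?_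
  exact ((psiAP_meas Q a).sub (measurable_id.div_const _)).pow_const 2

lemma VG_exp (Q : ℕ) (δ : ℝ) : VG Q δ =
    ∫⁻ u in Ioi (0:ℝ), ENNReal.ofReal (GV Q (Real.exp u) * Real.exp (-((1 + 2 * δ) * u))) := by
  unfold VG
  rw [lint_Ioi_exp]
  refine lintegral_congr fun u => ?_
  rw [← ENNReal.ofReal_mul (Real.exp_pos u).le]
  congr 1
  rw [← Real.exp_mul]
  have : Real.exp (-((1 + 2 * δ) * u)) = Real.exp u * Real.exp (u * -(2 + 2 * δ)) := by
    rw [← Real.exp_add]; ring_nf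
  rw [this]
  ring

lemma VG_anti (Q : ℕ) {δ δ' : ℝ} (h : δ ≤ δ') : VG Q δ' ≤ VG Q δ := by
  rw [VG_exp, VG_exp]
  refine setLIntegral_mono' measurableSet_Ioi fun u hu => ?_
  have hu0 : (0:ℝ) < u := hu
  refine ENNReal.ofReal_le_ofReal (mul_le_mul_of_nonneg_left (Real.exp_le_exp.2 ?_) (GV_nonneg Q _))
  nlinarith

theorem sum_VL_le (Q : ℕ) [NeZero Q] (hQ : 2 ≤ Q) (δ : ℝ) :
    ∑ χ ∈ NP Q, VL χ δ ≤ ENNReal.ofReal (Q.totient : ℝ) * VG Q δ := by
  have hφ : (0:ℝ) ≤ Q.totient := Nat.cast_nonneg _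
  unfold VL
  rw [VG_exp, ← lintegral_finsetSum, ← lintegral_const_mul]
  · refine lintegral_mono fun u => ?_
    simp only
    rw [← ENNReal.ofReal_sum_of_nonneg (fun χ _ => by positivity), ← ENNReal.ofReal_mul hφ]
    refine ENNReal.ofReal_le_ofReal ?_
    rw [← Finset.sum_mul, ← mul_assoc]
    exact mul_le_mul_of_nonneg_right (pars Q hQ (Real.exp u)) (Real.exp_pos _).le
  · have := GV_meas Q
    fun_prop
  · intro χ _
    have := pe_meas χ
    fun_prop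

lemma VL_lt {Q : ℕ} [NeZero Q] (hQ : 2 ≤ Q) {δ : ℝ} (hV : VG Q δ < ⊤) {χ : DirichletCharacter ℂ Q} (hχ : χ ≠ 1) :
    VL χ δ < ⊤ := by
  have h1 := sum_VL_le Q hQ δ
  have h2 : VL χ δ ≤ ∑ χ ∈ NP Q, VL χ δ := Finset.single_le_sum (f := fun χ => VL χ δ) (fun _ _ => zero_le) (mem_NP.2 hχ)
  exact lt_of_le_of_lt (h2.trans h1) (ENNReal.mul_lt_top ENNReal.ofReal_lt_top hV)

/-- **the main inequality** for the weighted mean -/
theorem main_real (hT5 : T5) {ε : ℝ} (hε : 0 < ε) : ∃ c : ℝ, 0 < c ∧ ∀ᶠ Q : ℕ in atTop, ∀ δ : ℝ, 0 < δ →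
    δ ≤ c / Real.log Q ^ 2 → VG Q δ < ⊤ → Real.log Q - CQ Q - ε ≤ 2 * δ * (VG Q δ).toReal := by
  obtain ⟨C, hC, hper⟩ := per_chi
  obtain ⟨C2, hC2, hPX⟩ := PX_bound
  obtain ⟨η, hη, hη1, hav⟩ := sum_PX_ge hT5 (ε := ε / 4) (by positivity)
  -- the constant c
  obtain ⟨c, hc, hc8, hcη, hcC⟩ : ∃ c : ℝ, 0 < c ∧ c ≤ 1 / 8 ∧ 4 * c ≤ η ∧ C * (Real.sqrt (2 * c) + 2 * c) ≤ ε / 4 := by
    have hcont : Tendsto (fun c : ℝ => C * (Real.sqrt (2 * c) + 2 * c)) (𝓝[>] 0) (𝓝 0) := by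
      have h : Continuous (fun c : ℝ => C * (Real.sqrt (2 * c) + 2 * c)) := by fun_prop
      have h1 := h.tendsto 0
      simp only [mul_zero, Real.sqrt_zero, add_zero] at h1
      exact h1.mono_left nhdsWithin_le_nhds
    have e1 : ∀ᶠ c : ℝ in 𝓝[>] 0, C * (Real.sqrt (2 * c) + 2 * c) < ε / 4 := hcont.eventually_lt_const (by positivity)
    have e2 : ∀ᶠ c : ℝ in 𝓝[>] (0:ℝ), c < min (1 / 8) (η / 4) :=
      (eventually_lt_nhds (by positivity)).filter_mono nhdsWithin_le_nhds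
    have e3 : ∀ᶠ c : ℝ in 𝓝[>] (0:ℝ), 0 < c := self_mem_nhdsWithin
    obtain ⟨c, h1, h2, h3⟩ := (e1.and (e2.and e3)).exists
    refine ⟨c, h3, (h2.trans_le (min_le_left _ _)).le, ?_, h1.le⟩
    have := (h2.trans_le (min_le_right _ _)).le
    linarith
  refine ⟨c, hc, ?_⟩
  have ev1 : ∀ᶠ Q : ℕ in atTop, 4 * C2 * (xQ Q * Real.log Q) < ε / 4 := by
    have := xQ_log_tendsto.const_mul (4 * C2)
    rw [mul_zero] at this
    exact this.eventually_lt_const (by positivity)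
  have ev2 : ∀ᶠ Q : ℕ in atTop, xQ Q < min η (1 / 4) := xQ_tendsto.eventually_lt_const (by positivity)
  filter_upwards [hav, ev1, ev2, eventually_ge_atTop 3] with Q hav ev1 ev2 hQ
  have hQ0 : NeZero Q := ⟨by omega⟩
  have hav := hav hQ0
  intro δ hδ hδc hV
  have hl := log_ge_one hQ
  have hl2 : 1 ≤ Real.log Q ^ 2 := one_le_pow₀ hl
  have hδ2 : δ * Real.log Q ^ 2 ≤ c := by rwa [le_div_iff₀ (by positivity)] at hδc
  have hδc' : δ ≤ c := by nlinarith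
  have hφ0 : 0 < (Q.totient : ℝ) := by exact_mod_cast Nat.totient_pos.2 (by omega)
  have hx0 := xQ_pos (Q := Q) (by omega)
  -- the inequality for δ' > δ
  have key : ∀ δ' : ℝ, δ < δ' → δ' ≤ 2 * δ → Real.log Q - CQ Q - ε ≤ 2 * δ' * (VG Q δ).toReal := by
    intro δ' h1 h2
    have hδ'0 : 0 < δ' := by linarith
    have hδ'4 : δ' ≤ 1 / 4 := by linarith
    have hδ'l : δ' * Real.log Q ^ 2 ≤ 2 * c := by nlinarith
    set k : ℝ := max 0 (xQ Q - 2 * δ') with hk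
    have hk0 : 0 ≤ k := le_max_left _ _
    have hk1 : k ≤ xQ Q := max_le hx0.le (by linarith)
    have hxk : xQ Q ≤ 2 * δ' + k := by have := le_max_right 0 (xQ Q - 2 * δ'); linarith
    have hxη : 2 * δ' + k ≤ η := by
      rcases max_cases 0 (xQ Q - 2 * δ') with ⟨e, _⟩ | ⟨e, _⟩
      · rw [hk, e]; linarith
      · rw [hk, e]
        have := (ev2.trans_le (min_le_left _ _)).le
        linarith
    have hxq : 2 * δ' + k ≤ 1 / 2 := by
      rcases max_cases 0 (xQ Q - 2 * δ') with ⟨e, _⟩ | ⟨e, _⟩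
      · rw [hk, e]; linarith
      · rw [hk, e]
        have := (ev2.trans_le (min_le_right _ _)).le
        linarith
    have h3 := hav (2 * δ' + k) hxk hxη
    have hVL : ∀ χ ∈ NP Q, VL χ δ < ⊤ := fun χ hχ => VL_lt (by omega) hV (mem_NP.1 hχ)
    have hVL' : ∀ χ ∈ NP Q, VL χ δ' < ⊤ := fun χ hχ =>
      VL_lt (by omega) (lt_of_le_of_lt (VG_anti Q h1.le) hV) (mem_NP.1 hχ)
    have hone : ∀ χ ∈ NP Q, 2 * PX χ ((1 / 2 + (2 * δ' + k) : ℝ) : ℂ) - 4 * C2 * (xQ Q * Real.log Q) -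
        C * (Real.sqrt δ' * Real.log Q + δ' * Real.log Q ^ 2) ≤ 2 * δ' * (VL χ δ').toReal := by
      intro χ hχ
      have hχ' := mem_NP.1 hχ
      have hf : Free χ.primitiveCharacter δ := free_prim hχ' fun s hs => free_of_VL hχ' (hVL χ hχ) hs
      have a1 := hper Q hQ χ hχ' δ δ' hδ.le h1 hδ'4 (hVL χ hχ)
      have a2 := (PX_shift hχ' hδ.le h1 hk0 hf).2
      have a3 := hPX Q hQ χ hχ' δ δ' hδ.le h1 hδ'4 hf
      have a5 : PX χ ((1 / 2 + (2 * δ' + k) : ℝ) : ℂ) ≤ PX χ ((1 / 2 + 2 * δ' : ℝ) : ℂ) + 2 * C2 * (xQ Q * Real.log Q) := by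
        have b1 : 2 * k * PX χ ((1 / 2 + 2 * δ' : ℝ) : ℂ) ≤ 2 * xQ Q * (C2 * Real.log Q) := by
          apply mul_le_mul (by linarith) a3.2.1 a3.1 (by positivity)
        nlinarith
      linarith
    have hsum := Finset.sum_le_sum hone
    rw [← Finset.mul_sum, Finset.sum_sub_distrib, Finset.sum_sub_distrib, Finset.sum_const, Finset.sum_const,
      nsmul_eq_mul, nsmul_eq_mul] at hsum
    have hcard := card_NP Q
    have hcard0 : (0:ℝ) ≤ (NP Q).card := Nat.cast_nonneg _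
    have herr : C * (Real.sqrt δ' * Real.log Q + δ' * Real.log Q ^ 2) ≤ ε / 4 := by
      refine le_trans (mul_le_mul_of_nonneg_left ?_ hC.le) hcC
      refine add_le_add ?_ hδ'l
      have : Real.sqrt δ' * Real.log Q = Real.sqrt (δ' * Real.log Q ^ 2) := by
        rw [Real.sqrt_mul hδ'0.le, Real.sqrt_sq (by linarith)]
      rw [this]
      exact Real.sqrt_le_sqrt hδ'l
    have hs1 : ((NP Q).card : ℝ) * (4 * C2 * (xQ Q * Real.log Q)) ≤ (Q.totient : ℝ) * (ε / 4) :=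
      mul_le_mul hcard ev1.le (by positivity) hφ0.le
    have hs2 : ((NP Q).card : ℝ) * (C * (Real.sqrt δ' * Real.log Q + δ' * Real.log Q ^ 2)) ≤ (Q.totient : ℝ) * (ε / 4) :=
      mul_le_mul hcard herr (by positivity) hφ0.le
    -- the variance
    have hVGle : ∑ χ ∈ NP Q, (VL χ δ').toReal ≤ (Q.totient : ℝ) * (VG Q δ).toReal := by
      rw [← ENNReal.toReal_sum fun χ hχ => (hVL' χ hχ).ne]
      have b1 := (sum_VL_le Q (by omega) δ').trans (mul_le_mul_right (VG_anti Q h1.le) _)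
      have b2 := ENNReal.toReal_mono (ENNReal.mul_lt_top ENNReal.ofReal_lt_top hV).ne b1
      rwa [ENNReal.toReal_mul, ENNReal.toReal_ofReal hφ0.le] at b2
    have hfin : (Q.totient : ℝ) * (Real.log Q - CQ Q - ε) ≤ (Q.totient : ℝ) * (2 * δ' * (VG Q δ).toReal) := by
      have b3 := mul_le_mul_of_nonneg_left hVGle (show 0 ≤ 2 * δ' by linarith)
      have b4 : 0 ≤ (Q.totient : ℝ) * ε := by positivity
      nlinarith
    exact le_of_mul_le_mul_left hfin hφ0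
  -- let δ' → δ
  have hlim : Tendsto (fun δ' : ℝ => 2 * δ' * (VG Q δ).toReal) (𝓝[>] δ) (𝓝 (2 * δ * (VG Q δ).toReal)) := by
    have h : Continuous (fun δ' : ℝ => 2 * δ' * (VG Q δ).toReal) := by fun_prop
    exact (h.tendsto δ).mono_left nhdsWithin_le_nhds
  refine ge_of_tendsto hlim ?_
  have e1 : ∀ᶠ δ' : ℝ in 𝓝[>] δ, δ' ≤ 2 * δ :=
    (eventually_le_nhds (by linarith)).filter_mono nhdsWithin_le_nhds
  filter_upwards [self_mem_nhdsWithin, e1] with δ' h1 h2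
  exact key δ' h1 h2

theorem main_enn (hT5 : T5) {ε : ℝ} (hε : 0 < ε) : ∃ c : ℝ, 0 < c ∧ ∀ᶠ Q : ℕ in atTop, ∀ δ : ℝ, 0 < δ →
    δ ≤ c / Real.log Q ^ 2 → ENNReal.ofReal (Real.log Q - CQ Q - ε) ≤ ENNReal.ofReal (2 * δ) * VG Q δ := by
  obtain ⟨c, hc, h⟩ := main_real hT5 hε
  refine ⟨c, hc, ?_⟩
  filter_upwards [h] with Q hQ
  intro δ hδ hδc
  rcases eq_or_ne (VG Q δ) ⊤ with ht | ht
  · rw [ht, ENNReal.mul_top (by simpa using hδ)]
    exact le_top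
  · have h1 := hQ δ hδ hδc (lt_top_iff_ne_top.2 ht)
    calc ENNReal.ofReal (Real.log Q - CQ Q - ε) ≤ ENNReal.ofReal (2 * δ * (VG Q δ).toReal) := ENNReal.ofReal_le_ofReal h1
      _ = _ := by rw [ENNReal.ofReal_mul (by linarith), ENNReal.ofReal_toReal ht]

end

end Pool.Agent.Helper37.VFG
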