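import Pool.Agent.Helper37.VFG.Def

set_option autoImplicit false

namespace H37F

open Complex

open Classical in
/-- Mean square of the logarithmic derivatives over the nonprincipal characters. -/
def T6 : Prop := ∃ C : ℝ, 0 < C ∧ ∃ Q₀ : ℕ, ∀ (Q : ℕ) [NeZero Q], Q₀ ≤ Q → ∀ η : ℝ,
  (Q : ℝ) ^ (-(1 / 8) : ℝ) ≤ η → η ≤ 1 →
  ∑ χ ∈ (Finset.univ : Finset (DirichletCharacter ℂ Q)).erase 1,
      ‖logDeriv (DirichletCharacter.LFunction χ) ((1 + η : ℝ) : ℂ)‖ ^ 2 ≤ C * (Q.totient : ℝ)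

/-- The variance for `x < Q`. -/
def T8 : Prop := ∀ Q : ℕ, 2 ≤ Q → ∀ x : ℝ, 1 ≤ x → x < Q →
  GV Q x ≤ Real.log x * Chebyshev.psi x + x ^ 2 / (Q.totient : ℝ)

/-- A crude bound for `Q/φ(Q)`. -/
def T9 : Prop := ∀ Q : ℕ, 1 ≤ Q → (Q : ℝ) / (Q.totient : ℝ) ≤ 1 + Real.log (Q : ℝ) / Real.log 2

end H37F
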