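import Pool.Agent.Helper37.VFG.Orth
import Pool.Agent.Helper37.VFG.Def2

set_option autoImplicit false

namespace H37F

open Complex

/-- real `L`-series -/
theorem lseries_real {g : ℕ → ℝ} {s : ℝ} (hs : LSeriesSummable (fun n => (g n : ℂ)) (s : ℂ)) :
    LSeries (fun n => (g n : ℂ)) (s : ℂ)
      = ((∑' n : ℕ, if n = 0 then 0 else g n / (n : ℝ) ^ s : ℝ) : ℂ) := by
  have hterm : ∀ n : ℕ, LSeries.term (fun n => (g n : ℂ)) (s : ℂ) n
      = ((if n = 0 then 0 else g n / (n : ℝ) ^ s : ℝ) : ℂ) := by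
    intro n
    rcases eq_or_ne n 0 with rfl | hn
    · simp
    · rw [LSeries.term_of_ne_zero hn, if_neg hn]
      push_cast
      rw [Complex.ofReal_cpow (Nat.cast_nonneg n)]
      simp
  unfold LSeries
  rw [tsum_congr hterm, ← Complex.ofReal_tsum]

/-- one term -/
theorem term_bound {Q : ℕ} [NeZero Q] (hQ : 2 ≤ Q) {η : ℝ} (hη : 0 < η) (a : ZMod Q) (k m : ℕ)
    (hm : (k + 1) * Q ≤ m) :
    ArithmeticFunction.vonMangoldt.residueClass a m / (m : ℝ) ^ (1 + η)
      ≤ (2 / η) * (1 / Q) * ((k + 1 : ℕ) : ℝ) ^ (-(1 + η / 2)) := by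
  have hQ0 : 0 < Q := by omega
  have hQr : (0 : ℝ) < Q := by exact_mod_cast hQ0
  have hm1 : 0 < m := lt_of_lt_of_le (Nat.mul_pos (Nat.succ_pos k) hQ0) hm
  have hmpos : (0 : ℝ) < m := by exact_mod_cast hm1
  have hkpos : (0 : ℝ) < ((k + 1 : ℕ) : ℝ) := by positivity
  have e1 : ArithmeticFunction.vonMangoldt.residueClass a m ≤ Real.log m :=
    (ArithmeticFunction.vonMangoldt.residueClass_le _ _).trans
      ArithmeticFunction.vonMangoldt_le_log
  have e2 : Real.log m ≤ (m : ℝ) ^ (η / 2) / (η / 2) :=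
    Real.log_le_rpow_div hmpos.le (by positivity)
  have e3 : ArithmeticFunction.vonMangoldt.residueClass a m / (m : ℝ) ^ (1 + η)
      ≤ (2 / η) * (m : ℝ) ^ (-(1 + η / 2)) := by
    rw [div_le_iff₀ (Real.rpow_pos_of_pos hmpos _), mul_assoc, ← Real.rpow_add hmpos]
    have : -(1 + η / 2) + (1 + η) = η / 2 := by ring
    rw [this]
    calc _ ≤ (m : ℝ) ^ (η / 2) / (η / 2) := e1.trans e2
      _ = _ := by field_simp
  refine e3.trans ?_
  rw [mul_assoc]
  apply mul_le_mul_of_nonneg_left _ (by positivity)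
  have e4 : ((k + 1 : ℕ) : ℝ) * Q ≤ m := by exact_mod_cast hm
  have e5 : (m : ℝ) ^ (-(1 + η / 2)) ≤ (((k + 1 : ℕ) : ℝ) * Q) ^ (-(1 + η / 2)) :=
    Real.rpow_le_rpow_of_nonpos (by positivity) e4 (by linarith)
  refine e5.trans ?_
  rw [Real.mul_rpow hkpos.le hQr.le, mul_comm]
  apply mul_le_mul_of_nonneg_right _ (Real.rpow_nonneg hkpos.le _)
  have hQ1 : (1 : ℝ) ≤ Q := by exact_mod_cast hQ0
  calc (Q : ℝ) ^ (-(1 + η / 2)) ≤ (Q : ℝ) ^ (-1 : ℝ) :=
        Real.rpow_le_rpow_of_exponent_le hQ1 (by linarith)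
    _ = 1 / Q := by rw [Real.rpow_neg_one, one_div]

/-- The bound for the partial sums over any residue class. -/
theorem class_bound {Q : ℕ} [NeZero Q] (hQ : 2 ≤ Q) {η : ℝ} (hη : 0 < η) (hη1 : η ≤ 1)
    (a : ZMod Q) (ha : a ≠ 0) (N : ℕ) :
    ∑ n ∈ Finset.range N, (if n = 0 then 0 else
      ArithmeticFunction.vonMangoldt.residueClass a n / (n : ℝ) ^ (1 + η))
      ≤ ArithmeticFunction.vonMangoldt a.val / (a.val : ℝ) ^ (1 + η) + 6 / (η ^ 2 * Q) := by
  classical
  have hQ0 : 0 < Q := by omega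
  have hQr : (0 : ℝ) < Q := by exact_mod_cast hQ0
  have haval : a.val ≠ 0 := by
    intro h
    exact ha ((ZMod.val_eq_zero a).mp h)
  set F : ℕ → ℝ := fun n => if n = 0 then 0 else
      ArithmeticFunction.vonMangoldt.residueClass a n / (n : ℝ) ^ (1 + η) with hF
  have hF0 : ∀ n, 0 ≤ F n := by
    intro n
    rw [hF]
    dsimp only
    split_ifs
    · exact le_rfl
    · exact div_nonneg (ArithmeticFunction.vonMangoldt.residueClass_nonneg _ _)
        (Real.rpow_nonneg (Nat.cast_nonneg _) _)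
  have h1 : ∑ n ∈ Finset.range N, F n ≤ ∑ k ∈ Finset.range (N + 1), F (a.val + k * Q) := by
    have hinj : Set.InjOn (fun k : ℕ => a.val + k * Q) (Finset.range (N + 1) : Set ℕ) := by
      intro c _ b _ h
      simp only [add_right_inj] at h
      exact Nat.eq_of_mul_eq_mul_right hQ0 h
    rw [← Finset.sum_image (f := F) (g := fun k : ℕ => a.val + k * Q) hinj]
    have h2 : ∑ n ∈ Finset.range N, F n
        = ∑ n ∈ (Finset.range N).filter (fun n => F n ≠ 0), F n := by
      rw [Finset.sum_filter_ne_zero]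
    rw [h2]
    apply Finset.sum_le_sum_of_subset_of_nonneg
    · intro n hn
      rw [Finset.mem_filter, Finset.mem_range] at hn
      obtain ⟨hnN, hn0⟩ := hn
      have hnz : n ≠ 0 := by
        rintro rfl
        exact hn0 (by simp [hF])
      have hcl : (n : ZMod Q) = a := by
        by_contra hne
        apply hn0
        rw [hF]
        dsimp only
        rw [if_neg hnz, ArithmeticFunction.vonMangoldt.residueClass, Set.indicator_of_notMem, zero_div]
        exact hne
      have hmod : n % Q = a.val := by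
        rw [← hcl, ZMod.val_natCast]
      rw [Finset.mem_image]
      refine ⟨n / Q, ?_, ?_⟩
      · rw [Finset.mem_range]
        have := Nat.div_le_self n Q
        omega
      · have := Nat.mod_add_div n Q
        rw [hmod] at this
        rw [mul_comm]
        exact this
    · intro n _ _
      exact hF0 n
  refine h1.trans ?_
  rw [Finset.sum_range_succ']
  have h3 : F (a.val + 0 * Q) ≤ ArithmeticFunction.vonMangoldt a.val / (a.val : ℝ) ^ (1 + η) := by
    rw [zero_mul, add_zero, hF]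
    dsimp only
    rw [if_neg haval]
    exact div_le_div_of_nonneg_right (ArithmeticFunction.vonMangoldt.residueClass_le _ _)
      (Real.rpow_nonneg (Nat.cast_nonneg _) _)
  have h2 : ∀ k ∈ Finset.range N, F (a.val + (k + 1) * Q)
      ≤ (2 / η) * (1 / Q) * ((k + 1 : ℕ) : ℝ) ^ (-(1 + η / 2)) := by
    intro k _
    rw [hF]
    dsimp only
    rw [if_neg (by omega)]
    exact term_bound hQ hη a k _ (by omega)
  have h4 := Finset.sum_le_sum h2
  rw [← Finset.mul_sum] at h4
  have h5 := zsum' (a := η / 2) (by positivity) N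
  have h6 : (1 : ℝ) + 1 / (η / 2) ≤ 3 / η := by
    have h5 : (1 : ℝ) ≤ 1 / η := by rw [le_div_iff₀ hη]; linarith
    have h6 : (1 : ℝ) / (η / 2) = 2 * (1 / η) := by field_simp
    have h7 : (3 : ℝ) / η = 3 * (1 / η) := by ring
    rw [h6, h7]
    linarith
  have h7 : (2 / η) * (1 / Q) * ∑ k ∈ Finset.range N, ((k + 1 : ℕ) : ℝ) ^ (-(1 + η / 2))
      ≤ (2 / η) * (1 / Q) * (3 / η) :=
        mul_le_mul_of_nonneg_left (h5.trans h6) (by positivity)
  have h8 : (2 / η) * (1 / Q) * (3 / η) = 6 / (η ^ 2 * Q) := by field_simp; norm_num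
  linarith

/-- the sum of the squares over the small representatives -/
theorem sq_bound (N : ℕ) {η : ℝ} (hη : 0 < η) :
    ∑ k ∈ Finset.range N, (ArithmeticFunction.vonMangoldt (k + 1) / ((k + 1 : ℕ) : ℝ) ^ (1 + η)) ^ 2
      ≤ 48 := by
  have h1 : ∀ k ∈ Finset.range N,
      (ArithmeticFunction.vonMangoldt (k + 1) / ((k + 1 : ℕ) : ℝ) ^ (1 + η)) ^ 2
        ≤ 16 * ((k + 1 : ℕ) : ℝ) ^ (-(1 + 1 / 2) : ℝ) := by
    intro k _
    set m : ℕ := k + 1 with hm
    have hm1 : (1 : ℝ) ≤ m := by rw [hm]; push_cast; linarith [Nat.cast_nonneg (α := ℝ) k]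
    have hm0 : (0 : ℝ) < m := by linarith
    have e1 : ArithmeticFunction.vonMangoldt m ≤ (m : ℝ) ^ (1 / 4 : ℝ) / (1 / 4) :=
      ArithmeticFunction.vonMangoldt_le_log.trans (Real.log_le_rpow_div hm0.le (by norm_num))
    have e2 : (m : ℝ) ^ (1 : ℝ) ≤ (m : ℝ) ^ (1 + η) :=
      Real.rpow_le_rpow_of_exponent_le hm1 (by linarith)
    have e3 : ArithmeticFunction.vonMangoldt m / (m : ℝ) ^ (1 + η) ≤ 4 * (m : ℝ) ^ (-(3 / 4) : ℝ) := by
      rw [div_le_iff₀ (Real.rpow_pos_of_pos hm0 _)]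
      calc ArithmeticFunction.vonMangoldt m ≤ (m : ℝ) ^ (1 / 4 : ℝ) / (1 / 4) := e1
        _ = 4 * (m : ℝ) ^ (-(3 / 4) : ℝ) * (m : ℝ) ^ (1 : ℝ) := by
            rw [mul_assoc, ← Real.rpow_add hm0]
            norm_num
            ring
        _ ≤ _ := mul_le_mul_of_nonneg_left e2 (by positivity)
    have e4 : 0 ≤ ArithmeticFunction.vonMangoldt m / (m : ℝ) ^ (1 + η) :=
      div_nonneg ArithmeticFunction.vonMangoldt_nonneg (Real.rpow_nonneg hm0.le _)
    calc (ArithmeticFunction.vonMangoldt m / (m : ℝ) ^ (1 + η)) ^ 2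
        ≤ (4 * (m : ℝ) ^ (-(3 / 4) : ℝ)) ^ 2 := pow_le_pow_left₀ e4 e3 2
      _ = 16 * ((m : ℝ) ^ (-(3 / 4) : ℝ)) ^ (2 : ℕ) := by ring
      _ = 16 * (m : ℝ) ^ (-(1 + 1 / 2) : ℝ) := by
          rw [← Real.rpow_natCast, ← Real.rpow_mul hm0.le]
          norm_num
  refine (Finset.sum_le_sum h1).trans ?_
  rw [← Finset.mul_sum]
  have h2 := zsum' (a := 1 / 2) (by norm_num) N
  have h3 : (1 : ℝ) + 1 / (1 / 2) = 3 := by norm_num
  rw [h3] at h2
  linarith

theorem ms_avg : T6 := by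
  classical
  refine ⟨168, by norm_num, 2, ?_⟩
  intro Q _ hQ η hηQ hη1
  have hQ0 : 0 < Q := by omega
  have hQr : (0 : ℝ) < Q := by exact_mod_cast hQ0
  have hQ1 : (1 : ℝ) ≤ Q := by exact_mod_cast hQ0
  have hphi : (0 : ℝ) < Q.totient := by exact_mod_cast Nat.totient_pos.mpr hQ0
  have hη : 0 < η := lt_of_lt_of_le (Real.rpow_pos_of_pos hQr _) hηQ
  have hs : 1 < ((1 + η : ℝ) : ℂ).re := by
    rw [Complex.ofReal_re]; linarith
  set R : Finset (ZMod Q) := Finset.univ.filter (fun a => IsUnit a) with hRdef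
  have hRu : ∀ a ∈ R, IsUnit a := fun a ha => (Finset.mem_filter.mp ha).2
  have hsum : ∀ a : ZMod Q, LSeriesSummable
      (fun n => (ArithmeticFunction.vonMangoldt.residueClass a n : ℂ)) ((1 + η : ℝ) : ℂ) := by
    intro a
    apply LSeriesSummable_of_abscissaOfAbsConv_lt_re
    refine lt_of_le_of_lt
      (ArithmeticFunction.vonMangoldt.abscissaOfAbsConv_residueClass_le_one _) ?_
    exact_mod_cast hs
  set S : ZMod Q → ℝ := fun a => ∑' n : ℕ, if n = 0 then 0 else
    ArithmeticFunction.vonMangoldt.residueClass a n / (n : ℝ) ^ (1 + η) with hS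
  have hSL : ∀ a : ZMod Q, LSeries
      (fun n => (ArithmeticFunction.vonMangoldt.residueClass a n : ℂ)) ((1 + η : ℝ) : ℂ)
        = (S a : ℂ) := fun a => lseries_real (hsum a)
  -- the logarithmic derivative
  have hlog : ∀ χ : DirichletCharacter ℂ Q,
      ‖logDeriv (DirichletCharacter.LFunction χ) ((1 + η : ℝ) : ℂ)‖
        = ‖∑ a ∈ R, χ a * (S a : ℂ)‖ := by
    intro χ
    have h := DirichletCharacter.LSeries_twist_vonMangoldt_eq χ hs
    have h1 : logDeriv (DirichletCharacter.LFunction χ)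
        ((1 + η : ℝ) : ℂ) = - LSeries ((fun n : ℕ => χ n) *
          (fun n => (ArithmeticFunction.vonMangoldt n : ℂ))) ((1 + η : ℝ) : ℂ) := by
      rw [h, logDeriv_apply, DirichletCharacter.deriv_LFunction_eq_deriv_LSeries _ hs,
        DirichletCharacter.LFunction_eq_LSeries _ hs]
      ring
    have hfun : ((fun n : ℕ => χ n) * (fun n => (ArithmeticFunction.vonMangoldt n : ℂ)))
        = ∑ a ∈ R, (χ a) • (fun n : ℕ => (ArithmeticFunction.vonMangoldt.residueClass a n : ℂ)) := by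
      funext n
      rw [Finset.sum_apply]
      simp only [Pi.mul_apply, Pi.smul_apply, smul_eq_mul]
      have hval : ∀ a ∈ R, χ a * (ArithmeticFunction.vonMangoldt.residueClass a n : ℂ)
          = if (n : ZMod Q) = a then χ (n : ZMod Q) * (ArithmeticFunction.vonMangoldt n : ℂ)
            else 0 := by
        intro a _
        by_cases hna : (n : ZMod Q) = a
        · rw [if_pos hna, ArithmeticFunction.vonMangoldt.residueClass, Set.indicator_of_mem, hna]
          exact hna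
        · rw [if_neg hna, ArithmeticFunction.vonMangoldt.residueClass, Set.indicator_of_notMem]
          · simp
          · exact hna
      rw [Finset.sum_congr rfl hval, Finset.sum_ite_eq]
      by_cases hu : (n : ZMod Q) ∈ R
      · rw [if_pos hu]
      · rw [if_neg hu, MulChar.map_nonunit, zero_mul]
        intro h2
        exact hu (Finset.mem_filter.mpr ⟨Finset.mem_univ _, h2⟩)
    rw [h1, norm_neg, hfun, LSeries_sum (fun a _ => (hsum a).smul _)]
    congr 1
    refine Finset.sum_congr rfl fun a _ => ?_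
    rw [LSeries_smul, hSL]
  -- Parseval
  have hpars := parseval_aux R hRu S
  have h1 : ∑ χ ∈ (Finset.univ : Finset (DirichletCharacter ℂ Q)).erase 1,
      ‖logDeriv (DirichletCharacter.LFunction χ) ((1 + η : ℝ) : ℂ)‖ ^ 2
        ≤ (Q.totient : ℝ) * ∑ a ∈ R, S a ^ 2 := by
    rw [← hpars]
    calc _ = ∑ χ ∈ (Finset.univ : Finset (DirichletCharacter ℂ Q)).erase 1,
          ‖∑ a ∈ R, χ a * (S a : ℂ)‖ ^ 2 :=
          Finset.sum_congr rfl fun χ _ => by rw [hlog χ]
      _ ≤ _ := by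
          apply Finset.sum_le_sum_of_subset_of_nonneg (Finset.erase_subset _ _)
          intro χ _ _
          positivity
  refine h1.trans ?_
  rw [mul_comm]
  apply mul_le_mul_of_nonneg_right _ hphi.le
  -- the sum of the squares
  have hne0 : ∀ a ∈ R, a ≠ 0 := by
    rintro a ha rfl
    have := hRu 0 ha
    rw [isUnit_zero_iff] at this
    have h2 : ((1 : ℕ) : ZMod Q) = 0 := by rw [Nat.cast_one]; exact this.symm
    rw [ZMod.natCast_eq_zero_iff] at h2
    have := Nat.le_of_dvd one_pos h2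
    omega
  have hS0 : ∀ a, 0 ≤ S a := by
    intro a
    apply tsum_nonneg
    intro n
    split_ifs
    · exact le_rfl
    · exact div_nonneg (ArithmeticFunction.vonMangoldt.residueClass_nonneg _ _)
        (Real.rpow_nonneg (Nat.cast_nonneg _) _)
  have hSle : ∀ a ∈ R, S a ≤
      ArithmeticFunction.vonMangoldt a.val / (a.val : ℝ) ^ (1 + η) + 6 / (η ^ 2 * Q) := by
    intro a ha
    apply Real.tsum_le_of_sum_range_le
    · intro n
      split_ifs
      · exact le_rfl
      · exact div_nonneg (ArithmeticFunction.vonMangoldt.residueClass_nonneg _ _)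
          (Real.rpow_nonneg (Nat.cast_nonneg _) _)
    · intro N
      exact class_bound hQ hη hη1 a (hne0 a ha) N
  have hsq : ∀ a ∈ R, S a ^ 2 ≤
      2 * (ArithmeticFunction.vonMangoldt a.val / (a.val : ℝ) ^ (1 + η)) ^ 2
        + 2 * (6 / (η ^ 2 * Q)) ^ 2 := by
    intro a ha
    have h2 := pow_le_pow_left₀ (hS0 a) (hSle a ha) 2
    nlinarith [sq_nonneg (ArithmeticFunction.vonMangoldt a.val / (a.val : ℝ) ^ (1 + η)
      - 6 / (η ^ 2 * Q))]
  refine (Finset.sum_le_sum hsq).trans ?_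
  rw [Finset.sum_add_distrib, ← Finset.mul_sum, Finset.sum_const, nsmul_eq_mul]
  have hA : ∑ a ∈ R, (ArithmeticFunction.vonMangoldt a.val / (a.val : ℝ) ^ (1 + η)) ^ 2 ≤ 48 := by
    refine le_trans ?_ (sq_bound Q hη)
    have hinj : Set.InjOn (fun a : ZMod Q => a.val - 1) (R : Set (ZMod Q)) := by
      intro a ha b hb h
      have ha1 := hne0 a ha
      have hb1 := hne0 b hb
      have ha2 : a.val ≠ 0 := fun h => ha1 ((ZMod.val_eq_zero a).mp h)
      have hb2 : b.val ≠ 0 := fun h => hb1 ((ZMod.val_eq_zero b).mp h)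
      simp only at h
      apply ZMod.val_injective Q
      omega
    have h3 : ∀ a ∈ R, (ArithmeticFunction.vonMangoldt a.val / (a.val : ℝ) ^ (1 + η)) ^ 2
        = (ArithmeticFunction.vonMangoldt ((a.val - 1) + 1) /
            (((a.val - 1) + 1 : ℕ) : ℝ) ^ (1 + η)) ^ 2 := by
      intro a ha
      have ha2 : a.val ≠ 0 := fun h => hne0 a ha ((ZMod.val_eq_zero a).mp h)
      rw [Nat.sub_add_cancel (Nat.one_le_iff_ne_zero.mpr ha2)]
    rw [Finset.sum_congr rfl h3, ← Finset.sum_image (g := fun a : ZMod Q => a.val - 1)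
      (f := fun k : ℕ => (ArithmeticFunction.vonMangoldt (k + 1) /
        ((k + 1 : ℕ) : ℝ) ^ (1 + η)) ^ 2) hinj]
    apply Finset.sum_le_sum_of_subset_of_nonneg
    · intro k hk
      rw [Finset.mem_image] at hk
      obtain ⟨a, _, rfl⟩ := hk
      rw [Finset.mem_range]
      have := ZMod.val_lt a
      omega
    · intro k _ _
      positivity
  have hB : (R.card : ℝ) * (2 * (6 / (η ^ 2 * Q)) ^ 2) ≤ 72 := by
    have hRc : (R.card : ℝ) ≤ Q := by
      have : R.card ≤ Q := by
        refine (Finset.card_le_univ R).trans (le_of_eq ?_)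
        rw [ZMod.card]
      exact_mod_cast this
    have h4 : (Q : ℝ) ^ (-(1 / 2) : ℝ) ≤ η ^ 4 := by
      have h5 := pow_le_pow_left₀ (Real.rpow_nonneg hQr.le _) hηQ 4
      rw [← Real.rpow_natCast, ← Real.rpow_mul hQr.le] at h5
      norm_num at h5
      norm_num
      exact h5
    have h6 : (1 : ℝ) ≤ η ^ 4 * Q := by
      have h7 : (Q : ℝ) ^ (-(1 / 2) : ℝ) * Q ≤ η ^ 4 * Q := mul_le_mul_of_nonneg_right h4 hQr.le
      have h8 : (Q : ℝ) ^ (-(1 / 2) : ℝ) * Q = (Q : ℝ) ^ (1 / 2 : ℝ) := by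
        nth_rewrite 2 [← Real.rpow_one (Q : ℝ)]
        rw [← Real.rpow_add hQr]
        norm_num
      rw [h8] at h7
      exact (Real.one_le_rpow hQ1 (by norm_num)).trans h7
    have h9 : (2 : ℝ) * (6 / (η ^ 2 * Q)) ^ 2 = 72 / (η ^ 4 * Q * Q) := by
      field_simp
      norm_num
    rw [h9, ← mul_div_assoc, div_le_iff₀ (by positivity)]
    have h10 : (Q : ℝ) ≤ η ^ 4 * Q * Q := by nlinarith
    nlinarith
  linarith

end H37F
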