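import Pool.Graph.R_seed8.H370R2.Digamma

/-! The logarithmic derivative of the Gamma factors. -/

set_option autoImplicit false

open MeasureTheory Filter Topology Set Complex

namespace Pool.Agent.Helper37.VFG

noncomputable section

lemma logDeriv_Gammaℝ {s : ℂ} (hs : 0 < s.re) :
    logDeriv Gammaℝ s = -(Real.log Real.pi : ℂ) / 2 + logDeriv Gamma (s / 2) / 2 := by
  have hpi : (Real.pi : ℂ) ≠ 0 := by exact_mod_cast Real.pi_ne_zero
  have hs2 : 0 < (s / 2).re := by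
    have : (s / 2).re = s.re / 2 := by simp
    rw [this]; linarith
  have hG : Gamma (s / 2) ≠ 0 := Complex.Gamma_ne_zero_of_re_pos hs2
  have hdG : DifferentiableAt ℂ Gamma (s / 2) := by
    apply Complex.differentiableAt_Gamma
    intro m h
    rw [h] at hs2
    simp at hs2
    have : (0:ℝ) ≤ m := Nat.cast_nonneg m
    linarith
  have h1 : HasDerivAt (fun s : ℂ => (Real.pi : ℂ) ^ (-s / 2)) ((Real.pi : ℂ) ^ (-s / 2) * Complex.log Real.pi * (-1 / 2)) s := by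
    have h := (((hasDerivAt_id s).neg).div_const 2).const_cpow (c := (Real.pi : ℂ)) (Or.inl hpi)
    simpa using h
  have h2 : HasDerivAt (fun s : ℂ => Gamma (s / 2)) (deriv Gamma (s / 2) * (1 / 2)) s := by
    have h := (hdG.hasDerivAt).comp s ((hasDerivAt_id s).div_const 2)
    simpa [Function.comp_def] using h
  have h3 : HasDerivAt Gammaℝ ((Real.pi : ℂ) ^ (-s / 2) * Complex.log Real.pi * (-1 / 2) * Gamma (s / 2) +
      (Real.pi : ℂ) ^ (-s / 2) * (deriv Gamma (s / 2) * (1 / 2))) s := by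
    have h := h1.mul h2
    have e : Gammaℝ = (fun s : ℂ => (Real.pi : ℂ) ^ (-s / 2)) * fun s : ℂ => Gamma (s / 2) := by
      ext z; simp [Gammaℝ_def]
    rw [e]
    exact h
  have hp : (Real.pi : ℂ) ^ (-s / 2) ≠ 0 := by
    rw [Ne, cpow_eq_zero_iff]; exact fun h => hpi h.1
  rw [logDeriv_apply, h3.deriv, logDeriv_apply, Gammaℝ_def, Complex.ofReal_log Real.pi_pos.le]
  field_simp

/-- the constant -/
def cG : ℝ := ∑' n : ℕ, 1 / ((n : ℝ) + 1) ^ 2

lemma cG_nonneg : 0 ≤ cG := tsum_nonneg fun n => by positivity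

lemma re_inv_nonneg {z : ℂ} (hz : 0 < z.re) : 0 ≤ (1 / z).re := by
  rw [one_div, Complex.inv_re]
  have : 0 ≤ Complex.normSq z := Complex.normSq_nonneg z
  positivity

lemma log_le_pow {x : ℝ} (hx : 1 ≤ x) : Real.log x ≤ 8 * x ^ (1 / 8 : ℝ) := by
  have := Real.log_le_rpow_div (x := x) (by linarith) (ε := 1 / 8) (by norm_num)
  linarith [this]

/-- upper bound for the Gamma factor -/
theorem gam_up : ∃ C : ℝ, 0 < C ∧ ∀ s : ℂ, 0 < s.re → s.re ≤ 4 →
    (logDeriv Gammaℝ s).re ≤ C * (1 + s.im ^ 2) ^ (1 / 8 : ℝ) := by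
  refine ⟨4 + Real.log 8 + cG, by have := cG_nonneg; have := Real.log_nonneg (show (1:ℝ) ≤ 8 by norm_num); linarith, ?_⟩
  intro s hs hs4
  have hs2 : 0 < (s / 2).re := by
    have : (s / 2).re = s.re / 2 := by simp
    rw [this]; linarith
  set y := 1 + s.im ^ 2 with hy
  have hy1 : 1 ≤ y := by rw [hy]; nlinarith [sq_nonneg s.im]
  have hyp : 1 ≤ y ^ (1 / 8 : ℝ) := Real.one_le_rpow hy1 (by norm_num)
  rw [logDeriv_Gammaℝ hs, H370.DG.logDeriv_Gamma' hs2]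
  have h1 : (Complex.log (s / 2 + 2)).re ≤ Real.log 8 + 4 * y ^ (1 / 8 : ℝ) := by
    rw [Complex.log_re]
    have h2 : ‖s / 2 + 2‖ ≤ 8 * Real.sqrt y := by
      have h3 : ‖s‖ ≤ |s.re| + |s.im| := Complex.norm_le_abs_re_add_abs_im s
      have h4 : ‖s / 2 + 2‖ ≤ ‖s‖ / 2 + 2 := by
        refine (norm_add_le _ _).trans ?_
        simp
      have h5 : |s.re| = s.re := abs_of_pos hs
      have h6 : |s.im| ≤ Real.sqrt y := by
        rw [← Real.sqrt_sq_eq_abs]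
        exact Real.sqrt_le_sqrt (by rw [hy]; linarith)
      have h7 : 1 ≤ Real.sqrt y := by rw [Real.one_le_sqrt]; exact hy1
      linarith
    have h8 : 0 < ‖s / 2 + 2‖ := by
      have : 0 < (s / 2 + 2).re := by rw [add_re]; norm_num; linarith
      exact norm_pos_iff.2 (by rintro h; rw [h] at this; simp at this)
    calc Real.log ‖s / 2 + 2‖ ≤ Real.log (8 * Real.sqrt y) := Real.log_le_log h8 h2
      _ = Real.log 8 + Real.log y / 2 := by
          rw [Real.log_mul (by norm_num) (by positivity), Real.log_sqrt (by linarith)]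
      _ ≤ _ := by have := log_le_pow hy1; linarith
  have h2 := re_inv_nonneg hs2
  have h3 : 0 ≤ (1 / (s / 2 + 1)).re := re_inv_nonneg (by rw [add_re]; norm_num; linarith)
  have h4 : (∑' n, H370.DG.er n (s / 2)).re ≤ cG :=
    (Complex.re_le_norm _).trans (H370.DG.norm_tsum_er hs2)
  have h5 : 0 ≤ Real.log Real.pi := Real.log_nonneg (by linarith [Real.pi_gt_three])
  have e : (-(Real.log Real.pi : ℂ) / 2 + (Complex.log (s / 2 + 2) - 1 / (s / 2) - 1 / (s / 2 + 1) +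
      ∑' n, H370.DG.er n (s / 2)) / 2).re = -Real.log Real.pi / 2 + ((Complex.log (s / 2 + 2)).re - (1 / (s / 2)).re -
      (1 / (s / 2 + 1)).re + (∑' n, H370.DG.er n (s / 2)).re) / 2 := by
    have e1 : ∀ z : ℂ, (z / 2).re = z.re / 2 := fun z => by simp
    rw [add_re, e1, e1, neg_re, ofReal_re, add_re, sub_re, sub_re]
  rw [e]
  have h6 : 0 ≤ Real.log 8 := Real.log_nonneg (by norm_num)
  have h7 := cG_nonneg
  nlinarith

lemma weight_int : Integrable (fun t : ℝ => ((1 + t ^ 2) ^ (1 / 8 : ℝ)) ^ 2 * (1 / (1 + t ^ 2))) := by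
  have h := integrable_rpow_neg_one_add_norm_sq (E := ℝ) (μ := volume) (r := 3 / 2) (by simp; norm_num)
  refine h.congr (Eventually.of_forall fun t => ?_)
  have hp : (0:ℝ) < 1 + t ^ 2 := by positivity
  simp only [Real.norm_eq_abs, sq_abs]
  have e1 : ((1 + t ^ 2) ^ (1 / 8 : ℝ)) ^ 2 = (1 + t ^ 2) ^ (1 / 4 : ℝ) := by
    rw [← Real.rpow_natCast ((1 + t ^ 2) ^ (1 / 8 : ℝ)) 2, ← Real.rpow_mul hp.le]
    norm_num
  rw [e1, one_div (1 + t ^ 2), ← Real.rpow_neg_one (1 + t ^ 2), ← Real.rpow_add hp]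
  norm_num

lemma weight_int' {a K : ℝ} (ha : 1 / 2 ≤ a) :
    Integrable (fun t : ℝ => (K * (1 + t ^ 2) ^ (1 / 8 : ℝ)) ^ 2 * (1 / (a ^ 2 + t ^ 2))) ∧
    ∫ t : ℝ, (K * (1 + t ^ 2) ^ (1 / 8 : ℝ)) ^ 2 * (1 / (a ^ 2 + t ^ 2)) ≤
      4 * K ^ 2 * ∫ t : ℝ, ((1 + t ^ 2) ^ (1 / 8 : ℝ)) ^ 2 * (1 / (1 + t ^ 2)) := by
  have hb : ∀ t : ℝ, (K * (1 + t ^ 2) ^ (1 / 8 : ℝ)) ^ 2 * (1 / (a ^ 2 + t ^ 2)) ≤
      4 * K ^ 2 * (((1 + t ^ 2) ^ (1 / 8 : ℝ)) ^ 2 * (1 / (1 + t ^ 2))) := by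
    intro t
    have h1 : 1 / (a ^ 2 + t ^ 2) ≤ 4 * (1 / (1 + t ^ 2)) := by
      rw [mul_one_div, div_le_div_iff₀ (by positivity) (by positivity)]
      nlinarith [sq_nonneg t, mul_nonneg (sub_nonneg.2 ha) (by linarith : 0 ≤ a + 1 / 2)]
    calc (K * (1 + t ^ 2) ^ (1 / 8 : ℝ)) ^ 2 * (1 / (a ^ 2 + t ^ 2)) ≤
        (K * (1 + t ^ 2) ^ (1 / 8 : ℝ)) ^ 2 * (4 * (1 / (1 + t ^ 2))) := mul_le_mul_of_nonneg_left h1 (sq_nonneg _)
      _ = _ := by ring
  have hi : Integrable (fun t : ℝ => (K * (1 + t ^ 2) ^ (1 / 8 : ℝ)) ^ 2 * (1 / (a ^ 2 + t ^ 2))) := by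
    refine (weight_int.const_mul (4 * K ^ 2)).mono' ?_ (Eventually.of_forall fun t => ?_)
    · have : Measurable (fun t : ℝ => (K * (1 + t ^ 2) ^ (1 / 8 : ℝ)) ^ 2 * (1 / (a ^ 2 + t ^ 2))) := by fun_prop
      exact this.aestronglyMeasurable
    · rw [Real.norm_of_nonneg (by positivity)]
      exact hb t
  refine ⟨hi, ?_⟩
  rw [← integral_const_mul]
  exact integral_mono hi (weight_int.const_mul _) hb

lemma Gammaℝ_an {s : ℂ} (hs : 0 < s.re) : AnalyticAt ℂ Gammaℝ s := by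
  have h1 : AnalyticAt ℂ (fun s => (Gammaℝ s)⁻¹) s := differentiable_Gammaℝ_inv.analyticAt s
  have h2 := h1.inv (inv_ne_zero (Gammaℝ_ne_zero_of_re_pos hs))
  have e : (fun s => (Gammaℝ s)⁻¹)⁻¹ = Gammaℝ := by
    ext z; simp
  rwa [e] at h2

/-- the Gamma factor at real points -/
def gr (x : ℝ) : ℝ := (logDeriv Gammaℝ (x : ℂ)).re

lemma gr_cont {x : ℝ} (hx : 0 < x) : ContinuousAt gr x := by
  have hx' : 0 < ((x : ℝ) : ℂ).re := by simpa using hx
  have h1 : ContinuousAt (logDeriv Gammaℝ) ((x : ℝ) : ℂ) := by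
    have ha := Gammaℝ_an hx'
    exact (ha.deriv.continuousAt).div ha.continuousAt (Gammaℝ_ne_zero_of_re_pos hx')
  exact Complex.continuous_re.continuousAt.comp (ContinuousAt.comp (f := fun x : ℝ => (x : ℂ)) (x := x) h1
    Complex.continuous_ofReal.continuousAt)

lemma gr_bound : ∃ C : ℝ, 0 < C ∧ ∀ x : ℝ, 1 ≤ x → x ≤ 4 → |gr x| ≤ C := by
  have hc : ContinuousOn gr (Icc 1 4) := fun x hx => (gr_cont (by linarith [hx.1])).continuousWithinAt
  obtain ⟨C, hC⟩ := isCompact_Icc.exists_bound_of_continuousOn hc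
  exact ⟨|C| + 1, by positivity, fun x h1 h2 => by
    have := hC x ⟨h1, h2⟩
    rw [Real.norm_eq_abs] at this
    have := le_abs_self C
    linarith⟩

lemma gr_sum : gr 1 + gr 2 = -(Real.eulerMascheroniConstant + Real.log (2 * Real.pi)) := by
  have h1 : AnalyticAt ℂ Gammaℝ 1 := Gammaℝ_an (by simp)
  have h2 : AnalyticAt ℂ Gammaℝ 2 := Gammaℝ_an (by simp)
  have n1 : Gammaℝ 1 ≠ 0 := Gammaℝ_ne_zero_of_re_pos (by simp)
  have n2 : Gammaℝ 2 ≠ 0 := Gammaℝ_ne_zero_of_re_pos (by simp)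
  have d2 : HasDerivAt (fun s : ℂ => Gammaℝ (s + 1)) (deriv Gammaℝ 2) 1 := by
    have h3 : HasDerivAt Gammaℝ (deriv Gammaℝ 2) ((1:ℂ) + 1) := by
      rw [one_add_one_eq_two]; exact h2.differentiableAt.hasDerivAt
    have h4 : HasDerivAt (fun s : ℂ => s + 1) 1 1 := (hasDerivAt_id (1:ℂ)).add_const 1
    have h := HasDerivAt.comp (h₂ := Gammaℝ) (h := fun s : ℂ => s + 1) (1:ℂ) h3 h4
    simpa [Function.comp_def] using h
  have d := (h1.differentiableAt.hasDerivAt).mul d2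
  have e : (Gammaℝ * fun s : ℂ => Gammaℝ (s + 1)) = Gammaℂ := by
    ext s
    exact Gammaℝ_mul_Gammaℝ_add_one s
  rw [e] at d
  have d' := Complex.hasDerivAt_Gammaℂ_one
  have e2 := d.unique d'
  have e3 : Gammaℝ 1 * Gammaℝ 2 = 1 / (Real.pi : ℂ) := by
    have := Gammaℝ_mul_Gammaℝ_add_one 1
    rw [one_add_one_eq_two] at this
    rw [this, Gammaℂ_def, cpow_neg_one, Complex.Gamma_one]
    have : (Real.pi : ℂ) ≠ 0 := by exact_mod_cast Real.pi_ne_zero
    field_simp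
  rw [one_add_one_eq_two] at e2
  have hpi : (Real.pi : ℂ) ≠ 0 := by exact_mod_cast Real.pi_ne_zero
  have e4 : logDeriv Gammaℝ 1 + logDeriv Gammaℝ 2 = -((Real.eulerMascheroniConstant : ℂ) + Complex.log (2 * Real.pi)) := by
    rw [logDeriv_apply, logDeriv_apply, div_add_div _ _ n1 n2, e3, e2]
    field_simp
  have e5 : gr 1 + gr 2 = (logDeriv Gammaℝ 1 + logDeriv Gammaℝ 2).re := by
    unfold gr; simp
  rw [e5, e4]
  have e6 : Complex.log (2 * Real.pi) = ((Real.log (2 * Real.pi) : ℝ) : ℂ) := by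
    rw [Complex.ofReal_log (by positivity)]; push_cast; rfl
  rw [e6, ← ofReal_add, ← ofReal_neg, ofReal_re]

end

end Pool.Agent.Helper37.VFG
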