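import Pool.Agent.Helper37.VFG.PSum
import Pool.Agent.Helper37.VFG.Gam

/-! The mean square of `P - b` from below, with the square of the main term of `b` kept. -/

set_option autoImplicit false

open MeasureTheory Filter Topology Set Complex

namespace Pool.Agent.Helper37.VFG

noncomputable section

variable {ι : Type*} {u : ι → ℂ} {m : ι → ℝ} {P : ℂ → ℝ} {δ₀ : ℝ}

theorem PS.lower2 (h : PS u m P δ₀) {δ a : ℝ} (hδ : δ₀ < δ) (ha : 1 / 2 ≤ a)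
    {R β L : ℝ → ℝ} {b₁ e₀ C1 C2 θ : ℝ} (hR : ∀ t : ℝ, R t = P (δ + t * I) - (b₁ + β t)) (hb₁ : 0 ≤ b₁)
    (hβ : ∀ t, |β t| ≤ e₀ + L t) (hθ : 0 < θ) (hθ1 : θ ≤ 1)
    (hRi : Integrable (fun t => R t ^ 2 * (1 / (a ^ 2 + t ^ 2))))
    (hLi : Integrable (fun t => L t ^ 2 * (1 / (a ^ 2 + t ^ 2))))
    (hL : ∫ t, L t ^ 2 * (1 / (a ^ 2 + t ^ 2)) ≤ C2)
    (hLi1 : Integrable (fun t => L t * (1 / (a ^ 2 + t ^ 2))))
    (hL1 : ∫ t, L t * (1 / (a ^ 2 + t ^ 2)) ≤ C1) :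
    (Real.pi / a) * (((1 - θ) * (1 / (2 * δ) - 1) - 2 * (b₁ + e₀)) * P (δ + a) + b₁ ^ 2 - 2 * b₁ * e₀) -
      C2 / θ - 2 * b₁ * C1 ≤ ∫ t, R t ^ 2 * (1 / (a ^ 2 + t ^ 2)) := by
  have ha0 : 0 < a := by linarith
  have hre : ∀ t : ℝ, δ₀ < ((δ : ℂ) + t * I).re := fun t => by rw [line_re]; exact hδ
  have hre2 : δ₀ < ((δ : ℂ) + a).re := by simp; linarith
  have hω : ∀ t : ℝ, 0 < 1 / (a ^ 2 + t ^ 2) := fun t => by positivity
  obtain ⟨hPi, hP⟩ := h.int hδ ha0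
  obtain ⟨hωi, hωv⟩ := om_int ha0
  have hk := fun i => KK_sq (u := u i) (δ := δ) (a := a) ((h.strip i).trans_lt hδ) ha
  have key : ∀ S : Finset ι, ∑ i ∈ S, ((1 - θ) * (1 / (2 * δ) - 1) * (Real.pi / a)) * (m i * KK (u i) (δ + a)) ≤
      (∫ t, R t ^ 2 * (1 / (a ^ 2 + t ^ 2))) + 2 * (b₁ + e₀) * ((Real.pi / a) * P (δ + a)) + C2 / θ +
        2 * b₁ * C1 - (b₁ ^ 2 - 2 * b₁ * e₀) * (Real.pi / a) := by
    intro S
    have hSi : Integrable (fun t : ℝ => (1 - θ) * ∑ i ∈ S, m i * (KK (u i) (δ + t * I) ^ 2 * (1 / (a ^ 2 + t ^ 2)))) :=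
      (integrable_finsetSum S fun i _ => (hk i).1.const_mul (m i)).const_mul _
    have hA1 : Integrable (fun t : ℝ => R t ^ 2 * (1 / (a ^ 2 + t ^ 2)) + 2 * (b₁ + e₀) * (P (δ + t * I) * (1 / (a ^ 2 + t ^ 2)))) :=
      hRi.add (hPi.const_mul _)
    have hA2 : Integrable (fun t : ℝ => (R t ^ 2 * (1 / (a ^ 2 + t ^ 2)) + 2 * (b₁ + e₀) * (P (δ + t * I) * (1 / (a ^ 2 + t ^ 2)))) +
        (1 / θ) * (L t ^ 2 * (1 / (a ^ 2 + t ^ 2)))) := hA1.add (hLi.const_mul _)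
    have hA3 : Integrable (fun t : ℝ => ((R t ^ 2 * (1 / (a ^ 2 + t ^ 2)) + 2 * (b₁ + e₀) * (P (δ + t * I) * (1 / (a ^ 2 + t ^ 2)))) +
        (1 / θ) * (L t ^ 2 * (1 / (a ^ 2 + t ^ 2)))) + 2 * b₁ * (L t * (1 / (a ^ 2 + t ^ 2)))) := hA2.add (hLi1.const_mul _)
    have hTi : Integrable (fun t : ℝ => (((R t ^ 2 * (1 / (a ^ 2 + t ^ 2)) + 2 * (b₁ + e₀) * (P (δ + t * I) * (1 / (a ^ 2 + t ^ 2)))) +
        (1 / θ) * (L t ^ 2 * (1 / (a ^ 2 + t ^ 2)))) + 2 * b₁ * (L t * (1 / (a ^ 2 + t ^ 2)))) -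
        (b₁ ^ 2 - 2 * b₁ * e₀) * (1 / (a ^ 2 + t ^ 2))) := hA3.sub (hωi.const_mul _)
    have hpt : ∀ t : ℝ, (1 - θ) * ∑ i ∈ S, m i * (KK (u i) (δ + t * I) ^ 2 * (1 / (a ^ 2 + t ^ 2))) ≤
        (((R t ^ 2 * (1 / (a ^ 2 + t ^ 2)) + 2 * (b₁ + e₀) * (P (δ + t * I) * (1 / (a ^ 2 + t ^ 2)))) +
        (1 / θ) * (L t ^ 2 * (1 / (a ^ 2 + t ^ 2)))) + 2 * b₁ * (L t * (1 / (a ^ 2 + t ^ 2)))) -
        (b₁ ^ 2 - 2 * b₁ * e₀) * (1 / (a ^ 2 + t ^ 2)) := by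
      intro t
      have h1 := h.sq_ge (hre t) S
      have h2 := h.nonneg (hre t)
      set p := P (δ + t * I)
      set w := 1 / (a ^ 2 + t ^ 2) with hw
      have hw0 : 0 < w := hω t
      have e1 : ∑ i ∈ S, m i * (KK (u i) (δ + t * I) ^ 2 * w) = (∑ i ∈ S, m i * KK (u i) (δ + t * I) ^ 2) * w := by
        rw [Finset.sum_mul]
        exact Finset.sum_congr rfl fun i _ => by ring
      rw [e1, hR t]
      have h3 : (1 - θ) * (∑ i ∈ S, m i * KK (u i) (δ + t * I) ^ 2) ≤ (1 - θ) * p ^ 2 :=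
        mul_le_mul_of_nonneg_left h1 (by linarith)
      have h4 : 2 * (L t) * p ≤ θ * p ^ 2 + (1 / θ) * L t ^ 2 := by
        have h5 : 0 ≤ (θ * p - L t) ^ 2 / θ := by positivity
        have h6 : (θ * p - L t) ^ 2 / θ = θ * p ^ 2 - 2 * L t * p + (1 / θ) * L t ^ 2 := by
          field_simp
          ring
        linarith
      have hb := abs_le.1 (hβ t)
      have h7 : (1 - θ) * p ^ 2 ≤ (p - (b₁ + β t)) ^ 2 + 2 * (b₁ + e₀) * p + (1 / θ) * L t ^ 2 +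
          2 * b₁ * L t - (b₁ ^ 2 - 2 * b₁ * e₀) := by
        have h8 : β t * p ≤ (e₀ + L t) * p := mul_le_mul_of_nonneg_right hb.2 h2
        have h9 : b₁ * (-(e₀ + L t)) ≤ b₁ * β t := mul_le_mul_of_nonneg_left hb.1 hb₁
        nlinarith [sq_nonneg (β t)]
      have h9 : (1 - θ) * (∑ i ∈ S, m i * KK (u i) (δ + t * I) ^ 2) * w ≤
          ((p - (b₁ + β t)) ^ 2 + 2 * (b₁ + e₀) * p + (1 / θ) * L t ^ 2 + 2 * b₁ * L t - (b₁ ^ 2 - 2 * b₁ * e₀)) * w :=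
        mul_le_mul_of_nonneg_right (h3.trans h7) hw0.le
      nlinarith
    have hI := integral_mono hSi hTi hpt
    rw [integral_sub hA3 (hωi.const_mul _), integral_add hA2 (hLi1.const_mul _), integral_add hA1 (hLi.const_mul _),
      integral_add hRi (hPi.const_mul _), integral_const_mul, integral_const_mul, integral_const_mul, integral_const_mul,
      integral_const_mul, hP, hωv, integral_finsetSum S fun i _ => (hk i).1.const_mul (m i)] at hI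
    have h10 : (1 / θ) * ∫ t, L t ^ 2 * (1 / (a ^ 2 + t ^ 2)) ≤ C2 / θ := by
      rw [one_div, inv_mul_eq_div]
      exact div_le_div_of_nonneg_right hL hθ.le
    have h10' : 2 * b₁ * ∫ t, L t * (1 / (a ^ 2 + t ^ 2)) ≤ 2 * b₁ * C1 :=
      mul_le_mul_of_nonneg_left hL1 (by positivity)
    have h11 : ∑ i ∈ S, ((1 - θ) * (1 / (2 * δ) - 1) * (Real.pi / a)) * (m i * KK (u i) (δ + a)) ≤
        (1 - θ) * ∑ i ∈ S, ∫ t : ℝ, m i * (KK (u i) (δ + t * I) ^ 2 * (1 / (a ^ 2 + t ^ 2))) := by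
      rw [Finset.mul_sum]
      refine Finset.sum_le_sum fun i _ => ?_
      rw [integral_const_mul]
      have h12 := (hk i).2
      have h13 : 0 ≤ (1 - θ) * m i := mul_nonneg (by linarith) (by have := h.one i; linarith)
      calc (1 - θ) * (1 / (2 * δ) - 1) * (Real.pi / a) * (m i * KK (u i) (δ + a)) =
          ((1 - θ) * m i) * ((1 / (2 * δ) - 1) * ((Real.pi / a) * KK (u i) (δ + a))) := by ring
        _ ≤ ((1 - θ) * m i) * ∫ t : ℝ, KK (u i) (δ + t * I) ^ 2 * (1 / (a ^ 2 + t ^ 2)) :=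
            mul_le_mul_of_nonneg_left h12 h13
        _ = _ := by ring
    linarith
  have hs := (h.sum _ hre2).mul_left ((1 - θ) * (1 / (2 * δ) - 1) * (Real.pi / a))
  have := hasSum_le_of_sum_le hs key
  nlinarith

/-- two-sided bound for the Gamma factor -/
theorem gam_two : ∃ C : ℝ, 0 < C ∧ ∀ s : ℂ, 1 / 2 ≤ s.re → s.re ≤ 4 →
    |(logDeriv Gammaℝ s).re| ≤ C * (1 + s.im ^ 2) ^ (1 / 8 : ℝ) := by
  obtain ⟨C, hC, hup⟩ := gam_up
  refine ⟨C + 6 + cG + Real.log Real.pi, by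
    have := cG_nonneg
    have := Real.log_nonneg (show (1:ℝ) ≤ Real.pi by linarith [Real.pi_gt_three])
    linarith, ?_⟩
  intro s hs hs4
  have hs0 : 0 < s.re := by linarith
  have hs2' : (s / 2).re = s.re / 2 := by simp
  have hs2 : 1 / 4 ≤ (s / 2).re := by rw [hs2']; linarith
  have hs20 : 0 < (s / 2).re := by linarith
  set y := (1 + s.im ^ 2) ^ (1 / 8 : ℝ) with hy
  have hy1 : 1 ≤ y := Real.one_le_rpow (by nlinarith [sq_nonneg s.im]) (by norm_num)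
  have hlpi : 0 ≤ Real.log Real.pi := Real.log_nonneg (by linarith [Real.pi_gt_three])
  have hc := cG_nonneg
  rw [abs_le]
  constructor
  · rw [logDeriv_Gammaℝ hs0, H370.DG.logDeriv_Gamma' hs20]
    have h1 : 0 ≤ (Complex.log (s / 2 + 2)).re := by
      rw [Complex.log_re]
      apply Real.log_nonneg
      have h2 : (s / 2 + 2).re ≤ ‖s / 2 + 2‖ := Complex.re_le_norm _
      have h3 : (s / 2 + 2).re = s.re / 2 + 2 := by rw [add_re, hs2']; norm_num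
      rw [h3] at h2
      linarith
    have hinv : ∀ z : ℂ, 0 < z.re → (1 / z).re ≤ 1 / z.re := by
      intro z hz
      refine (Complex.re_le_norm _).trans ?_
      rw [norm_div, norm_one]
      exact one_div_le_one_div_of_le hz (Complex.re_le_norm z)
    have h2 : (1 / (s / 2)).re ≤ 4 := by
      refine (hinv _ hs20).trans ?_
      rw [div_le_iff₀ hs20]; linarith
    have h3 : (1 / (s / 2 + 1)).re ≤ 1 := by
      have h4 : (s / 2 + 1).re = s.re / 2 + 1 := by rw [add_re, hs2']; norm_num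
      refine (hinv _ (by rw [h4]; linarith)).trans ?_
      rw [h4, div_le_iff₀ (by linarith)]; linarith
    have h4 : -cG ≤ (∑' n, H370.DG.er n (s / 2)).re := by
      have := (Complex.abs_re_le_norm _).trans (H370.DG.norm_tsum_er hs20)
      exact (abs_le.1 this).1
    have e : (-(Real.log Real.pi : ℂ) / 2 + (Complex.log (s / 2 + 2) - 1 / (s / 2) - 1 / (s / 2 + 1) +
        ∑' n, H370.DG.er n (s / 2)) / 2).re = -Real.log Real.pi / 2 + ((Complex.log (s / 2 + 2)).re - (1 / (s / 2)).re -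
        (1 / (s / 2 + 1)).re + (∑' n, H370.DG.er n (s / 2)).re) / 2 := by
      have e1 : ∀ z : ℂ, (z / 2).re = z.re / 2 := fun z => by simp
      rw [add_re, e1, e1, neg_re, ofReal_re, add_re, sub_re, sub_re]
    rw [e]
    nlinarith
  · have h1 := hup s hs0 hs4
    rw [← hy] at h1
    nlinarith

lemma weight_int1 {a K : ℝ} (ha : 1 / 2 ≤ a) (hK : 0 ≤ K) :
    Integrable (fun t : ℝ => (K * (1 + t ^ 2) ^ (1 / 8 : ℝ)) * (1 / (a ^ 2 + t ^ 2))) ∧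
    ∫ t : ℝ, (K * (1 + t ^ 2) ^ (1 / 8 : ℝ)) * (1 / (a ^ 2 + t ^ 2)) ≤
      4 * K * ∫ t : ℝ, ((1 + t ^ 2) ^ (1 / 8 : ℝ)) ^ 2 * (1 / (1 + t ^ 2)) := by
  have hb : ∀ t : ℝ, (K * (1 + t ^ 2) ^ (1 / 8 : ℝ)) * (1 / (a ^ 2 + t ^ 2)) ≤
      4 * K * (((1 + t ^ 2) ^ (1 / 8 : ℝ)) ^ 2 * (1 / (1 + t ^ 2))) := by
    intro t
    have h1 : 1 / (a ^ 2 + t ^ 2) ≤ 4 * (1 / (1 + t ^ 2)) := by
      rw [mul_one_div, div_le_div_iff₀ (by positivity) (by positivity)]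
      nlinarith [sq_nonneg t, mul_nonneg (sub_nonneg.2 ha) (by linarith : 0 ≤ a + 1 / 2)]
    have h2 : 1 ≤ (1 + t ^ 2) ^ (1 / 8 : ℝ) := Real.one_le_rpow (by nlinarith [sq_nonneg t]) (by norm_num)
    have h3 : (1 + t ^ 2) ^ (1 / 8 : ℝ) ≤ ((1 + t ^ 2) ^ (1 / 8 : ℝ)) ^ 2 := by nlinarith
    calc (K * (1 + t ^ 2) ^ (1 / 8 : ℝ)) * (1 / (a ^ 2 + t ^ 2)) ≤
        (K * ((1 + t ^ 2) ^ (1 / 8 : ℝ)) ^ 2) * (4 * (1 / (1 + t ^ 2))) := by
          apply mul_le_mul (mul_le_mul_of_nonneg_left h3 hK) h1 (by positivity) (by positivity)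
      _ = _ := by ring
  have hi : Integrable (fun t : ℝ => (K * (1 + t ^ 2) ^ (1 / 8 : ℝ)) * (1 / (a ^ 2 + t ^ 2))) := by
    refine (weight_int.const_mul (4 * K)).mono' ?_ (Eventually.of_forall fun t => ?_)
    · have : Measurable (fun t : ℝ => (K * (1 + t ^ 2) ^ (1 / 8 : ℝ)) * (1 / (a ^ 2 + t ^ 2))) := by fun_prop
      exact this.aestronglyMeasurable
    · rw [Real.norm_of_nonneg (by positivity)]
      exact hb t
  refine ⟨hi, ?_⟩
  rw [← integral_const_mul]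
  exact integral_mono hi (weight_int.const_mul _) hb

end

end Pool.Agent.Helper37.VFG
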