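import Pool.Agent.Helper37.VFG.One
import Pool.Agent.Helper37.VFG.PSum2

/-! The mean square of `ψ(x,χ)` from below for one character, sharp form. -/

set_option autoImplicit false
set_option linter.unusedSectionVars false

open MeasureTheory Filter Topology Set Complex H37F

namespace Pool.Agent.Helper37.VFG

open H370.DL H429.GP H855R2.SF

noncomputable section

/-- the arithmetic of the sharp inequality -/
lemma arith_sharp {q θ δ b₁ e₀ P1 r l C2 CL1 CL2 V F1 G s : ℝ} (hδ0 : 0 < δ) (hδ1 : δ ≤ 1 / 4)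
    (hq2 : q ≤ 2) (hq1 : 2 * (1 - 2 * δ) ≤ q) (hθ0 : 0 < θ) (hθ1 : θ ≤ 1 / 2) (hl : 1 ≤ l)
    (hb0 : 0 ≤ b₁) (hb1 : b₁ ≤ l / 2) (he : 0 ≤ e₀) (hP0 : 0 ≤ P1) (hP1 : P1 ≤ C2 * l) (hC2 : 0 < C2)
    (hPr : P1 = b₁ + r) (hr : |r| ≤ G + |F1| + e₀) (hG : 0 ≤ G) (hCL1 : 0 ≤ CL1) (hCL2 : 0 ≤ CL2)
    (hs : 0 ≤ s) (hθl : θ * l = s) (hδθ : δ / θ = s)
    (hmain : 2 * δ * (q * (((1 - θ) * (1 / (2 * δ) - 1) - 2 * (b₁ + e₀)) * P1 + b₁ ^ 2 - 2 * b₁ * e₀) -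
      CL2 / θ - 2 * b₁ * CL1) ≤ 2 * δ * (V + F1 ^ 2)) :
    2 * P1 - δ * l ^ 2 - (18 * C2 + 4 * G + 12 + 2 * CL2 + 2 * CL1) * (s + δ * l * (1 + e₀) + δ * l * |F1| + δ * F1 ^ 2) ≤
      2 * δ * V := by
  have hq0 : 0 ≤ q := by linarith
  have e1 : 2 * δ * (q * (((1 - θ) * (1 / (2 * δ) - 1) - 2 * (b₁ + e₀)) * P1 + b₁ ^ 2 - 2 * b₁ * e₀) -
      CL2 / θ - 2 * b₁ * CL1) = (1 - θ) * (1 - 2 * δ) * (q * P1) - 4 * δ * q * (e₀ * P1) - 4 * δ * q * (b₁ * P1) +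
        2 * δ * q * b₁ ^ 2 - 4 * δ * q * (b₁ * e₀) - 2 * CL2 * (δ / θ) - 4 * δ * (b₁ * CL1) := by
    have e2 : 2 * δ * (1 / (2 * δ) - 1) = 1 - 2 * δ := by field_simp
    calc _ = q * (((1 - θ) * (2 * δ * (1 / (2 * δ) - 1)) - 4 * δ * (b₁ + e₀)) * P1 + 2 * δ * b₁ ^ 2 - 4 * δ * b₁ * e₀) -
        2 * CL2 * (δ / θ) - 4 * δ * (b₁ * CL1) := by ring
      _ = _ := by rw [e2]; ring
  rw [e1, hδθ] at hmain
  -- term A
  have hA : 2 * P1 - 2 * C2 * s - 8 * C2 * (δ * l) ≤ (1 - θ) * (1 - 2 * δ) * (q * P1) := by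
    have h1 : 2 * (1 - 2 * δ) * P1 ≤ q * P1 := mul_le_mul_of_nonneg_right hq1 hP0
    have h2 : (1 - θ) * (1 - 2 * δ) * (2 * (1 - 2 * δ) * P1) ≤ (1 - θ) * (1 - 2 * δ) * (q * P1) :=
      mul_le_mul_of_nonneg_left h1 (mul_nonneg (by linarith) (by linarith))
    have h3 : (2 - 2 * θ - 8 * δ) * P1 ≤ (1 - θ) * (1 - 2 * δ) * (2 * (1 - 2 * δ) * P1) := by
      have : 2 - 2 * θ - 8 * δ ≤ (1 - θ) * (1 - 2 * δ) * (2 * (1 - 2 * δ)) := by
        nlinarith [mul_nonneg hθ0.le hδ0.le, sq_nonneg δ, mul_nonneg (mul_nonneg hθ0.le hδ0.le) (by linarith : 0 ≤ 1 - δ)]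
      calc _ ≤ ((1 - θ) * (1 - 2 * δ) * (2 * (1 - 2 * δ))) * P1 := mul_le_mul_of_nonneg_right this hP0
        _ = _ := by ring
    have h4 : θ * P1 ≤ C2 * s := by
      calc θ * P1 ≤ θ * (C2 * l) := mul_le_mul_of_nonneg_left hP1 hθ0.le
        _ = C2 * (θ * l) := by ring
        _ = _ := by rw [hθl]
    have h5 : δ * P1 ≤ C2 * (δ * l) := by
      calc δ * P1 ≤ δ * (C2 * l) := mul_le_mul_of_nonneg_left hP1 hδ0.le
        _ = _ := by ring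
    linarith
  -- term with e₀ P1
  have hB : 4 * δ * q * (e₀ * P1) ≤ 8 * C2 * (δ * l * e₀) := by
    have h1 : 4 * δ * q * (e₀ * P1) ≤ 4 * δ * 2 * (e₀ * (C2 * l)) := by
      apply mul_le_mul (mul_le_mul_of_nonneg_left hq2 (by positivity)) (mul_le_mul_of_nonneg_left hP1 he)
        (by positivity) (by positivity)
    linarith
  -- the main quadratic term
  have hCc : -(δ * l ^ 2) - 4 * (δ * l) * |r| ≤ -(4 * δ * q * (b₁ * P1)) + 2 * δ * q * b₁ ^ 2 := by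
    have e3 : -(4 * δ * q * (b₁ * P1)) + 2 * δ * q * b₁ ^ 2 = -(2 * δ * q * b₁ ^ 2) - 4 * δ * q * (b₁ * r) := by
      rw [hPr]; ring
    rw [e3]
    have h1 : b₁ ^ 2 ≤ l ^ 2 / 4 := by nlinarith
    have h2 : 2 * δ * q * b₁ ^ 2 ≤ 2 * δ * 2 * (l ^ 2 / 4) := by
      apply mul_le_mul (mul_le_mul_of_nonneg_left hq2 (by positivity)) h1 (by positivity) (by positivity)
    have h3 : b₁ * r ≤ l / 2 * |r| := by
      calc b₁ * r ≤ b₁ * |r| := mul_le_mul_of_nonneg_left (le_abs_self r) hb0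
        _ ≤ l / 2 * |r| := mul_le_mul_of_nonneg_right hb1 (abs_nonneg r)
    have h4 : 4 * δ * q * (b₁ * r) ≤ 4 * δ * 2 * (l / 2 * |r|) := by
      have h5 : 4 * δ * q * (b₁ * r) ≤ 4 * δ * q * (l / 2 * |r|) := mul_le_mul_of_nonneg_left h3 (by positivity)
      have h6 : 4 * δ * q * (l / 2 * |r|) ≤ 4 * δ * 2 * (l / 2 * |r|) :=
        mul_le_mul_of_nonneg_right (mul_le_mul_of_nonneg_left hq2 (by positivity)) (by positivity)
      linarith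
    linarith
  have hD : 4 * δ * q * (b₁ * e₀) ≤ 4 * (δ * l * e₀) := by
    have h1 : 4 * δ * q * (b₁ * e₀) ≤ 4 * δ * 2 * (l / 2 * e₀) := by
      apply mul_le_mul (mul_le_mul_of_nonneg_left hq2 (by positivity)) (mul_le_mul_of_nonneg_right hb1 he)
        (by positivity) (by positivity)
    linarith
  have hE : 4 * δ * (b₁ * CL1) ≤ 2 * CL1 * (δ * l) := by
    have h1 : 4 * δ * (b₁ * CL1) ≤ 4 * δ * (l / 2 * CL1) :=
      mul_le_mul_of_nonneg_left (mul_le_mul_of_nonneg_right hb1 hCL1) (by positivity)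
    linarith
  have hF : 4 * (δ * l) * |r| ≤ 4 * (δ * l) * (G + |F1| + e₀) := mul_le_mul_of_nonneg_left hr (by positivity)
  -- collect
  have hdl : 0 ≤ δ * l := by positivity
  have hdle : 0 ≤ δ * l * e₀ := by positivity
  have hdlF : 0 ≤ δ * l * |F1| := by positivity
  have hdF : 0 ≤ δ * F1 ^ 2 := by positivity
  set Y := s + δ * l * (1 + e₀) + δ * l * |F1| + δ * F1 ^ 2 with hY
  have hY1 : s ≤ Y := by rw [hY]; linarith [hdl, hdle, (by ring : δ * l * (1 + e₀) = δ * l + δ * l * e₀)]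
  have hY2 : δ * l ≤ Y := by rw [hY]; linarith [(by ring : δ * l * (1 + e₀) = δ * l + δ * l * e₀)]
  have hY3 : δ * l * e₀ ≤ Y := by rw [hY]; linarith [(by ring : δ * l * (1 + e₀) = δ * l + δ * l * e₀)]
  have hY4 : δ * l * |F1| ≤ Y := by rw [hY]; linarith [(by ring : δ * l * (1 + e₀) = δ * l + δ * l * e₀)]
  have hY5 : δ * F1 ^ 2 ≤ Y := by rw [hY]; linarith [(by ring : δ * l * (1 + e₀) = δ * l + δ * l * e₀)]
  have m1 : 2 * C2 * s ≤ 2 * C2 * Y := mul_le_mul_of_nonneg_left hY1 (by positivity)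
  have m2 : 8 * C2 * (δ * l) ≤ 8 * C2 * Y := mul_le_mul_of_nonneg_left hY2 (by positivity)
  have m3 : 8 * C2 * (δ * l * e₀) ≤ 8 * C2 * Y := mul_le_mul_of_nonneg_left hY3 (by positivity)
  have m4 : 4 * (δ * l) * (G + |F1| + e₀) ≤ 4 * G * Y + 4 * Y + 4 * Y := by
    have := mul_le_mul_of_nonneg_left hY2 (show 0 ≤ 4 * G by positivity)
    linarith [(by ring : 4 * (δ * l) * (G + |F1| + e₀) = 4 * G * (δ * l) + 4 * (δ * l * |F1|) + 4 * (δ * l * e₀))]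
  have m5 : 2 * CL2 * s ≤ 2 * CL2 * Y := mul_le_mul_of_nonneg_left hY1 (by positivity)
  have m6 : 2 * CL1 * (δ * l) ≤ 2 * CL1 * Y := mul_le_mul_of_nonneg_left hY2 (by positivity)
  have e9 : (18 * C2 + 4 * G + 12 + 2 * CL2 + 2 * CL1) * Y = 18 * (C2 * Y) + 4 * G * Y + 12 * Y + 2 * CL2 * Y + 2 * CL1 * Y := by
    ring
  have hY0 : 0 ≤ Y := hs.trans hY1
  have hCY : 0 ≤ C2 * Y := by positivity
  rw [e9]
  linarith [(by ring : 2 * δ * (V + F1 ^ 2) = 2 * δ * V + 2 * (δ * F1 ^ 2))]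

/-- **one character, sharp form** -/
theorem per_chi2 : ∃ C : ℝ, 0 < C ∧ ∀ (Q : ℕ) [NeZero Q], 3 ≤ Q → ∀ χ : DirichletCharacter ℂ Q, χ ≠ 1 →
    ∀ e₀ : ℝ, 0 ≤ e₀ → (∀ s : ℂ, 1 / 2 ≤ s.re → |EE χ s| ≤ e₀) →
    ∀ δ₀ δ : ℝ, 0 ≤ δ₀ → δ₀ < δ → δ ≤ 1 / 4 → VL χ δ₀ < ⊤ →
    2 * PX χ ((1 / 2 + 2 * δ : ℝ) : ℂ) - δ * Real.log Q ^ 2 -
      C * (Real.sqrt (δ * Real.log Q) + δ * Real.log Q * (1 + e₀) +
        δ * Real.log Q * |(logDeriv (DirichletCharacter.LFunction χ) ((1 + 2 * δ : ℝ) : ℂ)).re| +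
        δ * (logDeriv (DirichletCharacter.LFunction χ) ((1 + 2 * δ : ℝ) : ℂ)).re ^ 2) ≤
      2 * δ * (VL χ δ).toReal := by
  obtain ⟨C1, hC1, hup⟩ := gam_two
  obtain ⟨C2, hC2, hPX⟩ := PX_bound
  obtain ⟨G, hG, hGb⟩ := gr_bound
  set I0 : ℝ := ∫ t : ℝ, ((1 + t ^ 2) ^ (1 / 8 : ℝ)) ^ 2 * (1 / (1 + t ^ 2)) with hI0
  have hI0n : 0 ≤ I0 := integral_nonneg fun t => by positivity
  set CL2 : ℝ := 4 * C1 ^ 2 * I0 with hCL2
  set CL1 : ℝ := 4 * C1 * I0 with hCL1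
  have hCL20 : 0 ≤ CL2 := by positivity
  have hCL10 : 0 ≤ CL1 := by positivity
  refine ⟨18 * C2 + 4 * G + 12 + 2 * CL2 + 2 * CL1, by positivity, ?_⟩
  intro Q _ hQ χ hχ e₀ he₀ hE δ₀ δ h0 hδ hδ1 hV
  have hl := log_ge_one hQ
  have hδ0 : 0 < δ := by linarith
  have hf : Free χ.primitiveCharacter δ₀ := free_prim hχ fun s hs => free_of_VL hχ hV hs
  have hPS := PX_PS hχ h0 hf
  obtain ⟨hn, hb1, hb2⟩ := hPX Q hQ χ hχ δ₀ δ h0 hδ hδ1 hf
  obtain ⟨hRi, hVf⟩ := VL_formula hχ h0 hδ hV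
  have hPr := PX_real hχ (x := 2 * δ) (by linarith)
  set a : ℝ := 1 / 2 + δ with ha
  set F := logDeriv (DirichletCharacter.LFunction χ) with hF
  set P1 := PX χ ((1 / 2 + 2 * δ : ℝ) : ℂ) with hP1
  have ha12 : 1 / 2 ≤ a := by rw [ha]; linarith
  have ha0 : 0 < a := by linarith
  obtain ⟨hw1, hw2⟩ := weight_int' (a := a) (K := C1) ha12
  obtain ⟨hw3, hw4⟩ := weight_int1 (a := a) (K := C1) ha12 hC1.le
  have hp0 := par_nonneg (χ := χ)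
  have hp1 := par_le (χ := χ)
  have hre : ∀ t : ℝ, ((1 / 2 : ℂ) + (δ + t * I)) = ((a : ℝ) + t * I) := by
    intro t; rw [ha]; push_cast; ring
  have hR : ∀ t : ℝ, (F ((a : ℝ) + t * I)).re = PX χ (δ + t * I) -
      (Real.log χ.conductor / 2 + ((logDeriv Gammaℝ (((a + par χ : ℝ) : ℂ) + t * I)).re - EE χ ((a : ℝ) + t * I))) := by
    intro t
    have hre' : ((a : ℝ) + t * I : ℂ).re = a := by simp
    have hL0 := free_prim hχ (δ := δ₀) (fun s hs => free_of_VL hχ hV hs) ((a : ℝ) + t * I) (by rw [hre', ha]; linarith)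
    have h1 := ld_eq hχ (s := (a : ℝ) + t * I) (by rw [hre', ha]; linarith) hL0
    rw [hF, h1]
    unfold PX
    rw [aa_eq, show (1 / 2 : ℂ) + (δ + t * I) + (par χ : ℂ) = ((a + par χ : ℝ) : ℂ) + t * I by
      rw [ha]; push_cast; ring, hre]
    ring
  have hb : ∀ t : ℝ, |(logDeriv Gammaℝ (((a + par χ : ℝ) : ℂ) + t * I)).re -
      EE χ ((a : ℝ) + t * I)| ≤ e₀ + C1 * (1 + t ^ 2) ^ (1 / 8 : ℝ) := by
    intro t
    have hre' : ((a : ℝ) + t * I : ℂ).re = a := by simp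
    have hre2 : (((a + par χ : ℝ) : ℂ) + t * I).re = a + par χ := by simp
    have him : (((a + par χ : ℝ) : ℂ) + t * I).im = t := by simp
    have h1 := hup (((a + par χ : ℝ) : ℂ) + t * I) (by rw [hre2]; linarith) (by rw [hre2, ha]; linarith)
    rw [him] at h1
    have h2 := hE ((a : ℝ) + t * I) (by rw [hre']; linarith)
    have := abs_sub (logDeriv Gammaℝ (((a + par χ : ℝ) : ℂ) + t * I)).re (EE χ ((a : ℝ) + t * I))
    linarith
  set l := Real.log Q with hld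
  set θ := Real.sqrt (δ / l) with hθ
  have hlp : 0 < l := by linarith
  have hθ0 : 0 < θ := Real.sqrt_pos.2 (by positivity)
  have hθ1 : θ ≤ 1 / 2 := by
    rw [hθ, show (1 / 2 : ℝ) = Real.sqrt (1 / 4) by
      rw [show (1 / 4 : ℝ) = (1 / 2) ^ 2 by norm_num, Real.sqrt_sq (by norm_num)]]
    apply Real.sqrt_le_sqrt
    rw [div_le_iff₀ hlp]; nlinarith
  have hθθ : θ * θ = δ / l := Real.mul_self_sqrt (by positivity)
  have hs2 : Real.sqrt (δ * l) = θ * l := by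
    have : δ * l = (θ * l) * (θ * l) := by
      calc δ * l = (δ / l) * (l * l) := by field_simp
        _ = (θ * θ) * (l * l) := by rw [hθθ]
        _ = _ := by ring
    rw [this, Real.sqrt_mul_self (by positivity)]
  have hδθ : δ / θ = θ * l := by
    rw [div_eq_iff hθ0.ne']
    calc δ = (δ / l) * l := by field_simp
      _ = (θ * θ) * l := by rw [hθθ]
      _ = _ := by ring
  have hlow := hPS.lower2 (δ := δ) (a := a) hδ ha12 (θ := θ) (b₁ := Real.log χ.conductor / 2)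
    hR (by have := log_cond_nonneg (χ := χ); linarith) hb hθ0 (by linarith) hRi hw1 hw2 hw3 hw4
  rw [← hCL2, ← hCL1, show (δ : ℂ) + (a : ℂ) = ((1 / 2 + 2 * δ : ℝ) : ℂ) by rw [ha]; push_cast; ring, ← hP1] at hlow
  set V := (VL χ δ).toReal with hVd
  set J := ∫ t : ℝ, (F ((a : ℝ) + t * I)).re ^ 2 * (1 / (a ^ 2 + t ^ 2)) with hJ
  set F1 := (F ((1 + 2 * δ : ℝ) : ℂ)).re with hF1
  set b₁ := Real.log χ.conductor / 2 with hb₁
  have hb₁0 : 0 ≤ b₁ := by have := log_cond_nonneg (χ := χ); rw [hb₁]; linarith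
  have hb₁1 : b₁ ≤ l / 2 := by have := log_cond_le (χ := χ); rw [hb₁]; linarith
  have hpi := Real.pi_pos
  have hpi3 := Real.pi_gt_three
  have hJ' : J ≤ Real.pi * (V + F1 ^ 2 / (1 + 2 * δ)) := by
    have h1 : J = Real.pi * ((1 / Real.pi) * J) := by field_simp
    rw [h1]
    exact mul_le_mul_of_nonneg_left hVf hpi.le
  have hF1sq : F1 ^ 2 / (1 + 2 * δ) ≤ F1 ^ 2 := div_le_self (sq_nonneg _) (by linarith)
  set Z := ((1 - θ) * (1 / (2 * δ) - 1) - 2 * (b₁ + e₀)) * P1 + b₁ ^ 2 - 2 * b₁ * e₀ with hZ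
  have hmain : (1 / a) * Z - CL2 / θ - 2 * b₁ * CL1 ≤ V + F1 ^ 2 := by
    have h1 := hlow.trans hJ'
    have h2 : Real.pi / a * Z = Real.pi * ((1 / a) * Z) := by ring
    rw [h2] at h1
    have h3 : CL2 / θ ≤ Real.pi * (CL2 / θ) := by
      have : 0 ≤ CL2 / θ := by positivity
      nlinarith
    have h4 : 2 * b₁ * CL1 ≤ Real.pi * (2 * b₁ * CL1) := by
      have : 0 ≤ 2 * b₁ * CL1 := by positivity
      nlinarith
    have h5 : Real.pi * ((1 / a) * Z) ≤ Real.pi * (V + F1 ^ 2 / (1 + 2 * δ) + CL2 / θ + 2 * b₁ * CL1) := by linarith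
    have h6 := le_of_mul_le_mul_left h5 hpi
    linarith
  rw [hs2]
  refine arith_sharp (q := 1 / a) (θ := θ) (b₁ := b₁) (r := gr (1 + 2 * δ + par χ) + F1 - EE χ ((1 + 2 * δ : ℝ) : ℂ))
    hδ0 hδ1 ?_ ?_ hθ0 hθ1 hl hb₁0 hb₁1 he₀ hn hb1 hC2 ?_ ?_ hG.le hCL10 hCL20 (by positivity) rfl hδθ
    (mul_le_mul_of_nonneg_left hmain (by linarith))
  · rw [div_le_iff₀ ha0, ha]; linarith
  · rw [le_div_iff₀ ha0, ha]; nlinarith
  · rw [hPr, hb₁]; ring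
  · have h5 := hGb (1 + 2 * δ + par χ) (by linarith) (by linarith)
    have h6 := hE ((1 + 2 * δ : ℝ) : ℂ) (by simp; linarith)
    have h7 := abs_sub (gr (1 + 2 * δ + par χ) + F1) (EE χ ((1 + 2 * δ : ℝ) : ℂ))
    have h8 := abs_add_le (gr (1 + 2 * δ + par χ)) F1
    linarith

end

end Pool.Agent.Helper37.VFG
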