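import Pool.Agent.Helper37.VFG.Imp

/-! Sums over the primes dividing `Q` are `o(log Q)`. -/

set_option autoImplicit false
set_option linter.unusedSectionVars false

open MeasureTheory Filter Topology Set Complex H37F

namespace Pool.Agent.Helper37.VFG

noncomputable section

lemma sum_split {Q N : ℕ} [NeZero Q] {f : ℕ → ℝ} {ε K : ℝ} (hε : 0 ≤ ε) (hK : 0 ≤ K)
    (h : ∀ p ∈ Q.primeFactors, f p ≤ ε * Real.log p + if p < N then K else 0) :
    ∑ p ∈ Q.primeFactors, f p ≤ ε * Real.log Q + N * K := by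
  refine (Finset.sum_le_sum h).trans ?_
  rw [Finset.sum_add_distrib, ← Finset.mul_sum]
  have h1 : ε * ∑ p ∈ Q.primeFactors, Real.log (p : ℝ) ≤ ε * Real.log Q :=
    mul_le_mul_of_nonneg_left sum_log_le hε
  have h2 : ∑ p ∈ Q.primeFactors, (if p < N then K else 0) ≤ N * K := by
    rw [← Finset.sum_filter, Finset.sum_const, nsmul_eq_mul]
    refine mul_le_mul_of_nonneg_right ?_ hK
    have h3 : Q.primeFactors.filter (fun p => p < N) ⊆ Finset.range N := by
      intro p hp
      rw [Finset.mem_filter] at hp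
      exact Finset.mem_range.2 hp.2
    have := Finset.card_le_card h3
    rw [Finset.card_range] at this
    exact_mod_cast this
  linarith

theorem EE_small {ε : ℝ} (hε : 0 < ε) : ∃ C : ℝ, 0 < C ∧ ∀ (Q : ℕ) [NeZero Q] (χ : DirichletCharacter ℂ Q) (s : ℂ),
    1 / 2 ≤ s.re → |EE χ s| ≤ ε * Real.log Q + C := by
  obtain ⟨N, hN⟩ := exists_nat_gt (16 / ε ^ 2 + 2)
  have hN2 : (2:ℝ) < N := by
    have : 0 < 16 / ε ^ 2 := by positivity
    linarith
  have hlN : 0 ≤ Real.log N := Real.log_nonneg (by linarith)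
  refine ⟨N * (3 * Real.log N) + 1, by positivity, ?_⟩
  intro Q _ χ s hs
  have hpr : ∀ p ∈ Q.primeFactors, p.Prime := fun p hp => Nat.prime_of_mem_primeFactors hp
  have key : |EE χ s| ≤ ε * Real.log Q + N * (3 * Real.log N) := by
    unfold EE
    refine (Finset.abs_sum_le_sum_abs _ _).trans ?_
    refine sum_split hε.le (by positivity) fun p hp => ?_
    have hpp := hpr p hp
    have hp2 : (2:ℝ) ≤ p := by exact_mod_cast hpp.two_le
    have hp0 : (0:ℝ) < p := by linarith
    have hxs : (p : ℝ) ^ (-s.re) ≤ (p : ℝ) ^ (-(1 / 2) : ℝ) :=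
      Real.rpow_le_rpow_of_exponent_le (by linarith) (by linarith)
    set x := (p : ℝ) ^ (-(1 / 2) : ℝ) with hx
    have hx0 : 0 < x := by rw [hx]; positivity
    have hx34 : x ≤ 3 / 4 := by
      calc x ≤ (2 : ℝ) ^ (-(1 / 2) : ℝ) := Real.rpow_le_rpow_of_nonpos (by norm_num) hp2 (by norm_num)
        _ ≤ 3 / 4 := by
            rw [Real.rpow_neg (by norm_num), ← Real.sqrt_eq_rpow, inv_le_comm₀ (by positivity) (by norm_num)]
            apply Real.le_sqrt_of_sq_le
            norm_num
    have h1 := norm_term (χ := χ) hpp hxs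
    set z := χ.primitiveCharacter (p : ZMod χ.conductor) * (p : ℂ) ^ (-s) with hz
    have h2 : 1 / 4 ≤ ‖1 - z‖ := by
      have h3 := norm_sub_norm_le (1:ℂ) z
      rw [norm_one] at h3
      linarith
    have e : χ.primitiveCharacter (p : ZMod χ.conductor) * (Real.log (p : ℝ) : ℂ) * (p : ℂ) ^ (-s) / (1 - z) =
        (Real.log (p : ℝ) : ℂ) * (z / (1 - z)) := by rw [hz]; ring
    have hl : 0 ≤ Real.log (p : ℝ) := Real.log_nonneg (by linarith)
    rw [e]
    refine (Complex.abs_re_le_norm _).trans ?_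
    rw [norm_mul, norm_div, Complex.norm_real, Real.norm_of_nonneg hl]
    have h4 : ‖z‖ / ‖1 - z‖ ≤ 4 * x := by
      rw [div_le_iff₀ (by linarith)]
      nlinarith
    have h5 : Real.log p * (‖z‖ / ‖1 - z‖) ≤ Real.log p * (4 * x) := mul_le_mul_of_nonneg_left h4 hl
    by_cases hpN : p < N
    · rw [if_pos hpN]
      have h6 : Real.log p ≤ Real.log N := Real.log_le_log hp0 (by exact_mod_cast hpN.le)
      have h7 : Real.log p * (4 * x) ≤ Real.log N * 3 := by
        apply mul_le_mul h6 (by linarith) (by positivity) hlN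
      have h8 : 0 ≤ ε * Real.log p := by positivity
      linarith
    · rw [if_neg hpN, add_zero]
      have h6 : 16 / ε ^ 2 ≤ p := by
        have : (N : ℝ) ≤ p := by exact_mod_cast (not_lt.1 hpN)
        linarith
      have h7 : 4 * x ≤ ε := by
        have h8 : x ^ 2 * p = 1 := by
          rw [hx, ← Real.rpow_natCast, ← Real.rpow_mul hp0.le]
          norm_num
          rw [Real.rpow_neg_one]
          field_simp
        have h9 : 16 ≤ p * ε ^ 2 := by rwa [div_le_iff₀ (by positivity)] at h6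
        by_contra hcon
        push Not at hcon
        have h10 : ε ^ 2 < (4 * x) ^ 2 := by nlinarith
        nlinarith
      have h8 : Real.log p * (4 * x) ≤ Real.log p * ε := mul_le_mul_of_nonneg_left h7 hl
      linarith
  linarith

theorem SL_small {ε : ℝ} (hε : 0 < ε) : ∃ C : ℝ, 0 < C ∧ ∀ (Q : ℕ) [NeZero Q],
    ∑ p ∈ Q.primeFactors, Real.log (p : ℝ) / ((p : ℝ) - 1) ≤ ε * Real.log Q + C := by
  obtain ⟨N, hN⟩ := exists_nat_gt (1 / ε + 2)
  have hN2 : (2:ℝ) < N := by
    have : 0 < 1 / ε := by positivity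
    linarith
  have hlN : 0 ≤ Real.log N := Real.log_nonneg (by linarith)
  refine ⟨N * Real.log N + 1, by positivity, ?_⟩
  intro Q _
  have hpr : ∀ p ∈ Q.primeFactors, p.Prime := fun p hp => Nat.prime_of_mem_primeFactors hp
  have key : ∑ p ∈ Q.primeFactors, Real.log (p : ℝ) / ((p : ℝ) - 1) ≤ ε * Real.log Q + N * Real.log N := by
    refine sum_split hε.le hlN fun p hp => ?_
    have hpp := hpr p hp
    have hp2 : (2:ℝ) ≤ p := by exact_mod_cast hpp.two_le
    have hl : 0 ≤ Real.log (p : ℝ) := Real.log_nonneg (by linarith)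
    have hp1 : (0:ℝ) < (p : ℝ) - 1 := by linarith
    by_cases hpN : p < N
    · rw [if_pos hpN]
      have h6 : Real.log p ≤ Real.log N := Real.log_le_log (by linarith) (by exact_mod_cast hpN.le)
      have h7 : Real.log p / ((p : ℝ) - 1) ≤ Real.log p := div_le_self hl (by linarith)
      have h8 : 0 ≤ ε * Real.log p := by positivity
      linarith
    · rw [if_neg hpN, add_zero, div_le_iff₀ hp1]
      have h6 : (N : ℝ) ≤ p := by exact_mod_cast (not_lt.1 hpN)
      have h7 : 1 ≤ ε * ((p : ℝ) - 1) := by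
        have h8 : 1 / ε ≤ (p : ℝ) - 1 := by linarith
        rwa [div_le_iff₀ hε, mul_comm] at h8
      nlinarith
  linarith

end

end Pool.Agent.Helper37.VFG
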