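import Pool.Agent.Helper37.VFG.Asm
import Pool.Agent.Helper37.VFG.One2
import Pool.Agent.Helper37.VFG.Sml
import Pool.Agent.Helper37.VFG.MS

/-! The weighted mean of `G(x,Q)` from below, for all weights. -/

set_option autoImplicit false
set_option linter.unusedSectionVars false

open MeasureTheory Filter Topology Set Complex H37F
open scoped ENNReal

namespace Pool.Agent.Helper37.VFG

open H370.DL H429.GP H855R2.SF

noncomputable section

lemma CQ_nonneg (Q : ℕ) : 0 ≤ CQ Q := by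
  unfold CQ
  have h1 : 0 < Real.eulerMascheroniConstant := by
    have := Real.one_half_lt_eulerMascheroniConstant
    linarith
  have h2 : 0 < Real.log (2 * Real.pi) := Real.log_pos (by linarith [Real.pi_gt_three])
  have h3 : 0 ≤ ∑ p ∈ Q.primeFactors, Real.log (p : ℝ) / ((p : ℝ) - 1) := by
    refine Finset.sum_nonneg fun p hp => ?_
    have hp2 : (2:ℝ) ≤ p := by exact_mod_cast (Nat.prime_of_mem_primeFactors hp).two_le
    exact div_nonneg (Real.log_nonneg (by linarith)) (by linarith)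
  linarith

lemma logQ_tendsto : Tendsto (fun Q : ℕ => Real.log (Q : ℝ)) atTop atTop :=
  Real.tendsto_log_atTop.comp tendsto_natCast_atTop_atTop

lemma x8_tendsto : Tendsto (fun Q : ℕ => Real.log (Q : ℝ) ^ 2 * (Q : ℝ) ^ (-(1 / 8) : ℝ)) atTop (𝓝 0) := by
  have h := (isLittleO_log_rpow_rpow_atTop (2:ℝ) (show (0:ℝ) < 1 / 8 by norm_num)).tendsto_div_nhds_zero
  refine (h.comp tendsto_natCast_atTop_atTop).congr' ?_
  filter_upwards [eventually_gt_atTop 0] with Q hQ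
  have hq : (0:ℝ) < Q := by exact_mod_cast hQ
  simp only [Function.comp_apply]
  rw [Real.rpow_neg hq.le, ← Real.rpow_natCast (Real.log Q) 2]
  norm_num
  rfl

/-- **the main inequality**, all `δ` -/
theorem main_sharp (hT5 : T5) {ε : ℝ} (hε : 0 < ε) : ∀ᶠ Q : ℕ in atTop, ∀ δ : ℝ, 0 < δ → VG Q δ < ⊤ →
    Real.log Q - CQ Q - (1 + ε) * δ * Real.log Q ^ 2 - ε ≤ 2 * δ * (VG Q δ).toReal := by
  obtain ⟨C, hC, hper⟩ := per_chi2
  obtain ⟨η, hη, hη1, hav⟩ := sum_PX_ge hT5 (ε := ε / 4) (by positivity)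
  obtain ⟨c, hc, hmain⟩ := main_real hT5 hε
  obtain ⟨C6, hC6, Q6, h6⟩ := ms_avg
  obtain ⟨Ce, hCe, hEE⟩ := EE_small (ε := ε / (8 * C)) (by positivity)
  -- eventual conditions
  have ev1 : ∀ᶠ Q : ℕ in atTop, 16 * C ^ 2 / ε ^ 2 + 8 / η + 8 + (8 * C / ε) * (2 + Ce + C6 + C6) ≤ Real.log (Q : ℝ) :=
    logQ_tendsto.eventually_ge_atTop _
  have ev2 : ∀ᶠ Q : ℕ in atTop, Real.log (Q : ℝ) ^ 2 * (Q : ℝ) ^ (-(1 / 8) : ℝ) < c := x8_tendsto.eventually_lt_const hc
  filter_upwards [hav, hmain, ev1, ev2, eventually_ge_atTop 3, eventually_ge_atTop Q6] with Q hav hmain ev1 ev2 hQ hQ6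
  have hQ0 : NeZero Q := ⟨by omega⟩
  have hav := hav hQ0
  intro δ hδ hV
  have hl := log_ge_one hQ
  set l := Real.log Q with hld
  have hlp : 0 < l := by linarith
  have hCQ := CQ_nonneg Q
  have hφ0 : 0 < (Q.totient : ℝ) := by exact_mod_cast Nat.totient_pos.2 (by omega)
  have hq1 : (1:ℝ) ≤ Q := by exact_mod_cast (by omega : 1 ≤ Q)
  -- consequences of ev1
  have hη8 : 8 / η ≤ l := by
    have h1 : 0 ≤ 16 * C ^ 2 / ε ^ 2 := by positivity
    have h2 : 0 ≤ (8 * C / ε) * (2 + Ce + C6 + C6) := by positivity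
    linarith
  have hl8 : 8 ≤ l := by
    have h1 : 0 ≤ 16 * C ^ 2 / ε ^ 2 := by positivity
    have h2 : 0 ≤ (8 * C / ε) * (2 + Ce + C6 + C6) := by positivity
    have h3 : 0 ≤ 8 / η := by positivity
    linarith
  have hlC : 16 * C ^ 2 / ε ^ 2 ≤ l := by
    have h2 : 0 ≤ (8 * C / ε) * (2 + Ce + C6 + C6) := by positivity
    have h3 : 0 ≤ 8 / η := by positivity
    linarith
  have hlD : (8 * C / ε) * (2 + Ce + C6 + C6) ≤ l := by
    have h1 : 0 ≤ 16 * C ^ 2 / ε ^ 2 := by positivity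
    have h3 : 0 ≤ 8 / η := by positivity
    linarith
  rcases le_or_gt δ (c / l ^ 2) with hcase | hcase
  · have h1 := hmain δ hδ hcase hV
    have h2 : 0 ≤ (1 + ε) * δ * l ^ 2 := by positivity
    linarith
  rcases le_or_gt (1 / l) δ with hcase2 | hcase2
  · have h1 : 1 ≤ δ * l := by rwa [div_le_iff₀ hlp] at hcase2
    have h2 : l ≤ δ * l ^ 2 := by nlinarith
    have h3 : 0 ≤ 2 * δ * (VG Q δ).toReal := by positivity
    have h4 : 0 ≤ ε * δ * l ^ 2 := by positivity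
    nlinarith
  have hδl : δ * l < 1 := by rwa [lt_div_iff₀ hlp] at hcase2
  have hx8 : (Q : ℝ) ^ (-(1 / 8) : ℝ) ≤ δ := by
    have h1 : (Q : ℝ) ^ (-(1 / 8) : ℝ) < c / l ^ 2 := by
      rw [lt_div_iff₀ (by positivity)]; linarith
    linarith
  have hx3 : xQ Q ≤ δ := by
    refine le_trans ?_ hx8
    unfold xQ
    exact Real.rpow_le_rpow_of_exponent_le hq1 (by norm_num)
  -- the inequality for δ' > δ
  have key : ∀ δ' : ℝ, δ < δ' → δ' ≤ 2 * δ → l - CQ Q - (1 + ε) * δ' * l ^ 2 - ε ≤ 2 * δ' * (VG Q δ).toReal := by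
    intro δ' h1 h2
    have hδ'0 : 0 < δ' := by linarith
    have hδ'l : δ' * l ≤ 2 := by nlinarith
    have hδ'4 : δ' ≤ 1 / 4 := by nlinarith
    have hδ'η : 2 * δ' ≤ η := by
      have h3 : 8 ≤ l * η := by rwa [div_le_iff₀ hη] at hη8
      by_contra hcon
      push Not at hcon
      nlinarith
    have h3 := hav (2 * δ') (by linarith) hδ'η
    have h4 := h6 Q hQ6 (2 * δ') (by linarith) (by linarith)
    have hVL : ∀ χ ∈ NP Q, VL χ δ < ⊤ := fun χ hχ => VL_lt (by omega) hV (mem_NP.1 hχ)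
    have hVL' : ∀ χ ∈ NP Q, VL χ δ' < ⊤ := fun χ hχ =>
      VL_lt (by omega) (lt_of_le_of_lt (VG_anti Q h1.le) hV) (mem_NP.1 hχ)
    set e₀ : ℝ := ε / (8 * C) * l + Ce with he₀
    have he₀0 : 0 ≤ e₀ := by positivity
    set D : ℝ := Real.sqrt (δ' * l) + δ' * l * (1 + e₀) + δ' * l with hD
    have hone : ∀ χ ∈ NP Q, (2 * PX χ ((1 / 2 + 2 * δ' : ℝ) : ℂ) - δ' * l ^ 2 - C * D) -
        C * (δ' * l + δ') * ‖logDeriv (DirichletCharacter.LFunction χ) ((1 + 2 * δ' : ℝ) : ℂ)‖ ^ 2 ≤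
          2 * δ' * (VL χ δ').toReal := by
      intro χ hχ
      have hχ' := mem_NP.1 hχ
      have a1 := hper Q hQ χ hχ' e₀ he₀0 (fun s hs => hEE Q χ s hs) δ δ' hδ.le h1 hδ'4 (hVL χ hχ)
      rw [← hld] at a1
      set F1 := logDeriv (DirichletCharacter.LFunction χ) ((1 + 2 * δ' : ℝ) : ℂ) with hF1
      have a2 : |F1.re| ≤ 1 + ‖F1‖ ^ 2 := by
        have := Complex.abs_re_le_norm F1
        nlinarith [sq_nonneg (‖F1‖ - 1)]
      have a3 : F1.re ^ 2 ≤ ‖F1‖ ^ 2 := by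
        rw [← sq_abs]
        exact pow_le_pow_left₀ (abs_nonneg _) (Complex.abs_re_le_norm F1) 2
      have a4 : δ' * l * |F1.re| ≤ δ' * l * (1 + ‖F1‖ ^ 2) := mul_le_mul_of_nonneg_left a2 (by positivity)
      have a5 : δ' * F1.re ^ 2 ≤ δ' * ‖F1‖ ^ 2 := mul_le_mul_of_nonneg_left a3 hδ'0.le
      have a6 : C * (Real.sqrt (δ' * l) + δ' * l * (1 + e₀) + δ' * l * |F1.re| + δ' * F1.re ^ 2) ≤
          C * D + C * (δ' * l + δ') * ‖F1‖ ^ 2 := by
        have : C * D + C * (δ' * l + δ') * ‖F1‖ ^ 2 = C * (Real.sqrt (δ' * l) + δ' * l * (1 + e₀) + δ' * l * (1 + ‖F1‖ ^ 2) +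
            δ' * ‖F1‖ ^ 2) := by rw [hD]; ring
        rw [this]
        refine mul_le_mul_of_nonneg_left ?_ hC.le
        linarith
      linarith
    have hsum := Finset.sum_le_sum hone
    rw [← Finset.mul_sum, Finset.sum_sub_distrib, ← Finset.mul_sum, Finset.sum_sub_distrib, Finset.sum_sub_distrib,
      Finset.sum_const, Finset.sum_const, nsmul_eq_mul, nsmul_eq_mul] at hsum
    have hcard := card_NP Q
    have hcard0 : (0:ℝ) ≤ (NP Q).card := Nat.cast_nonneg _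
    have h4' : ∑ χ ∈ NP Q, ‖logDeriv (DirichletCharacter.LFunction χ) ((1 + 2 * δ' : ℝ) : ℂ)‖ ^ 2 ≤ C6 * (Q.totient : ℝ) := h4
    -- the error term
    have hD0 : 0 ≤ D := by rw [hD]; positivity
    have herr : C * D + C * (δ' * l + δ') * C6 ≤ ε / 4 + ε * (δ' * l ^ 2) := by
      have hX : 0 ≤ δ' * l ^ 2 := by positivity
      have b1 : C * Real.sqrt (δ' * l) ≤ ε / 8 * (δ' * l ^ 2) + ε / 8 := by
        have b2 : Real.sqrt (δ' * l) ^ 2 = δ' * l := Real.sq_sqrt (by positivity)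
        set r := Real.sqrt (δ' * l) with hr
        have hr0 : 0 ≤ r := Real.sqrt_nonneg _
        have b3 : C * r ≤ ε / 8 * (r ^ 2 * l) + 2 * C ^ 2 / (ε * l) := by
          have b4 : 0 ≤ (ε * l * r - 4 * C) ^ 2 / (8 * ε * l) := by positivity
          have b5 : (ε * l * r - 4 * C) ^ 2 / (8 * ε * l) = ε / 8 * (r ^ 2 * l) - C * r + 2 * C ^ 2 / (ε * l) := by
            field_simp
            ring
          linarith
        have b6 : 2 * C ^ 2 / (ε * l) ≤ ε / 8 := by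
          rw [div_le_iff₀ (by positivity)]
          have b7 : 16 * C ^ 2 ≤ l * ε ^ 2 := by rwa [div_le_iff₀ (by positivity)] at hlC
          nlinarith
        have b8 : r ^ 2 * l = δ' * l ^ 2 := by rw [b2]; ring
        rw [b8] at b3
        linarith
      have b2 : C * (δ' * l * (1 + e₀)) = C * (δ' * l) * (1 + Ce) + ε / 8 * (δ' * l ^ 2) := by
        rw [he₀]
        field_simp
        ring
      have b3 : C * (δ' * l) * (2 + Ce + C6 + C6) ≤ ε / 8 * (δ' * l ^ 2) := by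
        have b4 : C * (2 + Ce + C6 + C6) ≤ ε / 8 * l := by
          have : (8 * C / ε) * (2 + Ce + C6 + C6) = (C * (2 + Ce + C6 + C6)) * (8 / ε) := by ring
          rw [this, mul_div_assoc', div_le_iff₀ hε] at hlD
          linarith
        have b5 := mul_le_mul_of_nonneg_left b4 (show 0 ≤ δ' * l by positivity)
        calc C * (δ' * l) * (2 + Ce + C6 + C6) = δ' * l * (C * (2 + Ce + C6 + C6)) := by ring
          _ ≤ δ' * l * (ε / 8 * l) := b5
          _ = _ := by ring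
      have b4 : C * δ' * C6 ≤ C * (δ' * l) * C6 := by
        have : C * (δ' * l) * C6 = (C * δ' * C6) * l := by ring
        rw [this]
        exact le_mul_of_one_le_right (by positivity) hl
      have e5 : C * D + C * (δ' * l + δ') * C6 = C * Real.sqrt (δ' * l) + C * (δ' * l * (1 + e₀)) + C * (δ' * l) +
          C * (δ' * l) * C6 + C * δ' * C6 := by rw [hD]; ring
      rw [e5, b2]
      have e6 : C * (δ' * l) * (2 + Ce + C6 + C6) = C * (δ' * l) * (1 + Ce) + C * (δ' * l) + C * (δ' * l) * C6 + C * (δ' * l) * C6 := by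
        ring
      rw [e6] at b3
      nlinarith
    -- collect
    have hs1 : ((NP Q).card : ℝ) * (δ' * l ^ 2) ≤ (Q.totient : ℝ) * (δ' * l ^ 2) :=
      mul_le_mul_of_nonneg_right hcard (by positivity)
    have hs2 : ((NP Q).card : ℝ) * (C * D) ≤ (Q.totient : ℝ) * (C * D) :=
      mul_le_mul_of_nonneg_right hcard (by positivity)
    have hs3 : C * (δ' * l + δ') * ∑ χ ∈ NP Q, ‖logDeriv (DirichletCharacter.LFunction χ) ((1 + 2 * δ' : ℝ) : ℂ)‖ ^ 2 ≤
        (Q.totient : ℝ) * (C * (δ' * l + δ') * C6) := by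
      have := mul_le_mul_of_nonneg_left h4' (show 0 ≤ C * (δ' * l + δ') by positivity)
      linarith
    have hs4 : (Q.totient : ℝ) * (C * D + C * (δ' * l + δ') * C6) ≤ (Q.totient : ℝ) * (ε / 4 + ε * (δ' * l ^ 2)) :=
      mul_le_mul_of_nonneg_left herr hφ0.le
    have hVGle : ∑ χ ∈ NP Q, (VL χ δ').toReal ≤ (Q.totient : ℝ) * (VG Q δ).toReal := by
      rw [← ENNReal.toReal_sum fun χ hχ => (hVL' χ hχ).ne]
      have b1 := (sum_VL_le Q (by omega) δ').trans (mul_le_mul_right (VG_anti Q h1.le) _)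
      have b2 := ENNReal.toReal_mono (ENNReal.mul_lt_top ENNReal.ofReal_lt_top hV).ne b1
      rwa [ENNReal.toReal_mul, ENNReal.toReal_ofReal hφ0.le] at b2
    have b3 := mul_le_mul_of_nonneg_left hVGle (show 0 ≤ 2 * δ' by linarith)
    have h3' : (Q.totient : ℝ) * (l - CQ Q - ε / 4) ≤ 2 * ∑ χ ∈ NP Q, PX χ ((1 / 2 + 2 * δ' : ℝ) : ℂ) := by
      rw [Finset.mul_sum]; exact h3
    have hfin : (Q.totient : ℝ) * (l - CQ Q - (1 + ε) * δ' * l ^ 2 - ε) ≤ (Q.totient : ℝ) * (2 * δ' * (VG Q δ).toReal) := by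
      have e1 : (Q.totient : ℝ) * (l - CQ Q - (1 + ε) * δ' * l ^ 2 - ε) = (Q.totient : ℝ) * (l - CQ Q - ε / 4) -
          (Q.totient : ℝ) * (δ' * l ^ 2) - (Q.totient : ℝ) * (ε / 4 + ε * (δ' * l ^ 2)) - (Q.totient : ℝ) * (ε / 2) := by ring
      have e2 : (Q.totient : ℝ) * (C * D + C * (δ' * l + δ') * C6) = (Q.totient : ℝ) * (C * D) +
          (Q.totient : ℝ) * (C * (δ' * l + δ') * C6) := by ring
      have e3 : 0 ≤ (Q.totient : ℝ) * (ε / 2) := by positivity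
      rw [e1]
      linarith
    exact le_of_mul_le_mul_left hfin hφ0
  -- let δ' → δ
  have hlim1 : Tendsto (fun δ' : ℝ => l - CQ Q - (1 + ε) * δ' * l ^ 2 - ε) (𝓝[>] δ) (𝓝 (l - CQ Q - (1 + ε) * δ * l ^ 2 - ε)) := by
    have h : Continuous (fun δ' : ℝ => l - CQ Q - (1 + ε) * δ' * l ^ 2 - ε) := by fun_prop
    exact (h.tendsto δ).mono_left nhdsWithin_le_nhds
  have hlim2 : Tendsto (fun δ' : ℝ => 2 * δ' * (VG Q δ).toReal) (𝓝[>] δ) (𝓝 (2 * δ * (VG Q δ).toReal)) := by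
    have h : Continuous (fun δ' : ℝ => 2 * δ' * (VG Q δ).toReal) := by fun_prop
    exact (h.tendsto δ).mono_left nhdsWithin_le_nhds
  refine le_of_tendsto_of_tendsto hlim1 hlim2 ?_
  have e1 : ∀ᶠ δ' : ℝ in 𝓝[>] δ, δ' ≤ 2 * δ :=
    (eventually_le_nhds (by linarith)).filter_mono nhdsWithin_le_nhds
  filter_upwards [self_mem_nhdsWithin, e1] with δ' h1 h2
  exact key δ' h1 h2

end

end Pool.Agent.Helper37.VFG
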