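import Pool.Agent.Helper37.VFG.Def

set_option autoImplicit false

namespace H37F

open Finset

open Classical in
theorem card_cond_dvd (Q : ℕ) [NeZero Q] (d : ℕ) (hd : d ∣ Q) :
    ((univ : Finset (DirichletCharacter ℂ Q)).filter (fun χ => χ.conductor ∣ d)).card
      = d.totient := by
  have : NeZero d := ⟨fun h => NeZero.ne Q (by rw [h] at hd; exact Nat.eq_zero_of_zero_dvd hd)⟩
  have h1 : ((univ : Finset (DirichletCharacter ℂ Q)).filter (fun χ => χ.conductor ∣ d))
      = (univ : Finset (DirichletCharacter ℂ d)).image (DirichletCharacter.changeLevel hd) := by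
    ext χ
    simp only [mem_filter, mem_univ, true_and, mem_image]
    rw [← DirichletCharacter.mem_conductorSet_iff_conductor_dvd χ hd]
    constructor
    · intro h
      exact ⟨DirichletCharacter.FactorsThrough.χ₀ h,
        (DirichletCharacter.FactorsThrough.eq_changeLevel h).symm⟩
    · rintro ⟨ψ, rfl⟩
      exact DirichletCharacter.changeLevel_factorsThrough ψ hd
  rw [h1, card_image_of_injective _ (DirichletCharacter.changeLevel_injective hd), card_univ,
    ← Nat.card_eq_fintype_card]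
  exact DirichletCharacter.card_eq_totient_of_hasEnoughRootsOfUnity ℂ d

theorem log_eq {n Q : ℕ} (hn : n ∣ Q) (hQ : Q ≠ 0) :
    Real.log (n : ℝ) = ∑ p ∈ Q.primeFactors, (n.factorization p : ℝ) * Real.log (p : ℝ) := by
  rw [Real.log_nat_eq_sum_factorization, Finsupp.sum_of_support_subset]
  · rw [Nat.support_factorization]
    exact Nat.primeFactors_mono hn hQ
  · intro p _
    simp

theorem count {n Q p : ℕ} (hp : p.Prime) (hn : n ∣ Q) (hQ : Q ≠ 0) :
    ((Icc 1 (Q.factorization p)).filter (fun j => n ∣ Q / p ^ j)).card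
      + n.factorization p = Q.factorization p := by
  have hn0 : n ≠ 0 := fun h => hQ (by rw [h] at hn; exact Nat.eq_zero_of_zero_dvd hn)
  have hle : n.factorization p ≤ Q.factorization p :=
    (Nat.factorization_le_iff_dvd hn0 hQ).2 hn p
  have h1 : ((Icc 1 (Q.factorization p)).filter (fun j => n ∣ Q / p ^ j))
      = Icc 1 (Q.factorization p - n.factorization p) := by
    ext j
    simp only [mem_filter, mem_Icc]
    constructor
    · rintro ⟨⟨h1, h2⟩, h3⟩
      refine ⟨h1, ?_⟩
      have h4 : p ^ j ∣ Q := (hp.pow_dvd_iff_le_factorization hQ).2 h2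
      rw [Nat.dvd_div_iff_mul_dvd h4] at h3
      have h5 := (Nat.factorization_le_iff_dvd
        (mul_ne_zero (pow_ne_zero _ hp.ne_zero) hn0) hQ).2 h3 p
      rw [Nat.factorization_mul (pow_ne_zero _ hp.ne_zero) hn0] at h5
      simp only [Finsupp.add_apply, hp.factorization_pow, Finsupp.single_eq_same] at h5
      omega
    · rintro ⟨h1, h2⟩
      have h2' : j ≤ Q.factorization p := by omega
      refine ⟨⟨h1, h2'⟩, ?_⟩
      have h4 : p ^ j ∣ Q := (hp.pow_dvd_iff_le_factorization hQ).2 h2'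
      rw [Nat.dvd_div_iff_mul_dvd h4, ← Nat.factorization_le_iff_dvd
        (mul_ne_zero (pow_ne_zero _ hp.ne_zero) hn0) hQ,
        Nat.factorization_mul (pow_ne_zero _ hp.ne_zero) hn0]
      intro q
      simp only [Finsupp.add_apply, hp.factorization_pow]
      by_cases hq : p = q
      · subst hq
        rw [Finsupp.single_eq_same]
        omega
      · rw [Finsupp.single_eq_of_ne' hq]
        have := (Nat.factorization_le_iff_dvd hn0 hQ).2 hn q
        omega
  rw [h1, Nat.card_Icc]
  omega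

theorem sum_tot_pow {p : ℕ} (hp : p.Prime) (v : ℕ) :
    ∑ i ∈ range (v + 1), (p ^ i).totient = p ^ v := by
  rw [← Nat.sum_divisors_prime_pow (f := Nat.totient) hp, Nat.sum_totient]

theorem tot_sum {Q p : ℕ} (hp : p.Prime) (hpQ : p ∣ Q) (hQ : Q ≠ 0) :
    (∑ j ∈ Icc 1 (Q.factorization p), (Q / p ^ j).totient) * (p - 1) = Q.totient := by
  obtain ⟨v, m, hm, rfl⟩ : ∃ v m, ¬ p ∣ m ∧ Q = p ^ (v + 1) * m := by
    obtain ⟨v, m, hm, h⟩ := Nat.exists_eq_pow_mul_and_not_dvd hQ p hp.ne_one
    rcases v with _ | v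
    · exfalso
      rw [pow_zero, one_mul] at h
      exact hm (h ▸ hpQ)
    · exact ⟨v, m, hm, h⟩
  have hm0 : m ≠ 0 := fun h => hm (h ▸ dvd_zero p)
  have hv : (p ^ (v + 1) * m).factorization p = v + 1 := by
    rw [Nat.factorization_mul (pow_ne_zero _ hp.ne_zero) hm0]
    simp only [Finsupp.add_apply, hp.factorization_pow, Finsupp.single_eq_same,
      Nat.factorization_eq_zero_of_not_dvd hm, add_zero]
  rw [hv]
  have hcop : ∀ i, Nat.Coprime (p ^ i) m := fun i =>
    Nat.Coprime.pow_left i ((Nat.Prime.coprime_iff_not_dvd hp).2 hm)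
  have h1 : ∀ j ∈ Icc 1 (v + 1), (p ^ (v + 1) * m / p ^ j).totient
      = (p ^ (v + 1 - j)).totient * m.totient := by
    intro j hj
    rw [mem_Icc] at hj
    have : p ^ (v + 1) * m / p ^ j = p ^ (v + 1 - j) * m := by
      apply Nat.div_eq_of_eq_mul_right (pow_pos hp.pos j)
      rw [← mul_assoc, ← pow_add]
      congr 2
      omega
    rw [this, Nat.totient_mul (hcop _)]
  rw [sum_congr rfl h1, ← sum_mul]
  have h2 : ∑ j ∈ Icc 1 (v + 1), (p ^ (v + 1 - j)).totient
      = ∑ i ∈ range (v + 1), (p ^ i).totient := by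
    refine sum_nbij' (fun j => v + 1 - j) (fun i => v + 1 - i) ?_ ?_ ?_ ?_ ?_
    · intro j hj
      simp only [mem_Icc, mem_range] at hj ⊢
      omega
    · intro j hj
      simp only [mem_Icc, mem_range] at hj ⊢
      omega
    · intro j hj
      simp only [mem_Icc] at hj ⊢
      omega
    · intro j hj
      simp only [mem_range] at hj ⊢
      omega
    · intro j _
      rfl
  rw [h2, sum_tot_pow hp, Nat.totient_mul (hcop _), Nat.totient_prime_pow_succ hp]
  ring

theorem sum_fact (Q : ℕ) [NeZero Q] {p : ℕ} (hp : p.Prime) (hpQ : p ∣ Q) :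
    ∑ χ : DirichletCharacter ℂ Q, (χ.conductor.factorization p : ℝ)
      = (Q.totient : ℝ) * ((Q.factorization p : ℝ) - 1 / ((p : ℝ) - 1)) := by
  classical
  have hQ : Q ≠ 0 := NeZero.ne Q
  have h1 : ∀ χ : DirichletCharacter ℂ Q, (χ.conductor.factorization p : ℝ)
      = (Q.factorization p : ℝ)
        - ∑ j ∈ Icc 1 (Q.factorization p), (if χ.conductor ∣ Q / p ^ j then (1 : ℝ) else 0) := by
    intro χ
    have h := count (p := p) hp (DirichletCharacter.conductor_dvd_level χ) hQ
    rw [sum_ite, sum_const_zero, add_zero, sum_const, nsmul_eq_mul, mul_one]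
    have h' : (((Icc 1 (Q.factorization p)).filter
      (fun j => χ.conductor ∣ Q / p ^ j)).card : ℝ) + (χ.conductor.factorization p : ℝ)
      = (Q.factorization p : ℝ) := by exact_mod_cast h
    linarith
  rw [sum_congr rfl (fun χ _ => h1 χ), sum_sub_distrib, sum_comm]
  have hcard : (Fintype.card (DirichletCharacter ℂ Q) : ℝ) = (Q.totient : ℝ) := by
    rw [← Nat.card_eq_fintype_card]
    exact_mod_cast DirichletCharacter.card_eq_totient_of_hasEnoughRootsOfUnity ℂ Q
  rw [sum_const, card_univ, nsmul_eq_mul, hcard]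
  have h2 : ∀ j ∈ Icc 1 (Q.factorization p),
      ∑ χ : DirichletCharacter ℂ Q, (if χ.conductor ∣ Q / p ^ j then (1 : ℝ) else 0)
        = ((Q / p ^ j).totient : ℝ) := by
    intro j hj
    rw [mem_Icc] at hj
    have h4 : p ^ j ∣ Q := (hp.pow_dvd_iff_le_factorization hQ).2 hj.2
    rw [sum_ite, sum_const_zero, add_zero, sum_const, nsmul_eq_mul, mul_one]
    exact_mod_cast card_cond_dvd Q (Q / p ^ j) (Nat.div_dvd_of_dvd h4)
  rw [sum_congr rfl h2]
  have h3 : (∑ j ∈ Icc 1 (Q.factorization p), ((Q / p ^ j).totient : ℝ)) * ((p : ℝ) - 1)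
      = (Q.totient : ℝ) := by
    have := tot_sum hp hpQ hQ
    have h5 : ((p - 1 : ℕ) : ℝ) = (p : ℝ) - 1 := by
      rw [Nat.cast_sub hp.one_le, Nat.cast_one]
    rw [← h5]
    exact_mod_cast this
  have hp1 : (p : ℝ) - 1 ≠ 0 := by
    have : (1 : ℝ) < p := by exact_mod_cast hp.one_lt
    linarith
  rw [← eq_div_iff hp1] at h3
  rw [h3]
  ring

theorem cond_avg : T3 := by
  intro Q _
  have hQ : Q ≠ 0 := NeZero.ne Q
  rw [sum_congr rfl (fun (χ : DirichletCharacter ℂ Q) _ =>
    log_eq (DirichletCharacter.conductor_dvd_level χ) hQ), sum_comm]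
  rw [log_eq (dvd_refl Q) hQ, ← sum_sub_distrib, mul_sum]
  refine sum_congr rfl fun p hp => ?_
  have hp' := Nat.prime_of_mem_primeFactors hp
  rw [← sum_mul, sum_fact Q hp' (Nat.dvd_of_mem_primeFactors hp)]
  ring

end H37F
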