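import Pool.Agent.Helper37.VFG.Def

set_option autoImplicit false

namespace H37F

open Complex

/-- Parseval for a function supported on the units. -/
theorem parseval_aux {Q : ℕ} [NeZero Q] (R : Finset (ZMod Q)) (hR : ∀ a ∈ R, IsUnit a)
    (f : ZMod Q → ℝ) :
    ∑ χ : DirichletCharacter ℂ Q, ‖∑ a ∈ R, χ a * (f a : ℂ)‖ ^ 2
      = (Q.totient : ℝ) * ∑ a ∈ R, (f a) ^ 2 := by
  classical
  have key : ∀ χ : DirichletCharacter ℂ Q,
      ((‖∑ a ∈ R, χ a * (f a : ℂ)‖ ^ 2 : ℝ) : ℂ)
        = ∑ a ∈ R, ∑ b ∈ R, (χ a⁻¹ * χ b) * ((f a : ℂ) * (f b : ℂ)) := by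
    intro χ
    have h1 : ((‖∑ a ∈ R, χ a * (f a : ℂ)‖ ^ 2 : ℝ) : ℂ)
        = (starRingEnd ℂ) (∑ a ∈ R, χ a * (f a : ℂ)) * (∑ a ∈ R, χ a * (f a : ℂ)) := by
      rw [← Complex.normSq_eq_conj_mul_self, Complex.normSq_eq_norm_sq]
    rw [h1, map_sum, Finset.sum_mul_sum]
    refine Finset.sum_congr rfl fun a ha => Finset.sum_congr rfl fun b _ => ?_
    have h2 : (starRingEnd ℂ) (χ a) = χ a⁻¹ := by
      obtain ⟨u, rfl⟩ := hR a ha
      have h3 : (starRingEnd ℂ) (χ (u : ZMod Q)) = χ⁻¹ (u : ZMod Q) := MulChar.star_apply' χ _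
      rw [h3, MulChar.inv_apply, Ring.inverse_unit, ZMod.inv_coe_unit]
    rw [map_mul, h2, Complex.conj_ofReal]
    ring
  have h3 : ((∑ χ : DirichletCharacter ℂ Q, ‖∑ a ∈ R, χ a * (f a : ℂ)‖ ^ 2 : ℝ) : ℂ)
      = ((Q.totient : ℝ) * ∑ a ∈ R, (f a) ^ 2 : ℝ) := by
    rw [Complex.ofReal_sum, Finset.sum_congr rfl fun χ _ => key χ, Finset.sum_comm]
    rw [Finset.sum_congr rfl fun a _ => Finset.sum_comm]
    push_cast
    rw [Finset.mul_sum]
    refine Finset.sum_congr rfl fun a ha => ?_
    have h4 : ∀ b ∈ R, ∑ χ : DirichletCharacter ℂ Q, (χ a⁻¹ * χ b) * ((f a : ℂ) * (f b : ℂ))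
        = if a = b then (Q.totient : ℂ) * ((f a : ℂ) * (f b : ℂ)) else 0 := by
      intro b _
      rw [← Finset.sum_mul, DirichletCharacter.sum_char_inv_mul_char_eq ℂ (hR a ha) b]
      split_ifs <;> simp
    rw [Finset.sum_congr rfl h4, Finset.sum_ite_eq, if_pos ha]
    ring
  exact_mod_cast h3

theorem pars : T1 := by
  classical
  intro Q _ hQ x
  have hQ0 : 0 < Q := by omega
  have hphi : (0 : ℝ) < Q.totient := by exact_mod_cast Nat.totient_pos.mpr hQ0
  set R : Finset (ZMod Q) := Finset.univ.filter (fun a => IsUnit a) with hRdef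
  set f : ZMod Q → ℝ := fun a => psiAP Q a.val x - x / (Q.totient : ℝ) with hf
  have hRu : ∀ a ∈ R, IsUnit a := fun a ha => (Finset.mem_filter.mp ha).2
  -- G as a sum over R
  have hG : GV Q x = ∑ a ∈ R, (f a) ^ 2 := by
    unfold GV
    symm
    refine Finset.sum_bij (fun a _ => a.val) ?_ ?_ ?_ ?_
    · intro a ha
      rw [Finset.mem_filter, Finset.mem_range]
      refine ⟨ZMod.val_lt a, ?_⟩
      have := hRu a ha
      obtain ⟨u, rfl⟩ := this
      exact ZMod.val_coe_unit_coprime u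
    · intro a _ b _ h
      exact ZMod.val_injective Q h
    · intro b hb
      rw [Finset.mem_filter, Finset.mem_range] at hb
      refine ⟨(b : ZMod Q), ?_, ZMod.val_cast_of_lt hb.1⟩
      rw [hRdef, Finset.mem_filter]
      exact ⟨Finset.mem_univ _, (ZMod.isUnit_iff_coprime b Q).mpr hb.2⟩
    · intro a _
      rfl
  -- the character sums
  have hpsi : ∀ χ : DirichletCharacter ℂ Q, χ ≠ 1 →
      psiC χ x = ∑ a ∈ R, χ a * (f a : ℂ) := by
    intro χ hχ
    have h0 : ∀ a : ZMod Q, a ∉ R → χ a = 0 := by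
      intro a ha
      apply MulChar.map_nonunit
      intro h
      exact ha (by rw [hRdef, Finset.mem_filter]; exact ⟨Finset.mem_univ _, h⟩)
    have h1 : ∑ a ∈ R, χ a * (f a : ℂ) = ∑ a : ZMod Q, χ a * (f a : ℂ) := by
      apply Finset.sum_subset (Finset.subset_univ _)
      intro a _ ha
      rw [h0 a ha, zero_mul]
    have h2 : ∑ a : ZMod Q, χ a = 0 := MulChar.sum_eq_zero_of_ne_one hχ
    have h3 : ∑ a : ZMod Q, χ a * (f a : ℂ) = ∑ a : ZMod Q, χ a * (psiAP Q a.val x : ℂ) := by
      have : ∀ a : ZMod Q, χ a * (f a : ℂ)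
          = χ a * (psiAP Q a.val x : ℂ) - χ a * ((x / (Q.totient : ℝ) : ℝ) : ℂ) := by
        intro a
        rw [hf]
        push_cast
        ring
      rw [Finset.sum_congr rfl fun a _ => this a, Finset.sum_sub_distrib, ← Finset.sum_mul, h2]
      simp
    rw [h1, h3]
    unfold psiC psiAP
    have h4 : ∀ a : ZMod Q, χ a * ((∑ n ∈ (Finset.Icc 1 ⌊x⌋₊).filter (fun n => n % Q = a.val),
        ArithmeticFunction.vonMangoldt n : ℝ) : ℂ)
        = ∑ n ∈ (Finset.Icc 1 ⌊x⌋₊).filter (fun n : ℕ => (n : ZMod Q) = a),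
          χ (n : ZMod Q) * ((ArithmeticFunction.vonMangoldt n : ℝ) : ℂ) := by
      intro a
      rw [Complex.ofReal_sum, Finset.mul_sum]
      have hset : (Finset.Icc 1 ⌊x⌋₊).filter (fun n => n % Q = a.val)
          = (Finset.Icc 1 ⌊x⌋₊).filter (fun n : ℕ => (n : ZMod Q) = a) := by
        apply Finset.filter_congr
        intro n _
        constructor
        · intro h
          rw [← ZMod.natCast_zmod_val a, ← h]
          exact (ZMod.natCast_mod n Q).symm
        · intro h
          rw [← h, ZMod.val_natCast]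
      rw [hset]
      refine Finset.sum_congr rfl fun n hn => ?_
      rw [(Finset.mem_filter.mp hn).2]
    rw [Finset.sum_congr rfl fun a _ => h4 a]
    exact (Finset.sum_fiberwise (Finset.Icc 1 ⌊x⌋₊) (fun n : ℕ => (n : ZMod Q)) _).symm
  rw [hG, ← parseval_aux R hRu f]
  calc ∑ χ ∈ (Finset.univ : Finset (DirichletCharacter ℂ Q)).erase 1, ‖psiC χ x‖ ^ 2
      = ∑ χ ∈ (Finset.univ : Finset (DirichletCharacter ℂ Q)).erase 1,
          ‖∑ a ∈ R, χ a * (f a : ℂ)‖ ^ 2 := by
        refine Finset.sum_congr rfl fun χ hχ => ?_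
        rw [hpsi χ (Finset.ne_of_mem_erase hχ)]
    _ ≤ _ := by
        apply Finset.sum_le_sum_of_subset_of_nonneg (Finset.erase_subset _ _)
        intro χ _ _
        positivity

open ArithmeticFunction in
/-- real terms -/
theorem lseries_re {g : ℕ → ℝ} {s : ℝ} (hs : LSeriesSummable (fun n => (g n : ℂ)) (s : ℂ)) :
    Summable (fun n : ℕ => if n = 0 then 0 else g n / (n : ℝ) ^ s) ∧
    (LSeries (fun n => (g n : ℂ)) (s : ℂ)).re = ∑' n : ℕ, if n = 0 then 0 else g n / (n : ℝ) ^ s := by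
  have hterm : ∀ n : ℕ, LSeries.term (fun n => (g n : ℂ)) (s : ℂ) n
      = ((if n = 0 then 0 else g n / (n : ℝ) ^ s : ℝ) : ℂ) := by
    intro n
    rcases eq_or_ne n 0 with rfl | hn
    · simp
    · rw [LSeries.term_of_ne_zero hn, if_neg hn]
      push_cast
      rw [Complex.ofReal_cpow (Nat.cast_nonneg n)]
      simp
  have h1 : Summable (fun n : ℕ => ((if n = 0 then 0 else g n / (n : ℝ) ^ s : ℝ) : ℂ)) := by
    have : (fun n : ℕ => ((if n = 0 then 0 else g n / (n : ℝ) ^ s : ℝ) : ℂ))
        = LSeries.term (fun n => (g n : ℂ)) (s : ℂ) := by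
      funext n
      rw [hterm n]
    rw [this]
    exact hs
  refine ⟨Complex.summable_ofReal.mp h1, ?_⟩
  unfold LSeries
  rw [tsum_congr hterm, ← Complex.ofReal_tsum, Complex.ofReal_re]

/-- Partial sums of the zeta series. -/
theorem zsum {a : ℝ} (ha : 0 < a) (N : ℕ) :
    ∑ k ∈ Finset.range (N + 1), ((k + 1 : ℕ) : ℝ) ^ (-(1 + a)) ≤
      1 + (1 / a) * (1 - ((N + 1 : ℕ) : ℝ) ^ (-a)) := by
  induction N with
  | zero => simp
  | succ N ih =>
    rw [Finset.sum_range_succ]
    have hN1 : (0 : ℝ) < ((N + 1 : ℕ) : ℝ) := by positivity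
    have hN2 : (0 : ℝ) < ((N + 1 + 1 : ℕ) : ℝ) := by positivity
    set x : ℝ := ((N + 1 + 1 : ℕ) : ℝ) with hx
    have hy : ((N + 1 : ℕ) : ℝ) = x - 1 := by rw [hx]; push_cast; ring
    rw [hy] at ih hN1 
    have h1 : x ^ (-a) * (1 + a / x) ≤ (x - 1) ^ (-a) := by
      have e1 : (x - 1) ^ (-a) = x ^ (-a) * ((x - 1) / x) ^ (-a) := by
        rw [← Real.mul_rpow hN2.le (div_nonneg hN1.le hN2.le)]
        congr 1
        field_simp
      rw [e1]
      apply mul_le_mul_of_nonneg_left _ (Real.rpow_nonneg hN2.le _)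
      have hq : 0 < (x - 1) / x := div_pos hN1 hN2
      rw [Real.rpow_def_of_pos hq]
      have e2 : Real.log ((x - 1) / x) ≤ -(1 / x) := by
        have := Real.log_le_sub_one_of_pos hq
        have e3 : (x - 1) / x - 1 = -(1 / x) := by field_simp; ring
        linarith
      have e4 : 1 + a / x ≤ Real.log ((x - 1) / x) * -a + 1 := by
        have : a * Real.log ((x - 1) / x) ≤ a * -(1 / x) := mul_le_mul_of_nonneg_left e2 ha.le
        have e5 : a * -(1 / x) = -(a / x) := by ring
        linarith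
      exact e4.trans (Real.add_one_le_exp _)
    have h2 : x ^ (-(1 + a)) = x ^ (-a) / x := by
      rw [show -(1 + a) = -a - 1 by ring, Real.rpow_sub_one hN2.ne']
    rw [h2]
    have h3 : x ^ (-a) / x ≤ (1 / a) * ((x - 1) ^ (-a) - x ^ (-a)) := by
      have e6 : x ^ (-a) / x = (1 / a) * (x ^ (-a) * (a / x)) := by field_simp
      rw [e6]
      apply mul_le_mul_of_nonneg_left _ (by positivity)
      nlinarith [h1]
    calc _ ≤ 1 + 1 / a * (1 - (x - 1) ^ (-a)) + (1 / a) * ((x - 1) ^ (-a) - x ^ (-a)) :=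
          add_le_add ih h3
      _ = _ := by ring

theorem zsum' {a : ℝ} (ha : 0 < a) (N : ℕ) :
    ∑ k ∈ Finset.range N, ((k + 1 : ℕ) : ℝ) ^ (-(1 + a)) ≤ 1 + 1 / a := by
  rcases N with _ | N
  · simp; positivity
  · refine (zsum ha N).trans ?_
    have : 0 ≤ (1 / a) * ((N + 1 : ℕ) : ℝ) ^ (-a) := by positivity
    linarith

/-- The bound for the residue class. -/
theorem resbound {Q : ℕ} [NeZero Q] (hQ : 2 ≤ Q) {η : ℝ} (hη : 0 < η) (hη1 : η ≤ 1) (N : ℕ) :
    ∑ n ∈ Finset.range N, (if n = 0 then 0 else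
      ArithmeticFunction.vonMangoldt.residueClass (1 : ZMod Q) n / (n : ℝ) ^ (1 + η))
      ≤ 6 / (η ^ 2 * Q) := by
  classical
  have hQ0 : 0 < Q := by omega
  have hQr : (0 : ℝ) < Q := by exact_mod_cast hQ0
  set F : ℕ → ℝ := fun n => if n = 0 then 0 else
      ArithmeticFunction.vonMangoldt.residueClass (1 : ZMod Q) n / (n : ℝ) ^ (1 + η) with hF
  have hF0 : ∀ n, 0 ≤ F n := by
    intro n
    rw [hF]
    dsimp only
    split_ifs
    · exact le_rfl
    · exact div_nonneg (ArithmeticFunction.vonMangoldt.residueClass_nonneg _ _)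
        (Real.rpow_nonneg (Nat.cast_nonneg _) _)
  have h1 : ∑ n ∈ Finset.range N, F n ≤ ∑ k ∈ Finset.range N, F ((k + 1) * Q + 1) := by
    have hinj : Set.InjOn (fun k : ℕ => (k + 1) * Q + 1) (Finset.range N : Set ℕ) := by
      intro a _ b _ h
      simp only [add_left_inj] at h
      have := Nat.eq_of_mul_eq_mul_right hQ0 h
      omega
    rw [← Finset.sum_image (f := F) (g := fun k : ℕ => (k + 1) * Q + 1) hinj]
    have h2 : ∑ n ∈ Finset.range N, F n
        = ∑ n ∈ (Finset.range N).filter (fun n => F n ≠ 0), F n := by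
      rw [Finset.sum_filter_ne_zero]
    rw [h2]
    apply Finset.sum_le_sum_of_subset_of_nonneg
    · intro n hn
      rw [Finset.mem_filter, Finset.mem_range] at hn
      obtain ⟨hnN, hn0⟩ := hn
      have hnz : n ≠ 0 := by
        rintro rfl
        exact hn0 (by simp [hF])
      have hcl : (n : ZMod Q) = 1 := by
        by_contra hne
        apply hn0
        rw [hF]
        dsimp only
        rw [if_neg hnz, ArithmeticFunction.vonMangoldt.residueClass, Set.indicator_of_notMem, zero_div]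
        exact hne
      have hn1 : n ≠ 1 := by
        rintro rfl
        apply hn0
        rw [hF]
        dsimp only
        rw [if_neg (by norm_num)]
        have : ArithmeticFunction.vonMangoldt.residueClass (1 : ZMod Q) 1 = 0 := by
          unfold ArithmeticFunction.vonMangoldt.residueClass
          rw [Set.indicator_of_mem (by simp)]
          simp
        rw [this, zero_div]
      have hmod : Q ∣ n - 1 := by
        have h3 : ((n - 1 : ℕ) : ZMod Q) = 0 := by
          rw [Nat.cast_sub (by omega), hcl]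
          simp
        exact (ZMod.natCast_eq_zero_iff _ _).mp h3
      obtain ⟨c, hc⟩ := hmod
      have hc0 : c ≠ 0 := by
        rintro rfl
        rw [mul_zero] at hc
        omega
      rw [Finset.mem_image]
      refine ⟨c - 1, ?_, ?_⟩
      · rw [Finset.mem_range]
        have : c ≤ Q * c := Nat.le_mul_of_pos_left c hQ0
        omega
      · have : c - 1 + 1 = c := by omega
        rw [this, mul_comm]
        omega
    · intro n _ _
      exact hF0 n
  refine h1.trans ?_
  have h2 : ∀ k ∈ Finset.range N, F ((k + 1) * Q + 1)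
      ≤ (2 / η) * (1 / Q) * ((k + 1 : ℕ) : ℝ) ^ (-(1 + η / 2)) := by
    intro k _
    rw [hF]
    dsimp only
    rw [if_neg (by omega)]
    set m : ℕ := (k + 1) * Q + 1 with hm
    have hmpos : (0 : ℝ) < m := by
      have : 0 < m := by omega
      exact_mod_cast this
    have hkpos : (0 : ℝ) < ((k + 1 : ℕ) : ℝ) := by positivity
    have e1 : ArithmeticFunction.vonMangoldt.residueClass (1 : ZMod Q) m ≤ Real.log m :=
      (ArithmeticFunction.vonMangoldt.residueClass_le _ _).trans
        ArithmeticFunction.vonMangoldt_le_log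
    have e2 : Real.log m ≤ (m : ℝ) ^ (η / 2) / (η / 2) :=
      Real.log_le_rpow_div hmpos.le (by positivity)
    have e3 : ArithmeticFunction.vonMangoldt.residueClass (1 : ZMod Q) m / (m : ℝ) ^ (1 + η)
        ≤ (2 / η) * (m : ℝ) ^ (-(1 + η / 2)) := by
      rw [div_le_iff₀ (Real.rpow_pos_of_pos hmpos _), mul_assoc, ← Real.rpow_add hmpos]
      have : -(1 + η / 2) + (1 + η) = η / 2 := by ring
      rw [this]
      calc _ ≤ (m : ℝ) ^ (η / 2) / (η / 2) := e1.trans e2
        _ = _ := by field_simp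
    refine e3.trans ?_
    rw [mul_assoc]
    apply mul_le_mul_of_nonneg_left _ (by positivity)
    have e4 : ((k + 1 : ℕ) : ℝ) * Q ≤ m := by
      rw [hm]; push_cast; linarith
    have e5 : (m : ℝ) ^ (-(1 + η / 2)) ≤ (((k + 1 : ℕ) : ℝ) * Q) ^ (-(1 + η / 2)) :=
      Real.rpow_le_rpow_of_nonpos (by positivity) e4 (by linarith)
    refine e5.trans ?_
    rw [Real.mul_rpow hkpos.le hQr.le, mul_comm]
    apply mul_le_mul_of_nonneg_right _ (Real.rpow_nonneg hkpos.le _)
    have hQ1 : (1 : ℝ) ≤ Q := by exact_mod_cast hQ0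
    calc (Q : ℝ) ^ (-(1 + η / 2)) ≤ (Q : ℝ) ^ (-1 : ℝ) :=
          Real.rpow_le_rpow_of_exponent_le hQ1 (by linarith)
      _ = 1 / Q := by rw [Real.rpow_neg_one, one_div]
  refine (Finset.sum_le_sum h2).trans ?_
  rw [← Finset.mul_sum]
  have h3 := zsum' (a := η / 2) (by positivity) N
  have h4 : (1 : ℝ) + 1 / (η / 2) ≤ 3 / η := by
    have h5 : (1 : ℝ) ≤ 1 / η := by rw [le_div_iff₀ hη]; linarith
    have h6 : (1 : ℝ) / (η / 2) = 2 * (1 / η) := by field_simp
    have h7 : (3 : ℝ) / η = 3 * (1 / η) := by ring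
    rw [h6, h7]
    linarith
  calc (2 / η) * (1 / Q) * ∑ k ∈ Finset.range N, ((k + 1 : ℕ) : ℝ) ^ (-(1 + η / 2))
      ≤ (2 / η) * (1 / Q) * (3 / η) :=
        mul_le_mul_of_nonneg_left (h3.trans h4) (by positivity)
    _ = 6 / (η ^ 2 * Q) := by field_simp; norm_num

theorem ldsum : T2 := by
  classical
  intro Q _ hQ η hη hη1
  have hQ0 : 0 < Q := by omega
  have hQr : (0 : ℝ) < Q := by exact_mod_cast hQ0
  have hphi : (0 : ℝ) < Q.totient := by exact_mod_cast Nat.totient_pos.mpr hQ0
  have hs : 1 < ((1 + η : ℝ) : ℂ).re := by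
    rw [Complex.ofReal_re]; linarith
  -- all characters
  have hall : (∑ χ : DirichletCharacter ℂ Q,
      (logDeriv (DirichletCharacter.LFunction χ) ((1 + η : ℝ) : ℂ)).re)
        = -(Q.totient : ℝ) *
          (LSeries (fun n => (ArithmeticFunction.vonMangoldt.residueClass (1 : ZMod Q) n : ℂ))
            ((1 + η : ℝ) : ℂ)).re := by
    have h := ArithmeticFunction.vonMangoldt.LSeries_residueClass_eq (q := Q) (a := 1)
      isUnit_one hs
    have h2 : (∑ χ : DirichletCharacter ℂ Q,
        logDeriv (DirichletCharacter.LFunction χ) ((1 + η : ℝ) : ℂ))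
        = -(Q.totient : ℂ) *
          (LSeries (fun n => (ArithmeticFunction.vonMangoldt.residueClass (1 : ZMod Q) n : ℂ))
            ((1 + η : ℝ) : ℂ)) := by
      have h3 : (Q.totient : ℂ) ≠ 0 := by exact_mod_cast hphi.ne'
      rw [h, ← mul_assoc, neg_mul_neg, mul_inv_cancel₀ h3, one_mul]
      refine Finset.sum_congr rfl fun χ _ => ?_
      have h5 : χ (1 : ZMod Q)⁻¹ = 1 := by
        rw [ZMod.inv_one, map_one]
      rw [h5, one_mul, logDeriv_apply]
    have h4 := congrArg Complex.re h2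
    rw [Complex.re_sum] at h4
    rw [h4]
    have : (-(Q.totient : ℂ)) = ((-(Q.totient : ℝ) : ℝ) : ℂ) := by push_cast; rfl
    rw [this, Complex.re_ofReal_mul]
  -- the principal character
  have hprin : (logDeriv (DirichletCharacter.LFunction (1 : DirichletCharacter ℂ Q))
      ((1 + η : ℝ) : ℂ)).re ≤ 0 := by
    have h := DirichletCharacter.LSeries_twist_vonMangoldt_eq (1 : DirichletCharacter ℂ Q) hs
    have h1 : logDeriv (DirichletCharacter.LFunction (1 : DirichletCharacter ℂ Q))
        ((1 + η : ℝ) : ℂ) = - LSeries ((fun n : ℕ => (1 : DirichletCharacter ℂ Q) n) *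
          (fun n => (ArithmeticFunction.vonMangoldt n : ℂ))) ((1 + η : ℝ) : ℂ) := by
      rw [h, logDeriv_apply, DirichletCharacter.deriv_LFunction_eq_deriv_LSeries _ hs,
        DirichletCharacter.LFunction_eq_LSeries _ hs]
      ring
    have hsum := DirichletCharacter.LSeriesSummable_twist_vonMangoldt
      (1 : DirichletCharacter ℂ Q) hs
    have hfun : ((fun n : ℕ => (1 : DirichletCharacter ℂ Q) n) *
          (fun n => (ArithmeticFunction.vonMangoldt n : ℂ)))
        = fun n : ℕ => (((if IsUnit (n : ZMod Q) then ArithmeticFunction.vonMangoldt n else 0) : ℝ) : ℂ) := by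
      funext n
      simp only [Pi.mul_apply]
      by_cases hu : IsUnit (n : ZMod Q)
      · rw [MulChar.one_apply hu, if_pos hu, one_mul]
      · rw [MulChar.map_nonunit _ hu, if_neg hu]
        simp
    rw [hfun] at hsum h1
    have h2 := (lseries_re hsum).2
    rw [h1, Complex.neg_re, h2, neg_nonpos]
    apply tsum_nonneg
    intro n
    split_ifs
    · exact le_rfl
    · exact div_nonneg ArithmeticFunction.vonMangoldt_nonneg (Real.rpow_nonneg (Nat.cast_nonneg _) _)
    · simp
  -- the residue class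
  have hres : (LSeries (fun n => (ArithmeticFunction.vonMangoldt.residueClass (1 : ZMod Q) n : ℂ))
            ((1 + η : ℝ) : ℂ)).re ≤ 6 / (η ^ 2 * Q) := by
    have hsum : LSeriesSummable
        (fun n => (ArithmeticFunction.vonMangoldt.residueClass (1 : ZMod Q) n : ℂ))
          ((1 + η : ℝ) : ℂ) := by
      apply LSeriesSummable_of_abscissaOfAbsConv_lt_re
      refine lt_of_le_of_lt
        (ArithmeticFunction.vonMangoldt.abscissaOfAbsConv_residueClass_le_one _) ?_
      exact_mod_cast hs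
    obtain ⟨hS, hR⟩ := lseries_re hsum
    rw [hR]
    apply Real.tsum_le_of_sum_range_le
    · intro n
      split_ifs
      · exact le_rfl
      · exact div_nonneg (ArithmeticFunction.vonMangoldt.residueClass_nonneg _ _)
          (Real.rpow_nonneg (Nat.cast_nonneg _) _)
    · intro N
      exact resbound hQ hη hη1 N
  have hsplit := Finset.add_sum_erase (Finset.univ : Finset (DirichletCharacter ℂ Q))
    (fun χ => (logDeriv (DirichletCharacter.LFunction χ) ((1 + η : ℝ) : ℂ)).re)
    (Finset.mem_univ 1)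
  have h5 := mul_le_mul_of_nonneg_left hres hphi.le
  rw [hall] at hsplit
  linarith

end H37F
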