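import Pool.Agent.Helper37.VFG.Def

set_option autoImplicit false

namespace H37F

open Complex

theorem par_avg : T4 := by
  classical
  intro Q _ hQ A B
  have hne : (-1 : ZMod Q) ≠ 1 := by
    intro h
    have h2 : ((2 : ℕ) : ZMod Q) = 0 := by
      have : (1 : ZMod Q) + 1 = 0 := by
        nth_rewrite 1 [← h]
        ring
      push_cast
      rw [← this]
      norm_num
    rw [ZMod.natCast_eq_zero_iff] at h2
    have := Nat.le_of_dvd (by norm_num) h2
    omega
  have hsum : ∑ χ : DirichletCharacter ℂ Q, χ (-1) = 0 := by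
    rw [DirichletCharacter.sum_characters_eq ℂ (-1 : ZMod Q), if_neg hne]
  have hcard : (∑ _χ : DirichletCharacter ℂ Q, (1 : ℂ)) = (Q.totient : ℂ) := by
    have := DirichletCharacter.sum_characters_eq ℂ (1 : ZMod Q)
    rw [if_pos rfl] at this
    rw [← this]
    exact Finset.sum_congr rfl fun χ _ => (map_one χ).symm
  have hval : ∀ χ : DirichletCharacter ℂ Q, (((if χ.Even then A else B : ℝ)) : ℂ)
      = ((A + B) / 2 : ℂ) * 1 + ((A - B) / 2 : ℂ) * χ (-1) := by
    intro χ
    rcases χ.even_or_odd with h | h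
    · rw [if_pos h, show χ (-1) = 1 from h]
      ring
    · have hn : ¬ χ.Even := by
        intro h'
        have e1 : χ (-1) = 1 := h'
        have e2 : χ (-1) = -1 := h
        rw [e1] at e2
        norm_num at e2
      rw [if_neg hn, show χ (-1) = -1 from h]
      ring
  have hC : ((∑ χ : DirichletCharacter ℂ Q, (if χ.Even then A else B) : ℝ) : ℂ)
      = (((Q.totient : ℝ) * ((A + B) / 2) : ℝ) : ℂ) := by
    rw [Complex.ofReal_sum, Finset.sum_congr rfl fun χ _ => hval χ, Finset.sum_add_distrib,
      ← Finset.mul_sum, ← Finset.mul_sum, hsum, hcard]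
    push_cast
    ring
  exact_mod_cast hC

end H37F
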