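import Pool.Agent.Helper37.VFG.One
import Pool.Agent.Helper37.VFG.Orth
import Pool.Agent.Helper37.VFG.Cond
import Pool.Agent.Helper37.VFG.Par

/-! Averages over the characters mod `Q`. -/

set_option autoImplicit false
set_option linter.unusedSectionVars false

open MeasureTheory Filter Topology Set Complex H37F

namespace Pool.Agent.Helper37.VFG

open H370.DL H429.GP H855R2.SF

noncomputable section

/-- the constant `C_Q` of the problem -/
def CQ (Q : ℕ) : ℝ := (∑ p ∈ Q.primeFactors, Real.log (p : ℝ) / ((p : ℝ) - 1)) + Real.eulerMascheroniConstant +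
  Real.log (2 * Real.pi)

open Classical in
/-- the nonprincipal characters -/
def NP (Q : ℕ) [NeZero Q] : Finset (DirichletCharacter ℂ Q) := (Finset.univ : Finset (DirichletCharacter ℂ Q)).erase 1

lemma mem_NP {Q : ℕ} [NeZero Q] {χ : DirichletCharacter ℂ Q} : χ ∈ NP Q ↔ χ ≠ 1 := by
  unfold NP; simp

lemma sum_NP {Q : ℕ} [NeZero Q] (f : DirichletCharacter ℂ Q → ℝ) : ∑ χ ∈ NP Q, f χ = (∑ χ, f χ) - f 1 := by
  unfold NP
  rw [← Finset.sum_erase_add Finset.univ f (Finset.mem_univ 1)]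
  ring

lemma card_chars (Q : ℕ) [NeZero Q] : ((Finset.univ : Finset (DirichletCharacter ℂ Q)).card : ℝ) = (Q.totient : ℝ) := by
  rw [Finset.card_univ, ← Nat.card_eq_fintype_card, DirichletCharacter.card_eq_totient_of_hasEnoughRootsOfUnity]

lemma card_NP (Q : ℕ) [NeZero Q] : ((NP Q).card : ℝ) ≤ (Q.totient : ℝ) := by
  rw [← card_chars Q]
  exact_mod_cast Finset.card_le_card (Finset.subset_univ _)

lemma gr_one_neg : gr 1 < 0 := by
  have h := Complex.hasDerivAt_Gammaℝ_one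
  unfold gr
  have e : Gammaℝ 1 = 1 := Complex.Gammaℝ_one
  rw [ofReal_one, logDeriv_apply, h.deriv, e, div_one]
  have e2 : Complex.log (4 * Real.pi) = ((Real.log (4 * Real.pi) : ℝ) : ℂ) := by
    rw [Complex.ofReal_log (by positivity)]; push_cast; rfl
  rw [e2]
  have e3 : (-((Real.eulerMascheroniConstant : ℂ) + ((Real.log (4 * Real.pi) : ℝ) : ℂ)) / 2) =
      ((-(Real.eulerMascheroniConstant + Real.log (4 * Real.pi)) / 2 : ℝ) : ℂ) := by push_cast; ring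
  rw [e3, ofReal_re]
  have h1 : 0 < Real.eulerMascheroniConstant := by
    have := Real.one_half_lt_eulerMascheroniConstant
    linarith
  have h2 : 0 < Real.log (4 * Real.pi) := Real.log_pos (by linarith [Real.pi_gt_three])
  linarith

lemma EE_one_nonneg {Q : ℕ} [NeZero Q] {s : ℝ} (hs : 0 < s) : 0 ≤ EE (1 : DirichletCharacter ℂ Q) (s : ℂ) := by
  unfold EE
  refine Finset.sum_nonneg fun p hp => ?_
  have hpp := Nat.prime_of_mem_primeFactors hp
  have hp1 : (1:ℝ) < p := by exact_mod_cast hpp.one_lt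
  have h1 : ((1 : DirichletCharacter ℂ Q).primitiveCharacter) (p : ZMod (1 : DirichletCharacter ℂ Q).conductor) = 1 := by
    rw [DirichletCharacter.primitiveCharacter_one]
    apply MulChar.one_apply
    have hc : (1 : DirichletCharacter ℂ Q).conductor = 1 := DirichletCharacter.conductor_one
    have : Subsingleton (ZMod (1 : DirichletCharacter ℂ Q).conductor) := by rw [hc]; infer_instance
    exact isUnit_of_subsingleton _
  rw [h1]
  have h2 : ((p : ℂ) ^ (-(s : ℂ))) = (((p : ℝ) ^ (-s) : ℝ) : ℂ) := by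
    rw [Complex.ofReal_cpow (by linarith)]; push_cast; rfl
  rw [h2]
  have h3 : (1 * (Real.log (p : ℝ) : ℂ) * (((p : ℝ) ^ (-s) : ℝ) : ℂ) / (1 - 1 * (((p : ℝ) ^ (-s) : ℝ) : ℂ))) =
      ((Real.log (p : ℝ) * (p : ℝ) ^ (-s) / (1 - (p : ℝ) ^ (-s)) : ℝ) : ℂ) := by push_cast; ring
  rw [h3, ofReal_re]
  have h4 := pow_lt_one' hpp hs
  have h5 : 0 ≤ Real.log (p : ℝ) := Real.log_nonneg hp1.le
  have h6 : 0 < 1 - (p : ℝ) ^ (-s) := by linarith
  positivity

theorem sum_gr {Q : ℕ} [NeZero Q] (hQ : 3 ≤ Q) (x : ℝ) :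
    ∑ χ : DirichletCharacter ℂ Q, gr (1 + x + par χ) = (Q.totient : ℝ) * ((gr (1 + x) + gr (2 + x)) / 2) := by
  rw [← par_avg Q hQ (gr (1 + x)) (gr (2 + x))]
  refine Finset.sum_congr rfl fun χ _ => ?_
  unfold par
  split_ifs
  · rw [add_zero]
  · congr 1; ring

/-- the average of the sums over the zeros -/
theorem sum_PX (hT5 : T5) {Q : ℕ} [NeZero Q] (hQ : 3 ≤ Q) {x : ℝ} (hx : 0 < x) (hx1 : x ≤ 1) :
    (Q.totient : ℝ) * (Real.log Q - (∑ p ∈ Q.primeFactors, Real.log (p : ℝ) / ((p : ℝ) - 1)) + (gr (1 + x) + gr (2 + x)) -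
      12 / (x ^ 2 * Q) - 8 * Real.log Q / Q) - 2 * gr (1 + x) ≤ ∑ χ ∈ NP Q, 2 * PX χ ((1 / 2 + x : ℝ) : ℂ) := by
  have e : ∑ χ ∈ NP Q, 2 * PX χ ((1 / 2 + x : ℝ) : ℂ) = ∑ χ ∈ NP Q, (Real.log χ.conductor + 2 * gr (1 + x + par χ) +
      2 * (logDeriv (DirichletCharacter.LFunction χ) ((1 + x : ℝ) : ℂ)).re - 2 * EE χ ((1 + x : ℝ) : ℂ)) := by
    refine Finset.sum_congr rfl fun χ hχ => ?_
    rw [PX_real (mem_NP.1 hχ) hx.le]
    ring
  rw [e, Finset.sum_sub_distrib, Finset.sum_add_distrib, Finset.sum_add_distrib, ← Finset.mul_sum, ← Finset.mul_sum,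
    ← Finset.mul_sum, sum_NP (fun χ => Real.log χ.conductor), sum_NP (fun χ => gr (1 + x + par χ)),
    sum_NP (fun χ => EE χ ((1 + x : ℝ) : ℂ)), cond_avg Q, sum_gr hQ]
  have h1 : Real.log ((1 : DirichletCharacter ℂ Q).conductor : ℝ) = 0 := by
    rw [DirichletCharacter.conductor_one]; simp
  have h2 := ldsum Q (by omega) x hx hx1
  have h3 := hT5 Q (by omega) (1 + x) (by linarith)
  have h4 := EE_one_nonneg (Q := Q) (s := 1 + x) (by linarith)
  have h5 : par (1 : DirichletCharacter ℂ Q) = 0 := by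
    unfold par
    rw [if_pos]
    unfold DirichletCharacter.Even
    apply MulChar.one_apply
    exact isUnit_one.neg
  rw [h1, h5, add_zero]
  have h6 : ∑ χ ∈ NP Q, (logDeriv (DirichletCharacter.LFunction χ) ((1 + x : ℝ) : ℂ)).re ≥
      -((Q.totient : ℝ) * (6 / (x ^ 2 * Q))) := h2
  have e1 : (Q.totient : ℝ) * (12 / (x ^ 2 * Q)) = 2 * ((Q.totient : ℝ) * (6 / (x ^ 2 * Q))) := by ring
  have e2 : (Q.totient : ℝ) * (8 * Real.log Q / Q) = 2 * ((Q.totient : ℝ) * (4 * Real.log (Q : ℝ) / (Q : ℝ))) := by ring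
  have e3 : (Q.totient : ℝ) * (Real.log Q - (∑ p ∈ Q.primeFactors, Real.log (p : ℝ) / ((p : ℝ) - 1)) + (gr (1 + x) + gr (2 + x)) -
      12 / (x ^ 2 * Q) - 8 * Real.log Q / Q) = (Q.totient : ℝ) * (Real.log Q - (∑ p ∈ Q.primeFactors, Real.log (p : ℝ) / ((p : ℝ) - 1))) +
      (Q.totient : ℝ) * (gr (1 + x) + gr (2 + x)) - (Q.totient : ℝ) * (12 / (x ^ 2 * Q)) - (Q.totient : ℝ) * (8 * Real.log Q / Q) := by ring
  rw [e3, e1, e2]
  linarith

lemma tendsto_logQ : Tendsto (fun Q : ℕ => Real.log (Q : ℝ) / (Q : ℝ)) atTop (𝓝 0) := by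
  have h := Real.isLittleO_log_id_atTop.tendsto_div_nhds_zero
  exact h.comp tendsto_natCast_atTop_atTop

/-- `Q^{-1/3}` -/
def xQ (Q : ℕ) : ℝ := (Q : ℝ) ^ (-(1 / 3) : ℝ)

lemma xQ_pos {Q : ℕ} (hQ : 0 < Q) : 0 < xQ Q := by
  unfold xQ
  have : (0:ℝ) < Q := by exact_mod_cast hQ
  positivity

lemma xQ_tendsto : Tendsto xQ atTop (𝓝 0) :=
  (tendsto_rpow_neg_atTop (by norm_num : (0:ℝ) < 1 / 3)).comp tendsto_natCast_atTop_atTop

lemma xQ_log_tendsto : Tendsto (fun Q => xQ Q * Real.log (Q : ℝ)) atTop (𝓝 0) := by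
  have h := (isLittleO_log_rpow_atTop (by norm_num : (0:ℝ) < 1 / 3)).tendsto_div_nhds_zero
  refine (h.comp tendsto_natCast_atTop_atTop).congr' ?_
  filter_upwards [eventually_gt_atTop 0] with Q hQ
  have : (0:ℝ) < Q := by exact_mod_cast hQ
  simp only [Function.comp_apply, xQ]
  rw [Real.rpow_neg this.le]
  field_simp

lemma xQ_sq {Q : ℕ} (hQ : 0 < Q) {x : ℝ} (hx : xQ Q ≤ x) : 12 / (x ^ 2 * Q) ≤ 12 * xQ Q := by
  have hq : (0:ℝ) < Q := by exact_mod_cast hQ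
  have h0 := xQ_pos hQ
  have h1 : xQ Q ^ 3 * Q = 1 := by
    unfold xQ
    rw [← Real.rpow_natCast, ← Real.rpow_mul hq.le]
    norm_num
    rw [Real.rpow_neg_one]
    field_simp
  have h2 : xQ Q ^ 2 ≤ x ^ 2 := pow_le_pow_left₀ h0.le hx 2
  have hx0 : 0 < x := by linarith
  rw [div_le_iff₀ (by positivity)]
  have h3 : 1 ≤ xQ Q * (x ^ 2 * Q) := by
    calc 1 = xQ Q * (xQ Q ^ 2 * Q) := by rw [← h1]; ring
      _ ≤ _ := by gcongr
  linarith

/-- **the average of the sums over the zeros, asymptotic form** -/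
theorem sum_PX_ge (hT5 : T5) {ε : ℝ} (hε : 0 < ε) : ∃ η : ℝ, 0 < η ∧ η ≤ 1 ∧ ∀ᶠ Q : ℕ in atTop, ∀ _ : NeZero Q, ∀ x : ℝ,
    xQ Q ≤ x → x ≤ η → (Q.totient : ℝ) * (Real.log Q - CQ Q - ε) ≤ ∑ χ ∈ NP Q, 2 * PX χ ((1 / 2 + x : ℝ) : ℂ) := by
  have hc1 : ContinuousAt (fun x : ℝ => gr (1 + x)) 0 := by
    have : ContinuousAt gr (1 + 0) := gr_cont (by norm_num)
    exact ContinuousAt.comp (f := fun x : ℝ => 1 + x) this (by fun_prop)
  have hc2 : ContinuousAt (fun x : ℝ => gr (2 + x)) 0 := by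
    have : ContinuousAt gr (2 + 0) := gr_cont (by norm_num)
    exact ContinuousAt.comp (f := fun x : ℝ => 2 + x) this (by fun_prop)
  have hc3 := hc1.add hc2
  have hs : gr (1 + 0) + gr (2 + 0) = -(Real.eulerMascheroniConstant + Real.log (2 * Real.pi)) := by
    rw [add_zero, add_zero]; exact gr_sum
  have ev1 : ∀ᶠ x : ℝ in 𝓝 0, gr (1 + x) < 0 := by
    apply hc1.eventually_lt_const
    simp only [add_zero]; exact gr_one_neg
  have ev2 : ∀ᶠ x : ℝ in 𝓝 0, -(Real.eulerMascheroniConstant + Real.log (2 * Real.pi)) - ε / 3 < gr (1 + x) + gr (2 + x) := by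
    apply hc3.eventually_const_lt
    simp only [Pi.add_apply]
    rw [hs]; linarith
  obtain ⟨r, hr, hr2⟩ := Metric.eventually_nhds_iff.1 (ev1.and ev2)
  refine ⟨min (r / 2) 1, by positivity, min_le_right _ _, ?_⟩
  have ev3 : ∀ᶠ Q : ℕ in atTop, 12 * xQ Q < ε / 3 := by
    have := xQ_tendsto.const_mul 12
    rw [mul_zero] at this
    exact this.eventually_lt_const (by positivity)
  have ev4 : ∀ᶠ Q : ℕ in atTop, 8 * (Real.log (Q : ℝ) / (Q : ℝ)) < ε / 3 := by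
    have := tendsto_logQ.const_mul 8
    rw [mul_zero] at this
    exact this.eventually_lt_const (by positivity)
  filter_upwards [ev3, ev4, eventually_ge_atTop 3] with Q h3 h4 hQ
  intro _ x hx hxη
  have hx0 : 0 < x := lt_of_lt_of_le (xQ_pos (by omega)) hx
  have hx1 : x ≤ 1 := hxη.trans (min_le_right _ _)
  have hxr : dist x 0 < r := by
    rw [Real.dist_eq, sub_zero, abs_of_pos hx0]
    have := hxη.trans (min_le_left _ _)
    linarith
  obtain ⟨g1, g2⟩ := hr2 hxr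
  have h5 := sum_PX hT5 hQ hx0 hx1
  have h6 := xQ_sq (Q := Q) (by omega) hx
  have h7 : 8 * Real.log Q / Q = 8 * (Real.log (Q : ℝ) / (Q : ℝ)) := by ring
  have hφ : (0:ℝ) ≤ Q.totient := Nat.cast_nonneg _
  have h8 : (Q.totient : ℝ) * (Real.log Q - CQ Q - ε) ≤
      (Q.totient : ℝ) * (Real.log Q - (∑ p ∈ Q.primeFactors, Real.log (p : ℝ) / ((p : ℝ) - 1)) + (gr (1 + x) + gr (2 + x)) -
      12 / (x ^ 2 * Q) - 8 * Real.log Q / Q) := by
    refine mul_le_mul_of_nonneg_left ?_ hφ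
    unfold CQ
    rw [h7]
    linarith
  linarith

end

end Pool.Agent.Helper37.VFG
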