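import Pool.Agent.Helper37.VFG.Asm
import Pool.Agent.Helper37.WMH.Abel

/-! The logarithmic mean of `G(x,Q)` from below. -/

set_option autoImplicit false
set_option linter.unusedSectionVars false

open MeasureTheory Filter Topology Set Complex H37F
open scoped ENNReal

namespace Pool.Agent.Helper37.VFG

noncomputable section

/-- `G(e^u,Q) e^{-u}` -/
def ge (Q : ℕ) (u : ℝ) : ℝ := GV Q (Real.exp u) * Real.exp (-u)

lemma ge_nonneg (Q : ℕ) (u : ℝ) : 0 ≤ ge Q u := mul_nonneg (GV_nonneg _ _) (Real.exp_pos _).le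

lemma ge_meas (Q : ℕ) : Measurable (ge Q) := by
  have := GV_meas Q
  unfold ge
  fun_prop

lemma psiAP_le (Q a : ℕ) {x : ℝ} (hx : 0 ≤ x) : psiAP Q a x ≤ (Real.log 4 + 4) * x := by
  refine le_trans ?_ (Chebyshev.psi_le_const_mul_self hx)
  unfold psiAP Chebyshev.psi
  exact Finset.sum_le_sum_of_subset_of_nonneg (Finset.filter_subset _ _)
    fun _ _ _ => ArithmeticFunction.vonMangoldt_nonneg

lemma psiAP_nonneg (Q a : ℕ) (x : ℝ) : 0 ≤ psiAP Q a x :=
  Finset.sum_nonneg fun _ _ => ArithmeticFunction.vonMangoldt_nonneg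

lemma GV_bound (Q : ℕ) : ∃ C : ℝ, 0 ≤ C ∧ ∀ x : ℝ, 0 ≤ x → GV Q x ≤ C * x ^ 2 := by
  refine ⟨Q * (Real.log 4 + 4 + 1 / (Q.totient : ℝ)) ^ 2, by positivity, fun x hx => ?_⟩
  unfold GV
  have h0 : 0 ≤ 1 / (Q.totient : ℝ) := by positivity
  have hl : 0 ≤ Real.log 4 := Real.log_nonneg (by norm_num)
  calc ∑ a ∈ (Finset.range Q).filter (fun a => Nat.Coprime a Q), (psiAP Q a x - x / (Nat.totient Q : ℝ)) ^ 2 ≤
      ∑ a ∈ (Finset.range Q).filter (fun a => Nat.Coprime a Q), ((Real.log 4 + 4 + 1 / (Q.totient : ℝ)) * x) ^ 2 := by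
        refine Finset.sum_le_sum fun a _ => sq_le_sq' ?_ ?_
        · have h1 := psiAP_nonneg Q a x
          have h2 : x / (Nat.totient Q : ℝ) = 1 / (Q.totient : ℝ) * x := by ring
          rw [h2]
          nlinarith [mul_nonneg hl hx]
        · have h1 := psiAP_le Q a hx
          have h2 : 0 ≤ x / (Nat.totient Q : ℝ) := by positivity
          have h3 : 0 ≤ 1 / (Q.totient : ℝ) * x := by positivity
          nlinarith
    _ = ((Finset.range Q).filter (fun a => Nat.Coprime a Q)).card * ((Real.log 4 + 4 + 1 / (Q.totient : ℝ)) * x) ^ 2 := by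
        rw [Finset.sum_const, nsmul_eq_mul]
    _ ≤ Q * ((Real.log 4 + 4 + 1 / (Q.totient : ℝ)) * x) ^ 2 := by
        refine mul_le_mul_of_nonneg_right ?_ (sq_nonneg _)
        have := Finset.card_filter_le (Finset.range Q) (fun a => Nat.Coprime a Q)
        rw [Finset.card_range] at this
        exact_mod_cast this
    _ = _ := by ring

lemma GV_int (Q : ℕ) {X : ℝ} : IntegrableOn (fun x => GV Q x / x ^ 2) (Ioc 1 X) := by
  obtain ⟨C, hC, hb⟩ := GV_bound Q
  have hm : Measurable (fun x => GV Q x / x ^ 2) := by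
    have := GV_meas Q
    fun_prop
  refine Measure.integrableOn_of_bounded (M := C) (by simp) hm.aestronglyMeasurable ?_
  filter_upwards [ae_restrict_mem measurableSet_Ioc] with x hx
  have hx1 : (1:ℝ) < x := hx.1
  have hx2 : (0:ℝ) < x ^ 2 := by positivity
  rw [Real.norm_of_nonneg (div_nonneg (GV_nonneg _ _) hx2.le), div_le_iff₀ hx2]
  exact hb x (by linarith)

/-- the change of variables -/
lemma log_int (Q : ℕ) {V : ℝ} (hV : 0 ≤ V) : ∫⁻ u in Ioc 0 V, ENNReal.ofReal (ge Q u) =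
    ENNReal.ofReal (∫ x in (1:ℝ)..Real.exp V, GV Q x / x ^ 2) := by
  rw [intervalIntegral.integral_of_le (Real.one_le_exp hV), ofReal_integral_eq_lintegral_ofReal (GV_int Q)
    (Eventually.of_forall fun x => div_nonneg (GV_nonneg _ _) (sq_nonneg _))]
  have h := lintegral_image_eq_lintegral_abs_deriv_mul (s := Ioc 0 V) (f := Real.exp) (f' := Real.exp)
    measurableSet_Ioc (fun x _ => (Real.hasDerivAt_exp x).hasDerivWithinAt) (Real.exp_injective.injOn)
    (fun x => ENNReal.ofReal (GV Q x / x ^ 2))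
  have himg : Real.exp '' Ioc 0 V = Ioc 1 (Real.exp V) := by
    ext y
    simp only [mem_image, mem_Ioc]
    constructor
    · rintro ⟨x, hx, rfl⟩
      exact ⟨Real.one_lt_exp_iff.2 hx.1, Real.exp_le_exp.2 hx.2⟩
    · intro hy
      exact ⟨Real.log y, ⟨Real.log_pos hy.1, by rw [Real.log_le_iff_le_exp (by linarith [hy.1])]; exact hy.2⟩,
        Real.exp_log (by linarith [hy.1])⟩
  rw [himg] at h
  rw [h]
  refine setLIntegral_congr_fun measurableSet_Ioc fun u _ => ?_
  rw [abs_of_pos (Real.exp_pos u), ← ENNReal.ofReal_mul (Real.exp_pos u).le]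
  congr 1
  unfold ge
  rw [Real.exp_neg]
  have := Real.exp_pos u
  field_simp

lemma VG_ge (Q : ℕ) (δ : ℝ) : VG Q δ = ∫⁻ u in Ioi (0:ℝ), ENNReal.ofReal (ge Q u) * ENNReal.ofReal (Real.exp (-(2 * δ * u))) := by
  rw [VG_exp]
  refine lintegral_congr fun u => ?_
  rw [← ENNReal.ofReal_mul (ge_nonneg _ _)]
  congr 1
  unfold ge
  rw [mul_assoc, ← Real.exp_add]
  ring_nf

/-- an upper bound for the logarithmic means bounds the weighted means -/
theorem VG_le {Q : ℕ} {B X₀ : ℝ} (hB : 0 ≤ B)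
    (h : ∀ X : ℝ, X₀ ≤ X → 1 < X → ∫ x in (1:ℝ)..X, GV Q x / x ^ 2 ≤ B * Real.log X) :
    ∃ D : ℝ, 0 ≤ D ∧ ∀ δ : ℝ, 0 < δ → VG Q δ < ⊤ ∧ 2 * δ * (VG Q δ).toReal ≤ B + 2 * δ * D := by
  have hmono : ∀ X Y : ℝ, 1 ≤ X → X ≤ Y → ∫ x in (1:ℝ)..X, GV Q x / x ^ 2 ≤ ∫ x in (1:ℝ)..Y, GV Q x / x ^ 2 := by
    intro X Y h1 h2
    rw [intervalIntegral.integral_of_le h1, intervalIntegral.integral_of_le (h1.trans h2)]
    exact setIntegral_mono_set (GV_int Q) (Eventually.of_forall fun x => div_nonneg (GV_nonneg _ _) (sq_nonneg _))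
      (Eventually.of_forall (Ioc_subset_Ioc_right h2))
  set X₁ : ℝ := max X₀ 2 with hX₁
  have hX1 : 2 ≤ X₁ := le_max_right _ _
  set D : ℝ := ∫ x in (1:ℝ)..X₁, GV Q x / x ^ 2 with hD
  have hD0 : 0 ≤ D := by
    rw [hD, intervalIntegral.integral_of_le (by linarith)]
    exact integral_nonneg fun x => div_nonneg (GV_nonneg _ _) (sq_nonneg _)
  refine ⟨D, hD0, fun δ hδ => ?_⟩
  have hall : ∀ V : ℝ, 0 < V → ∫⁻ u in Ioc 0 V, ENNReal.ofReal (ge Q u) ≤ ENNReal.ofReal (B * V + D) := by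
    intro V hV
    rw [log_int Q hV.le]
    refine ENNReal.ofReal_le_ofReal ?_
    rcases le_total X₁ (Real.exp V) with h1 | h1
    · have h2 := h (Real.exp V) ((le_max_left _ _).trans h1) (by linarith)
      rw [Real.log_exp] at h2
      linarith
    · have h2 := hmono _ _ (Real.one_le_exp hV.le) h1
      have : 0 ≤ B * V := by positivity
      linarith
  have h1 := WMH.abel_le (f := fun u => ENNReal.ofReal (ge Q u)) ((ge_meas Q).ennreal_ofReal) hB hD0 hδ hall
  rw [← VG_ge] at h1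
  refine ⟨lt_of_le_of_lt h1 ENNReal.ofReal_lt_top, ?_⟩
  have h2 := ENNReal.toReal_mono ENNReal.ofReal_ne_top h1
  rw [ENNReal.toReal_ofReal (by positivity)] at h2
  have h3 := mul_le_mul_of_nonneg_left h2 (show 0 ≤ 2 * δ by linarith)
  have h4 : 2 * δ * (B / (2 * δ) + D) = B + 2 * δ * D := by field_simp
  linarith

/-- **the logarithmic mean from below** -/
theorem log_mean (hT5 : T5) {ε : ℝ} (hε : 0 < ε) : ∀ᶠ Q : ℕ in atTop, ∀ X₀ : ℝ, ∃ X : ℝ, X₀ ≤ X ∧ 1 < X ∧
    (Real.log Q - CQ Q - ε) * Real.log X ≤ ∫ x in (1:ℝ)..X, GV Q x / x ^ 2 := by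
  obtain ⟨c, hc, h⟩ := main_real hT5 (ε := ε / 2) (by positivity)
  filter_upwards [h, eventually_ge_atTop 3] with Q hQ hQ3
  intro X₀
  by_contra hcon
  push Not at hcon
  set B := Real.log Q - CQ Q - ε with hBdef
  have hB : 0 ≤ B := by
    have h1 := hcon (max X₀ 2) (le_max_left _ _) (by linarith [le_max_right X₀ 2])
    have h2 : 0 ≤ ∫ x in (1:ℝ)..max X₀ 2, GV Q x / x ^ 2 := by
      rw [intervalIntegral.integral_of_le (by linarith [le_max_right X₀ 2])]
      exact integral_nonneg fun x => div_nonneg (GV_nonneg _ _) (sq_nonneg _)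
    have h3 : 0 < Real.log (max X₀ 2) := Real.log_pos (by linarith [le_max_right X₀ 2])
    by_contra hneg
    push Not at hneg
    have := mul_neg_of_neg_of_pos hneg h3
    linarith
  obtain ⟨D, hD, hV⟩ := VG_le (Q := Q) (X₀ := X₀) hB fun X h1 h2 => (hcon X h1 h2).le
  have hl := log_ge_one hQ3
  set δ : ℝ := min (c / Real.log Q ^ 2) (ε / (8 * (D + 1))) with hδ
  have hδ0 : 0 < δ := by positivity
  obtain ⟨h1, h2⟩ := hV δ hδ0
  have h3 := hQ δ hδ0 (min_le_left _ _) h1
  have h4 : 2 * δ * D ≤ ε / 4 := by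
    have h5 : δ ≤ ε / (8 * (D + 1)) := min_le_right _ _
    rw [le_div_iff₀ (by positivity)] at h5
    nlinarith
  linarith

/-- large values -/
theorem large_values (hT5 : T5) {ε : ℝ} (hε : 0 < ε) : ∀ᶠ Q : ℕ in atTop, ∀ X₀ : ℝ, ∃ X : ℝ, X₀ ≤ X ∧
    X * (Real.log Q - CQ Q - ε) ≤ GV Q X := by
  filter_upwards [log_mean hT5 (ε := ε / 2) (by positivity)] with Q hQ
  intro X₀
  by_contra hcon
  push Not at hcon
  set B := Real.log Q - CQ Q - ε with hBdef
  set X₁ : ℝ := max X₀ 2 with hX₁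
  have hX1 : 2 ≤ X₁ := le_max_right _ _
  set D : ℝ := ∫ x in (1:ℝ)..X₁, GV Q x / x ^ 2 with hD
  have hD0 : 0 ≤ D := by
    rw [hD, intervalIntegral.integral_of_le (by linarith)]
    exact integral_nonneg fun x => div_nonneg (GV_nonneg _ _) (sq_nonneg _)
  have hB : 0 < B := by
    have h1 := hcon X₁ (le_max_left _ _)
    have h2 := GV_nonneg Q X₁
    by_contra hneg
    push Not at hneg
    have := mul_nonpos_of_nonneg_of_nonpos (show 0 ≤ X₁ by linarith) hneg
    linarith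
  obtain ⟨X, h1, h2, h3⟩ := hQ (max X₁ (Real.exp (2 * (D + 1) / ε)))
  have hXX : X₁ ≤ X := (le_max_left _ _).trans h1
  have hsplit : ∫ x in (1:ℝ)..X, GV Q x / x ^ 2 = D + ∫ x in X₁..X, GV Q x / x ^ 2 := by
    rw [hD, intervalIntegral.integral_add_adjacent_intervals]
    · exact (intervalIntegrable_iff_integrableOn_Ioc_of_le (by linarith)).2 (GV_int Q)
    · exact (intervalIntegrable_iff_integrableOn_Ioc_of_le hXX).2 ((GV_int Q).mono_set (Ioc_subset_Ioc_left (by linarith)))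
  have hle : ∫ x in X₁..X, GV Q x / x ^ 2 ≤ ∫ x in X₁..X, B * x⁻¹ := by
    apply intervalIntegral.integral_mono_on hXX
    · exact (intervalIntegrable_iff_integrableOn_Ioc_of_le hXX).2 ((GV_int Q).mono_set (Ioc_subset_Ioc_left (by linarith)))
    · apply IntervalIntegrable.const_mul
      apply intervalIntegral.intervalIntegrable_inv (fun x hx => ?_) continuousOn_id
      rw [uIcc_of_le hXX] at hx
      have := hx.1
      simp only [id]
      linarith
    · intro x hx
      have hx0 : 0 < x := by linarith [hx.1]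
      have h4 := hcon x ((le_max_left _ _).trans hx.1)
      rw [div_le_iff₀ (by positivity)]
      have : B * x⁻¹ * x ^ 2 = x * B := by field_simp
      linarith
  have hint : ∫ x in X₁..X, B * x⁻¹ = B * (Real.log X - Real.log X₁) := by
    rw [intervalIntegral.integral_const_mul, integral_inv_of_pos (by linarith) (by linarith),
      Real.log_div (by linarith) (by linarith)]
  have hlX₁ : 0 ≤ Real.log X₁ := Real.log_nonneg (by linarith)
  have hlX : 2 * (D + 1) / ε ≤ Real.log X := by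
    rw [Real.le_log_iff_exp_le (by linarith)]
    exact (le_max_right _ _).trans h1
  rw [div_le_iff₀ hε] at hlX
  rw [hsplit] at h3
  have h5 : (Real.log Q - CQ Q - ε / 2) = B + ε / 2 := by rw [hBdef]; ring
  rw [h5] at h3
  have h6 : 0 ≤ B * Real.log X₁ := by positivity
  nlinarith

end

end Pool.Agent.Helper37.VFG
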