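import Mathlib

set_option autoImplicit false

namespace H37F

open Complex

/-- `ψ(x;Q,a) = ∑_{1 ≤ n ≤ x, n % Q = a} Λ(n)`. -/
noncomputable def psiAP (Q a : ℕ) (x : ℝ) : ℝ :=
  ∑ n ∈ (Finset.Icc 1 ⌊x⌋₊).filter (fun n => n % Q = a), ArithmeticFunction.vonMangoldt n

/-- `G(x,Q)`: the variance of the primes in the reduced classes mod `Q`. -/
noncomputable def GV (Q : ℕ) (x : ℝ) : ℝ :=
  ∑ a ∈ (Finset.range Q).filter (fun a => Nat.Coprime a Q),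
    (psiAP Q a x - x / (Nat.totient Q : ℝ)) ^ 2

/-- `ψ(x,χ) = ∑_{n ≤ x} χ(n) Λ(n)`. -/
noncomputable def psiC {Q : ℕ} (χ : DirichletCharacter ℂ Q) (x : ℝ) : ℂ :=
  ∑ n ∈ Finset.Icc 1 ⌊x⌋₊, χ (n : ZMod Q) * ((ArithmeticFunction.vonMangoldt n : ℝ) : ℂ)

/-- The factor at the primes dividing `Q` but not the conductor. -/
noncomputable def EE {Q : ℕ} (χ : DirichletCharacter ℂ Q) (s : ℂ) : ℝ :=
  ∑ p ∈ Q.primeFactors,
    ((χ.primitiveCharacter (p : ZMod χ.conductor) * (Real.log (p : ℝ) : ℂ) * (p : ℂ) ^ (-s) /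
      (1 - χ.primitiveCharacter (p : ZMod χ.conductor) * (p : ℂ) ^ (-s)))).re

open Classical in
/-- Parseval over the characters mod `Q` (the principal one dropped). -/
def T1 : Prop := ∀ (Q : ℕ) [NeZero Q], 2 ≤ Q → ∀ x : ℝ,
  ∑ χ ∈ (Finset.univ : Finset (DirichletCharacter ℂ Q)).erase 1, ‖psiC χ x‖ ^ 2
    ≤ (Q.totient : ℝ) * GV Q x

open Classical in
/-- Sum of the logarithmic derivatives over the nonprincipal characters. -/
def T2 : Prop := ∀ (Q : ℕ) [NeZero Q], 2 ≤ Q → ∀ η : ℝ, 0 < η → η ≤ 1 →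
  -((Q.totient : ℝ) * (6 / (η ^ 2 * Q))) ≤
    ∑ χ ∈ (Finset.univ : Finset (DirichletCharacter ℂ Q)).erase 1,
      (logDeriv (DirichletCharacter.LFunction χ) ((1 + η : ℝ) : ℂ)).re

/-- Average of the logarithm of the conductor. -/
def T3 : Prop := ∀ (Q : ℕ) [NeZero Q],
  ∑ χ : DirichletCharacter ℂ Q, Real.log (χ.conductor : ℝ)
    = (Q.totient : ℝ) * (Real.log (Q : ℝ) - ∑ p ∈ Q.primeFactors, Real.log (p : ℝ) / ((p : ℝ) - 1))

open Classical in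
/-- Half of the characters mod `Q` are even. -/
def T4 : Prop := ∀ (Q : ℕ) [NeZero Q], 3 ≤ Q → ∀ A B : ℝ,
  ∑ χ : DirichletCharacter ℂ Q, (if χ.Even then A else B) = (Q.totient : ℝ) * ((A + B) / 2)

/-- Average of the factors at the primes dividing `Q`. -/
def T5 : Prop := ∀ (Q : ℕ) [NeZero Q], 2 ≤ Q → ∀ s : ℝ, 1 ≤ s →
  ∑ χ : DirichletCharacter ℂ Q, EE χ (s : ℂ) ≤ (Q.totient : ℝ) * (4 * Real.log (Q : ℝ) / (Q : ℝ))

end H37F
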