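import Pool.Agent.Helper37.VFG.Def

set_option autoImplicit false

namespace H37F

open Complex DirichletCharacter

/-- The sum over all characters mod `Q` of a function of the value of the primitive character at a
prime `p` is a sum over the characters modulo the part of `Q` prime to `p`. -/
theorem sum_prim {Q : ℕ} [NeZero Q] {p : ℕ} (hp : p.Prime) (F : ℂ → ℝ) (hF : F 0 = 0)
    [NeZero (Q / p ^ Q.factorization p)] :
    ∑ χ : DirichletCharacter ℂ Q, F (χ.primitiveCharacter (p : ZMod χ.conductor))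
      = ∑ ψ : DirichletCharacter ℂ (Q / p ^ Q.factorization p),
          F (ψ (p : ZMod (Q / p ^ Q.factorization p))) := by
  classical
  have hcop := Nat.coprime_ordCompl hp (NeZero.ne Q)
  have hinj : Function.Injective (fun ψ : DirichletCharacter ℂ (Q / p ^ Q.factorization p) =>
      changeLevel (Nat.ordCompl_dvd Q p) ψ) := changeLevel_injective _
  have hval : ∀ ψ : DirichletCharacter ℂ (Q / p ^ Q.factorization p),
      F ((changeLevel (Nat.ordCompl_dvd Q p) ψ).primitiveCharacter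
        (p : ZMod (changeLevel (Nat.ordCompl_dvd Q p) ψ).conductor))
      = F (ψ (p : ZMod (Q / p ^ Q.factorization p))) := by
    intro ψ
    have h1 := primitiveCharacter_changeLevel_apply (Nat.ordCompl_dvd Q p) ψ (p : ℤ)
    rw [primitiveCharacter_apply_of_isCoprime ψ (Nat.isCoprime_iff_coprime.mpr hcop),
      Int.cast_natCast, Int.cast_natCast] at h1
    rw [h1]
  rw [← Finset.sum_congr rfl fun ψ _ => hval ψ,
    ← Finset.sum_image (s := Finset.univ) (g := fun ψ : DirichletCharacter ℂ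
      (Q / p ^ Q.factorization p) => changeLevel (Nat.ordCompl_dvd Q p) ψ)
      (f := fun χ : DirichletCharacter ℂ Q => F (χ.primitiveCharacter (p : ZMod χ.conductor)))
      (fun a _ b _ h => hinj h)]
  symm
  apply Finset.sum_subset (Finset.subset_univ _)
  intro χ _ hχ
  by_contra hne
  apply hχ
  rw [Finset.mem_image]
  have h0 : χ.primitiveCharacter (p : ZMod χ.conductor) ≠ 0 := by
    intro h
    apply hne
    rw [h]
    exact hF
  have hdvd : χ.conductor ∣ Q / p ^ Q.factorization p := by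
    apply Nat.dvd_ordCompl_of_dvd_not_dvd χ.conductor_dvd_level
    have h1 : IsUnit (p : ZMod χ.conductor) := by
      by_contra h2
      exact h0 (MulChar.map_nonunit _ h2)
    rw [← hp.coprime_iff_not_dvd]
    exact (ZMod.isUnit_iff_coprime p _).mp h1
  refine ⟨changeLevel hdvd χ.primitiveCharacter, Finset.mem_univ _, ?_⟩
  rw [← changeLevel_trans, changeLevel_primitiveCharacter]

/-- The sum over the characters mod `m` for a unit. -/
theorem sum_geo {m : ℕ} [NeZero m] {p : ℕ} (hcop : Nat.Coprime p m) (hp : 2 ≤ p) (x : ℝ)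
    (hx0 : 0 < x) (hx1 : x * p ≤ 1) :
    ∑ ψ : DirichletCharacter ℂ m, (ψ (p : ZMod m) * x / (1 - ψ (p : ZMod m) * x)).re
      ≤ (m.totient : ℝ) / m := by
  classical
  set u : (ZMod m)ˣ := ZMod.unitOfCoprime p hcop with hu
  set d := orderOf u with hd
  have hdpos : 0 < d := orderOf_pos u
  have hucoe : (u : ZMod m) = (p : ZMod m) := ZMod.coe_unitOfCoprime p hcop
  have hpd : ∀ k : ℕ, (p : ZMod m) ^ k = 1 ↔ d ∣ k := by
    intro k
    rw [hd, orderOf_dvd_iff_pow_eq_one, ← hucoe, ← Units.val_pow_eq_pow_val, Units.val_eq_one]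
  have hp2 : (2 : ℝ) ≤ p := by exact_mod_cast hp
  have hxlt : x < 1 := by nlinarith
  have hxd : x ^ d < 1 := pow_lt_one₀ hx0.le hxlt hdpos.ne'
  have hxdc : (1 : ℂ) - (x : ℂ) ^ d ≠ 0 := by
    have h1 : ((1 - x ^ d : ℝ) : ℂ) ≠ 0 := by
      have : (1 - x ^ d : ℝ) ≠ 0 := by linarith
      exact_mod_cast this
    push_cast at h1
    exact h1
  -- one character
  have hone : ∀ ψ : DirichletCharacter ℂ m,
      ψ (p : ZMod m) * x / (1 - ψ (p : ZMod m) * x)
        = (∑ k ∈ Finset.range d, (x : ℂ) ^ (k + 1) * ψ ((p : ZMod m) ^ (k + 1))) / (1 - (x : ℂ) ^ d) := by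
    intro ψ
    set z := ψ (p : ZMod m) with hz
    have hzd : z ^ d = 1 := by
      rw [hz, ← map_pow, (hpd d).mpr dvd_rfl, map_one]
    have hgeo := mul_neg_geom_sum (z * x) d
    rw [mul_pow, hzd, one_mul] at hgeo
    have hne : (1 : ℂ) - z * x ≠ 0 := by
      intro h
      rw [h, zero_mul] at hgeo
      exact hxdc hgeo.symm
    rw [div_eq_div_iff hne hxdc, ← hgeo]
    have : ∑ k ∈ Finset.range d, (x : ℂ) ^ (k + 1) * ψ ((p : ZMod m) ^ (k + 1))
        = z * x * ∑ k ∈ Finset.range d, (z * x) ^ k := by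
      rw [Finset.mul_sum]
      refine Finset.sum_congr rfl fun k _ => ?_
      rw [map_pow, ← hz]
      ring
    rw [this]
    ring
  have htot : ∑ ψ : DirichletCharacter ℂ m, ψ (p : ZMod m) * x / (1 - ψ (p : ZMod m) * x)
      = (((m.totient : ℝ) * (x ^ d / (1 - x ^ d)) : ℝ) : ℂ) := by
    rw [Finset.sum_congr rfl fun ψ _ => hone ψ, ← Finset.sum_div, Finset.sum_comm]
    have h1 : ∀ k ∈ Finset.range d,
        ∑ ψ : DirichletCharacter ℂ m, (x : ℂ) ^ (k + 1) * ψ ((p : ZMod m) ^ (k + 1))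
          = if k = d - 1 then (x : ℂ) ^ d * (m.totient : ℂ) else 0 := by
      intro k hk
      rw [Finset.mem_range] at hk
      rw [← Finset.mul_sum, DirichletCharacter.sum_characters_eq ℂ]
      by_cases h : k = d - 1
      · have h2 : k + 1 = d := by omega
        rw [h2, if_pos ((hpd d).mpr dvd_rfl), if_pos h]
      · rw [if_neg h, if_neg, mul_zero]
        intro h3
        have := Nat.le_of_dvd (by omega) ((hpd (k + 1)).mp h3)
        omega
    rw [Finset.sum_congr rfl h1, Finset.sum_ite_eq' (Finset.range d) (d - 1),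
      if_pos (Finset.mem_range.mpr (by omega))]
    push_cast
    ring
  have hre := congrArg Complex.re htot
  rw [Complex.re_sum, Complex.ofReal_re] at hre
  rw [hre, div_eq_mul_one_div (m.totient : ℝ) (m : ℝ)]
  apply mul_le_mul_of_nonneg_left _ (Nat.cast_nonneg _)
  have hm0 : (0 : ℝ) < m := by exact_mod_cast Nat.pos_of_ne_zero (NeZero.ne m)
  rw [div_le_div_iff₀ (by linarith) hm0]
  -- m + 1 ≤ p ^ d
  have hmp : m + 1 ≤ p ^ d := by
    have h1 : m ∣ p ^ d - 1 := by
      rw [← ZMod.natCast_eq_zero_iff, Nat.cast_sub (Nat.one_le_pow _ _ (by omega))]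
      push_cast
      rw [(hpd d).mpr dvd_rfl, sub_self]
    have h2 : 2 ≤ p ^ d := by
      calc 2 ≤ p := hp
        _ = p ^ 1 := (pow_one p).symm
        _ ≤ p ^ d := Nat.pow_le_pow_right (by omega) hdpos
    have h3 := Nat.le_of_dvd (by omega) h1
    omega
  have hmp' : (m : ℝ) + 1 ≤ (p : ℝ) ^ d := by exact_mod_cast hmp
  have h4 : x ^ d * (p : ℝ) ^ d ≤ 1 := by
    rw [← mul_pow]
    exact pow_le_one₀ (by positivity) hx1
  have h5 : x ^ d * ((m : ℝ) + 1) ≤ x ^ d * (p : ℝ) ^ d :=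
    mul_le_mul_of_nonneg_left hmp' (by positivity)
  linarith

theorem totient_cmp {Q p : ℕ} (hQ : Q ≠ 0) (hp : p.Prime) (hd : p ∣ Q) :
    ((Q / p ^ Q.factorization p).totient : ℝ) / ((Q / p ^ Q.factorization p : ℕ) : ℝ)
      ≤ 2 * ((Q.totient : ℝ) / Q) := by
  set v := Q.factorization p with hv
  set m := Q / p ^ v with hm
  have hQm : p ^ v * m = Q := Nat.ordProj_mul_ordCompl_eq_self Q p
  have hcop : Nat.Coprime (p ^ v) m := Nat.Coprime.pow_left _ (Nat.coprime_ordCompl hp hQ)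
  have hv0 : 0 < v := hp.factorization_pos_of_dvd hQ hd
  have htot : Q.totient = (p ^ v).totient * m.totient := by
    rw [← hQm, Nat.totient_mul hcop]
  have hpv : (p ^ v).totient = p ^ (v - 1) * (p - 1) := Nat.totient_prime_pow hp hv0
  have hge : p ^ v ≤ 2 * (p ^ v).totient := by
    rw [hpv]
    have : p ^ v = p ^ (v - 1) * p := by
      rw [← pow_succ]; congr 1; omega
    rw [this]
    have h2 : p ≤ 2 * (p - 1) := by have := hp.two_le; omega
    calc p ^ (v - 1) * p ≤ p ^ (v - 1) * (2 * (p - 1)) := Nat.mul_le_mul_left _ h2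
      _ = 2 * (p ^ (v - 1) * (p - 1)) := by ring
  have hm0 : 0 < m := Nat.pos_of_ne_zero (by rintro h; rw [h, mul_zero] at hQm; exact hQ hQm.symm)
  have hmr : (0 : ℝ) < m := by exact_mod_cast hm0
  have hpr : (0 : ℝ) < ((p ^ v : ℕ) : ℝ) := by exact_mod_cast pow_pos hp.pos v
  have hge' : ((p ^ v : ℕ) : ℝ) ≤ 2 * ((p ^ v).totient : ℝ) := by exact_mod_cast hge
  have hQr : (Q : ℝ) = ((p ^ v : ℕ) : ℝ) * m := by exact_mod_cast hQm.symm
  rw [htot, hQr, Nat.cast_mul, mul_div_mul_comm]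
  have h1 : (0 : ℝ) ≤ (m.totient : ℝ) / m := by positivity
  have h2 : (1 : ℝ) ≤ 2 * (((p ^ v).totient : ℝ) / ((p ^ v : ℕ) : ℝ)) := by
    rw [← mul_div_assoc, le_div_iff₀ hpr, one_mul]
    exact hge'
  calc (m.totient : ℝ) / m = 1 * ((m.totient : ℝ) / m) := (one_mul _).symm
    _ ≤ (2 * (((p ^ v).totient : ℝ) / ((p ^ v : ℕ) : ℝ))) * ((m.totient : ℝ) / m) :=
        mul_le_mul_of_nonneg_right h2 h1
    _ = _ := by ring

theorem sum_log_primeFactors {Q : ℕ} (hQ : Q ≠ 0) :
    ∑ p ∈ Q.primeFactors, Real.log (p : ℝ) ≤ Real.log Q := by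
  rw [← Real.log_prod (fun p hp => by
    have := (Nat.prime_of_mem_primeFactors hp).pos
    exact_mod_cast this.ne')]
  have h1 : ∏ p ∈ Q.primeFactors, p ≤ Q :=
    Nat.le_of_dvd (Nat.pos_of_ne_zero hQ) (Nat.prod_primeFactors_dvd Q)
  have h2 : (∏ p ∈ Q.primeFactors, (p : ℝ)) ≤ Q := by
    rw [← Nat.cast_prod]
    exact Nat.cast_le.mpr h1
  apply Real.log_le_log _ h2
  apply Finset.prod_pos
  intro p hp
  exact_mod_cast (Nat.prime_of_mem_primeFactors hp).pos

theorem EE_avg : T5 := by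
  classical
  intro Q _ hQ s hs
  have hQ0 : Q ≠ 0 := by omega
  unfold EE
  rw [Finset.sum_comm]
  have hp : ∀ p ∈ Q.primeFactors, ∑ χ : DirichletCharacter ℂ Q,
      ((χ.primitiveCharacter (p : ZMod χ.conductor) * (Real.log (p : ℝ) : ℂ) * (p : ℂ) ^ (-(s : ℂ)) /
      (1 - χ.primitiveCharacter (p : ZMod χ.conductor) * (p : ℂ) ^ (-(s : ℂ))))).re
      ≤ Real.log (p : ℝ) * (2 * ((Q.totient : ℝ) / Q)) := by
    intro p hpm
    have hpp := Nat.prime_of_mem_primeFactors hpm
    have hpd := Nat.dvd_of_mem_primeFactors hpm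
    have hpr : (0 : ℝ) < p := by exact_mod_cast hpp.pos
    have : NeZero (Q / p ^ Q.factorization p) := ⟨(Nat.ordCompl_pos p hQ0).ne'⟩
    set x : ℝ := (p : ℝ) ^ (-s) with hx
    have hxc : (p : ℂ) ^ (-(s : ℂ)) = (x : ℂ) := by
      rw [hx, Complex.ofReal_cpow hpr.le]
      push_cast
      rfl
    have hx0 : 0 < x := Real.rpow_pos_of_pos hpr _
    have hx1 : x * p ≤ 1 := by
      rw [hx]
      nth_rewrite 2 [← Real.rpow_one (p : ℝ)]
      rw [← Real.rpow_add hpr]
      apply Real.rpow_le_one_of_one_le_of_nonpos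
      · exact_mod_cast hpp.one_lt.le
      · linarith
    have hlog : 0 ≤ Real.log (p : ℝ) := Real.log_nonneg (by exact_mod_cast hpp.one_lt.le)
    rw [hxc, sum_prim hpp (fun z => (z * (Real.log (p : ℝ) : ℂ) * (x : ℂ) / (1 - z * (x : ℂ))).re)
      (by simp)]
    have hre : ∀ z : ℂ, (z * (Real.log (p : ℝ) : ℂ) * (x : ℂ) / (1 - z * (x : ℂ))).re
        = Real.log (p : ℝ) * (z * (x : ℂ) / (1 - z * (x : ℂ))).re := by
      intro z
      rw [← Complex.re_ofReal_mul]
      congr 1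
      ring
    rw [Finset.sum_congr rfl fun ψ _ => hre _, ← Finset.mul_sum]
    apply mul_le_mul_of_nonneg_left _ hlog
    exact (sum_geo (Nat.coprime_ordCompl hpp hQ0) hpp.two_le x hx0 hx1).trans
      (totient_cmp hQ0 hpp hpd)
  refine (Finset.sum_le_sum hp).trans ?_
  rw [← Finset.sum_mul]
  have h1 := sum_log_primeFactors hQ0
  have h2 : (0 : ℝ) ≤ 2 * ((Q.totient : ℝ) / Q) := by positivity
  have h3 : 0 ≤ Real.log (Q : ℝ) := Real.log_nonneg (by exact_mod_cast (by omega : 1 ≤ Q))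
  refine (mul_le_mul_of_nonneg_right h1 h2).trans ?_
  have h4 : Real.log (Q : ℝ) * (2 * ((Q.totient : ℝ) / Q))
      = (Q.totient : ℝ) * (2 * Real.log (Q : ℝ) / Q) := by ring
  rw [h4]
  apply mul_le_mul_of_nonneg_left _ (Nat.cast_nonneg _)
  apply div_le_div_of_nonneg_right _ (Nat.cast_nonneg _)
  linarith

end H37F
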