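import Pool.Agent.Helper37.VFG.Psi

/-! From a finite weighted mean square to a zero-free half plane, and the mean square of the real part
of the logarithmic derivative. -/

set_option autoImplicit false

open MeasureTheory Filter Topology Set Complex FourierTransform H37F

namespace Pool.Agent.Helper37.VFG

noncomputable section

variable {Q : ℕ}

lemma VL_int {χ : DirichletCharacter ℂ Q} {δ : ℝ} (hV : VL χ δ < ⊤) :
    Integrable (fun u => ‖pe χ u * (Real.exp (-((1 / 2 + δ) * u)) : ℂ)‖ ^ 2) := by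
  rw [VL_eq] at hV
  have hm : Measurable (fun u => ‖pe χ u * (Real.exp (-((1 / 2 + δ) * u)) : ℂ)‖ ^ 2) := by
    have := pe_meas χ
    fun_prop
  refine ⟨hm.aestronglyMeasurable, ?_⟩
  rw [hasFiniteIntegral_iff_ofReal (Eventually.of_forall fun u => by positivity)]
  exact hV

lemma exp_ind_int {b : ℝ} (hb : 0 < b) : Integrable ((Ici (0:ℝ)).indicator (fun u => Real.exp (-(b * u)))) := by
  rw [integrable_indicator_iff measurableSet_Ici, integrableOn_Ici_iff_integrableOn_Ioi]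
  have := integrableOn_exp_mul_Ioi (a := -b) (by linarith) 0
  refine this.congr (Eventually.of_forall fun u => ?_)
  simp only [neg_mul]

lemma VL_one {χ : DirichletCharacter ℂ Q} {δ a : ℝ} (hV : VL χ δ < ⊤) (ha : 1 / 2 + δ < a) :
    Integrable (fun u => ‖pe χ u‖ * Real.exp (-(a * u))) := by
  have h1 := (VL_int hV).add (exp_ind_int (b := 2 * (a - (1 / 2 + δ))) (by linarith))
  have hm : Measurable (fun u => ‖pe χ u‖ * Real.exp (-(a * u))) := by
    have := pe_meas χ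
    fun_prop
  refine h1.mono' hm.aestronglyMeasurable (Eventually.of_forall fun u => ?_)
  simp only [Pi.add_apply]
  rw [Real.norm_of_nonneg (by positivity)]
  rcases lt_or_ge u 0 with hu | hu
  · rw [pe_zero χ hu]
    have h2 : 0 ≤ (Ici (0:ℝ)).indicator (fun u => Real.exp (-(2 * (a - (1 / 2 + δ)) * u))) u :=
      indicator_nonneg (fun _ _ => (Real.exp_pos _).le) _
    simp only [norm_zero, zero_mul]
    positivity
  · rw [indicator_of_mem (show u ∈ Ici (0:ℝ) from hu), sq_eq]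
    set A := ‖pe χ u‖ * Real.exp (-((1 / 2 + δ) * u)) with hA
    set B := Real.exp (-((a - (1 / 2 + δ)) * u)) with hB
    have e1 : ‖pe χ u‖ * Real.exp (-(a * u)) = A * B := by
      rw [hA, hB, mul_assoc, ← Real.exp_add]; ring_nf
    have e2 : ‖pe χ u‖ ^ 2 * Real.exp (-((1 + 2 * δ) * u)) = A ^ 2 := by
      rw [hA, mul_pow, ← Real.exp_nat_mul]; congr 2; push_cast; ring
    have e3 : Real.exp (-(2 * (a - (1 / 2 + δ)) * u)) = B ^ 2 := by
      rw [hB, ← Real.exp_nat_mul]; congr 1; push_cast; ring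
    rw [e1, e2, e3]
    nlinarith [sq_nonneg (A - B), mul_nonneg (show 0 ≤ A by positivity) (show 0 ≤ B by positivity)]

lemma Lp_an {χ : DirichletCharacter ℂ Q} {δ : ℝ} (hV : VL χ δ < ⊤) :
    AnalyticOnNhd ℂ (Lp (pe χ)) {s | 1 / 2 + δ < s.re} := by
  apply DifferentiableOn.analyticOnNhd _ (isOpen_lt continuous_const Complex.continuous_re)
  intro s hs
  have hs' : 1 / 2 + δ < s.re := hs
  exact (Lp_diff (pe_meas χ) (fun u hu => pe_zero χ hu) (VL_one hV (a := (1 / 2 + δ + s.re) / 2) (by linarith))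
    (by linarith)).differentiableWithinAt

variable [NeZero Q]

lemma L_an {χ : DirichletCharacter ℂ Q} (hχ : χ ≠ 1) : AnalyticOnNhd ℂ (DirichletCharacter.LFunction χ) univ :=
  (DirichletCharacter.differentiable_LFunction hχ).differentiableOn.analyticOnNhd isOpen_univ

lemma ode {χ : DirichletCharacter ℂ Q} (hχ : χ ≠ 1) {δ : ℝ} (hV : VL χ δ < ⊤) {s : ℂ}
    (hs : 1 / 2 + δ < s.re) :
    deriv (DirichletCharacter.LFunction χ) s = -(s * Lp (pe χ) s) * DirichletCharacter.LFunction χ s := by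
  set U : Set ℂ := {s | 1 / 2 + δ < s.re} with hU
  have h1 : AnalyticOnNhd ℂ (deriv (DirichletCharacter.LFunction χ)) U :=
    ((L_an hχ).deriv).mono (subset_univ _)
  have h2 : AnalyticOnNhd ℂ (fun s => -(s * Lp (pe χ) s) * DirichletCharacter.LFunction χ s) U :=
    ((analyticOnNhd_id.mul (Lp_an hV)).neg).mul ((L_an hχ).mono (subset_univ _))
  have hmem : ((|1 / 2 + δ| + 2 : ℝ) : ℂ) ∈ U := by
    simp only [hU, Set.mem_ofPred_eq, ofReal_re]
    have := le_abs_self (1 / 2 + δ)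
    linarith
  refine h1.eqOn_of_preconnected_of_eventuallyEq h2 (convex_halfSpace_re_gt _).isPreconnected hmem ?_ hs
  have h3 : {s : ℂ | 1 < s.re} ∈ 𝓝 ((|1 / 2 + δ| + 2 : ℝ) : ℂ) :=
    (isOpen_lt continuous_const Complex.continuous_re).mem_nhds (by
      simp only [Set.mem_ofPred_eq, ofReal_re]
      have := abs_nonneg (1 / 2 + δ)
      linarith)
  filter_upwards [h3] with z hz
  have hz' : 1 < z.re := hz
  have h4 := Lp_far χ hz'
  have h5 : DirichletCharacter.LFunction χ z ≠ 0 := DirichletCharacter.LFunction_ne_zero_of_one_le_re χ (Or.inl hχ) hz'.le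
  rw [h4, logDeriv_apply]
  field_simp

theorem free_of_VL {χ : DirichletCharacter ℂ Q} (hχ : χ ≠ 1) {δ : ℝ} (hV : VL χ δ < ⊤) {s : ℂ}
    (hs : 1 / 2 + δ < s.re) : DirichletCharacter.LFunction χ s ≠ 0 := by
  intro h0
  set L := DirichletCharacter.LFunction χ with hL
  set h : ℂ → ℂ := fun s => -(s * Lp (pe χ) s) with hh
  have hha : AnalyticAt ℂ h s := ((analyticAt_id.mul (Lp_an hV s hs)).neg)
  have hLa : AnalyticAt ℂ L s := L_an hχ s (mem_univ _)
  have e1 := hLa.analyticOrderAt_deriv_add_one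
  have e2 : analyticOrderAt (deriv L) s = analyticOrderAt h s + analyticOrderAt L s := by
    rw [← analyticOrderAt_mul hha hLa]
    apply analyticOrderAt_congr
    have h3 : {s : ℂ | 1 / 2 + δ < s.re} ∈ 𝓝 s := (isOpen_lt continuous_const Complex.continuous_re).mem_nhds hs
    filter_upwards [h3] with z hz
    exact ode hχ hV hz
  have e3 : (fun z => L z - L s) = L := by
    ext z; rw [h0, sub_zero]
  rw [e3] at e1
  rw [e2] at e1
  have e4 : analyticOrderAt L s = ⊤ := by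
    by_contra hne
    obtain ⟨n, hn⟩ := ENat.ne_top_iff_exists.1 hne
    rw [← hn] at e1
    rcases eq_or_ne (analyticOrderAt h s) ⊤ with ht | ht
    · rw [ht] at e1
      simp at e1
    · obtain ⟨m, hm⟩ := ENat.ne_top_iff_exists.1 ht
      rw [← hm] at e1
      have : m + n + 1 = n := by exact_mod_cast e1
      omega
  rw [analyticOrderAt_eq_top] at e4
  have e5 := (L_an hχ).eqOn_zero_of_preconnected_of_eventuallyEq_zero isPreconnected_univ (mem_univ s) e4 (mem_univ 2)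
  exact DirichletCharacter.LFunction_ne_zero_of_one_le_re χ (Or.inl hχ) (by norm_num : (1:ℝ) ≤ (2:ℂ).re) e5

theorem Lp_near {χ : DirichletCharacter ℂ Q} (hχ : χ ≠ 1) {δ : ℝ} (hV : VL χ δ < ⊤) {s : ℂ}
    (hs : 1 / 2 + δ < s.re) : s * Lp (pe χ) s = -logDeriv (DirichletCharacter.LFunction χ) s := by
  have h1 := ode hχ hV hs
  have h2 := free_of_VL hχ hV hs
  rw [logDeriv_apply, h1]
  field_simp

/-- the mean square of `ψ(x,χ)` and the real part of `L'/L` -/
theorem VL_formula {χ : DirichletCharacter ℂ Q} (hχ : χ ≠ 1) {δ₀ δ : ℝ} (hδ₀ : 0 ≤ δ₀) (hδ : δ₀ < δ) (hV : VL χ δ₀ < ⊤) :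
    Integrable (fun t : ℝ => (logDeriv (DirichletCharacter.LFunction χ) ((1 / 2 + δ : ℝ) + t * I)).re ^ 2 *
      (1 / ((1 / 2 + δ) ^ 2 + t ^ 2))) ∧
    (1 / Real.pi) * ∫ t : ℝ, (logDeriv (DirichletCharacter.LFunction χ) ((1 / 2 + δ : ℝ) + t * I)).re ^ 2 *
      (1 / ((1 / 2 + δ) ^ 2 + t ^ 2)) ≤
    (VL χ δ).toReal + (logDeriv (DirichletCharacter.LFunction χ) ((1 + 2 * δ : ℝ) : ℂ)).re ^ 2 / (1 + 2 * δ) := by
  set σ : ℝ := 1 / 2 + δ with hσ
  have hσ0 : 0 < σ := by rw [hσ]; linarith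
  set F := logDeriv (DirichletCharacter.LFunction χ) with hF
  set g : ℝ → ℂ := fun u => pe χ u * (Real.exp (-(σ * u)) : ℂ) with hg
  have hi := VL_one hV (a := σ) (by rw [hσ]; linarith)
  have hgm : Measurable g := by
    have := pe_meas χ
    rw [hg]; fun_prop
  have hg0 : ∀ u, u < 0 → g u = 0 := fun u hu => by simp only [hg]; rw [pe_zero χ hu, zero_mul]
  have hgn : ∀ u, ‖g u‖ = ‖pe χ u‖ * Real.exp (-(σ * u)) := fun u => by
    simp only [hg]
    rw [norm_mul, Complex.norm_real, Real.norm_of_nonneg (Real.exp_pos _).le]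
  have hg1 : Integrable g := hi.mono' hgm.aestronglyMeasurable (Eventually.of_forall fun u => (hgn u).le)
  have hVδ : Integrable (fun u => ‖g u‖ ^ 2) := by
    have h2 := VL_int hV
    refine h2.mono' (by fun_prop) (Eventually.of_forall fun u => ?_)
    rw [Real.norm_of_nonneg (by positivity), hgn, sq_eq]
    rcases lt_or_ge u 0 with hu | hu
    · rw [pe_zero χ hu]; simp
    · rw [mul_pow, ← Real.exp_nat_mul]
      refine mul_le_mul_of_nonneg_left (Real.exp_le_exp.2 ?_) (by positivity)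
      push_cast
      rw [hσ]
      nlinarith
  have hg2 : MemLp g 2 := by
    rw [memLp_two_iff_integrable_sq_norm hgm.aestronglyMeasurable]
    exact hVδ
  obtain ⟨hd1, hd2⟩ := doubling hσ0 hg0 hg1 hg2
  have hfour : ∀ ξ : ℝ, ((σ : ℂ) + 2 * Real.pi * ξ * I) * 𝓕 g ξ = -F ((σ : ℝ) + (2 * Real.pi * ξ : ℝ) * I) := by
    intro ξ
    have hre : ((σ : ℂ) + (2 * Real.pi * ξ : ℝ) * I).re = σ := by simp
    have h3 := Lp_near hχ hV (s := (σ : ℂ) + (2 * Real.pi * ξ : ℝ) * I) (by rw [hre, hσ]; linarith)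
    rw [hF, ← h3]
    have h4 : 𝓕 g ξ = Lp (pe χ) ((σ : ℂ) + (2 * Real.pi * ξ : ℝ) * I) := by
      rw [fourier_def']
      unfold Lp
      refine integral_congr_ae (Eventually.of_forall fun u => ?_)
      simp only [hg]
      rw [mul_comm (pe χ u), ← mul_assoc, Complex.ofReal_exp, ← Complex.exp_add, mul_comm]
      congr 2
      push_cast
      ring
    rw [h4]
    push_cast
    ring
  have hreal : ∫ v : ℝ, cexp (-(σ : ℂ) * v) * g v = Lp (pe χ) ((1 + 2 * δ : ℝ) : ℂ) := by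
    unfold Lp
    refine integral_congr_ae (Eventually.of_forall fun u => ?_)
    simp only [hg]
    rw [mul_comm (pe χ u), ← mul_assoc, Complex.ofReal_exp, ← Complex.exp_add, mul_comm]
    congr 2
    rw [hσ]
    push_cast
    ring
  have h5 : Lp (pe χ) ((1 + 2 * δ : ℝ) : ℂ) = -F ((1 + 2 * δ : ℝ) : ℂ) / (1 + 2 * δ : ℝ) := by
    have h3 := Lp_near hχ hV (s := ((1 + 2 * δ : ℝ) : ℂ)) (by rw [ofReal_re]; linarith)
    have hne : ((1 + 2 * δ : ℝ) : ℂ) ≠ 0 := by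
      have : (1 + 2 * δ : ℝ) ≠ 0 := by linarith
      exact_mod_cast this
    rw [hF, ← h3]
    field_simp
  have hsn : ∀ ξ : ℝ, ‖(σ : ℂ) + 2 * Real.pi * ξ * I‖ ^ 2 = σ ^ 2 + (2 * Real.pi * ξ) ^ 2 := by
    intro ξ
    rw [← Complex.normSq_eq_norm_sq, Complex.normSq_apply]
    simp
    ring
  set G : ℝ → ℝ := fun t => (F ((σ : ℝ) + t * I)).re ^ 2 * (1 / (σ ^ 2 + t ^ 2)) with hG
  have hint : ∀ ξ : ℝ, (2 * (((σ : ℂ) + 2 * Real.pi * ξ * I) * 𝓕 g ξ).re) ^ 2 / ‖(σ : ℂ) + 2 * Real.pi * ξ * I‖ ^ 2 =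
      4 * G ((2 * Real.pi) * ξ) := by
    intro ξ
    rw [hfour, hsn]
    simp only [hG, neg_re]
    ring
  rw [show (fun ξ : ℝ => (2 * (((σ : ℂ) + 2 * Real.pi * ξ * I) * 𝓕 g ξ).re) ^ 2 / ‖(σ : ℂ) + 2 * Real.pi * ξ * I‖ ^ 2) =
    fun ξ => 4 * G ((2 * Real.pi) * ξ) from funext hint] at hd1
  simp_rw [hint] at hd2
  have hpi : (0:ℝ) < 2 * Real.pi := by positivity
  have hGi : Integrable G := by
    have h6 : Integrable (fun ξ : ℝ => G ((2 * Real.pi) * ξ)) := by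
      have := hd1.const_mul (1 / 4)
      refine this.congr (Eventually.of_forall fun ξ => ?_)
      simp only
      ring
    exact (integrable_comp_mul_left_iff G hpi.ne').1 h6
  refine ⟨hGi, ?_⟩
  have h7 : ∫ ξ : ℝ, 4 * G ((2 * Real.pi) * ξ) = 4 * ((2 * Real.pi)⁻¹ * ∫ t, G t) := by
    rw [integral_const_mul, Measure.integral_comp_mul_left, abs_of_pos (inv_pos.2 hpi), smul_eq_mul]
  rw [h7, hreal, h5] at hd2
  have h8 : ∫ u, ‖g u‖ ^ 2 = (VL χ δ).toReal := by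
    rw [VL_eq, integral_eq_lintegral_of_nonneg_ae (Eventually.of_forall fun u => by positivity) (by fun_prop)]
  rw [h8] at hd2
  have h9 : ((-F ((1 + 2 * δ : ℝ) : ℂ) / (1 + 2 * δ : ℝ)) ^ 2).re ≤ (F ((1 + 2 * δ : ℝ) : ℂ)).re ^ 2 / (1 + 2 * δ) ^ 2 := by
    have e : (-F ((1 + 2 * δ : ℝ) : ℂ) / (1 + 2 * δ : ℝ)) ^ 2 = (F ((1 + 2 * δ : ℝ) : ℂ)) ^ 2 / (((1 + 2 * δ) ^ 2 : ℝ) : ℂ) := by
      rw [neg_div, neg_sq, div_pow, ofReal_pow]
    rw [e, Complex.div_ofReal_re]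
    refine div_le_div_of_nonneg_right ?_ (by positivity)
    rw [pow_two, Complex.mul_re]
    nlinarith [sq_nonneg (F ((1 + 2 * δ : ℝ) : ℂ)).im]
  have h10 : 4 * ((2 * Real.pi)⁻¹ * ∫ t, G t) ≤ 2 * (VL χ δ).toReal + 4 * σ * ((F ((1 + 2 * δ : ℝ) : ℂ)).re ^ 2 / (1 + 2 * δ) ^ 2) := by
    rw [hd2]
    have : 4 * σ * ((-F ((1 + 2 * δ : ℝ) : ℂ) / (1 + 2 * δ : ℝ)) ^ 2).re ≤ 4 * σ * ((F ((1 + 2 * δ : ℝ) : ℂ)).re ^ 2 / (1 + 2 * δ) ^ 2) :=
      mul_le_mul_of_nonneg_left h9 (by positivity)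
    linarith
  have e1 : 4 * ((2 * Real.pi)⁻¹ * ∫ t, G t) = 2 * ((1 / Real.pi) * ∫ t, G t) := by
    field_simp
    ring
  have e2 : 4 * σ * ((F ((1 + 2 * δ : ℝ) : ℂ)).re ^ 2 / (1 + 2 * δ) ^ 2) = 2 * ((F ((1 + 2 * δ : ℝ) : ℂ)).re ^ 2 / (1 + 2 * δ)) := by
    have hp : (0:ℝ) < 1 + 2 * δ := by linarith
    rw [hσ]
    field_simp
    ring
  rw [e1, e2] at h10
  linarith

end

end Pool.Agent.Helper37.VFG
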