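import Pool.Agent.Helper37.VFG.Kern

/-! Sums of the kernel over a multiset of points in a strip. -/

set_option autoImplicit false

open MeasureTheory Filter Topology Set Complex

namespace Pool.Agent.Helper37.VFG

noncomputable section

/-- a family of points of the strip `|Re u| ≤ δ₀` with weights `m ≥ 1` and the sum of the kernel -/
structure PS {ι : Type*} (u : ι → ℂ) (m : ι → ℝ) (P : ℂ → ℝ) (δ₀ : ℝ) : Prop where
  strip : ∀ i, |(u i).re| ≤ δ₀
  one : ∀ i, 1 ≤ m i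
  sum : ∀ w : ℂ, δ₀ < w.re → HasSum (fun i => m i * KK (u i) w) (P w)

variable {ι : Type*} {u : ι → ℂ} {m : ι → ℝ} {P : ℂ → ℝ} {δ₀ : ℝ}

lemma PS.pos (h : PS u m P δ₀) {w : ℂ} (hw : δ₀ < w.re) (i : ι) : 0 < m i * KK (u i) w :=
  mul_pos (by have := h.one i; linarith) (KK_pos ((h.strip i).trans_lt hw))

lemma PS.nonneg (h : PS u m P δ₀) {w : ℂ} (hw : δ₀ < w.re) : 0 ≤ P w :=
  (h.sum w hw).nonneg fun i => (h.pos hw i).le

lemma PS.countable (h : PS u m P δ₀) : Countable ι := by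
  have h1 : δ₀ < (((δ₀ + 1 : ℝ)) : ℂ).re := by simp
  have h2 := (h.sum _ h1).summable.countable_support
  have h3 : Function.support (fun i => m i * KK (u i) ((δ₀ + 1 : ℝ) : ℂ)) = univ := by
    ext i
    simp only [Function.mem_support, mem_univ, iff_true]
    exact (h.pos h1 i).ne'
  rw [h3] at h2
  exact countable_univ_iff.1 h2

lemma line_re (δ t : ℝ) : ((δ : ℂ) + t * I).re = δ := by simp

/-- the Poisson integral of the sum -/
theorem PS.int (h : PS u m P δ₀) {δ a : ℝ} (hδ : δ₀ < δ) (ha : 0 < a) :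
    Integrable (fun t : ℝ => P (δ + t * I) * (1 / (a ^ 2 + t ^ 2))) ∧
    ∫ t : ℝ, P (δ + t * I) * (1 / (a ^ 2 + t ^ 2)) = (Real.pi / a) * P (δ + a) := by
  have := h.countable
  have hre : ∀ t : ℝ, δ₀ < ((δ : ℂ) + t * I).re := fun t => by rw [line_re]; exact hδ
  have hre2 : δ₀ < ((δ : ℂ) + a).re := by simp; linarith
  have hω : ∀ t : ℝ, 0 < 1 / (a ^ 2 + t ^ 2) := fun t => by positivity
  set F : ι → ℝ → ℝ := fun i t => m i * (KK (u i) (δ + t * I) * (1 / (a ^ 2 + t ^ 2))) with hF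
  have hFi : ∀ i, Integrable (F i) ∧ ∫ t, F i t = m i * ((Real.pi / a) * KK (u i) (δ + a)) := by
    intro i
    have hk := KK_int (u := u i) (δ := δ) (a := a) ((h.strip i).trans_lt hδ) ha
    exact ⟨hk.1.const_mul _, by simp only [hF]; rw [integral_const_mul, hk.2]⟩
  have hF0 : ∀ i t, 0 ≤ F i t := by
    intro i t
    simp only [hF]
    rw [← mul_assoc]
    exact mul_nonneg (h.pos (hre t) i).le (hω t).le
  have hsum : ∀ t : ℝ, HasSum (fun i => F i t) (P (δ + t * I) * (1 / (a ^ 2 + t ^ 2))) := by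
    intro t
    have := (h.sum _ (hre t)).mul_right (1 / (a ^ 2 + t ^ 2))
    have e : (fun i => F i t) = fun i => m i * KK (u i) (δ + t * I) * (1 / (a ^ 2 + t ^ 2)) := by
      funext i
      simp only [hF]
      ring
    rw [e]
    exact this
  have hnn : ∀ t : ℝ, 0 ≤ P (δ + t * I) * (1 / (a ^ 2 + t ^ 2)) := fun t => mul_nonneg (h.nonneg (hre t)) (hω t).le
  have hoR : ∀ t : ℝ, ENNReal.ofReal (P (δ + t * I) * (1 / (a ^ 2 + t ^ 2))) = ∑' i, ENNReal.ofReal (F i t) := by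
    intro t
    rw [← (hsum t).tsum_eq, ENNReal.ofReal_tsum_of_nonneg (fun i => hF0 i t) (hsum t).summable]
  have hlint : ∫⁻ t : ℝ, ENNReal.ofReal (P (δ + t * I) * (1 / (a ^ 2 + t ^ 2))) =
      ENNReal.ofReal ((Real.pi / a) * P (δ + a)) := by
    simp_rw [hoR]
    rw [lintegral_tsum fun i => (hFi i).1.aestronglyMeasurable.aemeasurable.ennreal_ofReal]
    have e1 : ∀ i, ∫⁻ t, ENNReal.ofReal (F i t) = ENNReal.ofReal (m i * ((Real.pi / a) * KK (u i) (δ + a))) := by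
      intro i
      rw [← ofReal_integral_eq_lintegral_ofReal (hFi i).1 (Eventually.of_forall fun t => hF0 i t), (hFi i).2]
    simp_rw [e1]
    have e2 : HasSum (fun i => m i * ((Real.pi / a) * KK (u i) (δ + a))) ((Real.pi / a) * P (δ + a)) := by
      have := (h.sum _ hre2).mul_left (Real.pi / a)
      have e : (fun i => m i * ((Real.pi / a) * KK (u i) (δ + a))) = fun i => (Real.pi / a) * (m i * KK (u i) (δ + a)) := by
        funext i
        ring
      rw [e]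
      exact this
    rw [← e2.tsum_eq, ENNReal.ofReal_tsum_of_nonneg _ e2.summable]
    intro i
    have := (h.pos hre2 i).le
    have h3 : m i * ((Real.pi / a) * KK (u i) (δ + a)) = (Real.pi / a) * (m i * KK (u i) (δ + a)) := by ring
    rw [h3]
    exact mul_nonneg (by positivity) this
  have hmeas : AEStronglyMeasurable (fun t : ℝ => P (δ + t * I) * (1 / (a ^ 2 + t ^ 2))) volume := by
    have e : (fun t : ℝ => P (δ + t * I) * (1 / (a ^ 2 + t ^ 2))) = fun t => (∑' i, ENNReal.ofReal (F i t)).toReal := by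
      ext t
      rw [← hoR, ENNReal.toReal_ofReal (hnn t)]
    rw [e]
    exact (AEMeasurable.ennreal_toReal (AEMeasurable.tsum fun i =>
      (hFi i).1.aestronglyMeasurable.aemeasurable.ennreal_ofReal)).aestronglyMeasurable
  refine ⟨⟨hmeas, ?_⟩, ?_⟩
  · rw [hasFiniteIntegral_iff_ofReal (Eventually.of_forall hnn), hlint]
    exact ENNReal.ofReal_lt_top
  · rw [integral_eq_lintegral_of_nonneg_ae (Eventually.of_forall hnn) hmeas, hlint, ENNReal.toReal_ofReal]
    exact mul_nonneg (by positivity) (h.nonneg hre2)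

lemma PS.sq_ge (h : PS u m P δ₀) {w : ℂ} (hw : δ₀ < w.re) (S : Finset ι) :
    ∑ i ∈ S, m i * KK (u i) w ^ 2 ≤ P w ^ 2 := by
  have h1 : ∑ i ∈ S, m i * KK (u i) w ≤ P w := sum_le_hasSum S (fun i _ => (h.pos hw i).le) (h.sum w hw)
  have h2 : 0 ≤ ∑ i ∈ S, m i * KK (u i) w := Finset.sum_nonneg fun i _ => (h.pos hw i).le
  have h3 : ∑ i ∈ S, (m i * KK (u i) w) ^ 2 ≤ (∑ i ∈ S, m i * KK (u i) w) ^ 2 := by
    rw [pow_two (∑ i ∈ S, m i * KK (u i) w), Finset.mul_sum]
    refine Finset.sum_le_sum fun i hi => ?_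
    rw [pow_two]
    exact mul_le_mul_of_nonneg_right (Finset.single_le_sum (f := fun i => m i * KK (u i) w)
      (fun j _ => (h.pos hw j).le) hi) (h.pos hw i).le
  have h4 : ∑ i ∈ S, m i * KK (u i) w ^ 2 ≤ ∑ i ∈ S, (m i * KK (u i) w) ^ 2 := by
    refine Finset.sum_le_sum fun i _ => ?_
    have := h.one i
    rw [mul_pow]
    refine mul_le_mul_of_nonneg_right ?_ (sq_nonneg _)
    nlinarith
  nlinarith

/-- **the mean square of `P - b` from below** -/
theorem PS.lower (h : PS u m P δ₀) {δ a : ℝ} (hδ : δ₀ < δ) (hδ1 : δ ≤ 1 / 2) (hδ0 : 0 < δ) (ha : 1 / 2 ≤ a)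
    {R b L : ℝ → ℝ} {b₀ CL θ : ℝ} (hR : ∀ t : ℝ, R t = P (δ + t * I) - b t)
    (hb : ∀ t, b t ≤ b₀ + L t) (hθ : 0 < θ) (hθ1 : θ ≤ 1)
    (hRi : Integrable (fun t => R t ^ 2 * (1 / (a ^ 2 + t ^ 2))))
    (hLi : Integrable (fun t => L t ^ 2 * (1 / (a ^ 2 + t ^ 2))))
    (hL : ∫ t, L t ^ 2 * (1 / (a ^ 2 + t ^ 2)) ≤ CL) :
    ((1 - θ) * (1 / (2 * δ) - 1) - 2 * b₀) * ((Real.pi / a) * P (δ + a)) - CL / θ ≤
      ∫ t, R t ^ 2 * (1 / (a ^ 2 + t ^ 2)) := by
  have ha0 : 0 < a := by linarith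
  have hre : ∀ t : ℝ, δ₀ < ((δ : ℂ) + t * I).re := fun t => by rw [line_re]; exact hδ
  have hre2 : δ₀ < ((δ : ℂ) + a).re := by simp; linarith
  have hω : ∀ t : ℝ, 0 < 1 / (a ^ 2 + t ^ 2) := fun t => by positivity
  obtain ⟨hPi, hP⟩ := h.int hδ ha0
  have hk := fun i => KK_sq (u := u i) (δ := δ) (a := a) ((h.strip i).trans_lt hδ) ha
  have key : ∀ S : Finset ι, ∑ i ∈ S, ((1 - θ) * (1 / (2 * δ) - 1) * (Real.pi / a)) * (m i * KK (u i) (δ + a)) ≤
      (∫ t, R t ^ 2 * (1 / (a ^ 2 + t ^ 2))) + 2 * b₀ * ((Real.pi / a) * P (δ + a)) + CL / θ := by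
    intro S
    have hSi : Integrable (fun t : ℝ => (1 - θ) * ∑ i ∈ S, m i * (KK (u i) (δ + t * I) ^ 2 * (1 / (a ^ 2 + t ^ 2)))) :=
      (integrable_finsetSum S fun i _ => (hk i).1.const_mul (m i)).const_mul _
    have hTi : Integrable (fun t : ℝ => (R t ^ 2 * (1 / (a ^ 2 + t ^ 2)) + 2 * b₀ * (P (δ + t * I) * (1 / (a ^ 2 + t ^ 2)))) +
        (1 / θ) * (L t ^ 2 * (1 / (a ^ 2 + t ^ 2)))) := (hRi.add (hPi.const_mul _)).add (hLi.const_mul _)
    have hpt : ∀ t : ℝ, (1 - θ) * ∑ i ∈ S, m i * (KK (u i) (δ + t * I) ^ 2 * (1 / (a ^ 2 + t ^ 2))) ≤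
        (R t ^ 2 * (1 / (a ^ 2 + t ^ 2)) + 2 * b₀ * (P (δ + t * I) * (1 / (a ^ 2 + t ^ 2)))) +
        (1 / θ) * (L t ^ 2 * (1 / (a ^ 2 + t ^ 2))) := by
      intro t
      have h1 := h.sq_ge (hre t) S
      have h2 := h.nonneg (hre t)
      set p := P (δ + t * I)
      set w := 1 / (a ^ 2 + t ^ 2) with hw
      have hw0 : 0 < w := hω t
      have e1 : ∑ i ∈ S, m i * (KK (u i) (δ + t * I) ^ 2 * w) = (∑ i ∈ S, m i * KK (u i) (δ + t * I) ^ 2) * w := by
        rw [Finset.sum_mul]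
        exact Finset.sum_congr rfl fun i _ => by ring
      rw [e1, hR t]
      have h3 : (1 - θ) * (∑ i ∈ S, m i * KK (u i) (δ + t * I) ^ 2) ≤ (1 - θ) * p ^ 2 :=
        mul_le_mul_of_nonneg_left h1 (by linarith)
      have h4 : 2 * (L t) * p ≤ θ * p ^ 2 + (1 / θ) * L t ^ 2 := by
        have h5 : 0 ≤ (θ * p - L t) ^ 2 / θ := by positivity
        have h6 : (θ * p - L t) ^ 2 / θ = θ * p ^ 2 - 2 * L t * p + (1 / θ) * L t ^ 2 := by
          field_simp
          ring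
        linarith
      have h7 : (1 - θ) * p ^ 2 ≤ (p - b t) ^ 2 + 2 * b₀ * p + (1 / θ) * L t ^ 2 := by
        have h8 : b t * p ≤ (b₀ + L t) * p := mul_le_mul_of_nonneg_right (hb t) h2
        nlinarith [sq_nonneg (b t)]
      have h9 : (1 - θ) * (∑ i ∈ S, m i * KK (u i) (δ + t * I) ^ 2) * w ≤
          ((p - b t) ^ 2 + 2 * b₀ * p + (1 / θ) * L t ^ 2) * w :=
        mul_le_mul_of_nonneg_right (h3.trans h7) hw0.le
      nlinarith
    have hI := integral_mono hSi hTi hpt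
    have hA : Integrable (fun t : ℝ => R t ^ 2 * (1 / (a ^ 2 + t ^ 2)) + 2 * b₀ * (P (δ + t * I) * (1 / (a ^ 2 + t ^ 2)))) :=
      hRi.add (hPi.const_mul _)
    rw [integral_add hA (hLi.const_mul _), integral_add hRi (hPi.const_mul _),
      integral_const_mul, integral_const_mul, integral_const_mul, hP,
      integral_finsetSum S fun i _ => (hk i).1.const_mul (m i)] at hI
    have h10 : (1 / θ) * ∫ t, L t ^ 2 * (1 / (a ^ 2 + t ^ 2)) ≤ CL / θ := by
      rw [one_div, inv_mul_eq_div]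
      exact div_le_div_of_nonneg_right hL hθ.le
    have h11 : ∑ i ∈ S, ((1 - θ) * (1 / (2 * δ) - 1) * (Real.pi / a)) * (m i * KK (u i) (δ + a)) ≤
        (1 - θ) * ∑ i ∈ S, ∫ t : ℝ, m i * (KK (u i) (δ + t * I) ^ 2 * (1 / (a ^ 2 + t ^ 2))) := by
      rw [Finset.mul_sum]
      refine Finset.sum_le_sum fun i _ => ?_
      rw [integral_const_mul]
      have h12 := (hk i).2
      have h13 : 0 ≤ (1 - θ) * m i := mul_nonneg (by linarith) (by have := h.one i; linarith)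
      calc (1 - θ) * (1 / (2 * δ) - 1) * (Real.pi / a) * (m i * KK (u i) (δ + a)) =
          ((1 - θ) * m i) * ((1 / (2 * δ) - 1) * ((Real.pi / a) * KK (u i) (δ + a))) := by ring
        _ ≤ ((1 - θ) * m i) * ∫ t : ℝ, KK (u i) (δ + t * I) ^ 2 * (1 / (a ^ 2 + t ^ 2)) :=
            mul_le_mul_of_nonneg_left h12 h13
        _ = _ := by ring
    linarith
  have hs := (h.sum _ hre2).mul_left ((1 - θ) * (1 / (2 * δ) - 1) * (Real.pi / a))
  have := hasSum_le_of_sum_le hs key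
  nlinarith

/-- one coordinate of the kernel at real points -/
lemma inv_re_cmp {z : ℂ} {h c : ℝ} (hc : 0 < c) (hz : c ≤ z.re) (hh : 0 ≤ h) :
    (1 / z).re ≤ (1 + h / c) * (1 / (z + h)).re ∧ (1 / (z + h)).re ≤ (1 + h / c) * (1 / z).re := by
  have hz0 : 0 < z.re := by linarith
  rw [one_div, one_div, Complex.inv_re, Complex.inv_re, Complex.normSq_apply, Complex.normSq_apply]
  have e1 : (z + h).re = z.re + h := by simp
  have e2 : (z + h).im = z.im := by simp
  rw [e1, e2]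
  set x := z.re
  set y := z.im
  have hD : 0 < x * x + y * y := by nlinarith [mul_self_nonneg y]
  have hD' : 0 < (x + h) * (x + h) + y * y := by nlinarith [mul_self_nonneg y]
  have hk : h ≤ h / c * x := by
    rw [div_mul_eq_mul_div, le_div_iff₀ hc]
    exact mul_le_mul_of_nonneg_left hz hh
  have hkk : 0 ≤ h / c := by positivity
  constructor
  · rw [← mul_div_assoc, div_le_div_iff₀ hD hD']
    have h1 : (x + h) ≤ (1 + h / c) * x := by nlinarith
    have h2 : x * (x + h) ≤ (1 + h / c) * x * x := by nlinarith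
    have h3 : 0 ≤ y * y := mul_self_nonneg y
    have h4 : x * ((x + h) * (x + h)) ≤ (1 + h / c) * (x + h) * (x * x) := by
      nlinarith [mul_nonneg hz0.le (by linarith : 0 ≤ x + h)]
    have h5 : x * (y * y) ≤ (1 + h / c) * (x + h) * (y * y) := by
      have : x ≤ (1 + h / c) * (x + h) := by nlinarith [mul_nonneg hkk (by linarith : 0 ≤ x + h)]
      exact mul_le_mul_of_nonneg_right this h3
    nlinarith
  · rw [← mul_div_assoc, div_le_div_iff₀ hD' hD]
    have h1 : (x + h) ≤ (1 + h / c) * x := by nlinarith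
    have h3 : 0 ≤ y * y := mul_self_nonneg y
    have h4 : x * x + y * y ≤ (x + h) * (x + h) + y * y := by nlinarith
    have h6 : 0 ≤ (1 + h / c) * x := by positivity
    exact mul_le_mul h1 h4 hD.le h6

lemma KK_cmp {v : ℂ} {x h c : ℝ} (hc : 0 < c) (hv : |v.re| + c ≤ x) (hh : 0 ≤ h) :
    KK v x ≤ (1 + h / c) * KK v (x + h : ℝ) ∧ KK v (x + h : ℝ) ≤ (1 + h / c) * KK v x := by
  have h1 := neg_abs_le v.re
  have h2 := le_abs_self v.re
  obtain ⟨a1, a2⟩ := inv_re_cmp (z := (x : ℂ) - v) (h := h) hc (by simp; linarith) hh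
  obtain ⟨b1, b2⟩ := inv_re_cmp (z := (x : ℂ) + (starRingEnd ℂ) v) (h := h) hc (by simp; linarith) hh
  unfold KK
  have e1 : ((x + h : ℝ) : ℂ) - v = (x : ℂ) - v + h := by push_cast; ring
  have e2 : ((x + h : ℝ) : ℂ) + (starRingEnd ℂ) v = (x : ℂ) + (starRingEnd ℂ) v + h := by push_cast; ring
  rw [e1, e2]
  constructor <;> linarith

theorem PS.cmp (h : PS u m P δ₀) {x k c : ℝ} (hc : 0 < c) (hx : δ₀ + c ≤ x) (hk : 0 ≤ k) :
    P x ≤ (1 + k / c) * P (x + k : ℝ) ∧ P (x + k : ℝ) ≤ (1 + k / c) * P x := by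
  have h1 := h.sum (x : ℂ) (by simp; linarith)
  have h2 := h.sum ((x + k : ℝ) : ℂ) (by simp; linarith)
  have hc' := fun i => KK_cmp (v := u i) (x := x) (h := k) hc (by have := h.strip i; linarith) hk
  constructor
  · refine hasSum_le (fun i => ?_) h1 (h2.mul_left _)
    have := h.one i
    calc m i * KK (u i) x ≤ m i * ((1 + k / c) * KK (u i) (x + k : ℝ)) :=
          mul_le_mul_of_nonneg_left (hc' i).1 (by linarith)
      _ = _ := by ring
  · refine hasSum_le (fun i => ?_) h2 (h1.mul_left _)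
    have := h.one i
    calc m i * KK (u i) (x + k : ℝ) ≤ m i * ((1 + k / c) * KK (u i) x) :=
          mul_le_mul_of_nonneg_left (hc' i).2 (by linarith)
      _ = _ := by ring

end

end Pool.Agent.Helper37.VFG
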