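import Pool.Agent.Helper37.VFG.Xi
import Pool.Agent.Helper37.VFG.Gam
import Pool.Agent.Helper37.VFG.PSum
import Pool.Agent.Helper37.VFG.Line

/-! The mean square of `ψ(x,χ)` from below for one character. -/

set_option autoImplicit false
set_option linter.unusedSectionVars false

open MeasureTheory Filter Topology Set Complex H37F

namespace Pool.Agent.Helper37.VFG

open H370.DL H429.GP H855R2.SF

noncomputable section

variable {Q : ℕ} [NeZero Q] {χ : DirichletCharacter ℂ Q}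

instance cond_ne : NeZero χ.conductor := ⟨χ.conductor_ne_zero⟩

lemma prim_prim : (χ.primitiveCharacter).IsPrimitive := χ.primitiveCharacter_isPrimitive

lemma cond_gt (hχ : χ ≠ 1) : 1 < χ.conductor := by
  have h1 : χ.conductor ≠ 0 := χ.conductor_ne_zero
  have h2 : χ.conductor ≠ 1 := fun h => hχ (DirichletCharacter.eq_one_iff_conductor_eq_one.2 h)
  omega

lemma cond_le : χ.conductor ≤ Q := Nat.le_of_dvd (NeZero.pos Q) χ.conductor_dvd_level

lemma prim_ne (hχ : χ ≠ 1) : χ.primitiveCharacter ≠ 1 := ne_one_of_prim (cond_gt hχ) prim_prim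

lemma L_eq (hχ : χ ≠ 1) (s : ℂ) : DirichletCharacter.LFunction χ s =
    DirichletCharacter.LFunction χ.primitiveCharacter s *
      ∏ p ∈ Q.primeFactors, (1 - χ.primitiveCharacter (p : ZMod χ.conductor) * (p : ℂ) ^ (-s)) := by
  have h := DirichletCharacter.LFunction_changeLevel χ.conductor_dvd_level χ.primitiveCharacter (s := s)
    (Or.inl (prim_ne hχ))
  rwa [χ.changeLevel_primitiveCharacter] at h

lemma free_prim (hχ : χ ≠ 1) {δ : ℝ} (h : ∀ s : ℂ, 1 / 2 + δ < s.re → DirichletCharacter.LFunction χ s ≠ 0) :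
    Free χ.primitiveCharacter δ := by
  intro s hs h0
  apply h s hs
  rw [L_eq hχ, h0, zero_mul]

lemma norm_term {p : ℕ} (hp : p.Prime) {s : ℂ} {x : ℝ} (hx : (p : ℝ) ^ (-s.re) ≤ x) :
    ‖χ.primitiveCharacter (p : ZMod χ.conductor) * (p : ℂ) ^ (-s)‖ ≤ x := by
  have h1 := (χ.primitiveCharacter).norm_le_one (p : ZMod χ.conductor)
  have h2 : ‖(p : ℂ) ^ (-s)‖ = (p : ℝ) ^ (-s.re) := by
    rw [Complex.norm_natCast_cpow_of_pos hp.pos]; simp
  rw [norm_mul, h2]
  calc _ ≤ 1 * (p : ℝ) ^ (-s.re) := mul_le_mul_of_nonneg_right h1 (by positivity)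
    _ ≤ x := by rw [one_mul]; exact hx

lemma pow_lt_one' {p : ℕ} (hp : p.Prime) {y : ℝ} (hy : 0 < y) : (p : ℝ) ^ (-y) < 1 := by
  have h1 : (1:ℝ) < p := by exact_mod_cast hp.one_lt
  exact Real.rpow_lt_one_of_one_lt_of_neg h1 (by linarith)

lemma fac_ne {p : ℕ} (hp : p.Prime) {s : ℂ} (hs : 0 < s.re) :
    1 - χ.primitiveCharacter (p : ZMod χ.conductor) * (p : ℂ) ^ (-s) ≠ 0 := by
  intro h
  have h1 := norm_term (χ := χ) hp (s := s) le_rfl
  have h2 : χ.primitiveCharacter (p : ZMod χ.conductor) * (p : ℂ) ^ (-s) = 1 := by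
    rw [sub_eq_zero] at h; exact h.symm
  rw [h2, norm_one] at h1
  exact absurd (pow_lt_one' hp hs) (not_lt.2 h1)

lemma fac_deriv {p : ℕ} (hp : p.Prime) (c s : ℂ) :
    HasDerivAt (fun s : ℂ => 1 - c * (p : ℂ) ^ (-s)) (c * (Real.log (p : ℝ) : ℂ) * (p : ℂ) ^ (-s)) s := by
  have hp0 : (p : ℂ) ≠ 0 := by exact_mod_cast hp.ne_zero
  have h := ((hasDerivAt_id s).neg.const_cpow (c := (p : ℂ)) (Or.inl hp0)).const_mul c |>.const_sub 1
  have e : (Real.log (p : ℝ) : ℂ) = Complex.log p := by rw [Complex.ofReal_log (by positivity)]; simp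
  rw [e]
  have e2 : c * Complex.log p * (p : ℂ) ^ (-s) = -(c * ((p : ℂ) ^ (-s) * Complex.log p * -1)) := by ring
  rw [e2]
  exact h

theorem ld_eq (hχ : χ ≠ 1) {s : ℂ} (hs : 0 < s.re) (h0 : DirichletCharacter.LFunction χ.primitiveCharacter s ≠ 0) :
    (logDeriv (DirichletCharacter.LFunction χ) s).re =
      (logDeriv (DirichletCharacter.LFunction χ.primitiveCharacter) s).re + EE χ s := by
  have e : DirichletCharacter.LFunction χ = fun s => DirichletCharacter.LFunction χ.primitiveCharacter s *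
      ∏ p ∈ Q.primeFactors, (1 - χ.primitiveCharacter (p : ZMod χ.conductor) * (p : ℂ) ^ (-s)) := by
    ext s; exact L_eq hχ s
  have hpr : ∀ p ∈ Q.primeFactors, p.Prime := fun p hp => Nat.prime_of_mem_primeFactors hp
  have hd : ∀ p ∈ Q.primeFactors, DifferentiableAt ℂ (fun s : ℂ => 1 - χ.primitiveCharacter (p : ZMod χ.conductor) * (p : ℂ) ^ (-s)) s :=
    fun p hp => (fac_deriv (hpr p hp) _ s).differentiableAt
  have h1 : logDeriv (fun s : ℂ => ∏ p ∈ Q.primeFactors, (1 - χ.primitiveCharacter (p : ZMod χ.conductor) * (p : ℂ) ^ (-s))) s =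
      ∑ p ∈ Q.primeFactors, logDeriv (fun s : ℂ => 1 - χ.primitiveCharacter (p : ZMod χ.conductor) * (p : ℂ) ^ (-s)) s :=
    logDeriv_prod (fun p hp => fac_ne (hpr p hp) hs) hd
  rw [e, logDeriv_mul s h0 (Finset.prod_ne_zero_iff.2 fun p hp => fac_ne (hpr p hp) hs)
    ((DirichletCharacter.differentiable_LFunction (prim_ne hχ)) s)
    (DifferentiableAt.fun_finsetProd hd), h1, add_re, re_sum]
  congr 1
  unfold EE
  refine Finset.sum_congr rfl fun p hp => ?_
  rw [logDeriv_apply, (fac_deriv (hpr p hp) _ s).deriv]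

lemma sum_log_le : ∑ p ∈ Q.primeFactors, Real.log (p : ℝ) ≤ Real.log Q := by
  have hpr : ∀ p ∈ Q.primeFactors, p.Prime := fun p hp => Nat.prime_of_mem_primeFactors hp
  rw [← Real.log_prod (fun p hp => by have := (hpr p hp).ne_zero; exact_mod_cast this)]
  apply Real.log_le_log (Finset.prod_pos fun p hp => by have := (hpr p hp).pos; exact_mod_cast this)
  have h1 := Nat.le_of_dvd (NeZero.pos Q) (Nat.prod_primeFactors_dvd Q)
  have h2 : ((∏ p ∈ Q.primeFactors, p : ℕ) : ℝ) ≤ (Q : ℝ) := by exact_mod_cast h1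
  rwa [Nat.cast_prod] at h2

theorem EE_le {s : ℂ} (hs : 1 / 2 ≤ s.re) : |EE χ s| ≤ 3 * Real.log Q := by
  have hpr : ∀ p ∈ Q.primeFactors, p.Prime := fun p hp => Nat.prime_of_mem_primeFactors hp
  unfold EE
  refine (Finset.abs_sum_le_sum_abs _ _).trans ?_
  refine le_trans (Finset.sum_le_sum (g := fun p : ℕ => 3 * Real.log (p : ℝ)) fun p hp => ?_) ?_
  · have hpp := hpr p hp
    have hp2 : (2:ℝ) ≤ p := by exact_mod_cast hpp.two_le
    have hx : (p : ℝ) ^ (-s.re) ≤ 3 / 4 := by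
      calc (p : ℝ) ^ (-s.re) ≤ (p : ℝ) ^ (-(1 / 2) : ℝ) := Real.rpow_le_rpow_of_exponent_le (by linarith) (by linarith)
        _ ≤ (2 : ℝ) ^ (-(1 / 2) : ℝ) := Real.rpow_le_rpow_of_nonpos (by norm_num) hp2 (by norm_num)
        _ ≤ 3 / 4 := by
            rw [Real.rpow_neg (by norm_num), ← Real.sqrt_eq_rpow, inv_le_comm₀ (by positivity) (by norm_num)]
            apply Real.le_sqrt_of_sq_le
            norm_num
    have h1 := norm_term (χ := χ) hpp hx
    set z := χ.primitiveCharacter (p : ZMod χ.conductor) * (p : ℂ) ^ (-s) with hz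
    have h2 : 1 / 4 ≤ ‖1 - z‖ := by
      have h3 := norm_sub_norm_le (1:ℂ) z
      rw [norm_one] at h3
      linarith
    have e : χ.primitiveCharacter (p : ZMod χ.conductor) * (Real.log (p : ℝ) : ℂ) * (p : ℂ) ^ (-s) / (1 - z) =
        (Real.log (p : ℝ) : ℂ) * (z / (1 - z)) := by rw [hz]; ring
    have hl : 0 ≤ Real.log (p : ℝ) := Real.log_nonneg (by linarith)
    rw [e]
    refine (Complex.abs_re_le_norm _).trans ?_
    rw [norm_mul, norm_div, Complex.norm_real, Real.norm_of_nonneg hl, mul_comm]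
    refine mul_le_mul_of_nonneg_right ?_ hl
    rw [div_le_iff₀ (by linarith)]
    linarith
  · rw [← Finset.mul_sum]
    have := sum_log_le (Q := Q)
    linarith

/-- the sum over the zeros -/
def PX (χ : DirichletCharacter ℂ Q) (w : ℂ) : ℝ :=
  Real.log χ.conductor / 2 + (logDeriv Gammaℝ (1 / 2 + w + aa χ.primitiveCharacter)).re +
    (logDeriv (DirichletCharacter.LFunction χ.primitiveCharacter) (1 / 2 + w)).re

theorem PX_PS (hχ : χ ≠ 1) {δ₀ : ℝ} (h0 : 0 ≤ δ₀) (hf : Free χ.primitiveCharacter δ₀) :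
    PS (fun u : ZZ χ.primitiveCharacter => (u : ℂ)) (fun u => (mm χ.primitiveCharacter u : ℝ)) (PX χ) δ₀ where
  strip := fun u => xg_re (cond_gt hχ) prim_prim h0 hf u.2
  one := fun u => by exact_mod_cast mm_pos (cond_gt hχ) prim_prim u
  sum := fun w hw => P_formula (cond_gt hχ) prim_prim h0 hf hw

end

end Pool.Agent.Helper37.VFG
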