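import Mathlib

/-! Integrals of Cauchy kernels. -/

set_option autoImplicit false

open MeasureTheory Filter Topology Set Complex

namespace Pool.Agent.Helper37.VFG

noncomputable section

lemma zt_ne {z : ℂ} (hz : 0 < z.re) (t : ℝ) : z + t * I ≠ 0 := by
  intro h
  have := congrArg Complex.re h
  simp at this
  linarith

/-- lower bound for the kernel -/
lemma zt_low {z : ℂ} (hz : 0 < z.re) : ∃ c : ℝ, 0 < c ∧ ∀ t : ℝ, c * (1 + t ^ 2) ≤ ‖z + t * I‖ ^ 2 := by
  refine ⟨1 / ((1 + 2 * z.im ^ 2) / z.re ^ 2 + 2), by positivity, fun t => ?_⟩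
  rw [← Complex.normSq_eq_norm_sq, Complex.normSq_apply]
  have e1 : (z + t * I).re = z.re := by simp
  have e2 : (z + t * I).im = z.im + t := by simp
  rw [e1, e2, one_div, inv_mul_le_iff₀ (by positivity)]
  have h1 : (1 + 2 * z.im ^ 2) ≤ (1 + 2 * z.im ^ 2) / z.re ^ 2 * (z.re * z.re + (z.im + t) * (z.im + t)) := by
    rw [div_mul_eq_mul_div, le_div_iff₀ (by positivity)]
    have : 0 ≤ (1 + 2 * z.im ^ 2) * ((z.im + t) * (z.im + t)) := by
      have := mul_self_nonneg (z.im + t)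
      positivity
    nlinarith
  nlinarith [sq_nonneg (z.im + t), sq_nonneg (z.im - (z.im + t)), sq_nonneg (z.im + (z.im + t)), sq_nonneg z.re]

lemma inv_int : Integrable (fun t : ℝ => 1 / (1 + t ^ 2)) := by
  simpa [one_div] using integrable_inv_one_add_sq

lemma two_bound {z w : ℂ} (hz : 0 < z.re) (hw : 0 < w.re) :
    ∃ C : ℝ, 0 ≤ C ∧ ∀ t : ℝ, ‖1 / ((z + t * I) * (w + t * I))‖ ≤ C * (1 / (1 + t ^ 2)) := by
  obtain ⟨c, hc, h1⟩ := zt_low hz
  obtain ⟨d, hd, h2⟩ := zt_low hw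
  refine ⟨1 / c + 1 / d, by positivity, fun t => ?_⟩
  have h3 := h1 t
  have h4 := h2 t
  have hA : 0 < ‖z + t * I‖ := norm_pos_iff.2 (zt_ne hz t)
  have hB : 0 < ‖w + t * I‖ := norm_pos_iff.2 (zt_ne hw t)
  rw [norm_div, norm_one, norm_mul]
  have h5 : 1 / (‖z + t * I‖ * ‖w + t * I‖) ≤ 1 / ‖z + t * I‖ ^ 2 + 1 / ‖w + t * I‖ ^ 2 := by
    have e : 1 / (‖z + t * I‖ * ‖w + t * I‖) = (1 / ‖z + t * I‖) * (1 / ‖w + t * I‖) := by
      field_simp
    have e2 : 1 / ‖z + t * I‖ ^ 2 + 1 / ‖w + t * I‖ ^ 2 = (1 / ‖z + t * I‖) ^ 2 + (1 / ‖w + t * I‖) ^ 2 := by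
      rw [div_pow, div_pow, one_pow]
    rw [e, e2]
    nlinarith [sq_nonneg (1 / ‖z + t * I‖ - 1 / ‖w + t * I‖), sq_nonneg (1 / ‖z + t * I‖ + 1 / ‖w + t * I‖)]
  have h6 : 1 / ‖z + t * I‖ ^ 2 ≤ 1 / c * (1 / (1 + t ^ 2)) := by
    refine (one_div_le_one_div_of_le (by positivity) h3).trans (le_of_eq ?_)
    field_simp
  have h7 : 1 / ‖w + t * I‖ ^ 2 ≤ 1 / d * (1 / (1 + t ^ 2)) := by
    refine (one_div_le_one_div_of_le (by positivity) h4).trans (le_of_eq ?_)
    field_simp
  calc _ ≤ _ := h5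
    _ ≤ _ := add_le_add h6 h7
    _ = _ := by ring

lemma two_int {z w : ℂ} (hz : 0 < z.re) (hw : 0 < w.re) :
    Integrable (fun t : ℝ => 1 / ((z + t * I) * (w + t * I))) := by
  obtain ⟨C, hC, h⟩ := two_bound hz hw
  refine (inv_int.const_mul C).mono' ?_ (Eventually.of_forall h)
  refine Continuous.aestronglyMeasurable ?_
  refine Continuous.div continuous_const (by fun_prop) fun t => mul_ne_zero (zt_ne hz t) (zt_ne hw t)

lemma zt_inv_tendsto {w : ℂ} (hw : 0 < w.re) (v : ℂ) :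
    Tendsto (fun t : ℝ => v / (w + t * I)) atTop (𝓝 0) ∧ Tendsto (fun t : ℝ => v / (w + t * I)) atBot (𝓝 0) := by
  obtain ⟨c, hc, h⟩ := zt_low hw
  have hb : ∀ t : ℝ, t ≠ 0 → ‖v / (w + t * I)‖ ≤ ‖v‖ / Real.sqrt c * |t|⁻¹ := by
    intro t ht
    have h1 := h t
    have hA : 0 < ‖w + t * I‖ := norm_pos_iff.2 (zt_ne hw t)
    have ht0 : 0 < |t| := abs_pos.2 ht
    have h2 : Real.sqrt c * |t| ≤ ‖w + t * I‖ := by
      rw [← Real.sqrt_sq_eq_abs, ← Real.sqrt_mul hc.le]
      apply Real.sqrt_le_iff.2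
      refine ⟨hA.le, ?_⟩
      nlinarith
    rw [norm_div]
    have hs : 0 < Real.sqrt c := Real.sqrt_pos.2 hc
    calc ‖v‖ / ‖w + t * I‖ ≤ ‖v‖ / (Real.sqrt c * |t|) := by gcongr
      _ = _ := by field_simp
  constructor
  · refine squeeze_zero_norm' (a := fun t : ℝ => ‖v‖ / Real.sqrt c * |t|⁻¹) ?_ ?_
    · filter_upwards [eventually_ne_atTop 0] with t ht using hb t ht
    · have := (tendsto_abs_atTop_atTop (G := ℝ)).inv_tendsto_atTop.const_mul (‖v‖ / Real.sqrt c)
      simpa using this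
  · refine squeeze_zero_norm' (a := fun t : ℝ => ‖v‖ / Real.sqrt c * |t|⁻¹) ?_ ?_
    · filter_upwards [eventually_ne_atBot 0] with t ht using hb t ht
    · have := (tendsto_abs_atBot_atTop (G := ℝ)).inv_tendsto_atTop.const_mul (‖v‖ / Real.sqrt c)
      simpa using this

lemma zt_deriv (z : ℂ) (t : ℝ) : HasDerivAt (fun t : ℝ => z + t * I) I t := by
  have h1 : HasDerivAt (fun t : ℝ => (t : ℂ)) 1 t := Complex.ofRealCLM.hasDerivAt
  have h2 := (h1.mul_const I).const_add z
  simpa using h2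

theorem two_zero {z w : ℂ} (hz : 0 < z.re) (hw : 0 < w.re) :
    ∫ t : ℝ, 1 / ((z + t * I) * (w + t * I)) = 0 := by
  by_cases h : z = w
  · subst h
    have hd : ∀ t : ℝ, HasDerivAt (fun t : ℝ => I / (z + t * I)) (1 / ((z + t * I) * (z + t * I))) t := by
      intro t
      have h1 := (zt_deriv z t).inv (zt_ne hz t)
      have h2 := h1.const_mul I
      have e : I * (-I / (z + t * I) ^ 2) = 1 / ((z + t * I) * (z + t * I)) := by
        have h3 := zt_ne hz t
        field_simp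
        rw [I_sq]
        ring
      rw [← e]
      simpa [div_eq_mul_inv] using h2
    have := integral_of_hasDerivAt_of_tendsto hd (two_int hz hz) (zt_inv_tendsto hz I).2 (zt_inv_tendsto hz I).1
    rw [this, sub_zero]
  · have hwz : w - z ≠ 0 := sub_ne_zero.2 (Ne.symm h)
    set F : ℝ → ℂ := fun t => 1 / (I * (z - w)) * Complex.log ((w + t * I) / (z + t * I)) with hF
    have hslit : ∀ t : ℝ, (w + t * I) / (z + t * I) ∈ slitPlane := by
      intro t
      have hzt := zt_ne hz t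
      have hA : 0 < Complex.normSq (z + t * I) := Complex.normSq_pos.2 hzt
      rw [mem_slitPlane_iff]
      by_contra hcon
      push Not at hcon
      obtain ⟨c1, c2⟩ := hcon
      set q := (w + t * I) / (z + t * I) with hq
      have e1 : w + t * I = q * (z + t * I) := by rw [hq]; field_simp
      have e2 := congrArg Complex.re e1
      simp only [Complex.add_re, Complex.mul_re, Complex.ofReal_re, Complex.I_re, mul_zero, Complex.ofReal_im,
        Complex.I_im, mul_one, sub_self, add_zero, c2, zero_mul, sub_zero] at e2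
      nlinarith
    have hd : ∀ t : ℝ, HasDerivAt F (1 / ((z + t * I) * (w + t * I))) t := by
      intro t
      have hzt := zt_ne hz t
      have hwt := zt_ne hw t
      have h1 := (zt_deriv w t).div (zt_deriv z t) hzt
      have h2 := h1.clog_real (hslit t)
      have h3 := h2.const_mul (1 / (I * (z - w)))
      refine h3.congr_deriv ?_
      have hzw : z - w ≠ 0 := sub_ne_zero.2 h
      simp only [Pi.div_apply]
      field_simp
      ring
    have hq : ∀ l : Filter ℝ, Tendsto (fun t : ℝ => (w - z) / (z + t * I)) l (𝓝 0) → Tendsto F l (𝓝 0) := by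
      intro l hl
      have h1 : Tendsto (fun t : ℝ => (w + t * I) / (z + t * I)) l (𝓝 1) := by
        have h2 := hl.const_add 1
        rw [add_zero] at h2
        refine h2.congr fun t => ?_
        have hzt := zt_ne hz t
        field_simp
        ring
      have h2 := ((continuousAt_clog (x := 1) one_mem_slitPlane).tendsto.comp h1).const_mul (1 / (I * (z - w)))
      simpa [hF] using h2
    have := integral_of_hasDerivAt_of_tendsto hd (two_int hz hw) (hq _ (zt_inv_tendsto hz (w - z)).2)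
      (hq _ (zt_inv_tendsto hz (w - z)).1)
    rw [this, sub_zero]

lemma three_int {z w v : ℂ} (hz : 0 < z.re) (hw : 0 < w.re) (hv : 0 < v.re) :
    Integrable (fun t : ℝ => 1 / ((z + t * I) * (w + t * I) * (v + t * I))) := by
  have h1 := two_int hz hw
  have h2 : Continuous (fun t : ℝ => 1 / (v + t * I)) :=
    Continuous.div continuous_const (by fun_prop) fun t => zt_ne hv t
  have h3 : ∀ t : ℝ, ‖1 / (v + t * I)‖ ≤ 1 / v.re := by
    intro t
    rw [norm_div, norm_one]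
    apply one_div_le_one_div_of_le hv
    have := Complex.re_le_norm (v + t * I)
    simpa using this
  have h4 := h1.bdd_mul h2.aestronglyMeasurable (Eventually.of_forall h3)
  refine h4.congr (Eventually.of_forall fun t => ?_)
  simp only
  have hzt := zt_ne hz t
  have hwt := zt_ne hw t
  have hvt := zt_ne hv t
  field_simp

theorem three_zero_aux {z w v : ℂ} (hz : 0 < z.re) (hw : 0 < w.re) (hv : 0 < v.re) (h : z ≠ w) :
    ∫ t : ℝ, 1 / ((z + t * I) * (w + t * I) * (v + t * I)) = 0 := by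
  have hwz : w - z ≠ 0 := sub_ne_zero.2 (Ne.symm h)
  have e : ∀ t : ℝ, 1 / ((z + t * I) * (w + t * I) * (v + t * I)) =
      (1 / (w - z)) * (1 / ((z + t * I) * (v + t * I)) - 1 / ((w + t * I) * (v + t * I))) := by
    intro t
    have hzt := zt_ne hz t
    have hwt := zt_ne hw t
    have hvt := zt_ne hv t
    field_simp
    ring
  simp_rw [e]
  rw [integral_const_mul, integral_sub (two_int hz hv) (two_int hw hv), two_zero hz hv, two_zero hw hv]
  simp

theorem three_zero {z w v : ℂ} (hz : 0 < z.re) (hw : 0 < w.re) (hv : 0 < v.re) :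
    ∫ t : ℝ, 1 / ((z + t * I) * (w + t * I) * (v + t * I)) = 0 := by
  by_cases h : z = w
  · by_cases h2 : z = v
    · subst h
      subst h2
      have hd : ∀ t : ℝ, HasDerivAt (fun t : ℝ => I / 2 * (1 / ((z + t * I) * (z + t * I))))
          (1 / ((z + t * I) * (z + t * I) * (z + t * I))) t := by
        intro t
        have h3 := zt_ne hz t
        have h1 := ((zt_deriv z t).mul (zt_deriv z t)).inv (mul_ne_zero h3 h3)
        have h2 := h1.const_mul (I / 2)
        refine (h2.congr_deriv ?_).congr_of_eventuallyEq (Eventually.of_forall fun t => ?_)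
        · simp only [Pi.mul_apply]
          field_simp
          ring_nf
          rw [I_sq]
          ring
        · simp [Pi.mul_apply, Pi.inv_apply]
      have ht : ∀ l : Filter ℝ, Tendsto (fun t : ℝ => (1:ℂ) / (z + t * I)) l (𝓝 0) →
          Tendsto (fun t : ℝ => I / 2 * (1 / ((z + t * I) * (z + t * I)))) l (𝓝 0) := by
        intro l hl
        have h4 := (hl.mul hl).const_mul (I / 2)
        rw [mul_zero, mul_zero] at h4
        refine h4.congr fun t => ?_
        have h3 := zt_ne hz t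
        field_simp
      have := integral_of_hasDerivAt_of_tendsto hd (three_int hz hz hz) (ht _ (zt_inv_tendsto hz 1).2)
        (ht _ (zt_inv_tendsto hz 1).1)
      rw [this, sub_zero]
    · have h3 := three_zero_aux hz hv hw h2
      rw [← h3]
      refine integral_congr_ae (Eventually.of_forall fun t => ?_)
      simp only
      congr 1
      ring
  · exact three_zero_aux hz hw hv h

lemma om_int {a : ℝ} (ha : 0 < a) : Integrable (fun t : ℝ => 1 / (a ^ 2 + t ^ 2)) ∧
    ∫ t : ℝ, 1 / (a ^ 2 + t ^ 2) = Real.pi / a := by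
  have e : ∀ t : ℝ, 1 / (a ^ 2 + t ^ 2) = (1 / a ^ 2) * (1 + (t / a) ^ 2)⁻¹ := by
    intro t
    field_simp
  constructor
  · simp_rw [e]
    refine Integrable.const_mul ?_ _
    exact (integrable_inv_one_add_sq.comp_div ha.ne')
  · simp_rw [e]
    rw [integral_const_mul, Measure.integral_comp_div (fun t : ℝ => (1 + t ^ 2)⁻¹) a, integral_univ_inv_one_add_sq,
      abs_of_pos ha, smul_eq_mul]
    field_simp

lemma om_eq {a : ℝ} (ha : 0 < a) (t : ℝ) : ((1 / (a ^ 2 + t ^ 2) : ℝ) : ℂ) = 1 / (((a : ℂ) + t * I) * (a - t * I)) := by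
  push_cast
  congr 1
  ring_nf
  rw [I_sq]
  ring

lemma am_ne {a : ℝ} (ha : 0 < a) (t : ℝ) : (a : ℂ) - t * I ≠ 0 := by
  have := zt_ne (z := (a : ℂ)) (by simpa using ha) (-t)
  push_cast at this
  rwa [neg_mul, ← sub_eq_add_neg] at this

lemma za_ne {z : ℂ} {a : ℝ} (hz : 0 < z.re) (ha : 0 < a) : z + a ≠ 0 := by
  intro h
  have := congrArg Complex.re h
  simp at this
  linarith

/-- the Poisson integral of a Cauchy kernel -/
theorem pois_one {z : ℂ} {a : ℝ} (hz : 0 < z.re) (ha : 0 < a) :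
    Integrable (fun t : ℝ => 1 / (z + t * I) * ((1 / (a ^ 2 + t ^ 2) : ℝ) : ℂ)) ∧
    ∫ t : ℝ, 1 / (z + t * I) * ((1 / (a ^ 2 + t ^ 2) : ℝ) : ℂ) = (Real.pi / a) * (1 / (z + a)) := by
  have ha' : 0 < (a : ℂ).re := by simpa using ha
  have e : ∀ t : ℝ, 1 / (z + t * I) * ((1 / (a ^ 2 + t ^ 2) : ℝ) : ℂ) =
      (1 / (z + a)) * (1 / ((z + t * I) * (a + t * I)) + ((1 / (a ^ 2 + t ^ 2) : ℝ) : ℂ)) := by
    intro t
    rw [om_eq ha]
    have h1 := zt_ne hz t
    have h2 := zt_ne ha' t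
    have h3 := am_ne ha t
    have h4 := za_ne hz ha
    field_simp
    ring
  have ho : Integrable (fun t : ℝ => ((1 / (a ^ 2 + t ^ 2) : ℝ) : ℂ)) := (om_int ha).1.ofReal
  have hi : Integrable (fun t : ℝ => 1 / ((z + t * I) * (a + t * I)) + ((1 / (a ^ 2 + t ^ 2) : ℝ) : ℂ)) :=
    (two_int hz ha').add ho
  constructor
  · simp_rw [e]
    exact hi.const_mul _
  · simp_rw [e]
    have e2 : ∫ t : ℝ, ((1 / (a ^ 2 + t ^ 2) : ℝ) : ℂ) = ((∫ t : ℝ, 1 / (a ^ 2 + t ^ 2) : ℝ) : ℂ) := integral_ofReal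
    rw [integral_const_mul, integral_add (two_int hz ha') ho, two_zero hz ha', zero_add,
      e2, (om_int ha).2]
    push_cast
    ring

/-- the Poisson integral of a product of two Cauchy kernels -/
theorem pois_two {z w : ℂ} {a : ℝ} (hz : 0 < z.re) (hw : 0 < w.re) (ha : 0 < a) :
    Integrable (fun t : ℝ => 1 / ((z + t * I) * (w + t * I)) * ((1 / (a ^ 2 + t ^ 2) : ℝ) : ℂ)) ∧
    ∫ t : ℝ, 1 / ((z + t * I) * (w + t * I)) * ((1 / (a ^ 2 + t ^ 2) : ℝ) : ℂ) =
      (Real.pi / a) * (1 / ((z + a) * (w + a))) := by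
  have ha' : 0 < (a : ℂ).re := by simpa using ha
  have e : ∀ t : ℝ, 1 / ((z + t * I) * (w + t * I)) * ((1 / (a ^ 2 + t ^ 2) : ℝ) : ℂ) =
      (1 / (z + a)) * (1 / ((z + t * I) * (w + t * I) * (a + t * I)) +
        1 / (w + t * I) * ((1 / (a ^ 2 + t ^ 2) : ℝ) : ℂ)) := by
    intro t
    rw [om_eq ha]
    have h1 := zt_ne hz t
    have h1' := zt_ne hw t
    have h2 := zt_ne ha' t
    have h3 := am_ne ha t
    have h4 := za_ne hz ha
    field_simp
    ring
  have hp := pois_one hw ha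
  have hi := (three_int hz hw ha').add hp.1
  constructor
  · simp_rw [e]
    exact hi.const_mul _
  · simp_rw [e]
    rw [integral_const_mul, integral_add (three_int hz hw ha') hp.1, three_zero hz hw ha', zero_add, hp.2]
    have h4 := za_ne hz ha
    have h5 := za_ne hw ha
    field_simp

/-- the kernel of a zero `u` and its mirror image, at the point `w` -/
def KK (u w : ℂ) : ℝ := ((1 / (w - u)).re + (1 / (w + (starRingEnd ℂ) u)).re) / 2

lemma re_inv_pos {z : ℂ} (hz : 0 < z.re) : 0 < (1 / z).re := by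
  rw [one_div, Complex.inv_re]
  have : 0 < Complex.normSq z := Complex.normSq_pos.2 (by
    rintro rfl
    simp at hz)
  positivity

lemma KK_pos {u w : ℂ} (h : |u.re| < w.re) : 0 < KK u w := by
  have h1 := (abs_lt.1 h).1
  have h2 := (abs_lt.1 h).2
  unfold KK
  have a1 : 0 < (1 / (w - u)).re := re_inv_pos (by simp; linarith)
  have a2 : 0 < (1 / (w + (starRingEnd ℂ) u)).re := re_inv_pos (by simp; linarith)
  linarith

/-- the integral of the kernel -/
theorem KK_int {u : ℂ} {δ a : ℝ} (h : |u.re| < δ) (ha : 0 < a) :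
    Integrable (fun t : ℝ => KK u (δ + t * I) * (1 / (a ^ 2 + t ^ 2))) ∧
    ∫ t : ℝ, KK u (δ + t * I) * (1 / (a ^ 2 + t ^ 2)) = (Real.pi / a) * KK u (δ + a) := by
  have h1 := (abs_lt.1 h).1
  have h2 := (abs_lt.1 h).2
  have hz : 0 < ((δ : ℂ) - u).re := by simp; linarith
  have hw : 0 < ((δ : ℂ) + (starRingEnd ℂ) u).re := by simp; linarith
  have p1 := pois_one hz ha
  have p2 := pois_one hw ha
  have e : ∀ t : ℝ, KK u (δ + t * I) * (1 / (a ^ 2 + t ^ 2)) =
      ((1 / ((δ : ℂ) - u + t * I) * ((1 / (a ^ 2 + t ^ 2) : ℝ) : ℂ)).re +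
        (1 / ((δ : ℂ) + (starRingEnd ℂ) u + t * I) * ((1 / (a ^ 2 + t ^ 2) : ℝ) : ℂ)).re) / 2 := by
    intro t
    rw [Complex.re_mul_ofReal, Complex.re_mul_ofReal]
    unfold KK
    rw [show (δ : ℂ) + t * I - u = δ - u + t * I by ring,
      show (δ : ℂ) + t * I + (starRingEnd ℂ) u = δ + (starRingEnd ℂ) u + t * I by ring]
    ring
  have q1 : ∫ t : ℝ, (1 / ((δ : ℂ) - u + t * I) * ((1 / (a ^ 2 + t ^ 2) : ℝ) : ℂ)).re =
      ((Real.pi / a) * (1 / ((δ : ℂ) - u + a))).re := by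
    rw [← p1.2]
    exact integral_re p1.1
  have q2 : ∫ t : ℝ, (1 / ((δ : ℂ) + (starRingEnd ℂ) u + t * I) * ((1 / (a ^ 2 + t ^ 2) : ℝ) : ℂ)).re =
      ((Real.pi / a) * (1 / ((δ : ℂ) + (starRingEnd ℂ) u + a))).re := by
    rw [← p2.2]
    exact integral_re p2.1
  have i1 : Integrable (fun t : ℝ => (1 / ((δ : ℂ) - u + t * I) * ((1 / (a ^ 2 + t ^ 2) : ℝ) : ℂ)).re) := p1.1.re
  have i2 : Integrable (fun t : ℝ => (1 / ((δ : ℂ) + (starRingEnd ℂ) u + t * I) *
    ((1 / (a ^ 2 + t ^ 2) : ℝ) : ℂ)).re) := p2.1.re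
  constructor
  · simp_rw [e]
    exact (i1.add i2).div_const 2
  · simp_rw [e]
    rw [integral_div, integral_add i1 i2, q1, q2]
    unfold KK
    rw [show (Real.pi : ℂ) / a = ((Real.pi / a : ℝ) : ℂ) by push_cast; ring, Complex.re_ofReal_mul,
      Complex.re_ofReal_mul, show (δ : ℂ) + a - u = δ - u + a by ring,
      show (δ : ℂ) + a + (starRingEnd ℂ) u = δ + (starRingEnd ℂ) u + a by ring]
    ring

/-- product formula -/
lemma re_mul_re {A B : ℂ} (hA : 0 < A.re) (hB : 0 < B.re) :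
    (1 / A).re * (1 / B).re = ((1 / (A * B)).re + (1 / (A * (starRingEnd ℂ) B)).re) / 2 := by
  have e : ∀ a b : ℂ, a.re * b.re = ((a * b).re + (a * (starRingEnd ℂ) b).re) / 2 := by
    intro a b
    simp
  rw [e]
  congr 3
  · field_simp
  · rw [map_div₀, map_one]
    field_simp

/-- the kernel squared -/
theorem KK_sq {u : ℂ} {δ a : ℝ} (h : |u.re| < δ) (ha : 1 / 2 ≤ a) :
    Integrable (fun t : ℝ => KK u (δ + t * I) ^ 2 * (1 / (a ^ 2 + t ^ 2))) ∧
    (1 / (2 * δ) - 1) * ((Real.pi / a) * KK u (δ + a)) ≤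
      ∫ t : ℝ, KK u (δ + t * I) ^ 2 * (1 / (a ^ 2 + t ^ 2)) := by
  have ha0 : 0 < a := by linarith
  have h1 := (abs_lt.1 h).1
  have h2 := (abs_lt.1 h).2
  have hδ : 0 < δ := (abs_nonneg _).trans_lt h
  have hz : 0 < ((δ : ℂ) - u).re := by simp; linarith
  have hw : 0 < ((δ : ℂ) + (starRingEnd ℂ) u).re := by simp; linarith
  have hA : ∀ t : ℝ, 0 < ((δ : ℂ) + t * I - u).re := fun t => by simp; linarith
  have hB : ∀ t : ℝ, 0 < ((δ : ℂ) + t * I + (starRingEnd ℂ) u).re := fun t => by simp; linarith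
  have p2 := pois_two hz hw ha0
  have k1 := KK_int h ha0
  -- pointwise
  have hpt : ∀ t : ℝ, 1 / (2 * δ) * (KK u (δ + t * I) * (1 / (a ^ 2 + t ^ 2))) +
      1 / 2 * (1 / (((δ : ℂ) - u + t * I) * ((δ : ℂ) + (starRingEnd ℂ) u + t * I)) *
        ((1 / (a ^ 2 + t ^ 2) : ℝ) : ℂ)).re ≤ KK u (δ + t * I) ^ 2 * (1 / (a ^ 2 + t ^ 2)) := by
    intro t
    rw [Complex.re_mul_ofReal]
    have hom : 0 ≤ 1 / (a ^ 2 + t ^ 2) := by positivity
    have e1 := re_mul_re (hA t) (hB t)
    have e2 : (1 / (((δ : ℂ) + t * I - u) * (starRingEnd ℂ) ((δ : ℂ) + t * I + (starRingEnd ℂ) u))).re =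
        1 / (2 * δ) * ((1 / ((δ : ℂ) + t * I - u)).re + (1 / ((δ : ℂ) + t * I + (starRingEnd ℂ) u)).re) := by
      have hB' : (starRingEnd ℂ) ((δ : ℂ) + t * I + (starRingEnd ℂ) u) ≠ 0 := by
        rw [map_ne_zero]
        intro h
        have := hB t
        rw [h] at this
        simp at this
      have hA' : (δ : ℂ) + t * I - u ≠ 0 := by
        intro h
        have := hA t
        rw [h] at this
        simp at this
      have e3 : ((δ : ℂ) + t * I - u) + (starRingEnd ℂ) ((δ : ℂ) + t * I + (starRingEnd ℂ) u) = ((2 * δ : ℝ) : ℂ) := by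
        simp
        ring
      have e4 : 1 / (((δ : ℂ) + t * I - u) * (starRingEnd ℂ) ((δ : ℂ) + t * I + (starRingEnd ℂ) u)) =
          ((1 / (2 * δ) : ℝ) : ℂ) * (1 / ((δ : ℂ) + t * I - u) +
            1 / (starRingEnd ℂ) ((δ : ℂ) + t * I + (starRingEnd ℂ) u)) := by
        have h2δ : ((2 * δ : ℝ) : ℂ) ≠ 0 := by
          rw [Complex.ofReal_ne_zero]
          positivity
        have : ((1 / (2 * δ) : ℝ) : ℂ) = 1 / ((2 * δ : ℝ) : ℂ) := by push_cast; ring
        rw [this, ← e3] at *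
        field_simp
        ring
      have e5 : (1 / (starRingEnd ℂ) ((δ : ℂ) + t * I + (starRingEnd ℂ) u)).re =
          (1 / ((δ : ℂ) + t * I + (starRingEnd ℂ) u)).re := by
        rw [← map_one (starRingEnd ℂ), ← map_div₀, Complex.conj_re]
        simp
      rw [e4, Complex.re_ofReal_mul, Complex.add_re, e5]
    rw [e2] at e1
    have e6 : KK u (δ + t * I) ^ 2 ≥ (1 / ((δ : ℂ) + t * I - u)).re * (1 / ((δ : ℂ) + t * I + (starRingEnd ℂ) u)).re := by
      unfold KK
      nlinarith [sq_nonneg ((1 / ((δ : ℂ) + t * I - u)).re - (1 / ((δ : ℂ) + t * I + (starRingEnd ℂ) u)).re)]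
    have e7 : (δ : ℂ) - u + t * I = δ + t * I - u := by ring
    have e8 : (δ : ℂ) + (starRingEnd ℂ) u + t * I = δ + t * I + (starRingEnd ℂ) u := by ring
    rw [e7, e8]
    have e9 : 1 / (2 * δ) * KK u (δ + t * I) +
        1 / 2 * (1 / (((δ : ℂ) + t * I - u) * ((δ : ℂ) + t * I + (starRingEnd ℂ) u))).re ≤ KK u (δ + t * I) ^ 2 := by
      refine le_trans (le_of_eq ?_) e6
      rw [e1]
      unfold KK
      ring
    nlinarith [mul_le_mul_of_nonneg_right e9 hom]
  have hcont : Continuous (fun t : ℝ => KK u (δ + t * I)) := by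
    unfold KK
    have c1 : Continuous (fun t : ℝ => 1 / ((δ : ℂ) + t * I - u)) :=
      Continuous.div continuous_const (by fun_prop) fun t => by
        intro h
        have := hA t
        rw [h] at this
        simp at this
    have c2 : Continuous (fun t : ℝ => 1 / ((δ : ℂ) + t * I + (starRingEnd ℂ) u)) :=
      Continuous.div continuous_const (by fun_prop) fun t => by
        intro h
        have := hB t
        rw [h] at this
        simp at this
    exact ((Complex.continuous_re.comp c1).add (Complex.continuous_re.comp c2)).div_const 2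
  have hnn : ∀ t : ℝ, 0 ≤ KK u (δ + t * I) := fun t => (KK_pos (by simpa using h)).le
  set M : ℝ := 1 / (δ - |u.re|) with hM
  have hMpos : 0 < δ - |u.re| := by linarith
  have hbd : ∀ t : ℝ, KK u (δ + t * I) ≤ M := by
    intro t
    have hre : ∀ z : ℂ, δ - |u.re| ≤ z.re → (1 / z).re ≤ M := by
      intro z hz'
      refine (Complex.re_le_norm _).trans ?_
      rw [norm_div, norm_one, hM]
      apply one_div_le_one_div_of_le hMpos
      exact hz'.trans (Complex.re_le_norm z)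
    unfold KK
    have r1 : ((δ : ℂ) + t * I - u).re = δ - u.re := by simp
    have r2 : ((δ : ℂ) + t * I + (starRingEnd ℂ) u).re = δ + u.re := by simp
    have b1 := hre ((δ : ℂ) + t * I - u) (by rw [r1]; linarith [le_abs_self u.re])
    have b2 := hre ((δ : ℂ) + t * I + (starRingEnd ℂ) u) (by rw [r2]; linarith [neg_abs_le u.re])
    linarith
  have hint : Integrable (fun t : ℝ => KK u (δ + t * I) ^ 2 * (1 / (a ^ 2 + t ^ 2))) := by
    refine (k1.1.const_mul M).mono' ?_ (Eventually.of_forall fun t => ?_)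
    · refine Continuous.aestronglyMeasurable ((hcont.pow 2).mul ?_)
      exact Continuous.div continuous_const (by fun_prop) fun t => by positivity
    · have hom : 0 ≤ 1 / (a ^ 2 + t ^ 2) := by positivity
      rw [Real.norm_of_nonneg (by positivity), sq, ← mul_assoc]
      exact mul_le_mul_of_nonneg_right (mul_le_mul_of_nonneg_right (hbd t) (hnn t)) hom
  refine ⟨hint, ?_⟩
  have hI2 : Integrable (fun t : ℝ => 1 / 2 * (1 / (((δ : ℂ) - u + t * I) * ((δ : ℂ) + (starRingEnd ℂ) u + t * I)) *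
        ((1 / (a ^ 2 + t ^ 2) : ℝ) : ℂ)).re) := p2.1.re.const_mul (1 / 2)
  have hI1 : Integrable (fun t : ℝ => 1 / (2 * δ) * (KK u (δ + t * I) * (1 / (a ^ 2 + t ^ 2)))) :=
    k1.1.const_mul (1 / (2 * δ))
  have hI3 : Integrable (fun t : ℝ => 1 / (2 * δ) * (KK u (δ + t * I) * (1 / (a ^ 2 + t ^ 2))) +
      1 / 2 * (1 / (((δ : ℂ) - u + t * I) * ((δ : ℂ) + (starRingEnd ℂ) u + t * I)) *
        ((1 / (a ^ 2 + t ^ 2) : ℝ) : ℂ)).re) := hI1.add hI2
  have hmono := integral_mono hI3 hint hpt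
  refine le_trans ?_ hmono
  rw [integral_add hI1 hI2, integral_const_mul, integral_const_mul, k1.2]
  have q2 : ∫ t : ℝ, (1 / (((δ : ℂ) - u + t * I) * ((δ : ℂ) + (starRingEnd ℂ) u + t * I)) *
        ((1 / (a ^ 2 + t ^ 2) : ℝ) : ℂ)).re =
      ((Real.pi / a) * (1 / (((δ : ℂ) - u + a) * ((δ : ℂ) + (starRingEnd ℂ) u + a)))).re := by
    rw [← p2.2]
    exact integral_re p2.1
  rw [q2, show (Real.pi : ℂ) / a = ((Real.pi / a : ℝ) : ℂ) by push_cast; ring, Complex.re_ofReal_mul]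
  -- the error
  set z1 : ℂ := (δ : ℂ) - u + a with hz1
  set z2 : ℂ := (δ : ℂ) + (starRingEnd ℂ) u + a with hz2
  have r1 : 1 / 2 ≤ z1.re := by rw [hz1]; simp; linarith
  have r2 : 1 / 2 ≤ z2.re := by rw [hz2]; simp; linarith
  have hinv : ∀ z : ℂ, 1 / 2 ≤ z.re → 1 / ‖z‖ ^ 2 ≤ 2 * (1 / z).re := by
    intro z hz'
    rw [one_div z, Complex.inv_re, ← Complex.normSq_eq_norm_sq]
    have : 0 < Complex.normSq z := Complex.normSq_pos.2 (by
      rintro rfl
      simp at hz'
      linarith)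
    rw [mul_div_assoc']
    apply div_le_div_of_nonneg_right _ this.le
    linarith
  have herr : -(2 * KK u (δ + a)) ≤ (1 / (z1 * z2)).re := by
    have e1 : |(1 / (z1 * z2)).re| ≤ 1 / (‖z1‖ * ‖z2‖) := by
      refine (Complex.abs_re_le_norm _).trans (le_of_eq ?_)
      rw [norm_div, norm_one, norm_mul]
    have n1 : 0 < ‖z1‖ := by linarith [Complex.re_le_norm z1]
    have n2 : 0 < ‖z2‖ := by linarith [Complex.re_le_norm z2]
    have e2 : 1 / (‖z1‖ * ‖z2‖) ≤ (1 / ‖z1‖ ^ 2 + 1 / ‖z2‖ ^ 2) / 2 := by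
      have e : 1 / (‖z1‖ * ‖z2‖) = (1 / ‖z1‖) * (1 / ‖z2‖) := by field_simp
      have e' : 1 / ‖z1‖ ^ 2 + 1 / ‖z2‖ ^ 2 = (1 / ‖z1‖) ^ 2 + (1 / ‖z2‖) ^ 2 := by
        rw [div_pow, div_pow, one_pow]
      rw [e, e']
      nlinarith [sq_nonneg (1 / ‖z1‖ - 1 / ‖z2‖)]
    have e3 := hinv z1 r1
    have e4 := hinv z2 r2
    have e5 : KK u (δ + a) = ((1 / z1).re + (1 / z2).re) / 2 := by
      unfold KK
      rw [hz1, hz2, show (δ : ℂ) + a - u = δ - u + a by ring,
        show (δ : ℂ) + a + (starRingEnd ℂ) u = δ + (starRingEnd ℂ) u + a by ring]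
    have e6 := neg_abs_le (1 / (z1 * z2)).re
    rw [e5]
    linarith
  have hpa : 0 < Real.pi / a := by positivity
  nlinarith [mul_le_mul_of_nonneg_left herr hpa.le]

end
end Pool.Agent.Helper37.VFG
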