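import Pool.Agent.Helper37.VFG.Def2

set_option autoImplicit false

namespace H37F

open Complex

theorem gv_low : T8 := by
  intro Q hQ x hx1 hxQ
  have hQ0 : 0 < Q := by omega
  have hphiN : 0 < Q.totient := Nat.totient_pos.mpr hQ0
  have hphi : (0 : ℝ) < Q.totient := by exact_mod_cast hphiN
  have hx0 : 0 ≤ x := by linarith
  have hfl : ⌊x⌋₊ < Q := (Nat.floor_lt hx0).mpr hxQ
  unfold GV
  set R := (Finset.range Q).filter (fun a => Nat.Coprime a Q) with hR
  have hu0 : ∀ a, 0 ≤ psiAP Q a x := by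
    intro a
    unfold psiAP
    exact Finset.sum_nonneg fun n _ => ArithmeticFunction.vonMangoldt_nonneg
  have hu : ∀ a ∈ R, psiAP Q a x ^ 2 ≤
      if a ∈ Finset.Ioc 0 ⌊x⌋₊ then ArithmeticFunction.vonMangoldt a ^ 2 else 0 := by
    intro a ha
    have haQ : a < Q := Finset.mem_range.mp (Finset.mem_filter.mp ha).1
    unfold psiAP
    by_cases hmem : a ∈ Finset.Ioc 0 ⌊x⌋₊
    · rw [if_pos hmem]
      have : (Finset.Icc 1 ⌊x⌋₊).filter (fun n => n % Q = a) = {a} := by
        ext n
        rw [Finset.mem_filter, Finset.mem_Icc, Finset.mem_singleton]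
        rw [Finset.mem_Ioc] at hmem
        constructor
        · rintro ⟨⟨_, h2⟩, h3⟩
          rw [Nat.mod_eq_of_lt (by omega)] at h3
          exact h3
        · rintro rfl
          exact ⟨⟨hmem.1, hmem.2⟩, Nat.mod_eq_of_lt haQ⟩
      rw [this, Finset.sum_singleton]
    · rw [if_neg hmem]
      have : (Finset.Icc 1 ⌊x⌋₊).filter (fun n => n % Q = a) = ∅ := by
        rw [Finset.filter_eq_empty_iff]
        intro n hn h3
        rw [Finset.mem_Icc] at hn
        rw [Nat.mod_eq_of_lt (by omega)] at h3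
        apply hmem
        rw [Finset.mem_Ioc]
        omega
      rw [this, Finset.sum_empty]
      norm_num
  have hterm : ∀ a ∈ R, (psiAP Q a x - x / (Q.totient : ℝ)) ^ 2 ≤
      (if a ∈ Finset.Ioc 0 ⌊x⌋₊ then ArithmeticFunction.vonMangoldt a ^ 2 else 0)
        + (x / (Q.totient : ℝ)) ^ 2 := by
    intro a ha
    have h1 := hu a ha
    have h2 := hu0 a
    have h3 : 0 ≤ x / (Q.totient : ℝ) := by positivity
    nlinarith [mul_nonneg h2 h3]
  refine (Finset.sum_le_sum hterm).trans ?_
  rw [Finset.sum_add_distrib, Finset.sum_const, nsmul_eq_mul]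
  have hRc : R.card = Q.totient := by
    rw [Nat.totient_eq_card_coprime, hR]
    congr 1
    apply Finset.filter_congr
    intro a _
    exact Nat.coprime_comm
  rw [hRc]
  have h1 : (Q.totient : ℝ) * (x / (Q.totient : ℝ)) ^ 2 = x ^ 2 / (Q.totient : ℝ) := by
    field_simp
  rw [h1]
  refine add_le_add ?_ le_rfl
  rw [← Finset.sum_filter]
  have h2 : ∑ a ∈ R.filter (fun a => a ∈ Finset.Ioc 0 ⌊x⌋₊), ArithmeticFunction.vonMangoldt a ^ 2
      ≤ ∑ a ∈ Finset.Ioc 0 ⌊x⌋₊, ArithmeticFunction.vonMangoldt a ^ 2 := by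
    apply Finset.sum_le_sum_of_subset_of_nonneg
    · intro a ha
      exact (Finset.mem_filter.mp ha).2
    · intro a _ _
      positivity
  refine h2.trans ?_
  unfold Chebyshev.psi
  rw [Finset.mul_sum]
  refine Finset.sum_le_sum fun a ha => ?_
  rw [Finset.mem_Ioc] at ha
  have ha0 : (0 : ℝ) < a := by exact_mod_cast ha.1
  have hax : (a : ℝ) ≤ x := (Nat.cast_le.mpr ha.2).trans (Nat.floor_le hx0)
  have h3 : ArithmeticFunction.vonMangoldt a ≤ Real.log x :=
    ArithmeticFunction.vonMangoldt_le_log.trans (Real.log_le_log ha0 hax)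
  rw [sq]
  exact mul_le_mul_of_nonneg_right h3 ArithmeticFunction.vonMangoldt_nonneg

/-- the product over a finite set of integers `≥ 2` -/
theorem prod_le (s : Finset ℕ) : (∀ n ∈ s, 2 ≤ n) →
    ∏ n ∈ s, n ≤ (s.card + 1) * ∏ n ∈ s, (n - 1) := by
  induction s using Finset.induction_on_max with
  | empty => simp
  | insert M s hM ih =>
    intro h2
    have hns : M ∉ s := fun h => lt_irrefl _ (hM M h)
    rw [Finset.prod_insert hns, Finset.prod_insert hns, Finset.card_insert_of_notMem hns]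
    have h3 := ih fun n hn => h2 n (Finset.mem_insert_of_mem hn)
    have hM2 := h2 M (Finset.mem_insert_self _ _)
    have hcard : s.card + 2 ≤ M := by
      have hsub : s ⊆ Finset.Ico 2 M := by
        intro n hn
        rw [Finset.mem_Ico]
        exact ⟨h2 n (Finset.mem_insert_of_mem hn), hM n hn⟩
      have := Finset.card_le_card hsub
      rw [Nat.card_Ico] at this
      omega
    obtain ⟨c, hc⟩ : ∃ c, M = s.card + 2 + c := ⟨M - (s.card + 2), by omega⟩
    have h4 : M * (s.card + 1) ≤ (s.card + 1 + 1) * (M - 1) := by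
      have : M - 1 = s.card + 1 + c := by omega
      rw [this, hc]
      nlinarith
    calc M * ∏ n ∈ s, n ≤ M * ((s.card + 1) * ∏ n ∈ s, (n - 1)) := Nat.mul_le_mul_left _ h3
      _ = (M * (s.card + 1)) * ∏ n ∈ s, (n - 1) := by ring
      _ ≤ ((s.card + 1 + 1) * (M - 1)) * ∏ n ∈ s, (n - 1) := Nat.mul_le_mul_right _ h4
      _ = _ := by ring

theorem tot_low : T9 := by
  intro Q hQ
  have hQ0 : 0 < Q := by omega
  have hphiN : 0 < Q.totient := Nat.totient_pos.mpr hQ0
  have hphi : (0 : ℝ) < Q.totient := by exact_mod_cast hphiN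
  have h1 := Nat.totient_mul_prod_primeFactors Q
  have h2 := prod_le Q.primeFactors fun n hn => (Nat.prime_of_mem_primeFactors hn).two_le
  have hpos : 0 < ∏ p ∈ Q.primeFactors, (p - 1) := by
    apply Finset.prod_pos
    intro p hp
    have := (Nat.prime_of_mem_primeFactors hp).two_le
    omega
  have h3 : Q ≤ (Q.primeFactors.card + 1) * Q.totient := by
    have h4 : Q * ∏ p ∈ Q.primeFactors, (p - 1) ≤
        ((Q.primeFactors.card + 1) * Q.totient) * ∏ p ∈ Q.primeFactors, (p - 1) := by
      rw [← h1]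
      calc Q.totient * ∏ p ∈ Q.primeFactors, p
          ≤ Q.totient * ((Q.primeFactors.card + 1) * ∏ p ∈ Q.primeFactors, (p - 1)) :=
            Nat.mul_le_mul_left _ h2
        _ = _ := by ring
    exact Nat.le_of_mul_le_mul_right h4 hpos
  have h5 : 2 ^ Q.primeFactors.card ≤ Q := by
    calc 2 ^ Q.primeFactors.card = ∏ p ∈ Q.primeFactors, 2 := by rw [Finset.prod_const]
      _ ≤ ∏ p ∈ Q.primeFactors, p :=
          Finset.prod_le_prod' fun p hp => (Nat.prime_of_mem_primeFactors hp).two_le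
      _ ≤ Q := Nat.le_of_dvd hQ0 (Nat.prod_primeFactors_dvd Q)
  have h6 : (Q.primeFactors.card : ℝ) * Real.log 2 ≤ Real.log Q := by
    rw [← Real.log_pow]
    apply Real.log_le_log (by positivity)
    exact_mod_cast h5
  have hlog2 : 0 < Real.log 2 := Real.log_pos (by norm_num)
  have h7 : (Q.primeFactors.card : ℝ) ≤ Real.log Q / Real.log 2 := by
    rw [le_div_iff₀ hlog2]
    exact h6
  have h8 : (Q : ℝ) / Q.totient ≤ Q.primeFactors.card + 1 := by
    rw [div_le_iff₀ hphi]
    exact_mod_cast h3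
  linarith

end H37F
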