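import Pool.Agent.Helper37.VFG.Imp

/-! The mean square of `ψ(x,χ)` from below for one character, with uniform constants. -/

set_option autoImplicit false
set_option linter.unusedSectionVars false

open MeasureTheory Filter Topology Set Complex H37F

namespace Pool.Agent.Helper37.VFG

open H370.DL H429.GP H855R2.SF

noncomputable section

variable {Q : ℕ} [NeZero Q] {χ : DirichletCharacter ℂ Q}

open Classical in
/-- the parity -/
def par (χ : DirichletCharacter ℂ Q) : ℝ := if χ.Even then 0 else 1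

lemma par_nonneg : 0 ≤ par χ := by unfold par; split_ifs <;> norm_num
lemma par_le : par χ ≤ 1 := by unfold par; split_ifs <;> norm_num

lemma prim_even : χ.primitiveCharacter.Even ↔ χ.Even := by
  have h : χ.primitiveCharacter ((-1 : ℤ) : ZMod χ.conductor) = χ ((-1 : ℤ) : ZMod Q) :=
    χ.primitiveCharacter_apply_of_isCoprime (by simp [isCoprime_one_left.neg_left])
  unfold DirichletCharacter.Even
  push_cast at h
  rw [h]

lemma aa_eq : aa χ.primitiveCharacter = (par χ : ℂ) := by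
  unfold aa par
  by_cases h : χ.Even
  · rw [if_pos h, if_pos (prim_even.2 h)]; simp
  · rw [if_neg h, if_neg (fun h' => h (prim_even.1 h'))]; simp

/-- the value at real points -/
theorem PX_real {x : ℝ} (hχ : χ ≠ 1) (hx : 0 ≤ x) : PX χ ((1 / 2 + x : ℝ) : ℂ) =
    Real.log χ.conductor / 2 + gr (1 + x + par χ) +
      (logDeriv (DirichletCharacter.LFunction χ) ((1 + x : ℝ) : ℂ)).re - EE χ ((1 + x : ℝ) : ℂ) := by
  have h0 : DirichletCharacter.LFunction χ.primitiveCharacter ((1 + x : ℝ) : ℂ) ≠ 0 :=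
    DirichletCharacter.LFunction_ne_zero_of_one_le_re _ (Or.inl (prim_ne hχ)) (by simp; linarith)
  have h1 := ld_eq hχ (s := ((1 + x : ℝ) : ℂ)) (by simp; linarith) h0
  unfold PX gr
  rw [aa_eq, show (1 / 2 : ℂ) + ((1 / 2 + x : ℝ) : ℂ) + (par χ : ℂ) = ((1 + x + par χ : ℝ) : ℂ) by push_cast; ring,
    show (1 / 2 : ℂ) + ((1 / 2 + x : ℝ) : ℂ) = ((1 + x : ℝ) : ℂ) by push_cast; ring, h1]
  ring

/-- the constant bounding `L'/L(2, χ)` -/
def cL : ℝ := ∑' n : ℕ, ArithmeticFunction.vonMangoldt n * (1 / (n : ℝ) ^ (2:ℝ))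

lemma cL_summable : Summable (fun n : ℕ => ArithmeticFunction.vonMangoldt n * (1 / (n : ℝ) ^ (2:ℝ))) := by
  have h : LSeriesSummable (fun n => (ArithmeticFunction.vonMangoldt n : ℂ)) 2 :=
    ArithmeticFunction.LSeriesSummable_vonMangoldt (by norm_num)
  have h2 := h.norm
  refine h2.congr fun n => ?_
  rw [LSeries.norm_term_eq]
  split_ifs with hn
  · rw [hn]; simp
  · rw [Complex.norm_real, Real.norm_of_nonneg ArithmeticFunction.vonMangoldt_nonneg]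
    simp only [Complex.re_ofNat]
    ring

lemma ld_two (ψ : DirichletCharacter ℂ Q) : |(logDeriv (DirichletCharacter.LFunction ψ) 2).re| ≤ cL := by
  have hs : (1:ℝ) < (2:ℂ).re := by norm_num
  have h3 := DirichletCharacter.LSeries_twist_vonMangoldt_eq ψ hs
  have h4 := DirichletCharacter.deriv_LFunction_eq_deriv_LSeries ψ hs
  have h5 := DirichletCharacter.LFunction_eq_LSeries ψ hs
  have h6 : logDeriv (DirichletCharacter.LFunction ψ) 2 =
      -LSeries ((fun n : ℕ => ψ (n : ZMod Q)) * fun n : ℕ => (ArithmeticFunction.vonMangoldt n : ℂ)) 2 := by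
    rw [logDeriv_apply, h4, h5, h3, neg_div, neg_neg]
  rw [h6, neg_re, abs_neg]
  refine (Complex.abs_re_le_norm _).trans ?_
  unfold LSeries
  refine tsum_of_norm_bounded cL_summable.hasSum fun n => ?_
  rw [LSeries.norm_term_eq]
  split_ifs with hn
  · rw [hn]; simp
  · simp only [Pi.mul_apply, norm_mul, Complex.norm_real, Complex.re_ofNat]
    rw [Real.norm_of_nonneg ArithmeticFunction.vonMangoldt_nonneg, mul_one_div]
    refine div_le_div_of_nonneg_right ?_ (by positivity)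
    calc _ ≤ 1 * ArithmeticFunction.vonMangoldt n :=
          mul_le_mul_of_nonneg_right (ψ.norm_le_one _) ArithmeticFunction.vonMangoldt_nonneg
      _ = _ := one_mul _

lemma log_ge_one {Q : ℕ} (hQ : 3 ≤ Q) : 1 ≤ Real.log Q := by
  have h1 : Real.exp 1 ≤ 3 := by linarith [Real.exp_one_lt_d9]
  have h2 : (3:ℝ) ≤ Q := by exact_mod_cast hQ
  rw [Real.le_log_iff_exp_le (by linarith)]
  linarith

lemma log_cond_le : Real.log χ.conductor ≤ Real.log Q := by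
  have h1 : 0 < χ.conductor := Nat.pos_of_ne_zero χ.conductor_ne_zero
  exact Real.log_le_log (by exact_mod_cast h1) (by exact_mod_cast cond_le)

lemma log_cond_nonneg : 0 ≤ Real.log χ.conductor := by
  have h1 : 0 < χ.conductor := Nat.pos_of_ne_zero χ.conductor_ne_zero
  exact Real.log_nonneg (by exact_mod_cast h1)

theorem PX_shift (hχ : χ ≠ 1) {δ₀ δ k : ℝ} (h0 : 0 ≤ δ₀) (hδ : δ₀ < δ) (hk : 0 ≤ k)
    (hf : Free χ.primitiveCharacter δ₀) :
    PX χ ((1 / 2 + 2 * δ : ℝ) : ℂ) ≤ (1 + 2 * k) * PX χ ((1 / 2 + (2 * δ + k) : ℝ) : ℂ) ∧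
    PX χ ((1 / 2 + (2 * δ + k) : ℝ) : ℂ) ≤ (1 + 2 * k) * PX χ ((1 / 2 + 2 * δ : ℝ) : ℂ) := by
  have h := (PX_PS hχ h0 hf).cmp (x := 1 / 2 + 2 * δ) (k := k) (c := 1 / 2) (by norm_num) (by linarith) hk
  rw [show k / (1 / 2) = 2 * k by ring, show 1 / 2 + 2 * δ + k = 1 / 2 + (2 * δ + k) by ring] at h
  exact h

theorem PX_bound : ∃ C : ℝ, 0 < C ∧ ∀ (Q : ℕ) [NeZero Q], 3 ≤ Q → ∀ χ : DirichletCharacter ℂ Q, χ ≠ 1 →
    ∀ δ₀ δ : ℝ, 0 ≤ δ₀ → δ₀ < δ → δ ≤ 1 / 4 → Free χ.primitiveCharacter δ₀ →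
    0 ≤ PX χ ((1 / 2 + 2 * δ : ℝ) : ℂ) ∧ PX χ ((1 / 2 + 2 * δ : ℝ) : ℂ) ≤ C * Real.log Q ∧
    |(logDeriv (DirichletCharacter.LFunction χ) ((1 + 2 * δ : ℝ) : ℂ)).re| ≤ C * Real.log Q := by
  obtain ⟨G, hG, hGb⟩ := gr_bound
  have hcL : 0 ≤ cL := (abs_nonneg _).trans (ld_two (1 : DirichletCharacter ℂ 1))
  refine ⟨3 * (1 + G + cL) + 5 + G, by positivity, ?_⟩
  intro Q _ hQ χ hχ δ₀ δ h0 hδ hδ1 hf
  have hl := log_ge_one hQ
  have hPS := PX_PS hχ h0 hf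
  have hn : 0 ≤ PX χ ((1 / 2 + 2 * δ : ℝ) : ℂ) := hPS.nonneg (by simp; linarith)
  have hp0 := par_nonneg (χ := χ)
  have hp1 := par_le (χ := χ)
  have hc := log_cond_le (χ := χ)
  have hc0 := log_cond_nonneg (χ := χ)
  have h1 := (PX_shift hχ h0 hδ (k := 1 - 2 * δ) (by linarith) hf).1
  rw [show 2 * δ + (1 - 2 * δ) = 1 by ring] at h1
  have h2 : PX χ ((1 / 2 + 1 : ℝ) : ℂ) ≤ (1 / 2 + G + cL) * Real.log Q := by
    unfold PX
    rw [aa_eq, show (1 / 2 : ℂ) + ((1 / 2 + 1 : ℝ) : ℂ) + (par χ : ℂ) = ((2 + par χ : ℝ) : ℂ) by push_cast; ring,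
      show (1 / 2 : ℂ) + ((1 / 2 + 1 : ℝ) : ℂ) = 2 by push_cast; ring]
    have h3 := hGb (2 + par χ) (by linarith) (by linarith)
    have h4 := ld_two χ.primitiveCharacter
    have h5 := (abs_le.1 h3).2
    have h6 := (abs_le.1 h4).2
    unfold gr at h5
    nlinarith
  have h3 : PX χ ((1 / 2 + 2 * δ : ℝ) : ℂ) ≤ 3 * (1 + G + cL) * Real.log Q := by
    have h4 : 1 + 2 * (1 - 2 * δ) ≤ 3 := by linarith
    have h5 : 0 ≤ PX χ ((1 / 2 + 1 : ℝ) : ℂ) := hPS.nonneg (by simp; linarith)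
    nlinarith
  have h4 := PX_real hχ (x := 2 * δ) (by linarith)
  have h5 := hGb (1 + 2 * δ + par χ) (by linarith) (by linarith)
  have h6 := EE_le (χ := χ) (s := ((1 + 2 * δ : ℝ) : ℂ)) (by simp; linarith)
  have h7 := abs_le.1 h5
  have h8 := abs_le.1 h6
  refine ⟨hn, by nlinarith, ?_⟩
  rw [abs_le]
  constructor
  · nlinarith
  · nlinarith

/-- **one character** -/
theorem per_chi : ∃ C : ℝ, 0 < C ∧ ∀ (Q : ℕ) [NeZero Q], 3 ≤ Q → ∀ χ : DirichletCharacter ℂ Q, χ ≠ 1 →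
    ∀ δ₀ δ : ℝ, 0 ≤ δ₀ → δ₀ < δ → δ ≤ 1 / 4 → VL χ δ₀ < ⊤ →
    2 * PX χ ((1 / 2 + 2 * δ : ℝ) : ℂ) - C * (Real.sqrt δ * Real.log Q + δ * Real.log Q ^ 2) ≤
      2 * δ * (VL χ δ).toReal := by
  obtain ⟨C1, hC1, hup⟩ := gam_up
  obtain ⟨C2, hC2, hPX⟩ := PX_bound
  set I0 : ℝ := ∫ t : ℝ, ((1 + t ^ 2) ^ (1 / 8 : ℝ)) ^ 2 * (1 / (1 + t ^ 2)) with hI0
  have hI0n : 0 ≤ I0 := integral_nonneg fun t => by positivity
  set CL : ℝ := 4 * C1 ^ 2 * I0 with hCL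
  have hCL0 : 0 ≤ CL := by positivity
  refine ⟨10 * C2 + 32 * C2 + 2 * CL + 2 * C2 ^ 2 + 1, by positivity, ?_⟩
  intro Q _ hQ χ hχ δ₀ δ h0 hδ hδ1 hV
  have hl := log_ge_one hQ
  have hδ0 : 0 < δ := by linarith
  have hf : Free χ.primitiveCharacter δ₀ := free_prim hχ fun s hs => free_of_VL hχ hV hs
  have hPS := PX_PS hχ h0 hf
  obtain ⟨hn, hb1, hb2⟩ := hPX Q hQ χ hχ δ₀ δ h0 hδ hδ1 hf
  obtain ⟨hRi, hVf⟩ := VL_formula hχ h0 hδ hV
  set a : ℝ := 1 / 2 + δ with ha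
  set F := logDeriv (DirichletCharacter.LFunction χ) with hF
  set P1 := PX χ ((1 / 2 + 2 * δ : ℝ) : ℂ) with hP1
  obtain ⟨hw1, hw2⟩ := weight_int' (a := a) (K := C1) (by rw [ha]; linarith)
  have hp0 := par_nonneg (χ := χ)
  have hp1 := par_le (χ := χ)
  have hre : ∀ t : ℝ, ((1 / 2 : ℂ) + (δ + t * I)) = ((a : ℝ) + t * I) := by
    intro t; rw [ha]; push_cast; ring
  have hR : ∀ t : ℝ, (F ((a : ℝ) + t * I)).re = PX χ (δ + t * I) -
      (Real.log χ.conductor / 2 + (logDeriv Gammaℝ (((a + par χ : ℝ) : ℂ) + t * I)).re - EE χ ((a : ℝ) + t * I)) := by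
    intro t
    have hre' : ((a : ℝ) + t * I : ℂ).re = a := by simp
    have hL0 := free_prim hχ (δ := δ₀) (fun s hs => free_of_VL hχ hV hs) ((a : ℝ) + t * I) (by rw [hre', ha]; linarith)
    have h1 := ld_eq hχ (s := (a : ℝ) + t * I) (by rw [hre', ha]; linarith) hL0
    rw [hF, h1]
    unfold PX
    rw [aa_eq, show (1 / 2 : ℂ) + (δ + t * I) + (par χ : ℂ) = ((a + par χ : ℝ) : ℂ) + t * I by
      rw [ha]; push_cast; ring, hre]
    ring
  have hb : ∀ t : ℝ, Real.log χ.conductor / 2 + (logDeriv Gammaℝ (((a + par χ : ℝ) : ℂ) + t * I)).re -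
      EE χ ((a : ℝ) + t * I) ≤ 4 * Real.log Q + C1 * (1 + t ^ 2) ^ (1 / 8 : ℝ) := by
    intro t
    have hre' : ((a : ℝ) + t * I : ℂ).re = a := by simp
    have hre2 : (((a + par χ : ℝ) : ℂ) + t * I).re = a + par χ := by simp
    have him : (((a + par χ : ℝ) : ℂ) + t * I).im = t := by simp
    have h1 := hup (((a + par χ : ℝ) : ℂ) + t * I) (by rw [hre2, ha]; linarith) (by rw [hre2, ha]; linarith)
    rw [him] at h1
    have h2 := (abs_le.1 (EE_le (χ := χ) (s := (a : ℝ) + t * I) (by rw [hre', ha]; linarith))).1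
    have h3 := log_cond_le (χ := χ)
    linarith
  have hsq : 0 < Real.sqrt δ := Real.sqrt_pos.2 hδ0
  have hsq1 : Real.sqrt δ ≤ 1 / 2 := by
    rw [show (1 / 2 : ℝ) = Real.sqrt (1 / 4) by
      rw [show (1 / 4 : ℝ) = (1 / 2) ^ 2 by norm_num, Real.sqrt_sq (by norm_num)]]
    exact Real.sqrt_le_sqrt hδ1
  have hss : Real.sqrt δ * Real.sqrt δ = δ := Real.mul_self_sqrt hδ0.le
  have hlow := hPS.lower (δ := δ) (a := a) hδ (by linarith) hδ0 (by rw [ha]; linarith) (θ := Real.sqrt δ)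
    hR hb hsq (by linarith) hRi hw1 hw2
  rw [← hCL, show (δ : ℂ) + (a : ℂ) = ((1 / 2 + 2 * δ : ℝ) : ℂ) by rw [ha]; push_cast; ring, ← hP1] at hlow
  set V := (VL χ δ).toReal with hVd
  have hV0 : 0 ≤ V := ENNReal.toReal_nonneg
  set J := ∫ t : ℝ, (F ((a : ℝ) + t * I)).re ^ 2 * (1 / (a ^ 2 + t ^ 2)) with hJ
  set F1 := (F ((1 + 2 * δ : ℝ) : ℂ)).re with hF1
  set l := Real.log Q with hld
  have hpi := Real.pi_pos
  have hpi3 := Real.pi_gt_three
  -- rearrange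
  have hJ' : J ≤ Real.pi * (V + F1 ^ 2 / (1 + 2 * δ)) := by
    have h1 : J = Real.pi * ((1 / Real.pi) * J) := by field_simp
    rw [h1]
    exact mul_le_mul_of_nonneg_left hVf hpi.le
  have ha0 : 0 < a := by rw [ha]; linarith
  have hF1sq : F1 ^ 2 / (1 + 2 * δ) ≤ C2 ^ 2 * l ^ 2 := by
    have h1 : F1 ^ 2 ≤ (C2 * l) ^ 2 := sq_le_sq' (by linarith [(abs_le.1 hb2).1]) (abs_le.1 hb2).2
    rw [div_le_iff₀ (by linarith)]
    nlinarith [mul_nonneg (sq_nonneg (C2 * l)) hδ0.le]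
  have hmain : ((1 - Real.sqrt δ) * (1 / (2 * δ) - 1) - 2 * (4 * l)) * ((1 / a) * P1) - CL / Real.sqrt δ ≤
      V + C2 ^ 2 * l ^ 2 := by
    have h1 := hlow.trans hJ'
    have h2 : ((1 - Real.sqrt δ) * (1 / (2 * δ) - 1) - 2 * (4 * l)) * (Real.pi / a * P1) =
        Real.pi * (((1 - Real.sqrt δ) * (1 / (2 * δ) - 1) - 2 * (4 * l)) * ((1 / a) * P1)) := by ring
    rw [h2] at h1
    have h3 : CL / Real.sqrt δ ≤ Real.pi * (CL / Real.sqrt δ) := by
      have : 0 ≤ CL / Real.sqrt δ := by positivity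
      nlinarith
    have h4 : Real.pi * (((1 - Real.sqrt δ) * (1 / (2 * δ) - 1) - 2 * (4 * l)) * ((1 / a) * P1)) ≤
        Real.pi * (V + F1 ^ 2 / (1 + 2 * δ) + CL / Real.sqrt δ) := by linarith
    have h5 := le_of_mul_le_mul_left h4 hpi
    linarith
  have h2δ : 0 < 2 * δ := by linarith
  have hm2 := mul_le_mul_of_nonneg_left hmain h2δ.le
  have e1 : 2 * δ * (((1 - Real.sqrt δ) * (1 / (2 * δ) - 1) - 2 * (4 * l)) * ((1 / a) * P1) - CL / Real.sqrt δ) =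
      ((1 - Real.sqrt δ) * (1 - 2 * δ) - 16 * δ * l) * ((1 / a) * P1) - 2 * CL * Real.sqrt δ := by
    have e2 : 2 * δ * (1 / (2 * δ) - 1) = 1 - 2 * δ := by field_simp
    have e3 : δ * (CL / Real.sqrt δ) = CL * Real.sqrt δ := by
      rw [div_eq_mul_inv]
      have : δ * (Real.sqrt δ)⁻¹ = Real.sqrt δ := by
        rw [mul_inv_eq_iff_eq_mul₀ hsq.ne']; exact hss.symm
      calc δ * (CL * (Real.sqrt δ)⁻¹) = CL * (δ * (Real.sqrt δ)⁻¹) := by ring
        _ = _ := by rw [this]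
    calc _ = ((1 - Real.sqrt δ) * (2 * δ * (1 / (2 * δ) - 1)) - 16 * δ * l) * ((1 / a) * P1) -
          2 * (δ * (CL / Real.sqrt δ)) := by ring
      _ = _ := by rw [e2, e3]; ring
  rw [e1] at hm2
  -- the factor 1/a
  set q := (1 / a) * P1 with hq
  have hq1 : q ≤ 2 * P1 := by
    rw [hq]
    refine mul_le_mul_of_nonneg_right ?_ hn
    rw [div_le_iff₀ ha0, ha]
    linarith
  have hq2 : 2 * (1 - 2 * δ) * P1 ≤ q := by
    rw [hq]
    refine mul_le_mul_of_nonneg_right ?_ hn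
    rw [le_div_iff₀ ha0, ha]
    nlinarith
  have hq0 : 0 ≤ q := by rw [hq]; positivity
  have hA : (1 - Real.sqrt δ) * (1 - 2 * δ) ≥ 1 - Real.sqrt δ - 2 * δ := by nlinarith
  have hδs : δ ≤ Real.sqrt δ / 2 := by nlinarith
  have hB : 2 * P1 - 2 * Real.sqrt δ * P1 - 8 * δ * P1 ≤ (1 - Real.sqrt δ) * (1 - 2 * δ) * q := by
    have h1 : (1 - Real.sqrt δ - 2 * δ) * q ≤ (1 - Real.sqrt δ) * (1 - 2 * δ) * q :=
      mul_le_mul_of_nonneg_right hA hq0
    have h2 : (Real.sqrt δ + 2 * δ) * q ≤ (Real.sqrt δ + 2 * δ) * (2 * P1) :=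
      mul_le_mul_of_nonneg_left hq1 (by positivity)
    nlinarith
  have hC : 16 * δ * l * q ≤ 32 * C2 * (δ * l ^ 2) := by
    have h1 : q ≤ 2 * (C2 * l) := hq1.trans (by linarith)
    calc 16 * δ * l * q ≤ 16 * δ * l * (2 * (C2 * l)) := mul_le_mul_of_nonneg_left h1 (by positivity)
      _ = _ := by ring
  have hD : 2 * Real.sqrt δ * P1 + 8 * δ * P1 ≤ 10 * C2 * (Real.sqrt δ * l) := by
    have h1 : 8 * δ * P1 ≤ 4 * Real.sqrt δ * P1 := by
      refine mul_le_mul_of_nonneg_right ?_ hn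
      linarith
    have h2 : Real.sqrt δ * P1 ≤ Real.sqrt δ * (C2 * l) := mul_le_mul_of_nonneg_left hb1 hsq.le
    have h3 : 0 ≤ C2 * (Real.sqrt δ * l) := by positivity
    nlinarith
  have hE : 2 * CL * Real.sqrt δ ≤ 2 * CL * (Real.sqrt δ * l) := by
    refine mul_le_mul_of_nonneg_left ?_ (by positivity)
    nlinarith
  have hF' : 2 * δ * (V + C2 ^ 2 * l ^ 2) = 2 * δ * V + 2 * C2 ^ 2 * (δ * l ^ 2) := by ring
  rw [hF'] at hm2
  have hG1 : 0 ≤ Real.sqrt δ * l := by positivity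
  have hG2 : 0 ≤ δ * l ^ 2 := by positivity
  have hH : ((1 - Real.sqrt δ) * (1 - 2 * δ) - 16 * δ * l) * q = (1 - Real.sqrt δ) * (1 - 2 * δ) * q - 16 * δ * l * q := by
    ring
  rw [hH] at hm2
  nlinarith [mul_nonneg hC2.le hG1, mul_nonneg hC2.le hG2, mul_nonneg hCL0 hG1, mul_nonneg hCL0 hG2,
    mul_nonneg (sq_nonneg C2) hG1, mul_nonneg (sq_nonneg C2) hG2]

end

end Pool.Agent.Helper37.VFG
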