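import Mathlib
import Pool.Graph.R_seed8.Helper625.Planch

/-! The mean square of the real part of a function of the Hardy class of a half plane. -/

set_option autoImplicit false

open MeasureTheory Filter Topology Set Complex FourierTransform Convolution

namespace Pool.Agent.Helper37.VFG

noncomputable section

/-- the truncated exponential -/
def ee (σ : ℝ) (w : ℝ) : ℂ := (Iio (0:ℝ)).indicator (fun w => cexp ((σ : ℂ) * w)) w

lemma fourier_def' (f : ℝ → ℂ) (ξ : ℝ) : 𝓕 f ξ = ∫ u : ℝ, cexp (-(2 * Real.pi * ξ * I) * u) * f u := by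
  rw [Real.fourier_eq' f ξ]
  refine integral_congr_ae (Eventually.of_forall fun u => ?_)
  simp only [RCLike.inner_apply, conj_trivial, smul_eq_mul]
  congr 2
  push_cast
  ring

lemma ee_integrable {σ : ℝ} (hσ : 0 < σ) : Integrable (ee σ) := by
  unfold ee
  rw [integrable_indicator_iff measurableSet_Iio]
  exact (integrableOn_exp_mul_complex_Iic (a := (σ : ℂ)) (by simpa using hσ) 0).mono_set Iio_subset_Iic_self

lemma ee_norm {σ : ℝ} (hσ : 0 < σ) (w : ℝ) : ‖ee σ w‖ ≤ 1 := by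
  unfold ee
  by_cases h : w ∈ Iio (0:ℝ)
  · rw [indicator_of_mem h, ← Complex.ofReal_mul, ← Complex.ofReal_exp, Complex.norm_real,
      Real.norm_of_nonneg (Real.exp_pos _).le]
    rw [Real.exp_le_one_iff]
    have : w < 0 := h
    nlinarith
  · rw [indicator_of_notMem h]
    simp

lemma ee_fourier {σ : ℝ} (hσ : 0 < σ) (ξ : ℝ) : 𝓕 (ee σ) ξ = 1 / (σ - 2 * Real.pi * ξ * I) := by
  rw [fourier_def']
  have h1 : ∀ u : ℝ, cexp (-(2 * Real.pi * ξ * I) * u) * ee σ u =
      (Iio (0:ℝ)).indicator (fun u : ℝ => cexp (((σ : ℂ) - 2 * Real.pi * ξ * I) * u)) u := by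
    intro u
    unfold ee
    by_cases h : u ∈ Iio (0:ℝ)
    · rw [indicator_of_mem h, indicator_of_mem h, ← Complex.exp_add]
      congr 1
      ring
    · rw [indicator_of_notMem h, indicator_of_notMem h, mul_zero]
  simp_rw [h1]
  rw [integral_indicator measurableSet_Iio, ← integral_Iic_eq_integral_Iio,
    integral_exp_mul_complex_Iic (by simpa using hσ) 0]
  simp

lemma star_two : (starRingEnd ℂ) 2 = 2 := by
  rw [show (2:ℂ) = ((2:ℝ):ℂ) by norm_num, Complex.conj_ofReal]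

lemma fint {f : ℝ → ℂ} (h1 : Integrable f) (ξ : ℝ) :
    Integrable (fun u : ℝ => cexp (-(2 * Real.pi * ξ * I) * u) * f u) := by
  refine h1.norm.mono' ?_ (Eventually.of_forall fun u => ?_)
  · exact (Continuous.aestronglyMeasurable (by fun_prop)).mul h1.aestronglyMeasurable
  · rw [norm_mul]
    have e : -(2 * Real.pi * ξ * I) * (u : ℂ) = ((-(2 * Real.pi * ξ * u) : ℝ) : ℂ) * I := by
      push_cast
      ring
    rw [e, Complex.norm_exp_ofReal_mul_I, one_mul]

lemma conj_fourier (g : ℝ → ℂ) (ξ : ℝ) :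
    𝓕 (fun u : ℝ => (starRingEnd ℂ) (g (-u))) ξ = (starRingEnd ℂ) (𝓕 g ξ) := by
  rw [fourier_def', fourier_def', ← integral_conj,
    ← integral_neg_eq_self (fun u : ℝ => cexp (-(2 * Real.pi * ξ * I) * u) * (starRingEnd ℂ) (g (-u)))]
  refine integral_congr_ae (Eventually.of_forall fun u => ?_)
  simp only [map_mul, neg_neg]
  congr 1
  rw [← Complex.exp_conj]
  congr 1
  simp [star_two]

/-- the smoothed function -/
def kk (g : ℝ → ℂ) (σ : ℝ) : ℝ → ℂ := g ⋆[ContinuousLinearMap.mul ℂ ℂ] (ee σ)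

lemma kk_integrable {g : ℝ → ℂ} {σ : ℝ} (hσ : 0 < σ) (h1 : Integrable g) : Integrable (kk g σ) :=
  h1.integrable_convolution _ (ee_integrable hσ)

lemma kk_fourier {g : ℝ → ℂ} {σ : ℝ} (hσ : 0 < σ) (h1 : Integrable g) (ξ : ℝ) :
    𝓕 (kk g σ) ξ = 𝓕 g ξ * (1 / (σ - 2 * Real.pi * ξ * I)) := by
  unfold kk
  rw [Real.fourier_mul_convolution_eq h1 (ee_integrable hσ), ee_fourier hσ]

lemma kk_norm {g : ℝ → ℂ} {σ : ℝ} (hσ : 0 < σ) (h1 : Integrable g) (u : ℝ) :
    ‖kk g σ u‖ ≤ ∫ v, ‖g v‖ := by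
  unfold kk convolution
  refine (norm_integral_le_integral_norm _).trans ?_
  refine integral_mono_of_nonneg (Eventually.of_forall fun _ => norm_nonneg _) h1.norm
    (Eventually.of_forall fun v => ?_)
  simp only [ContinuousLinearMap.mul_apply', norm_mul]
  have := ee_norm hσ (u - v)
  exact mul_le_of_le_one_right (norm_nonneg _) this

lemma memLp_two {f : ℝ → ℂ} (h1 : Integrable f) {B : ℝ} (hB : ∀ u, ‖f u‖ ≤ B) : MemLp f 2 := by
  rw [memLp_two_iff_integrable_sq_norm h1.aestronglyMeasurable]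
  refine (h1.norm.const_mul B).mono' (h1.aestronglyMeasurable.norm.pow 2) (Eventually.of_forall fun u => ?_)
  rw [Real.norm_of_nonneg (by positivity), sq]
  exact mul_le_mul_of_nonneg_right (hB u) (norm_nonneg _)

lemma kk_neg {g : ℝ → ℂ} {σ : ℝ} (h0 : ∀ u, u < 0 → g u = 0) {u : ℝ} (hu : u < 0) :
    kk g σ u = cexp ((σ : ℂ) * u) * ∫ v : ℝ, cexp (-(σ : ℂ) * v) * g v := by
  unfold kk convolution
  rw [← integral_const_mul]
  refine integral_congr_ae (Eventually.of_forall fun v => ?_)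
  simp only [ContinuousLinearMap.mul_apply']
  rcases lt_or_ge v 0 with h | h
  · rw [h0 v h]; simp
  · unfold ee
    have hm : u - v ∈ Iio (0:ℝ) := by
      show u - v < 0
      linarith
    rw [indicator_of_mem hm, ← mul_assoc, ← Complex.exp_add, mul_comm]
    congr 2
    push_cast
    ring

lemma conj_sub_pi (σ ξ : ℝ) : (σ : ℂ) - 2 * Real.pi * ξ * I = (starRingEnd ℂ) (σ + 2 * Real.pi * ξ * I) := by
  simp [sub_eq_add_neg, star_two]

lemma s_ne {σ : ℝ} (hσ : 0 < σ) (ξ : ℝ) : (σ : ℂ) + 2 * Real.pi * ξ * I ≠ 0 := by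
  intro h
  have := congrArg Complex.re h
  simp at this
  exact hσ.ne' this

/-- the doubling formula -/
theorem doubling {g : ℝ → ℂ} {σ : ℝ} (hσ : 0 < σ) (h0 : ∀ u, u < 0 → g u = 0) (h1 : Integrable g)
    (h2 : MemLp g 2) :
    Integrable (fun ξ : ℝ => (2 * (((σ : ℂ) + 2 * Real.pi * ξ * I) * 𝓕 g ξ).re) ^ 2 /
      ‖(σ : ℂ) + 2 * Real.pi * ξ * I‖ ^ 2) ∧
    ∫ ξ : ℝ, (2 * (((σ : ℂ) + 2 * Real.pi * ξ * I) * 𝓕 g ξ).re) ^ 2 /
      ‖(σ : ℂ) + 2 * Real.pi * ξ * I‖ ^ 2 =
      2 * (∫ u, ‖g u‖ ^ 2) + 4 * σ * ((∫ v : ℝ, cexp (-(σ : ℂ) * v) * g v) ^ 2).re := by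
  set c : ℂ := ∫ v : ℝ, cexp (-(σ : ℂ) * v) * g v with hc
  set r : ℝ → ℂ := fun u => 2 * σ * kk g σ u - g u with hr
  set q : ℝ → ℂ := fun u => (starRingEnd ℂ) (g (-u)) with hq
  have hk1 := kk_integrable hσ h1
  have hk2 : MemLp (kk g σ) 2 := memLp_two hk1 (kk_norm hσ h1)
  have hr1 : Integrable r := (hk1.const_mul (2 * σ)).sub h1
  have hr2 : MemLp r 2 := (hk2.const_mul (2 * (σ : ℂ))).sub h2
  have hq1 : Integrable q := by
    have := h1.comp_neg
    exact (LinearIsometryEquiv.integrable_comp_iff Complex.conjLIE).2 this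
  have hqn : ∀ u, ‖q u‖ = ‖g (-u)‖ := fun u => Complex.norm_conj _
  have hg2 : Integrable (fun u => ‖g u‖ ^ 2) := (memLp_two_iff_integrable_sq_norm h1.aestronglyMeasurable).1 h2
  have hq2 : MemLp q 2 := by
    rw [memLp_two_iff_integrable_sq_norm hq1.aestronglyMeasurable]
    simp_rw [hqn]
    exact hg2.comp_neg
  have hd1 : Integrable (fun u => r u + q u) := hr1.add hq1
  have hd2 : MemLp (fun u => r u + q u) 2 := hr2.add hq2
  have fr : ∀ ξ : ℝ, 𝓕 r ξ = 𝓕 g ξ * (((σ : ℂ) + 2 * Real.pi * ξ * I) /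
      (starRingEnd ℂ) ((σ : ℂ) + 2 * Real.pi * ξ * I)) := by
    intro ξ
    have hne : (σ : ℂ) - 2 * Real.pi * ξ * I ≠ 0 := by
      rw [conj_sub_pi]
      exact (map_ne_zero _).2 (s_ne hσ ξ)
    have e1 : 𝓕 r ξ = 2 * σ * 𝓕 (kk g σ) ξ - 𝓕 g ξ := by
      rw [fourier_def', fourier_def', fourier_def', ← integral_const_mul,
        ← integral_sub ((fint hk1 ξ).const_mul _) (fint h1 ξ)]
      refine integral_congr_ae (Eventually.of_forall fun u => ?_)
      simp only [hr]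
      ring
    rw [e1, kk_fourier hσ h1, ← conj_sub_pi]
    field_simp
    ring
  have fd : ∀ ξ : ℝ, ‖𝓕 (fun u => r u + q u) ξ‖ ^ 2 =
      (2 * (((σ : ℂ) + 2 * Real.pi * ξ * I) * 𝓕 g ξ).re) ^ 2 / ‖(σ : ℂ) + 2 * Real.pi * ξ * I‖ ^ 2 := by
    intro ξ
    set s : ℂ := (σ : ℂ) + 2 * Real.pi * ξ * I with hs
    have hs0 : s ≠ 0 := s_ne hσ ξ
    have hsc : (starRingEnd ℂ) s ≠ 0 := (map_ne_zero _).2 hs0
    have e1 : 𝓕 (fun u => r u + q u) ξ = 𝓕 r ξ + 𝓕 q ξ := by
      rw [fourier_def', fourier_def', fourier_def', ← integral_add (fint hr1 ξ) (fint hq1 ξ)]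
      refine integral_congr_ae (Eventually.of_forall fun u => ?_)
      simp only
      ring
    have e2 : 𝓕 q ξ = (starRingEnd ℂ) (𝓕 g ξ) := conj_fourier g ξ
    have e3 : 𝓕 (fun u => r u + q u) ξ = ((2 * (s * 𝓕 g ξ).re : ℝ) : ℂ) / (starRingEnd ℂ) s := by
      rw [e1, fr, e2, ← hs]
      have e4 : ((2 * (s * 𝓕 g ξ).re : ℝ) : ℂ) = s * 𝓕 g ξ + (starRingEnd ℂ) (s * 𝓕 g ξ) := by
        rw [Complex.add_conj]
      rw [e4, map_mul]
      field_simp
    rw [e3, norm_div, Complex.norm_real, Complex.norm_conj, div_pow, Real.norm_eq_abs, sq_abs]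
  have pd := Pool.Agent.Helper625.Planch.plancherel _ hd1 hd2
  have pr := Pool.Agent.Helper625.Planch.plancherel _ hr1 hr2
  have pg := Pool.Agent.Helper625.Planch.plancherel _ h1 h2
  have hrg : ∫ u, ‖r u‖ ^ 2 = ∫ u, ‖g u‖ ^ 2 := by
    rw [← pr.2, ← pg.2]
    refine integral_congr_ae (Eventually.of_forall fun ξ => ?_)
    simp only
    have hs0 := s_ne hσ ξ
    have hn : ‖(σ : ℂ) + 2 * Real.pi * ξ * I‖ ≠ 0 := norm_ne_zero_iff.2 hs0
    rw [fr ξ, norm_mul, norm_div, Complex.norm_conj, div_self hn, mul_one]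
  have hr2' : Integrable (fun u => ‖r u‖ ^ 2) := (memLp_two_iff_integrable_sq_norm hr1.aestronglyMeasurable).1 hr2
  have hq2' : Integrable (fun u => ‖q u‖ ^ 2) := (memLp_two_iff_integrable_sq_norm hq1.aestronglyMeasurable).1 hq2
  -- the cross term
  set X : ℝ → ℝ := fun u => 2 * (r u * g (-u)).re with hX
  have hX0 : ∀ᵐ u : ℝ, X u = (Iio (0:ℝ)).indicator (fun u => 2 * (2 * σ * c * (cexp ((σ:ℂ) * u) * g (-u))).re) u := by
    have h3 : ∀ᵐ u : ℝ, u ≠ 0 := by
      rw [ae_iff]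
      simp
    filter_upwards [h3] with u hu
    by_cases h : u ∈ Iio (0:ℝ)
    · rw [indicator_of_mem h]
      simp only [hX, hr]
      rw [kk_neg h0 h, h0 u h, ← hc]
      congr 2
      ring
    · rw [indicator_of_notMem h]
      have h4 : 0 < u := lt_of_le_of_ne (not_lt.1 h) (Ne.symm hu)
      simp only [hX]
      rw [h0 (-u) (by linarith)]
      simp
  have hgneg : Integrable (fun u => g (-u)) := h1.comp_neg
  have hexp : Integrable (fun u : ℝ => (Iio (0:ℝ)).indicator (fun u => cexp ((σ:ℂ) * u) * g (-u)) u) := by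
    refine hgneg.norm.mono' ?_ (Eventually.of_forall fun u => ?_)
    · refine AEStronglyMeasurable.indicator ?_ measurableSet_Iio
      exact (Continuous.aestronglyMeasurable (by fun_prop)).mul hgneg.aestronglyMeasurable
    · by_cases h : u ∈ Iio (0:ℝ)
      · rw [indicator_of_mem h, norm_mul, ← Complex.ofReal_mul, ← Complex.ofReal_exp, Complex.norm_real,
          Real.norm_of_nonneg (Real.exp_pos _).le]
        refine mul_le_of_le_one_left (norm_nonneg _) ?_
        rw [Real.exp_le_one_iff]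
        have : u < 0 := h
        nlinarith
      · rw [indicator_of_notMem h]
        simp
  have hcross : ∫ u, X u = 4 * σ * (c ^ 2).re ∧ Integrable X := by
    have e1 : ∫ u : ℝ, (Iio (0:ℝ)).indicator (fun u => cexp ((σ:ℂ) * u) * g (-u)) u = c := by
      rw [← integral_neg_eq_self, hc]
      refine integral_congr_ae ?_
      have h3 : ∀ᵐ u : ℝ, u ≠ 0 := by
        rw [ae_iff]
        simp
      filter_upwards [h3] with u hu
      by_cases h : -u ∈ Iio (0:ℝ)
      · rw [indicator_of_mem h, neg_neg]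
        congr 2
        push_cast
        ring
      · rw [indicator_of_notMem h]
        have h4 : u < 0 := by
          have : 0 ≤ -u := not_lt.1 h
          exact lt_of_le_of_ne (by linarith) hu
        rw [h0 u h4, mul_zero]
    have e2 : ∀ u : ℝ, (Iio (0:ℝ)).indicator (fun u => 2 * (2 * σ * c * (cexp ((σ:ℂ) * u) * g (-u))).re) u =
        2 * (2 * σ * c * ((Iio (0:ℝ)).indicator (fun u => cexp ((σ:ℂ) * u) * g (-u)) u)).re := by
      intro u
      by_cases h : u ∈ Iio (0:ℝ)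
      · rw [indicator_of_mem h, indicator_of_mem h]
      · rw [indicator_of_notMem h, indicator_of_notMem h]
        simp
    have hI : Integrable (fun u : ℝ => 2 * (2 * σ * c * ((Iio (0:ℝ)).indicator (fun u => cexp ((σ:ℂ) * u) * g (-u)) u)).re) :=
      ((hexp.const_mul (2 * σ * c)).re).const_mul 2
    constructor
    · rw [integral_congr_ae hX0]
      simp_rw [e2]
      rw [integral_const_mul]
      have e3 : ∫ u : ℝ, (2 * σ * c * ((Iio (0:ℝ)).indicator (fun u => cexp ((σ:ℂ) * u) * g (-u)) u)).re =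
          (∫ u : ℝ, 2 * σ * c * ((Iio (0:ℝ)).indicator (fun u => cexp ((σ:ℂ) * u) * g (-u)) u)).re :=
        integral_re (hexp.const_mul (2 * σ * c))
      rw [e3, integral_const_mul, e1]
      have e4 : 2 * (σ : ℂ) * c * c = ((2 * σ : ℝ) : ℂ) * c ^ 2 := by
        push_cast
        ring
      rw [e4, Complex.re_ofReal_mul]
      ring
    · refine hI.congr (hX0.mono fun u hu => ?_)
      rw [hu, e2]
  have hsq : ∀ u, ‖r u + q u‖ ^ 2 = ‖r u‖ ^ 2 + ‖q u‖ ^ 2 + X u := by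
    intro u
    simp only [hX]
    rw [← Complex.normSq_eq_norm_sq, ← Complex.normSq_eq_norm_sq, ← Complex.normSq_eq_norm_sq, Complex.normSq_add]
    simp [hq]
  have hqi : ∫ u, ‖q u‖ ^ 2 = ∫ u, ‖g u‖ ^ 2 := by
    have e1 : (fun u => ‖q u‖ ^ 2) = fun u => ‖g (-u)‖ ^ 2 := by
      funext u
      rw [hqn]
    rw [e1]
    exact integral_neg_eq_self (fun u => ‖g u‖ ^ 2) volume
  constructor
  · have := (memLp_two_iff_integrable_sq_norm pd.1.aestronglyMeasurable).1 pd.1
    exact this.congr (Eventually.of_forall fun ξ => fd ξ)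
  · rw [← integral_congr_ae (Eventually.of_forall fd), pd.2]
    simp_rw [hsq]
    have hA : Integrable (fun u => ‖r u‖ ^ 2 + ‖q u‖ ^ 2) := hr2'.add hq2'
    rw [integral_add hA hcross.2, integral_add hr2' hq2', hrg, hqi, hcross.1]
    ring

end
end Pool.Agent.Helper37.VFG
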