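import Pool.Agent.Helper37.VFG.Def
import Pool.Agent.Helper37.VFG.Two

/-! The Laplace transform of `ψ(e^u, χ)`. -/

set_option autoImplicit false

open MeasureTheory Filter Topology Set Complex FourierTransform H37F

namespace Pool.Agent.Helper37.VFG

noncomputable section

lemma exp_neg_norm (s : ℂ) (u : ℝ) : ‖cexp (-(s * u))‖ = Real.exp (-(s.re * u)) := by
  rw [Complex.norm_exp]
  congr 1
  simp

/-- the Laplace transform -/
def Lp (k : ℝ → ℂ) (s : ℂ) : ℂ := ∫ u, k u * cexp (-(s * u))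

lemma mul_exp_le {r u : ℝ} (hr : 0 < r) : u * Real.exp (-(r * u)) ≤ 1 / r := by
  have h1 : r * u ≤ Real.exp (r * u) := by
    have := Real.add_one_le_exp (r * u)
    linarith
  rw [Real.exp_neg, le_div_iff₀ hr, ← div_eq_mul_inv, div_mul_eq_mul_div, div_le_one (Real.exp_pos _)]
  linarith

lemma Lp_meas {k : ℝ → ℂ} (hm : Measurable k) (s : ℂ) : AEStronglyMeasurable (fun u : ℝ => k u * cexp (-(s * u))) volume := by
  refine AEStronglyMeasurable.mul hm.aestronglyMeasurable ?_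
  exact Continuous.aestronglyMeasurable (by fun_prop)

lemma Lp_integrable {k : ℝ → ℂ} {a : ℝ} (hm : Measurable k) (h0 : ∀ u, u < 0 → k u = 0)
    (hk : Integrable (fun u => ‖k u‖ * Real.exp (-(a * u)))) {s : ℂ} (hs : a ≤ s.re) :
    Integrable (fun u : ℝ => k u * cexp (-(s * u))) := by
  refine hk.mono' (Lp_meas hm s) (Eventually.of_forall fun u => ?_)
  rw [norm_mul, exp_neg_norm]
  rcases lt_or_ge u 0 with h | h
  · rw [h0 u h]; simp
  · gcongr

lemma Lp_diff {k : ℝ → ℂ} {a : ℝ} (hm : Measurable k) (h0 : ∀ u, u < 0 → k u = 0)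
    (hk : Integrable (fun u => ‖k u‖ * Real.exp (-(a * u)))) {s : ℂ} (hs : a < s.re) :
    DifferentiableAt ℂ (Lp k) s := by
  set r : ℝ := (s.re - a) / 2 with hr
  have hr0 : 0 < r := by rw [hr]; linarith
  have hball : ∀ z ∈ Metric.ball s r, a + r ≤ z.re := by
    intro z hz
    have h1 : |z.re - s.re| < r := lt_of_le_of_lt (by
      have := abs_re_le_norm (z - s); rwa [sub_re] at this) (by simpa [dist_eq_norm] using hz : ‖z - s‖ < r)
    have := (abs_lt.1 h1).1
    rw [hr] at this ⊢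
    linarith
  have h := hasDerivAt_integral_of_dominated_loc_of_deriv_le (μ := volume) (𝕜 := ℂ)
    (F := fun z (u : ℝ) => k u * cexp (-(z * u))) (F' := fun z (u : ℝ) => k u * (cexp (-(z * u)) * (-(u : ℂ))))
    (x₀ := s) (s := Metric.ball s r) (bound := fun u => (1 / r) * (‖k u‖ * Real.exp (-(a * u))))
    (Metric.ball_mem_nhds s hr0) (Eventually.of_forall fun z => Lp_meas hm z)
    (Lp_integrable hm h0 hk hs.le) ?_ ?_ (hk.const_mul _) ?_
  · exact h.2.differentiableAt
  · exact hm.aestronglyMeasurable.mul (Continuous.aestronglyMeasurable (by fun_prop))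
  · refine Eventually.of_forall fun u z hz => ?_
    rcases lt_or_ge u 0 with hu | hu
    · rw [h0 u hu]; simp
    · rw [norm_mul, norm_mul, exp_neg_norm, norm_neg, Complex.norm_real, Real.norm_of_nonneg hu]
      have h1 := hball z hz
      calc ‖k u‖ * (Real.exp (-(z.re * u)) * u) ≤ ‖k u‖ * (Real.exp (-((a + r) * u)) * u) := by
            gcongr
        _ = (u * Real.exp (-(r * u))) * (‖k u‖ * Real.exp (-(a * u))) := by
            rw [show -((a + r) * u) = -(a * u) + -(r * u) by ring, Real.exp_add]; ring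
        _ ≤ _ := mul_le_mul_of_nonneg_right (mul_exp_le hr0) (by positivity)
  · refine Eventually.of_forall fun u z _ => ?_
    have h1 : HasDerivAt (fun z : ℂ => cexp (-(z * u))) (cexp (-(z * u)) * (-(u : ℂ))) z := by
      have := ((hasDerivAt_id z).mul_const (u : ℂ)).neg.cexp
      simpa using this
    exact h1.const_mul (k u)

lemma int_Ioi_exp (F : ℝ → ℂ) : ∫ y in Ioi (1:ℝ), F y = ∫ u in Ioi (0:ℝ), (Real.exp u : ℂ) * F (Real.exp u) := by
  have h := integral_image_eq_integral_abs_deriv_smul (s := Ioi (0:ℝ)) (f := Real.exp) (f' := Real.exp)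
    measurableSet_Ioi (fun x _ => (Real.hasDerivAt_exp x).hasDerivWithinAt) (Real.exp_injective.injOn) F
  have himg : Real.exp '' Ioi (0:ℝ) = Ioi 1 := by
    ext y
    simp only [mem_image, mem_Ioi]
    constructor
    · rintro ⟨x, hx, rfl⟩
      exact Real.one_lt_exp_iff.2 hx
    · intro hy
      exact ⟨Real.log y, Real.log_pos hy, Real.exp_log (by linarith)⟩
  rw [himg] at h
  rw [h]
  apply setIntegral_congr_fun measurableSet_Ioi
  intro u _
  simp only
  rw [abs_of_pos (Real.exp_pos u), Complex.real_smul]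

lemma lint_Ioi_exp (F : ℝ → ENNReal) : ∫⁻ y in Ioi (1:ℝ), F y =
    ∫⁻ u in Ioi (0:ℝ), ENNReal.ofReal (Real.exp u) * F (Real.exp u) := by
  have h := lintegral_image_eq_lintegral_abs_deriv_mul (s := Ioi (0:ℝ)) (f := Real.exp) (f' := Real.exp)
    measurableSet_Ioi (fun x _ => (Real.hasDerivAt_exp x).hasDerivWithinAt) (Real.exp_injective.injOn) F
  have himg : Real.exp '' Ioi (0:ℝ) = Ioi 1 := by
    ext y
    simp only [mem_image, mem_Ioi]
    constructor
    · rintro ⟨x, hx, rfl⟩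
      exact Real.one_lt_exp_iff.2 hx
    · intro hy
      exact ⟨Real.log y, Real.log_pos hy, Real.exp_log (by linarith)⟩
  rw [himg] at h
  rw [h]
  apply setLIntegral_congr_fun measurableSet_Ioi
  intro u _
  simp only
  rw [abs_of_pos (Real.exp_pos u)]

variable {Q : ℕ}

/-- `ψ(e^u, χ)` -/
def pe (χ : DirichletCharacter ℂ Q) (u : ℝ) : ℂ := psiC χ (Real.exp u)

lemma pe_zero (χ : DirichletCharacter ℂ Q) {u : ℝ} (hu : u < 0) : pe χ u = 0 := by
  unfold pe psiC
  have h1 : ⌊Real.exp u⌋₊ = 0 := by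
    rw [Nat.floor_eq_zero, ← Real.exp_zero]; exact Real.exp_lt_exp.2 hu
  rw [h1]; simp

lemma psiC_meas (χ : DirichletCharacter ℂ Q) : Measurable (psiC χ) := by
  have h : psiC χ = (fun m : ℕ => ∑ n ∈ Finset.Icc 1 m, χ (n : ZMod Q) * ((ArithmeticFunction.vonMangoldt n : ℝ) : ℂ)) ∘
      (fun x : ℝ => ⌊x⌋₊) := by
    ext x; rfl
  rw [h]
  exact (measurable_from_nat).comp Nat.measurable_floor

lemma pe_meas (χ : DirichletCharacter ℂ Q) : Measurable (pe χ) := (psiC_meas χ).comp Real.measurable_exp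

lemma sum_norm_le (χ : DirichletCharacter ℂ Q) {x : ℝ} (hx : 0 ≤ x) :
    ∑ n ∈ Finset.Icc 1 ⌊x⌋₊, ‖χ (n : ZMod Q) * ((ArithmeticFunction.vonMangoldt n : ℝ) : ℂ)‖ ≤ (Real.log 4 + 4) * x := by
  refine le_trans (Finset.sum_le_sum (g := fun n => ArithmeticFunction.vonMangoldt n) fun n _ => ?_) ?_
  · rw [norm_mul, Complex.norm_real, Real.norm_of_nonneg ArithmeticFunction.vonMangoldt_nonneg]
    have := χ.norm_le_one (n : ZMod Q)
    calc _ ≤ 1 * ArithmeticFunction.vonMangoldt n := mul_le_mul_of_nonneg_right this ArithmeticFunction.vonMangoldt_nonneg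
      _ = _ := one_mul _
  · have h1 := Chebyshev.psi_le_const_mul_self hx
    refine le_trans (le_of_eq ?_) h1
    unfold Chebyshev.psi
    rfl

lemma psiC_le (χ : DirichletCharacter ℂ Q) {x : ℝ} (hx : 0 ≤ x) : ‖psiC χ x‖ ≤ (Real.log 4 + 4) * x :=
  (norm_sum_le _ _).trans (sum_norm_le χ hx)

lemma pe_le (χ : DirichletCharacter ℂ Q) (u : ℝ) : ‖pe χ u‖ ≤ (Real.log 4 + 4) * Real.exp u :=
  psiC_le χ (Real.exp_pos u).le

lemma Lp_far [NeZero Q] (χ : DirichletCharacter ℂ Q) {s : ℂ} (hs : 1 < s.re) :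
    s * Lp (pe χ) s = -logDeriv (DirichletCharacter.LFunction χ) s := by
  set f : ℕ → ℂ := fun n => χ (n : ZMod Q) * ((ArithmeticFunction.vonMangoldt n : ℝ) : ℂ) with hf
  have hO : (fun n : ℕ => ∑ k ∈ Finset.Icc 1 n, ‖f k‖) =O[atTop] fun n : ℕ => (n : ℝ) ^ (1:ℝ) := by
    refine Asymptotics.IsBigO.of_bound (Real.log 4 + 4) (Eventually.of_forall fun n => ?_)
    rw [Real.norm_of_nonneg (Finset.sum_nonneg fun _ _ => norm_nonneg _), Real.rpow_one,
      Real.norm_of_nonneg (Nat.cast_nonneg n)]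
    have := sum_norm_le χ (Nat.cast_nonneg n : (0:ℝ) ≤ (n : ℝ))
    rwa [Nat.floor_natCast] at this
  have h1 := LSeries_eq_mul_integral' f (r := 1) (by norm_num) (s := s) hs hO
  have h2 : LSeries f s = -logDeriv (DirichletCharacter.LFunction χ) s := by
    have h3 := DirichletCharacter.LSeries_twist_vonMangoldt_eq χ hs
    have h4 := DirichletCharacter.deriv_LFunction_eq_deriv_LSeries χ hs
    have h5 := DirichletCharacter.LFunction_eq_LSeries χ hs
    rw [logDeriv_apply, h4, h5, ← neg_div, ← h3]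
    rfl
  rw [← h2, h1]
  congr 1
  rw [int_Ioi_exp]
  unfold Lp
  rw [← setIntegral_eq_integral_of_forall_compl_eq_zero (s := Ici (0:ℝ)), integral_Ici_eq_integral_Ioi]
  · apply setIntegral_congr_fun measurableSet_Ioi
    intro u _
    simp only
    unfold pe psiC
    have hne : ((Real.exp u : ℝ) : ℂ) ≠ 0 := by exact_mod_cast (Real.exp_pos u).ne'
    rw [Complex.cpow_def_of_ne_zero hne, ← Complex.ofReal_log (Real.exp_pos u).le, Real.log_exp]
    have e1 : ((Real.exp u : ℝ) : ℂ) = Complex.exp u := Complex.ofReal_exp u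
    rw [e1]
    have e2 : Complex.exp (-(s * u)) = Complex.exp u * Complex.exp ((u : ℂ) * (-(s + 1))) := by
      rw [← Complex.exp_add]; ring_nf
    rw [e2]
    ring
  · intro u hu
    have : u < 0 := by simpa using hu
    rw [pe_zero χ this, zero_mul]

/-- `∫_1^∞ |ψ(x,χ)|² x^{-2-2δ} dx` on the exponential scale -/
def VL (χ : DirichletCharacter ℂ Q) (δ : ℝ) : ENNReal :=
  ∫⁻ u in Ioi (0:ℝ), ENNReal.ofReal (‖pe χ u‖ ^ 2 * Real.exp (-((1 + 2 * δ) * u)))

lemma sq_eq (χ : DirichletCharacter ℂ Q) (δ u : ℝ) :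
    ‖pe χ u * (Real.exp (-((1 / 2 + δ) * u)) : ℂ)‖ ^ 2 = ‖pe χ u‖ ^ 2 * Real.exp (-((1 + 2 * δ) * u)) := by
  rw [norm_mul, Complex.norm_real, Real.norm_of_nonneg (Real.exp_pos _).le, mul_pow, ← Real.exp_nat_mul]
  congr 2
  push_cast
  ring

lemma VL_eq (χ : DirichletCharacter ℂ Q) (δ : ℝ) :
    VL χ δ = ∫⁻ u, ENNReal.ofReal (‖pe χ u * (Real.exp (-((1 / 2 + δ) * u)) : ℂ)‖ ^ 2) := by
  unfold VL
  rw [← setLIntegral_eq_of_support_subset (s := Ici (0:ℝ)) (μ := volume)
    (f := fun u => ENNReal.ofReal (‖pe χ u * (Real.exp (-((1 / 2 + δ) * u)) : ℂ)‖ ^ 2))]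
  · rw [setLIntegral_congr (Ioi_ae_eq_Ici (μ := volume) (a := (0:ℝ)))]
    refine lintegral_congr fun u => ?_
    rw [sq_eq]
  · intro u hu
    by_contra h
    have h' : u < 0 := by simpa using h
    apply hu
    simp [pe_zero χ h']

end

end Pool.Agent.Helper37.VFG
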