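import Pool.Agent.Helper37.VFG.Asm2
import Pool.Agent.Helper37.VFG.Cor
import Pool.Agent.Helper37.VFG.Low
import Pool.Agent.Helper37.VFG.EAv
import Pool.Graph.R_seed8.Helper923.PNT

/-! The weighted mean of `G(x,Q)` over `x > Q` from below. -/

set_option autoImplicit false
set_option linter.unusedSectionVars false

open MeasureTheory Filter Topology Set Complex H37F
open scoped ENNReal

namespace Pool.Agent.Helper37.VFG

noncomputable section

/-- `∫_Q^∞ G(x,Q) x^{-2-2δ} dx` -/
def VQ (Q : ℕ) (δ : ℝ) : ℝ≥0∞ := ∫⁻ x in Ioi (Q:ℝ), ENNReal.ofReal (GV Q x * x ^ (-(2 + 2 * δ)))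

lemma psi_pnt {ε : ℝ} (hε : 0 < ε) : ∃ C : ℝ, 0 < C ∧ ∀ x : ℝ, 1 ≤ x → Chebyshev.psi x ≤ (1 + ε) * x + C := by
  have h := Pool.Agent.Helper923.PNT.psi_div_tendsto
  have h1 : ∀ᶠ x : ℝ in atTop, Chebyshev.psi x / x < 1 + ε := h.eventually_lt_const (by linarith)
  obtain ⟨X, hX⟩ := eventually_atTop.1 h1
  set Y := max X 1 with hY
  have hY1 : 1 ≤ Y := le_max_right _ _
  have hl : 0 ≤ Real.log 4 := Real.log_nonneg (by norm_num)
  refine ⟨(Real.log 4 + 4) * Y, by positivity, fun x hx => ?_⟩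
  rcases le_total Y x with h2 | h2
  · have h3 := hX x ((le_max_left _ _).trans h2)
    rw [div_lt_iff₀ (by linarith)] at h3
    have : 0 ≤ (Real.log 4 + 4) * Y := by positivity
    linarith
  · have h3 : Chebyshev.psi x ≤ (Real.log 4 + 4) * x := Chebyshev.psi_le_const_mul_self (by linarith)
    have h4 : (Real.log 4 + 4) * x ≤ (Real.log 4 + 4) * Y := mul_le_mul_of_nonneg_left h2 (by linarith)
    have : 0 ≤ (1 + ε) * x := by positivity
    linarith

lemma d_exp (y : ℝ) : HasDerivAt (fun y : ℝ => Real.exp (-y)) (-Real.exp (-y)) y := by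
  have := (hasDerivAt_neg y).exp
  simpa using this

lemma d_two (y : ℝ) : HasDerivAt (fun y : ℝ => y ^ 2 / 2) y y := by
  have := (hasDerivAt_pow 2 y).div_const 2
  simpa using this

lemma d_three (y : ℝ) : HasDerivAt (fun y : ℝ => y ^ 3 / 6) (y ^ 2 / 2) y := by
  have := (hasDerivAt_pow 3 y).div_const 6
  refine this.congr_deriv ?_
  norm_num
  ring

/-- third order Taylor bound for the exponential function -/
lemma exp_taylor {x : ℝ} (hx : 0 ≤ x) : 1 - x + x ^ 2 / 2 - x ^ 3 / 6 ≤ Real.exp (-x) := by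
  have h1 : ∀ y : ℝ, 0 ≤ y → Real.exp (-y) ≤ 1 - y + y ^ 2 / 2 := by
    have hmono : MonotoneOn (fun y : ℝ => 1 - y + y ^ 2 / 2 - Real.exp (-y)) (Ici 0) := by
      apply monotoneOn_of_deriv_nonneg (convex_Ici 0) (by fun_prop) (by fun_prop)
      intro y hy
      have hd : HasDerivAt (fun y : ℝ => 1 - y + y ^ 2 / 2 - Real.exp (-y)) (-1 + y - (-Real.exp (-y))) y :=
        (((hasDerivAt_id' y).const_sub 1).fun_add (d_two y)).fun_sub (d_exp y)
      rw [hd.deriv]
      have := Real.add_one_le_exp (-y)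
      linarith
    intro y hy
    have h := hmono (mem_Ici.2 le_rfl) (mem_Ici.2 hy) hy
    simp at h
    linarith
  have hmono : MonotoneOn (fun y : ℝ => Real.exp (-y) - (1 - y + y ^ 2 / 2 - y ^ 3 / 6)) (Ici 0) := by
    apply monotoneOn_of_deriv_nonneg (convex_Ici 0) (by fun_prop) (by fun_prop)
    intro y hy
    rw [interior_Ici] at hy
    have hy0 : (0:ℝ) ≤ y := le_of_lt hy
    have hd : HasDerivAt (fun y : ℝ => Real.exp (-y) - (1 - y + y ^ 2 / 2 - y ^ 3 / 6)) (-Real.exp (-y) - (-1 + y - y ^ 2 / 2)) y :=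
      (d_exp y).fun_sub ((((hasDerivAt_id' y).const_sub 1).fun_add (d_two y)).fun_sub (d_three y))
    rw [hd.deriv]
    have := h1 y hy0
    linarith
  have h := hmono (mem_Ici.2 le_rfl) (mem_Ici.2 hx) hx
  simp at h
  linarith

/-- the elementary function -/
lemma cK {K : ℝ} (hK : 0 < K) : 1 - 2 / 3 * K ^ 2 * Real.exp (2 * K) ≤
    Real.exp (2 * K) * (1 - K - ((1 - Real.exp (-(2 * K))) / (2 * K) - Real.exp (-(2 * K)))) := by
  have h1 := exp_taylor (x := 2 * K) (by linarith)
  have h2 : (1 - Real.exp (-(2 * K))) / (2 * K) ≤ 1 - K + 2 / 3 * K ^ 2 := by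
    rw [div_le_iff₀ (by linarith)]
    nlinarith
  have h3 : Real.exp (2 * K) * Real.exp (-(2 * K)) = 1 := by rw [← Real.exp_add]; simp
  have h4 := Real.exp_pos (2 * K)
  have h5 : Real.exp (2 * K) * (1 - K - ((1 - Real.exp (-(2 * K))) / (2 * K) - Real.exp (-(2 * K)))) =
      Real.exp (2 * K) * (1 - K - (1 - Real.exp (-(2 * K))) / (2 * K)) + Real.exp (2 * K) * Real.exp (-(2 * K)) := by ring
  rw [h5, h3]
  have h6 : Real.exp (2 * K) * (-(2 / 3 * K ^ 2)) ≤ Real.exp (2 * K) * (1 - K - (1 - Real.exp (-(2 * K))) / (2 * K)) :=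
    mul_le_mul_of_nonneg_left (by linarith) h4.le
  linarith

/-- the integral of the majorant for `x < Q` -/
lemma J_int {δ L : ℝ} (hδ : 0 < δ) :
    ∫ u in (0:ℝ)..L, u * Real.exp (-(2 * δ * u)) = ((1 - Real.exp (-(2 * δ * L))) / (2 * δ) - L * Real.exp (-(2 * δ * L))) / (2 * δ) := by
  have hd : ∀ u : ℝ, HasDerivAt (fun u : ℝ => -((u + 1 / (2 * δ)) * Real.exp (-(2 * δ * u))) / (2 * δ))
      (u * Real.exp (-(2 * δ * u))) u := by
    intro u
    have h1 : HasDerivAt (fun u : ℝ => Real.exp (-(2 * δ * u))) (Real.exp (-(2 * δ * u)) * (-(2 * δ))) u := by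
      have h2 : HasDerivAt (fun u : ℝ => -(2 * δ * u)) (-(2 * δ)) u := by
        have := ((hasDerivAt_id' u).const_mul (2 * δ)).fun_neg
        exact this.congr_deriv (by ring)
      exact h2.exp
    have h3 : HasDerivAt (fun u : ℝ => u + 1 / (2 * δ)) 1 u := (hasDerivAt_id' u).add_const _
    have h4 := ((h3.fun_mul h1).fun_neg).div_const (2 * δ)
    refine h4.congr_deriv ?_
    field_simp
    ring
  rw [intervalIntegral.integral_eq_sub_of_hasDerivAt (fun u _ => hd u) (by apply Continuous.intervalIntegrable; fun_prop)]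
  simp only [mul_zero, neg_zero, Real.exp_zero, zero_add]
  field_simp
  ring

/-- the part `x < Q` -/
theorem low_part {ε : ℝ} (hε : 0 < ε) : ∃ C : ℝ, 0 < C ∧ ∀ Q : ℕ, 3 ≤ Q → ∀ δ : ℝ, 0 < δ →
    ENNReal.ofReal (2 * δ) * ∫⁻ u in Ioc 0 (Real.log Q), ENNReal.ofReal (ge Q u) * ENNReal.ofReal (Real.exp (-(2 * δ * u))) ≤
      ENNReal.ofReal ((1 + ε) * ((1 - Real.exp (-(2 * δ * Real.log Q))) / (2 * δ) - Real.log Q * Real.exp (-(2 * δ * Real.log Q))) +
        C * δ * Real.log Q) := by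
  obtain ⟨C, hC, hpsi⟩ := psi_pnt hε
  refine ⟨4 * C + 10, by positivity, ?_⟩
  intro Q hQ δ hδ
  have hl := log_ge_one hQ
  set L := Real.log Q with hL
  have hQr : (3:ℝ) ≤ Q := by exact_mod_cast hQ
  have hφ0 : 0 < (Q.totient : ℝ) := by exact_mod_cast Nat.totient_pos.2 (by omega)
  have hl2 : 0 < Real.log 2 := Real.log_pos (by norm_num)
  have hl2' : 1 / 2 ≤ Real.log 2 := by linarith [Real.log_two_gt_d9]
  have htot : (Q : ℝ) / Q.totient ≤ 3 * L := by
    have h1 := tot_low Q (by omega)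
    have h2 : Real.log Q / Real.log 2 ≤ 2 * L := by
      rw [div_le_iff₀ hl2, ← hL]; nlinarith
    linarith
  -- pointwise bound
  have hpt : ∀ u ∈ Ioo 0 L, ge Q u * Real.exp (-(2 * δ * u)) ≤ (1 + ε) * (u * Real.exp (-(2 * δ * u))) +
      (C * 1 + (1 / (Q.totient : ℝ)) * Real.exp u) := by
    intro u hu
    have hu0 : 0 < u := hu.1
    have hx1 : 1 ≤ Real.exp u := Real.one_le_exp hu0.le
    have hxQ : Real.exp u < Q := by
      rw [← Real.exp_log (show (0:ℝ) < Q by linarith)]
      exact Real.exp_lt_exp.2 hu.2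
    have h1 := gv_low Q (by omega) (Real.exp u) hx1 hxQ
    rw [Real.log_exp] at h1
    have h2 := hpsi (Real.exp u) hx1
    have h3 : GV Q (Real.exp u) ≤ u * ((1 + ε) * Real.exp u + C) + Real.exp u ^ 2 / Q.totient := by
      have := mul_le_mul_of_nonneg_left h2 hu0.le
      linarith
    have hep : 0 < Real.exp (-u) := Real.exp_pos _
    have hee : Real.exp u * Real.exp (-u) = 1 := by rw [← Real.exp_add]; simp
    have h4 : ge Q u ≤ (1 + ε) * u + C * (u * Real.exp (-u)) + (1 / (Q.totient : ℝ)) * Real.exp u := by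
      unfold ge
      have h5 := mul_le_mul_of_nonneg_right h3 hep.le
      have h6 : (u * ((1 + ε) * Real.exp u + C) + Real.exp u ^ 2 / Q.totient) * Real.exp (-u) =
          (1 + ε) * u * (Real.exp u * Real.exp (-u)) + C * (u * Real.exp (-u)) +
            (1 / (Q.totient : ℝ)) * Real.exp u * (Real.exp u * Real.exp (-u)) := by ring
      rw [h6, hee] at h5
      linarith
    have h7 : u * Real.exp (-u) ≤ 1 := by
      have := mul_exp_le (r := 1) (u := u) one_pos
      simpa using this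
    have hE1 : Real.exp (-(2 * δ * u)) ≤ 1 := Real.exp_le_one_iff.2 (by nlinarith)
    have hE0 : 0 < Real.exp (-(2 * δ * u)) := Real.exp_pos _
    calc ge Q u * Real.exp (-(2 * δ * u)) ≤ ((1 + ε) * u + C * (u * Real.exp (-u)) + (1 / (Q.totient : ℝ)) * Real.exp u) *
          Real.exp (-(2 * δ * u)) := mul_le_mul_of_nonneg_right h4 hE0.le
      _ = (1 + ε) * (u * Real.exp (-(2 * δ * u))) + (C * (u * Real.exp (-u)) + (1 / (Q.totient : ℝ)) * Real.exp u) * Real.exp (-(2 * δ * u)) := by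
          ring
      _ ≤ (1 + ε) * (u * Real.exp (-(2 * δ * u))) + (C * 1 + (1 / (Q.totient : ℝ)) * Real.exp u) * 1 := by
          have h8 : C * (u * Real.exp (-u)) + (1 / (Q.totient : ℝ)) * Real.exp u ≤ C * 1 + (1 / (Q.totient : ℝ)) * Real.exp u := by
            have := mul_le_mul_of_nonneg_left h7 hC.le
            linarith
          have h9 : (C * (u * Real.exp (-u)) + (1 / (Q.totient : ℝ)) * Real.exp u) * Real.exp (-(2 * δ * u)) ≤
              (C * 1 + (1 / (Q.totient : ℝ)) * Real.exp u) * 1 :=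
            mul_le_mul h8 hE1 hE0.le (by positivity)
          linarith
      _ = _ := by ring
  have hcont : Continuous (fun u : ℝ => (1 + ε) * (u * Real.exp (-(2 * δ * u))) + (C * 1 + (1 / (Q.totient : ℝ)) * Real.exp u)) := by
    fun_prop
  have h1 : ∫⁻ u in Ioc 0 L, ENNReal.ofReal (ge Q u) * ENNReal.ofReal (Real.exp (-(2 * δ * u))) ≤
      ENNReal.ofReal (∫ u in (0:ℝ)..L, ((1 + ε) * (u * Real.exp (-(2 * δ * u))) + (C * 1 + (1 / (Q.totient : ℝ)) * Real.exp u))) := by
    rw [← restrict_Ioo_eq_restrict_Ioc, intervalIntegral.integral_of_le (by linarith), ← restrict_Ioo_eq_restrict_Ioc,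
      ofReal_integral_eq_lintegral_ofReal]
    · refine setLIntegral_mono' measurableSet_Ioo fun u hu => ?_
      rw [← ENNReal.ofReal_mul (ge_nonneg _ _)]
      exact ENNReal.ofReal_le_ofReal (hpt u hu)
    · exact (hcont.integrableOn_Icc (a := 0) (b := L)).mono_set Ioo_subset_Icc_self
    · filter_upwards [ae_restrict_mem measurableSet_Ioo] with u hu
      exact le_trans (mul_nonneg (ge_nonneg _ _) (Real.exp_pos _).le) (hpt u hu)
  have h2 : ∫ u in (0:ℝ)..L, ((1 + ε) * (u * Real.exp (-(2 * δ * u))) + (C * 1 + (1 / (Q.totient : ℝ)) * Real.exp u)) =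
      (1 + ε) * (((1 - Real.exp (-(2 * δ * L))) / (2 * δ) - L * Real.exp (-(2 * δ * L))) / (2 * δ)) +
        (C * L + (1 / (Q.totient : ℝ)) * (Q - 1)) := by
    rw [intervalIntegral.integral_add (by apply Continuous.intervalIntegrable; fun_prop)
      (by apply Continuous.intervalIntegrable; fun_prop), intervalIntegral.integral_const_mul, J_int hδ,
      intervalIntegral.integral_add (by apply Continuous.intervalIntegrable; fun_prop)
      (by apply Continuous.intervalIntegrable; fun_prop), intervalIntegral.integral_const, intervalIntegral.integral_const_mul,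
      integral_exp, Real.exp_zero, hL, Real.exp_log (by linarith)]
    simp
    ring
  rw [h2] at h1
  calc ENNReal.ofReal (2 * δ) * ∫⁻ u in Ioc 0 L, ENNReal.ofReal (ge Q u) * ENNReal.ofReal (Real.exp (-(2 * δ * u))) ≤
        ENNReal.ofReal (2 * δ) * ENNReal.ofReal ((1 + ε) * (((1 - Real.exp (-(2 * δ * L))) / (2 * δ) - L * Real.exp (-(2 * δ * L))) / (2 * δ)) +
        (C * L + (1 / (Q.totient : ℝ)) * (Q - 1))) := by gcongr
    _ ≤ _ := by
        rw [← ENNReal.ofReal_mul (by linarith)]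
        refine ENNReal.ofReal_le_ofReal ?_
        have h3 : 2 * δ * ((1 + ε) * (((1 - Real.exp (-(2 * δ * L))) / (2 * δ) - L * Real.exp (-(2 * δ * L))) / (2 * δ))) =
            (1 + ε) * ((1 - Real.exp (-(2 * δ * L))) / (2 * δ) - L * Real.exp (-(2 * δ * L))) := by
          field_simp
        have h4 : (1 / (Q.totient : ℝ)) * (Q - 1) ≤ 3 * L := by
          have : (1 / (Q.totient : ℝ)) * (Q - 1) ≤ (Q : ℝ) / Q.totient := by
            rw [one_div, inv_mul_eq_div]
            exact div_le_div_of_nonneg_right (by linarith) hφ0.le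
          linarith
        rw [mul_add, h3]
        have h5 : 2 * δ * (C * L + (1 / (Q.totient : ℝ)) * (Q - 1)) ≤ (4 * C + 10) * δ * L := by
          have h6 : C * L + (1 / (Q.totient : ℝ)) * (Q - 1) ≤ (C + 3) * L := by linarith
          have h7 := mul_le_mul_of_nonneg_left h6 (show 0 ≤ 2 * δ by linarith)
          have h8 : 0 ≤ δ * L := by positivity
          nlinarith
        linarith

end

end Pool.Agent.Helper37.VFG
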