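import Pool.Agent.Helper37.VFG.Ran

/-! The weighted mean of `G(x,Q)` over `x > Q` from below: conclusion. -/

set_option autoImplicit false
set_option linter.unusedSectionVars false

open MeasureTheory Filter Topology Set Complex H37F
open scoped ENNReal

namespace Pool.Agent.Helper37.VFG

noncomputable section

lemma VQ_exp {Q : ℕ} (hQ : 0 < Q) (δ : ℝ) : VQ Q δ =
    ∫⁻ u in Ioi (Real.log Q), ENNReal.ofReal (ge Q u) * ENNReal.ofReal (Real.exp (-(2 * δ * u))) := by
  have hq : (0:ℝ) < Q := by exact_mod_cast hQ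
  unfold VQ
  have h := lintegral_image_eq_lintegral_abs_deriv_mul (s := Ioi (Real.log Q)) (f := Real.exp) (f' := Real.exp)
    measurableSet_Ioi (fun x _ => (Real.hasDerivAt_exp x).hasDerivWithinAt) (Real.exp_injective.injOn)
    (fun x => ENNReal.ofReal (GV Q x * x ^ (-(2 + 2 * δ))))
  have himg : Real.exp '' Ioi (Real.log Q) = Ioi (Q : ℝ) := by
    ext y
    simp only [mem_image, mem_Ioi]
    constructor
    · rintro ⟨x, hx, rfl⟩
      rw [← Real.exp_log hq]
      exact Real.exp_lt_exp.2 hx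
    · intro hy
      exact ⟨Real.log y, Real.log_lt_log hq hy, Real.exp_log (by linarith)⟩
  rw [himg] at h
  rw [h]
  refine lintegral_congr fun u => ?_
  rw [abs_of_pos (Real.exp_pos u), ← ENNReal.ofReal_mul (Real.exp_pos u).le, ← ENNReal.ofReal_mul (ge_nonneg _ _)]
  congr 1
  unfold ge
  rw [← Real.exp_mul]
  have e1 : Real.exp (u * -(2 + 2 * δ)) = Real.exp (-u) * (Real.exp (-u) * Real.exp (-(2 * δ * u))) := by
    rw [← Real.exp_add, ← Real.exp_add]; ring_nf
  have e2 : Real.exp u * Real.exp (-u) = 1 := by rw [← Real.exp_add]; simp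
  rw [e1]
  calc Real.exp u * (GV Q (Real.exp u) * (Real.exp (-u) * (Real.exp (-u) * Real.exp (-(2 * δ * u))))) =
      (Real.exp u * Real.exp (-u)) * (GV Q (Real.exp u) * Real.exp (-u) * Real.exp (-(2 * δ * u))) := by ring
    _ = _ := by rw [e2, one_mul]

lemma VG_split {Q : ℕ} (hQ : 0 < Q) (δ : ℝ) : VG Q δ =
    (∫⁻ u in Ioc 0 (Real.log Q), ENNReal.ofReal (ge Q u) * ENNReal.ofReal (Real.exp (-(2 * δ * u)))) + VQ Q δ := by
  have hq : (1:ℝ) ≤ Q := by exact_mod_cast hQ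
  rw [VG_ge, VQ_exp hQ, ← lintegral_union measurableSet_Ioi (Ioc_disjoint_Ioi le_rfl),
    Ioc_union_Ioi_eq_Ioi (Real.log_nonneg hq)]

theorem high_part {ε : ℝ} (hε : 0 < ε) : ∀ᶠ Q : ℕ in atTop, ∀ δ : ℝ, 0 < δ → δ * Real.log Q ≤ 1 →
    ENNReal.ofReal ((1 - 2 / 3 * (δ * Real.log Q) ^ 2 * Real.exp (2 * (δ * Real.log Q)) - ε) * Real.log Q) ≤
      ENNReal.ofReal (2 * δ * (Q : ℝ) ^ (2 * δ)) * VQ Q δ := by
  set ε₁ : ℝ := ε / 48 with hε₁
  have hε₁0 : 0 < ε₁ := by positivity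
  have hmain := main_sharp EE_avg hε₁0
  obtain ⟨C, hC, hlow⟩ := low_part hε₁0
  obtain ⟨Cs, hCs, hSL⟩ := SL_small hε₁0
  set Cq : ℝ := Cs + Real.eulerMascheroniConstant + Real.log (2 * Real.pi) with hCq
  have ev1 : ∀ᶠ Q : ℕ in atTop, 16 * (Cq + ε₁ + C) / ε ≤ Real.log (Q : ℝ) := logQ_tendsto.eventually_ge_atTop _
  filter_upwards [hmain, ev1, eventually_ge_atTop 3] with Q hmain ev1 hQ
  have hQ0 : NeZero Q := ⟨by omega⟩
  intro δ hδ hδl
  have hl := log_ge_one hQ
  have hq : (0:ℝ) < Q := by exact_mod_cast (by omega : 0 < Q)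
  have hQpow : (Q : ℝ) ^ (2 * δ) = Real.exp (2 * (δ * Real.log Q)) := by
    rw [Real.rpow_def_of_pos hq]; ring_nf
  rcases eq_or_ne (VQ Q δ) ⊤ with ht | ht
  · rw [ht, ENNReal.mul_top]
    · exact le_top
    · have : 0 < 2 * δ * (Q : ℝ) ^ (2 * δ) := by positivity
      simpa using this
  have hlow := hlow Q hQ δ hδ
  have hsplit := VG_split (Q := Q) (by omega) δ
  set L := Real.log Q with hL
  set Vl := ∫⁻ u in Ioc 0 L, ENNReal.ofReal (ge Q u) * ENNReal.ofReal (Real.exp (-(2 * δ * u))) with hVl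
  set K := δ * L with hK
  have hK0 : 0 < K := by positivity
  have e2δL : 2 * δ * L = 2 * K := by rw [hK]; ring
  rw [e2δL] at hlow
  set J := (1 - Real.exp (-(2 * K))) / (2 * δ) - L * Real.exp (-(2 * K)) with hJ
  have hVlt : Vl ≠ ⊤ := by
    intro h
    rw [h, ENNReal.mul_top (by simpa using hδ)] at hlow
    exact absurd hlow (by simp)
  have hVGt : VG Q δ < ⊤ := by
    rw [hsplit]
    exact ENNReal.add_lt_top.2 ⟨lt_top_iff_ne_top.2 hVlt, lt_top_iff_ne_top.2 ht⟩
  have hm := hmain δ hδ hVGt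
  have hJe : J = L * ((1 - Real.exp (-(2 * K))) / (2 * K) - Real.exp (-(2 * K))) := by
    rw [hJ, hK]
    have : 0 < L := by linarith
    field_simp
  have hJ0 : J ≤ L := by
    rw [hJe]
    have h1 : (1 - Real.exp (-(2 * K))) / (2 * K) ≤ 1 := by
      rw [div_le_iff₀ (by positivity)]
      have := Real.add_one_le_exp (-(2 * K))
      linarith
    have h2 := Real.exp_pos (-(2 * K))
    have h3 : (1 - Real.exp (-(2 * K))) / (2 * K) - Real.exp (-(2 * K)) ≤ 1 := by linarith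
    calc L * ((1 - Real.exp (-(2 * K))) / (2 * K) - Real.exp (-(2 * K))) ≤ L * 1 := mul_le_mul_of_nonneg_left h3 (by linarith)
      _ = L := mul_one L
  have hJnn : 0 ≤ J := by
    rw [hJe]
    have h2 := Real.exp_pos (-(2 * K))
    have h3 : Real.exp (2 * K) * Real.exp (-(2 * K)) = 1 := by rw [← Real.exp_add]; simp
    have h4 := Real.add_one_le_exp (2 * K)
    have h5 : Real.exp (-(2 * K)) ≤ (1 - Real.exp (-(2 * K))) / (2 * K) := by
      rw [le_div_iff₀ (by positivity)]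
      have := mul_le_mul_of_nonneg_right h4 h2.le
      rw [h3] at this
      linarith
    exact mul_nonneg (by linarith) (by linarith)
  have hLp : 0 < L := by linarith
  have hlowr : 2 * δ * Vl.toReal ≤ (1 + ε₁) * J + C * K := by
    have h1 := ENNReal.toReal_mono ENNReal.ofReal_ne_top hlow
    rw [ENNReal.toReal_mul, ENNReal.toReal_ofReal (by positivity), ENNReal.toReal_ofReal (by positivity)] at h1
    have : C * δ * L = C * K := by rw [hK]; ring
    linarith
  rw [hsplit, ENNReal.toReal_add hVlt ht] at hm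
  have hCQle : CQ Q ≤ ε₁ * L + Cq := by
    have := hSL Q
    unfold CQ
    rw [hCq]
    linarith
  have hK1 : K ≤ 1 := hδl
  have hKL : (1 + ε₁) * δ * L ^ 2 = (1 + ε₁) * (K * L) := by rw [hK]; ring
  rw [hKL] at hm
  have hV : L - (ε₁ * L + Cq) - (1 + ε₁) * (K * L) - ε₁ - (1 + ε₁) * J - C * K ≤ 2 * δ * (VQ Q δ).toReal := by
    linarith [(by ring : 2 * δ * (Vl.toReal + (VQ Q δ).toReal) = 2 * δ * Vl.toReal + 2 * δ * (VQ Q δ).toReal)]
  have hC16 : Cq + ε₁ + C ≤ ε / 16 * L := by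
    rw [div_le_iff₀ hε] at ev1
    linarith
  have hKLle : K * L ≤ L := by nlinarith
  have hmainb : L - K * L - J - ε / 8 * L ≤ 2 * δ * (VQ Q δ).toReal := by
    have h1 : ε₁ * (K * L) ≤ ε₁ * L := mul_le_mul_of_nonneg_left hKLle hε₁0.le
    have h2 : ε₁ * J ≤ ε₁ * L := mul_le_mul_of_nonneg_left hJ0 hε₁0.le
    have h3 : C * K ≤ C := by nlinarith
    have h4 : ε₁ * L = ε / 48 * L := by rw [hε₁]
    linarith
  have hE0 := Real.exp_pos (2 * K)
  have hE8 : Real.exp (2 * K) ≤ 8 := by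
    have h1 : Real.exp (2 * K) ≤ Real.exp 2 := Real.exp_le_exp.2 (by linarith)
    have h2 : Real.exp 2 = Real.exp 1 * Real.exp 1 := by rw [← Real.exp_add]; norm_num
    have h3 := Real.exp_one_lt_d9
    have h4 := Real.exp_pos 1
    nlinarith
  have hcK := cK hK0
  have hfin : (1 - 2 / 3 * K ^ 2 * Real.exp (2 * K) - ε) * L ≤ 2 * δ * Real.exp (2 * K) * (VQ Q δ).toReal := by
    have h1 := mul_le_mul_of_nonneg_left hmainb hE0.le
    have h2 : Real.exp (2 * K) * (L - K * L - J) = L * (Real.exp (2 * K) * (1 - K - ((1 - Real.exp (-(2 * K))) / (2 * K) - Real.exp (-(2 * K))))) := by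
      rw [hJe]; ring
    have h3 := mul_le_mul_of_nonneg_left hcK hLp.le
    have h4 : Real.exp (2 * K) * (ε / 8 * L) ≤ ε * L := by
      have : 0 ≤ ε / 8 * L := by positivity
      nlinarith
    have h5 : Real.exp (2 * K) * (L - K * L - J - ε / 8 * L) = Real.exp (2 * K) * (L - K * L - J) - Real.exp (2 * K) * (ε / 8 * L) := by
      ring
    rw [h5, h2] at h1
    linarith [(by ring : Real.exp (2 * K) * (2 * δ * (VQ Q δ).toReal) = 2 * δ * Real.exp (2 * K) * (VQ Q δ).toReal)]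
  calc ENNReal.ofReal ((1 - 2 / 3 * K ^ 2 * Real.exp (2 * K) - ε) * L) ≤
        ENNReal.ofReal (2 * δ * Real.exp (2 * K) * (VQ Q δ).toReal) := ENNReal.ofReal_le_ofReal hfin
    _ = _ := by rw [ENNReal.ofReal_mul (by positivity), ENNReal.ofReal_toReal ht, hQpow]

/-- the main inequality, in `[0, ∞]` -/
theorem main_sharp_enn {ε : ℝ} (hε : 0 < ε) : ∀ᶠ Q : ℕ in atTop, ∀ δ : ℝ, 0 < δ →
    ENNReal.ofReal (Real.log Q - CQ Q - (1 + ε) * δ * Real.log Q ^ 2 - ε) ≤ ENNReal.ofReal (2 * δ) * VG Q δ := by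
  filter_upwards [main_sharp EE_avg hε] with Q hQ
  intro δ hδ
  rcases eq_or_ne (VG Q δ) ⊤ with ht | ht
  · rw [ht, ENNReal.mul_top (by simpa using hδ)]
    exact le_top
  · have h1 := hQ δ hδ (lt_top_iff_ne_top.2 ht)
    calc _ ≤ ENNReal.ofReal (2 * δ * (VG Q δ).toReal) := ENNReal.ofReal_le_ofReal h1
      _ = _ := by rw [ENNReal.ofReal_mul (by linarith), ENNReal.ofReal_toReal ht]

end

end Pool.Agent.Helper37.VFG
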