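import Pool.Graph.R_seed8.H370R2.Local
import Pool.Agent.Helper37.VFG.Kern

/-! The real part of the logarithmic derivative of a symmetric entire function of order less than two. -/

set_option autoImplicit false

open Filter Topology Set Complex Metric

namespace Pool.Agent.Helper37.VFG

open H370 H370.Loc

noncomputable section

lemma Pf_order (s : Multiset ℂ) (u : ℂ) : analyticOrderAt (Pf s) u = s.count u := by
  induction s using Multiset.induction_on with
  | empty =>
    have : Pf 0 = fun _ => (1 : ℂ) := funext Pf_zero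
    rw [this, analyticAt_const.analyticOrderAt_eq_zero.2 one_ne_zero]
    simp
  | cons ρ s ih =>
    have e : Pf (ρ ::ₘ s) = (fun z => z - ρ) * Pf s := funext (Pf_cons ρ s)
    have h1 : AnalyticAt ℂ (fun z : ℂ => z - ρ) u := by fun_prop
    rw [e, analyticOrderAt_mul h1 ((Pf_diff s).analyticAt u), ih]
    by_cases h : ρ = u
    · subst h
      rw [Multiset.count_cons_self, analyticOrderAt_id_sub_const_self]
      push_cast
      ring
    · rw [Multiset.count_cons_of_ne (Ne.symm h), analyticOrderAt_id_sub_const_of_ne (Ne.symm h), zero_add]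

/-- the multiplicity of a factorisation -/
lemma count_eq {g G : ℂ → ℂ} {s : Multiset ℂ} {u : ℂ} (hG : AnalyticAt ℂ G u) (h0 : G u ≠ 0)
    (h : ∀ z, g z = Pf s z * G z) : mult g u = s.count u := by
  have e : g = Pf s * G := funext h
  unfold mult
  rw [e]
  unfold analyticOrderNatAt
  rw [analyticOrderAt_mul ((Pf_diff s).analyticAt u) hG, hG.analyticOrderAt_eq_zero.2 h0, add_zero, Pf_order]
  rfl

lemma Pf_logDeriv_eq {s : Multiset ℂ} {z : ℂ} (h : ∀ ρ ∈ s, z ≠ ρ) :
    logDeriv (Pf s) z = (s.map (fun ρ => 1 / (z - ρ))).sum := by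
  induction s using Multiset.induction_on with
  | empty =>
    have : Pf 0 = fun _ => (1 : ℂ) := funext Pf_zero
    rw [this]
    simp
  | cons ρ s ih =>
    have e : Pf (ρ ::ₘ s) = (fun z => z - ρ) * Pf s := funext (Pf_cons ρ s)
    have h1 : z - ρ ≠ 0 := sub_ne_zero.2 (h ρ (Multiset.mem_cons_self ρ s))
    have h2 : Pf s z ≠ 0 := Pf_ne_zero fun ρ' h' => h ρ' (Multiset.mem_cons_of_mem h')
    rw [e, show ((fun z => z - ρ) * Pf s) = fun z => (z - ρ) * Pf s z from rfl,
      logDeriv_mul z h1 h2 (by fun_prop) (Pf_diff s z), ih fun ρ' h' => h ρ' (Multiset.mem_cons_of_mem h'),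
      Multiset.map_cons, Multiset.sum_cons]
    congr 1
    rw [logDeriv_apply]
    congr 1
    rw [deriv_sub_const, deriv_id'']

/-- growth of order `3/2` -/
def Gr (K : ℝ) (g : ℂ → ℂ) : Prop := ∀ w, ‖g w‖ ≤ Real.exp (K * (1 + ‖w‖) ^ (3 / 2 : ℝ))

/-- the bound for the logarithm of the maximum -/
def BB (K : ℝ) (c : ℂ) (g : ℂ → ℂ) (R : ℝ) : ℝ := K * (1 + ‖c‖ + 2 * R) ^ (3 / 2 : ℝ) - Real.log ‖g c‖

/-- splitting off the zeros of a disc -/
theorem split {g : ℂ → ℂ} (hg : Differentiable ℂ g) {K : ℝ} (hK : 0 ≤ K) (hgr : Gr K g) {c : ℂ} (hc : g c ≠ 0)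
    {R : ℝ} (hR : 0 < R) : ∃ (s : Multiset ℂ) (G : ℂ → ℂ), (∀ ρ ∈ s, ρ ∈ closedBall c R ∧ g ρ = 0) ∧
      AnalyticOnNhd ℂ G (closedBall c (2 * R)) ∧ (∀ z, g z = Pf s z * G z) ∧ (∀ z ∈ closedBall c R, G z ≠ 0) ∧
      0 ≤ BB K c g R ∧
      ∀ z ∈ closedBall c (R / 2), ‖logDeriv G z‖ ≤ 24 * (BB K c g R + 1) / R := by
  set M : ℝ := Real.exp (K * (1 + ‖c‖ + 2 * R) ^ (3 / 2 : ℝ)) with hM
  have hM1 : 1 ≤ M := by
    rw [hM]
    apply Real.one_le_exp
    positivity
  have hM0 : 0 < M := by linarith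
  have hb : ∀ z ∈ closedBall c (2 * R), ‖g z‖ ≤ M := by
    intro z hz
    refine (hgr z).trans ?_
    rw [hM]
    apply Real.exp_le_exp.2
    apply mul_le_mul_of_nonneg_left _ hK
    apply Real.rpow_le_rpow (by positivity) _ (by norm_num)
    rw [mem_closedBall, dist_eq_norm] at hz
    have : ‖z‖ ≤ ‖z - c‖ + ‖c‖ := by
      have := norm_add_le (z - c) c
      simpa using this
    linarith
  have han : AnalyticOnNhd ℂ g (closedBall c (2 * R)) := fun z _ => hg.analyticAt z
  obtain ⟨s, G, hs, hGan, hfac, hG0, -⟩ := extract hR (by linarith : R < 2 * R) hM1 han hc hb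
  have hgc : 0 < ‖g c‖ := norm_pos_iff.2 hc
  have hgcM : ‖g c‖ ≤ M := hb c (mem_closedBall_self (by linarith))
  have hBB : BB K c g R = Real.log (M / ‖g c‖) := by
    rw [Real.log_div hM0.ne' hgc.ne', hM, Real.log_exp]
    rfl
  have hBB0 : 0 ≤ BB K c g R := by
    rw [hBB]
    apply Real.log_nonneg
    rwa [le_div_iff₀ hgc, one_mul]
  refine ⟨s, G, hs, hGan, hfac, hG0, hBB0, ?_⟩
  have hP : ∀ z, ‖z - c‖ = 2 * R → R ^ (Multiset.card s) ≤ ‖Pf s z‖ := by
    intro z hz
    apply Pf_norm_ge hR.le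
    intro ρ hρ
    have h1 := (hs ρ hρ).1
    rw [mem_closedBall, dist_eq_norm] at h1
    have h2 : ‖z - c‖ ≤ ‖z - ρ‖ + ‖ρ - c‖ := by
      have := norm_add_le (z - ρ) (ρ - c)
      simpa using this
    linarith
  have hPc : ‖Pf s c‖ ≤ R ^ (Multiset.card s) := by
    apply Pf_norm_le
    intro ρ hρ
    have h1 := (hs ρ hρ).1
    rw [mem_closedBall, dist_eq_norm] at h1
    rwa [norm_sub_rev]
  have hRn : 0 < R ^ (Multiset.card s) := by positivity
  have hmax : ∀ z ∈ closedBall c (2 * R), ‖G z‖ ≤ M / R ^ (Multiset.card s) := by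
    intro z hz
    have hcl : closure (ball c (2 * R)) = closedBall c (2 * R) := closure_ball c (by positivity)
    have hfr : frontier (ball c (2 * R)) = sphere c (2 * R) := frontier_ball c (by positivity)
    refine Complex.norm_le_of_forall_mem_frontier_norm_le (U := ball c (2 * R)) isBounded_ball ?_ ?_ (by rw [hcl]; exact hz)
    · refine DifferentiableOn.diffContOnCl ?_
      rw [hcl]
      exact hGan.differentiableOn
    · intro w hw
      rw [hfr, mem_sphere, dist_eq_norm] at hw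
      have h1 := hP w hw
      have h2 : ‖g w‖ ≤ M := hb w (by rw [mem_closedBall, dist_eq_norm]; exact hw.le)
      rw [hfac w, norm_mul] at h2
      rw [le_div_iff₀ hRn]
      calc ‖G w‖ * R ^ (Multiset.card s) ≤ ‖G w‖ * ‖Pf s w‖ := mul_le_mul_of_nonneg_left h1 (norm_nonneg _)
        _ = ‖Pf s w‖ * ‖G w‖ := mul_comm _ _
        _ ≤ M := h2
  have hGc : ‖g c‖ / R ^ (Multiset.card s) ≤ ‖G c‖ := by
    rw [div_le_iff₀ hRn, hfac c, norm_mul, mul_comm]
    exact mul_le_mul_of_nonneg_left hPc (norm_nonneg _)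
  have hrat : ∀ z ∈ closedBall c R, ‖G z‖ ≤ Real.exp (BB K c g R) * ‖G c‖ := by
    intro z hz
    rw [hBB, Real.exp_log (div_pos hM0 hgc)]
    calc ‖G z‖ ≤ M / R ^ (Multiset.card s) := hmax z (closedBall_subset_closedBall (by linarith) hz)
      _ = M / ‖g c‖ * (‖g c‖ / R ^ (Multiset.card s)) := by field_simp
      _ ≤ M / ‖g c‖ * ‖G c‖ := mul_le_mul_of_nonneg_left hGc (by positivity)
  intro z hz
  have h1 := logDeriv_zero_free (g := G) (c := c) (r := R) (r1 := 3 * R / 4) (r2 := R / 2) (B := BB K c g R)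
    (by linarith) (by linarith) (by linarith) hBB0 (hGan.mono (closedBall_subset_closedBall (by linarith))) hG0 hrat hz
  refine h1.trans (le_of_eq ?_)
  field_simp
  ring

/-- the logarithmic derivative without the zeros of the disc is nearly constant -/
theorem diff_small {G : ℂ → ℂ} {c : ℂ} {R A : ℝ} (hR : 0 < R) (hG : AnalyticOnNhd ℂ G (closedBall c (2 * R)))
    (h0 : ∀ z ∈ closedBall c R, G z ≠ 0) (hA : ∀ z ∈ closedBall c (R / 2), ‖logDeriv G z‖ ≤ A) {w v : ℂ}
    (hw : w ∈ closedBall c (R / 4)) (hv : v ∈ closedBall c (R / 4)) :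
    ‖logDeriv G w - logDeriv G v‖ ≤ A / (R / 4) * ‖w - v‖ := by
  have hd : ∀ z ∈ ball c R, DifferentiableAt ℂ (logDeriv G) z := by
    intro z hz
    have h1 : AnalyticAt ℂ G z := hG z (ball_subset_closedBall (ball_subset_ball (by linarith) hz))
    exact (h1.deriv.div h1 (h0 z (ball_subset_closedBall hz))).differentiableAt
  have hb : ∀ z ∈ closedBall c (R / 4), ‖deriv (logDeriv G) z‖ ≤ A / (R / 4) := by
    intro z hz
    have hsub : closedBall z (R / 4) ⊆ closedBall c (R / 2) := by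
      intro y hy
      rw [mem_closedBall] at *
      have := dist_triangle y z c
      linarith
    refine Complex.norm_deriv_le_of_forall_mem_sphere_norm_le (by positivity) ?_ fun y hy =>
      hA y (hsub (sphere_subset_closedBall hy))
    refine DifferentiableOn.diffContOnCl ?_
    rw [closure_ball z (by positivity)]
    intro y hy
    refine (hd y ?_).differentiableWithinAt
    have := hsub hy
    rw [mem_closedBall] at this
    rw [mem_ball]
    linarith
  refine (convex_closedBall c (R / 4)).norm_image_sub_le_of_norm_deriv_le (f := logDeriv G) (fun z hz => ?_) hb hv hw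
  apply hd
  rw [mem_closedBall] at hz
  rw [mem_ball]
  linarith

/-- mirror image in the imaginary axis -/
def mir (w : ℂ) : ℂ := -(starRingEnd ℂ) w

lemma mir_mir (w : ℂ) : mir (mir w) = w := by simp [mir]

/-- `g` is symmetric with respect to the imaginary axis, up to a constant factor -/
def Sy (ε : ℂ) (g : ℂ → ℂ) : Prop := ∀ w, (starRingEnd ℂ) (g (mir w)) = ε * g w

lemma Sy.zero {ε : ℂ} {g : ℂ → ℂ} (h : Sy ε g) (hε : ε ≠ 0) {u : ℂ} : g (mir u) = 0 ↔ g u = 0 := by
  have h1 := h u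
  constructor
  · intro h2
    rw [h2, map_zero] at h1
    exact (mul_eq_zero.1 h1.symm).resolve_left hε
  · intro h2
    rw [h2, mul_zero] at h1
    exact (map_eq_zero _).1 h1

lemma Sy.logDeriv {ε : ℂ} {g : ℂ → ℂ} (h : Sy ε g) (hε : ε ≠ 0) (hg : Differentiable ℂ g) (w : ℂ) :
    (logDeriv g (mir w)).re = -(logDeriv g w).re := by
  have h1 : HasDerivAt (fun z => (starRingEnd ℂ) (g (mir z))) (-(starRingEnd ℂ) (deriv g (mir w))) w := by
    have h2 : HasDerivAt (fun z => g (-z)) (-deriv g (mir w)) ((starRingEnd ℂ) w) := by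
      have h3 := (hg (mir w)).hasDerivAt
      have h4 : HasDerivAt (fun z : ℂ => -z) (-1) ((starRingEnd ℂ) w) := hasDerivAt_neg _
      have h5 := HasDerivAt.comp ((starRingEnd ℂ) w) (h₂ := g) (h := fun z : ℂ => -z) h3 h4
      exact h5.congr_deriv (by ring)
    have h6 := h2.conj_conj
    rw [Complex.conj_conj, map_neg] at h6
    exact h6
  have h2 : (fun z => (starRingEnd ℂ) (g (mir z))) = fun z => ε * g z := funext h
  rw [h2] at h1
  have h3 := ((hg w).hasDerivAt.const_mul ε).unique h1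
  have h4 := h w
  rw [logDeriv_apply, logDeriv_apply]
  by_cases h0 : g w = 0
  · rw [h0, (h.zero hε).2 h0]
    simp
  · have h5 : deriv g w / g w = -(starRingEnd ℂ) (deriv g (mir w) / g (mir w)) := by
      rw [map_div₀, h4, ← neg_div, ← h3]
      field_simp
    rw [h5, Complex.neg_re, Complex.conj_re, neg_neg]

lemma exists_imag {g : ℂ → ℂ} (hg : Differentiable ℂ g) {w₁ : ℂ} (h1 : g w₁ ≠ 0) : ∃ y : ℝ, g (y * I) ≠ 0 := by
  by_contra hcon
  push Not at hcon
  have han : AnalyticOnNhd ℂ g Set.univ := fun z _ => hg.analyticAt z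
  have hfr : ∃ᶠ z in 𝓝[≠] (0 : ℂ), g z = 0 := by
    have ht : Tendsto (fun n : ℕ => (((1 / ((n : ℝ) + 1) : ℝ) : ℂ) * I)) atTop (𝓝[≠] (0 : ℂ)) := by
      rw [tendsto_nhdsWithin_iff]
      constructor
      · have h2 : Tendsto (fun n : ℕ => (1 / ((n : ℝ) + 1) : ℝ)) atTop (𝓝 0) := tendsto_one_div_add_atTop_nhds_zero_nat
        have h3 := ((Complex.continuous_ofReal.tendsto 0).comp h2).mul_const I
        simpa using h3
      · refine Eventually.of_forall fun n => ?_
        have h2 : ((1 / ((n : ℝ) + 1) : ℝ) : ℂ) ≠ 0 := by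
          rw [Complex.ofReal_ne_zero]
          positivity
        exact mul_ne_zero h2 I_ne_zero
    exact ht.frequently (Eventually.of_forall fun n => hcon _).frequently
  exact h1 (han.eqOn_zero_of_preconnected_of_frequently_eq_zero isPreconnected_univ (mem_univ 0) hfr (mem_univ w₁))

lemma KK_diff (u w : ℂ) : (1 / (w - u) - 1 / (mir w - u)).re = 2 * KK u w := by
  unfold KK mir
  rw [Complex.sub_re]
  have e : (1 / (-(starRingEnd ℂ) w - u)).re = -(1 / (w + (starRingEnd ℂ) u)).re := by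
    have h1 : -(starRingEnd ℂ) w - u = -(starRingEnd ℂ) (w + (starRingEnd ℂ) u) := by
      simp
      ring
    rw [h1, one_div, one_div, inv_neg, Complex.neg_re, ← map_inv₀, Complex.conj_re]
  rw [e]
  ring

lemma BB_tendsto (K : ℝ) (c : ℂ) (g : ℂ → ℂ) (D : ℝ) :
    Tendsto (fun R : ℝ => 24 * (BB K c g R + 1) / R / (R / 4) * D) atTop (𝓝 0) := by
  have h1 : Tendsto (fun R : ℝ => BB K c g R / R ^ 2) atTop (𝓝 0) := by
    have h2 : ∀ᶠ R : ℝ in atTop, BB K c g R / R ^ 2 =
        K * ((1 + ‖c‖) / R + 2) ^ (3 / 2 : ℝ) * R ^ (-(1 / 2) : ℝ) - Real.log ‖g c‖ * (R ^ 2)⁻¹ := by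
      filter_upwards [eventually_gt_atTop 0] with R hR
      unfold BB
      have e1 : (1 + ‖c‖ + 2 * R) = ((1 + ‖c‖) / R + 2) * R := by field_simp
      rw [e1, Real.mul_rpow (by positivity) hR.le]
      have e2 : R ^ (-(1 / 2) : ℝ) = R ^ (3 / 2 : ℝ) * (R ^ 2)⁻¹ := by
        rw [← Real.rpow_natCast R 2, ← Real.rpow_neg hR.le, ← Real.rpow_add hR]
        norm_num
      rw [e2]
      field_simp
    refine Tendsto.congr' (h2.mono fun _ h => h.symm) ?_
    have t1 : Tendsto (fun R : ℝ => ((1 + ‖c‖) / R + 2) ^ (3 / 2 : ℝ)) atTop (𝓝 ((0 + 2) ^ (3 / 2 : ℝ))) := by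
      have t2 : Tendsto (fun R : ℝ => (1 + ‖c‖) / R + 2) atTop (𝓝 (0 + 2)) :=
        (tendsto_const_nhds.div_atTop tendsto_id).add_const 2
      exact t2.rpow_const (Or.inl (by norm_num))
    have t3 := tendsto_rpow_neg_atTop (y := 1 / 2) (by norm_num)
    have t4 : Tendsto (fun R : ℝ => (R ^ 2)⁻¹) atTop (𝓝 0) := (tendsto_pow_atTop two_ne_zero).inv_tendsto_atTop
    have := ((t1.const_mul K).mul t3).sub (t4.const_mul (Real.log ‖g c‖))
    simpa using this
  have h3 : Tendsto (fun R : ℝ => 96 * D * (BB K c g R / R ^ 2 + (R ^ 2)⁻¹)) atTop (𝓝 0) := by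
    have t4 : Tendsto (fun R : ℝ => (R ^ 2)⁻¹) atTop (𝓝 0) := (tendsto_pow_atTop two_ne_zero).inv_tendsto_atTop
    have := (h1.add t4).const_mul (96 * D)
    simpa using this
  refine h3.congr' ?_
  filter_upwards [eventually_gt_atTop 0] with R hR
  field_simp
  ring

/-- **the real part of the logarithmic derivative** -/
theorem ld_sum {g : ℂ → ℂ} (hg : Differentiable ℂ g) {K : ℝ} (hK : 0 ≤ K) (hgr : Gr K g) {ε : ℂ} (hε : ε ≠ 0)
    (hsy : Sy ε g) {w₁ : ℂ} (h1 : g w₁ ≠ 0) {w : ℂ} (hw : 0 < w.re) (hz : ∀ u, g u = 0 → |u.re| < w.re) :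
    HasSum (fun u : {u // g u = 0} => (mult g u : ℝ) * KK u w) (logDeriv g w).re := by
  classical
  obtain ⟨y, hy⟩ := exists_imag hg h1
  set c : ℂ := y * I with hc
  have hsp : ∀ n : ℕ, ∃ (s : Multiset ℂ) (G : ℂ → ℂ), (∀ ρ ∈ s, ρ ∈ closedBall c ((n : ℝ) + 1) ∧ g ρ = 0) ∧
      AnalyticOnNhd ℂ G (closedBall c (2 * ((n : ℝ) + 1))) ∧ (∀ z, g z = Pf s z * G z) ∧
      (∀ z ∈ closedBall c ((n : ℝ) + 1), G z ≠ 0) ∧ 0 ≤ BB K c g ((n : ℝ) + 1) ∧
      ∀ z ∈ closedBall c (((n : ℝ) + 1) / 2), ‖logDeriv G z‖ ≤ 24 * (BB K c g ((n : ℝ) + 1) + 1) / ((n : ℝ) + 1) :=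
    fun n => split hg hK hgr hy (by positivity)
  choose s G hs hGan hfac hG0 hBB hld using hsp
  have hmem : ∀ n u, u ∈ s n ↔ u ∈ closedBall c ((n : ℝ) + 1) ∧ g u = 0 := by
    intro n u
    refine ⟨hs n u, fun ⟨h2, h3⟩ => ?_⟩
    by_contra hcon
    have h4 : Pf (s n) u ≠ 0 := Pf_ne_zero fun ρ hρ h => hcon (h ▸ hρ)
    have h5 := hfac n u
    rw [h3] at h5
    exact (mul_ne_zero h4 (hG0 n u h2)) h5.symm
  have hcount : ∀ (n : ℕ) (u : ℂ), u ∈ closedBall c ((n : ℝ) + 1) → mult g u = (s n).count u := by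
    intro n u hu
    have hn : (0:ℝ) < (n : ℝ) + 1 := by positivity
    exact count_eq (hGan n u (closedBall_subset_closedBall (by linarith) hu)) (hG0 n u hu) (hfac n)
  set f : {u // g u = 0} → ℝ := fun u => (mult g u : ℝ) * KK u w with hf
  have hf0 : ∀ u, 0 ≤ f u := fun u => mul_nonneg (Nat.cast_nonneg _) (KK_pos (hz u u.2)).le
  set F : ℕ → Finset {u // g u = 0} := fun n => (s n).toFinset.subtype (fun u => g u = 0) with hF
  have hFmem : ∀ n (u : {u // g u = 0}), u ∈ F n ↔ (u : ℂ) ∈ closedBall c ((n : ℝ) + 1) := by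
    intro n u
    rw [hF]
    simp only [Finset.mem_subtype, Multiset.mem_toFinset, hmem]
    exact ⟨fun h => h.1, fun h => ⟨h, u.2⟩⟩
  have hFmono : Monotone F := by
    intro m n hmn u hu
    rw [hFmem] at *
    refine closedBall_subset_closedBall ?_ hu
    have : (m : ℝ) ≤ n := by exact_mod_cast hmn
    linarith
  have hFex : ∀ u, ∃ n, u ∈ F n := by
    intro u
    obtain ⟨n, hn⟩ := exists_nat_ge (dist (u : ℂ) c)
    refine ⟨n, ?_⟩
    rw [hFmem, mem_closedBall]
    linarith
  have hFt : Tendsto F atTop atTop := tendsto_atTop_finset_of_monotone hFmono hFex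
  -- the partial sums
  have hw0 : g w ≠ 0 := by
    intro h
    have := hz w h
    rw [abs_of_pos hw] at this
    exact lt_irrefl _ this
  have hmw0 : g (mir w) ≠ 0 := fun h => hw0 ((hsy.zero hε).1 h)
  have hsum : ∀ n, ∑ u ∈ F n, f u = ((s n).map (fun ρ => KK ρ w)).sum := by
    intro n
    rw [Finset.sum_multiset_map_count]
    have e1 : ∑ u ∈ F n, f u = ∑ u ∈ (s n).toFinset, (mult g u : ℝ) * KK u w := by
      rw [hF]
      exact Finset.sum_subtype_of_mem (fun u => (mult g u : ℝ) * KK u w) fun u hu =>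
        ((hmem n u).1 (Multiset.mem_toFinset.1 hu)).2
    rw [e1]
    refine Finset.sum_congr rfl fun u hu => ?_
    have h2 := ((hmem n u).1 (Multiset.mem_toFinset.1 hu)).1
    rw [hcount n u h2, nsmul_eq_mul]
  have herr : ∀ᶠ n : ℕ in atTop, |2 * (logDeriv g w).re - 2 * ∑ u ∈ F n, f u| ≤
      24 * (BB K c g ((n : ℝ) + 1) + 1) / ((n : ℝ) + 1) / (((n : ℝ) + 1) / 4) * ‖w - mir w‖ := by
    have t1 : ∀ᶠ n : ℕ in atTop, 4 * (dist w c + dist (mir w) c) ≤ (n : ℝ) + 1 :=
      (tendsto_atTop_add_const_right _ _ tendsto_natCast_atTop_atTop).eventually_ge_atTop _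
    filter_upwards [t1] with n hn
    have hn0 : (0:ℝ) < (n : ℝ) + 1 := by positivity
    have d1 : 0 ≤ dist w c := dist_nonneg
    have d2 : 0 ≤ dist (mir w) c := dist_nonneg
    have m1 : w ∈ closedBall c (((n : ℝ) + 1) / 4) := by rw [mem_closedBall]; linarith
    have m2 : mir w ∈ closedBall c (((n : ℝ) + 1) / 4) := by rw [mem_closedBall]; linarith
    have h2 := diff_small hn0 (hGan n) (hG0 n) (hld n) m1 m2
    have hl : ∀ z, g z ≠ 0 → z ∈ closedBall c (((n : ℝ) + 1) / 4) →
        logDeriv g z = ((s n).map (fun ρ => 1 / (z - ρ))).sum + logDeriv (G n) z := by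
      intro z hz0 hzm
      have e1 : g = fun z => Pf (s n) z * G n z := funext (hfac n)
      have hzb : z ∈ closedBall c ((n : ℝ) + 1) := closedBall_subset_closedBall (by linarith) hzm
      have hne : ∀ ρ ∈ s n, z ≠ ρ := by
        rintro ρ hρ rfl
        exact hz0 (hs n z hρ).2
      have hGd : DifferentiableAt ℂ (G n) z :=
        (hGan n z (closedBall_subset_closedBall (by linarith) hzb)).differentiableAt
      conv_lhs => rw [e1]
      rw [logDeriv_mul z (Pf_ne_zero hne) (hG0 n z hzb) (Pf_diff _ z) hGd, Pf_logDeriv_eq hne]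
    have e2 : 2 * (logDeriv g w).re - 2 * ∑ u ∈ F n, f u = (logDeriv (G n) w - logDeriv (G n) (mir w)).re := by
      have e3 : 2 * (logDeriv g w).re = (logDeriv g w - logDeriv g (mir w)).re := by
        rw [Complex.sub_re, hsy.logDeriv hε hg]
        ring
      have e4 : ((s n).map (fun ρ => 1 / (w - ρ))).sum - ((s n).map (fun ρ => 1 / (mir w - ρ))).sum =
          ((s n).map (fun ρ => 1 / (w - ρ) - 1 / (mir w - ρ))).sum := (Multiset.sum_map_sub).symm
      have e5 : (((s n).map (fun ρ => 1 / (w - ρ) - 1 / (mir w - ρ))).sum).re =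
          2 * ((s n).map (fun ρ => KK ρ w)).sum := by
        rw [← Complex.reCLM_apply, map_multiset_sum, Multiset.map_map, ← Multiset.sum_map_mul_left]
        congr 1
        refine Multiset.map_congr rfl fun ρ _ => ?_
        simp only [Function.comp_apply, Complex.reCLM_apply]
        exact KK_diff ρ w
      rw [e3, hl w hw0 m1, hl (mir w) hmw0 m2, hsum n, ← e5, ← e4]
      simp only [Complex.sub_re, Complex.add_re]
      ring
    rw [e2]
    exact (Complex.abs_re_le_norm _).trans h2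
  have hlim : Tendsto (fun n => ∑ u ∈ F n, f u) atTop (𝓝 (logDeriv g w).re) := by
    have t1 : Tendsto (fun n : ℕ => (n : ℝ) + 1) atTop atTop :=
      tendsto_atTop_add_const_right _ _ tendsto_natCast_atTop_atTop
    have t2 := (BB_tendsto K c g ‖w - mir w‖).comp t1
    have t3 : Tendsto (fun n : ℕ => 2 * (logDeriv g w).re - 2 * ∑ u ∈ F n, f u) atTop (𝓝 0) := by
      refine squeeze_zero_norm' ?_ t2
      filter_upwards [herr] with n hn
      rw [Real.norm_eq_abs]
      exact hn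
    have t4 := (t3.const_sub (2 * (logDeriv g w).re)).div_const 2
    have e : (2 * (logDeriv g w).re - 0) / 2 = (logDeriv g w).re := by ring
    rw [e] at t4
    refine t4.congr fun n => ?_
    ring
  have hsm : Summable f := by
    refine summable_of_sum_le hf0 (c := (logDeriv g w).re) fun T => ?_
    obtain ⟨n, hn⟩ := (hFt.eventually_ge_atTop T).exists
    have h2 : ∑ u ∈ T, f u ≤ ∑ u ∈ F n, f u := Finset.sum_le_sum_of_subset_of_nonneg hn fun u _ _ => hf0 u
    refine h2.trans ?_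
    have hm : Monotone fun n => ∑ u ∈ F n, f u := fun a b hab =>
      Finset.sum_le_sum_of_subset_of_nonneg (hFmono hab) fun u _ _ => hf0 u
    exact hm.ge_of_tendsto hlim n
  have h2 := hsm.hasSum.comp hFt
  have h3 := tendsto_nhds_unique h2 hlim
  rw [← h3]
  exact hsm.hasSum

end
end Pool.Agent.Helper37.VFG
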