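import Pool.Graph.R_seed8.H855R2.SF.Dir
import Pool.Graph.R_seed8.H370R2.Digamma
import Pool.Agent.Helper37.VFG.Zer

/-! The completed Dirichlet L-functions of primitive characters. -/

set_option autoImplicit false

open Filter Topology Set Complex Metric

namespace Pool.Agent.Helper37.VFG

open H370.DL H429.GP H855R2.SF

noncomputable section

lemma gamma_le {x : ℝ} (h0 : 0 < x) (h1 : x ≤ 1) : Real.Gamma x ≤ 1 / x := by
  have h2 := Real.convexOn_Gamma.2 (show (1:ℝ) ∈ Ioi 0 by simp) (show (2:ℝ) ∈ Ioi 0 by simp)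
    (show 0 ≤ 1 - x by linarith) h0.le (show 1 - x + x = 1 by ring)
  simp only [smul_eq_mul] at h2
  have e : (1 - x) * 1 + x * 2 = x + 1 := by ring
  rw [e, Real.Gamma_one, Real.Gamma_two, Real.Gamma_add_one h0.ne'] at h2
  rw [le_div_iff₀ h0]
  nlinarith

lemma norm_Gammaℝ (s : ℂ) : ‖Complex.Gammaℝ s‖ = Real.pi ^ (-s.re / 2) * ‖Complex.Gamma (s / 2)‖ := by
  rw [Complex.Gammaℝ_def, norm_mul, Complex.norm_cpow_eq_rpow_re_of_pos Real.pi_pos]
  congr 2
  simp


lemma norm_Gamma_le {z : ℂ} (hz : 0 < z.re) : ‖Complex.Gamma z‖ ≤ Real.Gamma z.re := by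
  rw [Complex.Gamma_eq_integral hz, Real.Gamma_eq_integral hz]
  unfold Complex.GammaIntegral
  refine (MeasureTheory.norm_integral_le_integral_norm _).trans (le_of_eq ?_)
  refine MeasureTheory.setIntegral_congr_fun measurableSet_Ioi fun x hx => ?_
  have hx0 : (0:ℝ) < x := hx
  rw [norm_mul, Complex.norm_real, Real.norm_of_nonneg (Real.exp_pos _).le, Complex.norm_cpow_eq_rpow_re_of_pos hx0]
  simp

theorem gamma_le' {x : ℝ} (hx : 1 ≤ x) : Real.Gamma x ≤ Real.exp (2 * (x + 1) ^ (3 / 2 : ℝ)) := by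
  rcases le_total x 2 with h2 | h2
  · have h1 : Real.Gamma x ≤ 1 := by
      have hc := Real.convexOn_Gamma
      have h3 := hc.2 (mem_Ioi.2 (show (0 : ℝ) < 1 by norm_num)) (mem_Ioi.2 (show (0 : ℝ) < 2 by norm_num))
        (show (0 : ℝ) ≤ 2 - x by linarith) (show (0 : ℝ) ≤ x - 1 by linarith) (by ring)
      rw [Real.Gamma_one, Real.Gamma_two, smul_eq_mul, smul_eq_mul] at h3
      simp only [smul_eq_mul] at h3
      have e : (2 - x) * 1 + (x - 1) * 2 = x := by ring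
      rw [e] at h3
      linarith
    refine h1.trans (Real.one_le_exp ?_)
    have : 0 ≤ (x + 1) ^ (3 / 2 : ℝ) := Real.rpow_nonneg (by linarith) _
    linarith
  · have h0 : (x : ℝ) ≤ ⌈x⌉₊ := Nat.le_ceil x
    have h1 : Real.Gamma x ≤ Real.Gamma ((⌈x⌉₊ : ℝ) + 1) := by
      apply (Real.Gamma_strictMonoOn_Ici).monotoneOn
      · exact h2
      · show (2 : ℝ) ≤ _
        linarith
      · linarith
    rw [Real.Gamma_nat_eq_factorial] at h1
    have h2 : ((⌈x⌉₊.factorial : ℕ) : ℝ) ≤ (⌈x⌉₊ : ℝ) ^ ⌈x⌉₊ := by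
      exact_mod_cast Nat.factorial_le_pow _
    have hp : (0 : ℝ) < ⌈x⌉₊ := by linarith
    have h3 : (⌈x⌉₊ : ℝ) ^ ⌈x⌉₊ = Real.exp (Real.log ⌈x⌉₊ * ⌈x⌉₊) := by
      rw [← Real.rpow_natCast, Real.rpow_def_of_pos hp]
    have h4 : Real.log ⌈x⌉₊ * ⌈x⌉₊ ≤ 2 * (x + 1) ^ (3 / 2 : ℝ) := by
      have h5 : Real.log ⌈x⌉₊ ≤ (⌈x⌉₊ : ℝ) ^ (1 / 2 : ℝ) / (1 / 2) :=
        Real.log_le_rpow_div hp.le (by norm_num)
      have h6 : (⌈x⌉₊ : ℝ) ^ (3 / 2 : ℝ) = (⌈x⌉₊ : ℝ) ^ (1 / 2 : ℝ) * ⌈x⌉₊ := by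
        have h7 : (3 / 2 : ℝ) = 1 / 2 + 1 := by norm_num
        rw [h7, Real.rpow_add hp, Real.rpow_one]
      have h7 : (⌈x⌉₊ : ℝ) ≤ x + 1 := (Nat.ceil_lt_add_one (by linarith)).le
      have h8 : (⌈x⌉₊ : ℝ) ^ (3 / 2 : ℝ) ≤ (x + 1) ^ (3 / 2 : ℝ) :=
        Real.rpow_le_rpow hp.le h7 (by norm_num)
      nlinarith
    calc Real.Gamma x ≤ Real.exp (Real.log ⌈x⌉₊ * ⌈x⌉₊) := by rw [← h3]; exact h1.trans h2
      _ ≤ _ := Real.exp_le_exp.2 h4


/-- bound for the gamma factor -/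
lemma gam_bound {s : ℂ} (hs : 1 / 2 ≤ s.re) : ‖Gammaℝ s‖ ≤ Real.exp (20 * (1 + ‖s‖) ^ (3 / 2 : ℝ)) := by
  have hs0 : 0 < s.re := by linarith
  set X : ℝ := 1 + ‖s‖ with hX
  have hX1 : 1 ≤ X := by rw [hX]; linarith [norm_nonneg s]
  rw [norm_Gammaℝ]
  have g1 : Real.pi ^ (-s.re / 2) ≤ 1 := by
    apply Real.rpow_le_one_of_one_le_of_nonpos (by linarith [Real.pi_gt_three]) (by linarith)
  have hre2 : (s / 2).re = s.re / 2 := by simp
  have g2 : ‖Complex.Gamma (s / 2)‖ ≤ Real.Gamma (s.re / 2) := by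
    rw [← hre2]
    exact norm_Gamma_le (by rw [hre2]; positivity)
  have g10 : 1 ≤ X ^ (3 / 2 : ℝ) := Real.one_le_rpow hX1 (by norm_num)
  have g3 : Real.Gamma (s.re / 2) ≤ Real.exp (20 * X ^ (3 / 2 : ℝ)) := by
    rcases le_total (s.re / 2) 1 with h | h
    · have g4 := gamma_le (x := s.re / 2) (by positivity) h
      refine g4.trans ?_
      have g5 : 1 / (s.re / 2) ≤ 4 := by
        rw [div_le_iff₀ (by positivity)]
        linarith
      have g6 := Real.add_one_le_exp (20 * X ^ (3 / 2 : ℝ))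
      linarith
    · refine (gamma_le' h).trans (Real.exp_le_exp.2 ?_)
      have g7 : s.re / 2 + 1 ≤ 2 * X := by
        have := Complex.re_le_norm s
        linarith
      have g8 : (s.re / 2 + 1) ^ (3 / 2 : ℝ) ≤ (2 * X) ^ (3 / 2 : ℝ) :=
        Real.rpow_le_rpow (by linarith) g7 (by norm_num)
      rw [Real.mul_rpow (by norm_num) (by linarith)] at g8
      have g9 : (2:ℝ) ^ (3 / 2 : ℝ) ≤ 4 := by
        calc (2:ℝ) ^ (3 / 2 : ℝ) ≤ 2 ^ (2:ℝ) := Real.rpow_le_rpow_of_exponent_le (by norm_num) (by norm_num)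
          _ = 4 := by norm_num
      nlinarith
  calc Real.pi ^ (-s.re / 2) * ‖Complex.Gamma (s / 2)‖ ≤ 1 * Real.exp (20 * X ^ (3 / 2 : ℝ)) := by
        gcongr
        exact g2.trans g3
    _ = _ := one_mul _

variable {q : ℕ} [NeZero q] {χ : DirichletCharacter ℂ q}

/-- the completed function, centred at `1/2` -/
def xg (χ : DirichletCharacter ℂ q) (w : ℂ) : ℂ :=
  (q : ℂ) ^ ((1 / 2 + w) / 2) * DirichletCharacter.completedLFunction χ (1 / 2 + w)

lemma q_ne : (q : ℂ) ≠ 0 := by exact_mod_cast NeZero.ne q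

lemma xg_diff (h1 : χ ≠ 1) : Differentiable ℂ (xg χ) := by
  unfold xg
  intro w
  refine DifferentiableAt.mul ?_ ?_
  · exact DifferentiableAt.const_cpow (by fun_prop) (Or.inl q_ne)
  · exact ((DirichletCharacter.differentiable_completedLFunction h1) (1 / 2 + w)).comp w (by fun_prop)

lemma gf_ne {s : ℂ} (hs : 0 < s.re) : DirichletCharacter.gammaFactor χ s ≠ 0 := by
  rw [gammaFactor_eq]
  apply Gammaℝ_ne_zero_of_re_pos
  rw [add_re]
  have := aa_re_nonneg (χ := χ)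
  linarith

lemma comp_eq {s : ℂ} (hs : 0 < s.re) :
    DirichletCharacter.completedLFunction χ s = DirichletCharacter.gammaFactor χ s * DirichletCharacter.LFunction χ s := by
  have hs0 : s ≠ 0 := by
    rintro rfl
    simp at hs
  rw [DirichletCharacter.LFunction_eq_completed_div_gammaFactor χ s (Or.inl hs0)]
  have := gf_ne (χ := χ) hs
  field_simp

lemma comp_conj (h1 : χ ≠ 1) (s : ℂ) : (starRingEnd ℂ) (DirichletCharacter.completedLFunction χ⁻¹ ((starRingEnd ℂ) s)) =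
    DirichletCharacter.completedLFunction χ s := by
  have h2 : χ⁻¹ ≠ 1 := inv_ne_one.2 h1
  have hd1 : Differentiable ℂ (fun s => (starRingEnd ℂ) (DirichletCharacter.completedLFunction χ⁻¹ ((starRingEnd ℂ) s))) := by
    intro z
    exact differentiableAt_conj_conj_iff.mpr (DirichletCharacter.differentiable_completedLFunction h2 _)
  have hd2 := DirichletCharacter.differentiable_completedLFunction h1
  have han1 : AnalyticOnNhd ℂ (fun s => (starRingEnd ℂ) (DirichletCharacter.completedLFunction χ⁻¹ ((starRingEnd ℂ) s))) Set.univ :=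
    fun z _ => hd1.analyticAt z
  have han2 : AnalyticOnNhd ℂ (DirichletCharacter.completedLFunction χ) Set.univ := fun z _ => hd2.analyticAt z
  have h3 := han1.eqOn_of_preconnected_of_eventuallyEq han2 isPreconnected_univ (z₀ := 2) (mem_univ _) (by
    have : {s : ℂ | 1 < s.re} ∈ 𝓝 (2 : ℂ) := (isOpen_lt continuous_const Complex.continuous_re).mem_nhds (by norm_num)
    filter_upwards [this] with z hz
    have hz0 : 0 < z.re := by
      have : 1 < z.re := hz
      linarith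
    have hz0' : 0 < ((starRingEnd ℂ) z).re := by rw [conj_re]; exact hz0
    rw [comp_eq hz0, comp_eq hz0', LFunction_conj' h1, gammaFactor_inv, map_mul, Complex.conj_conj]
    congr 1
    rw [gammaFactor_eq, gammaFactor_eq]
    have e : (starRingEnd ℂ) z + aa χ = (starRingEnd ℂ) (z + aa χ) := by rw [map_add, aa_conj]
    rw [e, Gammaℝ_conj, Complex.conj_conj])
  exact h3 (mem_univ s)

lemma xg_sy (hq : 1 < q) (hχ : χ.IsPrimitive) : Sy ((starRingEnd ℂ) (DirichletCharacter.rootNumber χ)) (xg χ) := by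
  have h1 := ne_one_of_prim hq hχ
  intro w
  unfold xg mir
  set s : ℂ := 1 / 2 + w with hs
  have star_half : (starRingEnd ℂ) (1 / 2 : ℂ) = 1 / 2 := by
    rw [show (1 / 2 : ℂ) = ((1 / 2 : ℝ) : ℂ) by norm_num, Complex.conj_ofReal]
  have e1 : 1 / 2 + -(starRingEnd ℂ) w = 1 - (starRingEnd ℂ) s := by
    rw [hs, map_add, star_half]
    ring
  rw [e1, DirichletCharacter.IsPrimitive.completedLFunction_one_sub hχ, map_mul, map_mul, map_mul, comp_conj h1]
  have hcp : ∀ z : ℂ, (starRingEnd ℂ) ((q : ℂ) ^ z) = (q : ℂ) ^ ((starRingEnd ℂ) z) := by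
    intro z
    have h := cpow_conj (q : ℂ) z (by rw [natCast_arg]; exact Real.pi_pos.ne)
    rw [conj_natCast] at h
    exact h.symm
  have star_two : (starRingEnd ℂ) (2 : ℂ) = 2 := by
    rw [show (2 : ℂ) = ((2 : ℝ) : ℂ) by norm_num, Complex.conj_ofReal]
  rw [hcp, hcp]
  have e2 : (starRingEnd ℂ) ((1 - (starRingEnd ℂ) s) / 2) = (1 - s) / 2 := by
    rw [map_div₀, map_sub, map_one, Complex.conj_conj, star_two]
  have e3 : (starRingEnd ℂ) ((starRingEnd ℂ) s - 1 / 2) = s - 1 / 2 := by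
    rw [map_sub, Complex.conj_conj, star_half]
  have e4 : (q : ℂ) ^ ((1 - s) / 2) * (q : ℂ) ^ (s - 1 / 2) = (q : ℂ) ^ (s / 2) := by
    rw [← cpow_add _ _ q_ne]
    congr 1
    ring
  rw [e2, e3, ← e4]
  ring

lemma xg_growth (hq : 1 < q) (hχ : χ.IsPrimitive) : ∃ K : ℝ, 0 ≤ K ∧ Gr K (xg χ) := by
  have h1 := ne_one_of_prim hq hχ
  have hq1 : (1:ℝ) < q := by exact_mod_cast hq
  have hlq : 0 < Real.log q := Real.log_pos hq1
  refine ⟨100 + 4 * q, by positivity, ?_⟩
  have key : ∀ w : ℂ, 0 ≤ w.re → ‖xg χ w‖ ≤ Real.exp ((100 + 4 * q) * (1 + ‖w‖) ^ (3 / 2 : ℝ)) := by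
    intro w hw
    set s : ℂ := 1 / 2 + w with hs
    have hre : s.re = 1 / 2 + w.re := by rw [hs, Complex.add_re]; norm_num
    have hs0 : 0 < s.re := by rw [hre]; linarith
    set X : ℝ := 1 + ‖w‖ with hX
    have hX1 : 1 ≤ X := by rw [hX]; linarith [norm_nonneg w]
    have hX32 : X ≤ X ^ (3 / 2 : ℝ) := by
      calc X = X ^ (1 : ℝ) := (Real.rpow_one X).symm
        _ ≤ X ^ (3 / 2 : ℝ) := Real.rpow_le_rpow_of_exponent_le hX1 (by norm_num)
    have hsn : ‖s‖ ≤ X := by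
      rw [hs]
      refine (norm_add_le _ _).trans ?_
      have : ‖(1 / 2 : ℂ)‖ = 1 / 2 := by simp
      rw [this, hX]; linarith
    have e : ‖xg χ w‖ = (q : ℝ) ^ (s.re / 2) * (‖Gammaℝ (s + aa χ)‖ * ‖DirichletCharacter.LFunction χ s‖) := by
      unfold xg
      rw [← hs, comp_eq hs0, gammaFactor_eq, norm_mul, norm_mul, Complex.norm_natCast_cpow_of_pos (by omega)]
      congr 2
      simp
    have haa : ‖aa χ‖ ≤ 1 := by
      unfold aa
      split_ifs <;> simp
    have b1 : (q : ℝ) ^ (s.re / 2) ≤ Real.exp (q * X ^ (3 / 2 : ℝ)) := by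
      rw [Real.rpow_def_of_pos (by positivity)]
      apply Real.exp_le_exp.2
      have l1 : Real.log q ≤ q := (Real.log_le_sub_one_of_pos (by positivity)).trans (by linarith)
      have l2 : s.re / 2 ≤ X ^ (3 / 2 : ℝ) := by
        have := Complex.re_le_norm s
        linarith
      exact mul_le_mul l1 l2 (by positivity) (by positivity)
    have b2 : ‖Gammaℝ (s + aa χ)‖ ≤ Real.exp (80 * X ^ (3 / 2 : ℝ)) := by
      have hsa : 1 / 2 ≤ (s + aa χ).re := by
        rw [add_re, hre]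
        have := aa_re_nonneg (χ := χ)
        linarith
      refine (gam_bound hsa).trans (Real.exp_le_exp.2 ?_)
      have h4 : 1 + ‖s + aa χ‖ ≤ 2 * X + 1 := by
        have := norm_add_le s (aa χ)
        linarith
      have h4' : 1 + ‖s + aa χ‖ ≤ (5 / 2) * X := by
        have hh : ‖s‖ ≤ ‖w‖ + 1 / 2 := by
          rw [hs]
          refine (norm_add_le _ _).trans ?_
          have : ‖(1 / 2 : ℂ)‖ = 1 / 2 := by simp
          rw [this]; linarith
        have := norm_add_le s (aa χ)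
        have hw0 := norm_nonneg w
        rw [hX]
        linarith
      have h5 : (1 + ‖s + aa χ‖) ^ (3 / 2 : ℝ) ≤ ((5 / 2) * X) ^ (3 / 2 : ℝ) :=
        Real.rpow_le_rpow (by positivity) h4' (by norm_num)
      rw [Real.mul_rpow (by norm_num) (by linarith)] at h5
      have h6 : ((5 / 2 : ℝ)) ^ (3 / 2 : ℝ) ≤ 4 := by
        have h7 : ((5 / 2 : ℝ)) ^ (3 / 2 : ℝ) = (5 / 2) * Real.sqrt (5 / 2) := by
          rw [show (3 / 2 : ℝ) = 1 + 1 / 2 by norm_num, Real.rpow_add (by norm_num), Real.rpow_one, Real.sqrt_eq_rpow]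
        have h8 : Real.sqrt (5 / 2) ≤ 1.6 := by
          rw [Real.sqrt_le_left (by norm_num)]
          norm_num
        rw [h7]
        linarith
      have h9 : 0 ≤ X ^ (3 / 2 : ℝ) := by positivity
      nlinarith
    have b3 : ‖DirichletCharacter.LFunction χ s‖ ≤ Real.exp ((4 * q - q + 20) * X ^ (3 / 2 : ℝ)) := by
      refine (growth_right h1 hs0).trans ?_
      have h4 : ‖s‖ * (((q : ℝ) + 1) / s.re) ≤ X * (2 * (q + 1)) := by
        apply mul_le_mul hsn _ (by positivity) (by linarith)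
        rw [div_le_iff₀ hs0, hre]
        nlinarith
      refine h4.trans ?_
      have h5 := Real.add_one_le_exp (X ^ (3 / 2 : ℝ))
      have h6 : 2 * ((q : ℝ) + 1) ≤ Real.exp (2 * (q + 1)) := by
        have := Real.add_one_le_exp (2 * ((q : ℝ) + 1))
        linarith
      have hX0 : 1 ≤ X ^ (3 / 2 : ℝ) := Real.one_le_rpow hX1 (by norm_num)
      calc X * (2 * (q + 1)) ≤ Real.exp (X ^ (3 / 2 : ℝ)) * Real.exp (2 * (q + 1)) := by
            apply mul_le_mul (by linarith) h6 (by positivity) (Real.exp_pos _).le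
        _ = Real.exp (X ^ (3 / 2 : ℝ) + 2 * (q + 1)) := by rw [← Real.exp_add]
        _ ≤ _ := by
          apply Real.exp_le_exp.2
          nlinarith
    rw [e]
    calc (q : ℝ) ^ (s.re / 2) * (‖Gammaℝ (s + aa χ)‖ * ‖DirichletCharacter.LFunction χ s‖)
        ≤ Real.exp (q * X ^ (3 / 2 : ℝ)) * (Real.exp (80 * X ^ (3 / 2 : ℝ)) * Real.exp ((4 * q - q + 20) * X ^ (3 / 2 : ℝ))) := by
          gcongr
      _ = _ := by
          rw [← Real.exp_add, ← Real.exp_add]
          congr 1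
          ring
  intro w
  rcases le_total 0 w.re with h | h
  · exact key w h
  · have h2 := xg_sy hq hχ w
    have h3 := congrArg norm h2
    rw [Complex.norm_conj, norm_mul, Complex.norm_conj, norm_rootNumber hχ, one_mul] at h3
    rw [← h3]
    have h4 := key (mir w) (by simp [mir]; exact h)
    have h5 : ‖mir w‖ = ‖w‖ := by simp [mir]
    rwa [h5] at h4

lemma xg_ne (hq : 1 < q) (hχ : χ.IsPrimitive) : xg χ (3 / 2) ≠ 0 := by
  unfold xg
  have e : (1 / 2 : ℂ) + 3 / 2 = 2 := by norm_num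
  rw [e, comp_eq (by norm_num)]
  refine mul_ne_zero ?_ (mul_ne_zero (gf_ne (by norm_num)) ?_)
  · rw [Ne, cpow_eq_zero_iff]
    exact fun h => q_ne h.1
  · exact DirichletCharacter.LFunction_ne_zero_of_one_le_re χ (Or.inr (by norm_num)) (by norm_num)

lemma xg_zero {u : ℂ} (hu : -(1 / 2) < u.re) (h : xg χ u = 0) : DirichletCharacter.LFunction χ (1 / 2 + u) = 0 := by
  unfold xg at h
  have hs : 0 < (1 / 2 + u).re := by
    rw [add_re]
    norm_num
    linarith
  rw [comp_eq hs] at h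
  rcases mul_eq_zero.1 h with h1 | h1
  · rw [cpow_eq_zero_iff] at h1
    exact absurd h1.1 q_ne
  · exact (mul_eq_zero.1 h1).resolve_left (gf_ne hs)

/-- no zeros to the right of `1/2 + δ` -/
def Free (χ : DirichletCharacter ℂ q) (δ : ℝ) : Prop :=
  ∀ s : ℂ, 1 / 2 + δ < s.re → DirichletCharacter.LFunction χ s ≠ 0

lemma xg_re (hq : 1 < q) (hχ : χ.IsPrimitive) {δ : ℝ} (hδ : 0 ≤ δ) (hf : Free χ δ) {u : ℂ} (h : xg χ u = 0) :
    |u.re| ≤ δ := by
  have hε : (starRingEnd ℂ) (DirichletCharacter.rootNumber χ) ≠ 0 := by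
    rw [map_ne_zero, ← norm_ne_zero_iff, norm_rootNumber hχ]
    norm_num
  have key : ∀ u : ℂ, xg χ u = 0 → u.re ≤ δ := by
    intro u h
    by_contra hcon
    push Not at hcon
    have h1 := xg_zero (by linarith) h
    refine hf _ ?_ h1
    rw [add_re]
    norm_num
    linarith
  rw [abs_le]
  refine ⟨?_, key u h⟩
  have h1 := key (mir u) (((xg_sy hq hχ).zero hε).2 h)
  have h2 : (mir u).re = -u.re := by simp [mir]
  rw [h2] at h1
  linarith

lemma gf_an {s : ℂ} (hs : 0 < s.re) : AnalyticAt ℂ (fun z => Gammaℝ (z + aa χ)) s := by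
  refine AnalyticAt.fun_comp (f := fun z : ℂ => z + aa χ) (g := Gammaℝ) (analyticAt_Gammaℝ_of_pos ?_) (by fun_prop)
  rw [add_re]
  have := aa_re_nonneg (χ := χ)
  linarith

lemma xg_logDeriv (h1 : χ ≠ 1) {w : ℂ} (hw : -(1 / 2) < w.re)
    (hL : DirichletCharacter.LFunction χ (1 / 2 + w) ≠ 0) :
    (logDeriv (xg χ) w).re = Real.log q / 2 + (logDeriv Gammaℝ (1 / 2 + w + aa χ)).re +
      (logDeriv (DirichletCharacter.LFunction χ) (1 / 2 + w)).re := by
  have hs : 0 < (1 / 2 + w).re := by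
    rw [add_re]
    norm_num
    linarith
  have hsa : 0 < (1 / 2 + w + aa χ).re := by
    rw [add_re]
    have := aa_re_nonneg (χ := χ)
    linarith
  have hG : Gammaℝ (1 / 2 + w + aa χ) ≠ 0 := Gammaℝ_ne_zero_of_re_pos hsa
  have hlin : HasDerivAt (fun z : ℂ => 1 / 2 + z) 1 w := (hasDerivAt_id w).const_add _
  have hlin2 : HasDerivAt (fun z : ℂ => 1 / 2 + z + aa χ) 1 w := hlin.add_const _
  have d1 : HasDerivAt (fun z : ℂ => (q : ℂ) ^ ((1 / 2 + z) / 2)) ((q : ℂ) ^ ((1 / 2 + w) / 2) * Complex.log q * (1 / 2)) w :=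
    (hlin.div_const 2).const_cpow (Or.inl q_ne)
  have d2 : HasDerivAt (fun z : ℂ => Gammaℝ (1 / 2 + z + aa χ)) (deriv Gammaℝ (1 / 2 + w + aa χ)) w := by
    have h2 := (analyticAt_Gammaℝ_of_pos hsa).differentiableAt.hasDerivAt
    have h3 := h2.comp w hlin2
    rwa [mul_one] at h3
  have d3 : HasDerivAt (fun z : ℂ => DirichletCharacter.LFunction χ (1 / 2 + z))
      (deriv (DirichletCharacter.LFunction χ) (1 / 2 + w)) w := by
    have h2 := (DirichletCharacter.differentiable_LFunction h1 (1 / 2 + w)).hasDerivAt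
    have h3 := h2.comp w hlin
    rwa [mul_one] at h3
  have hev : xg χ =ᶠ[𝓝 w] fun z => (q : ℂ) ^ ((1 / 2 + z) / 2) * (Gammaℝ (1 / 2 + z + aa χ) *
      DirichletCharacter.LFunction χ (1 / 2 + z)) := by
    have : {z : ℂ | -(1 / 2) < z.re} ∈ 𝓝 w := (isOpen_lt continuous_const Complex.continuous_re).mem_nhds hw
    filter_upwards [this] with z hz
    have hz' : -(1 / 2) < z.re := hz
    unfold xg
    rw [comp_eq (by rw [add_re]; norm_num; linarith), gammaFactor_eq]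
  have hqn : (q : ℂ) ^ ((1 / 2 + w) / 2) ≠ 0 := by
    rw [Ne, cpow_eq_zero_iff]
    exact fun h => q_ne h.1
  have hd := d1.mul (d2.mul d3)
  have hd2 := (hd.congr_of_eventuallyEq (f₁ := xg χ) (by
    filter_upwards [hev] with z hz
    rw [hz]
    rfl)).deriv
  rw [logDeriv_apply, hd2, hev.eq_of_nhds, logDeriv_apply, logDeriv_apply]
  have e : (q : ℂ) ^ ((1 / 2 + w) / 2) * Complex.log q * (1 / 2) *
      (Gammaℝ (1 / 2 + w + aa χ) * DirichletCharacter.LFunction χ (1 / 2 + w)) +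
      (q : ℂ) ^ ((1 / 2 + w) / 2) * (deriv Gammaℝ (1 / 2 + w + aa χ) * DirichletCharacter.LFunction χ (1 / 2 + w) +
        Gammaℝ (1 / 2 + w + aa χ) * deriv (DirichletCharacter.LFunction χ) (1 / 2 + w)) =
      ((Real.log q / 2 : ℝ) + deriv Gammaℝ (1 / 2 + w + aa χ) / Gammaℝ (1 / 2 + w + aa χ) +
        deriv (DirichletCharacter.LFunction χ) (1 / 2 + w) / DirichletCharacter.LFunction χ (1 / 2 + w)) *
      ((q : ℂ) ^ ((1 / 2 + w) / 2) * (Gammaℝ (1 / 2 + w + aa χ) * DirichletCharacter.LFunction χ (1 / 2 + w))) := by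
    have e2 : Complex.log (q : ℂ) = ((Real.log q : ℝ) : ℂ) := (Complex.natCast_log).symm
    rw [e2]
    have key : ∀ Q l G L G' L' : ℂ, G ≠ 0 → L ≠ 0 → Q * l * (1 / 2) * (G * L) + Q * (G' * L + G * L') =
        (l / 2 + G' / G + L' / L) * (Q * (G * L)) := by
      intro Q l G L G' L' h1 h2
      field_simp
      ring
    rw [key _ _ _ _ _ _ hG hL]
    push_cast
    ring
  have e3 : ∀ A B : ℂ, B ≠ 0 → A * B / B = A := fun A B hB => by field_simp
  simp only [Pi.mul_apply] at *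
  rw [e, e3 _ _ (mul_ne_zero hqn (mul_ne_zero hG hL))]
  simp only [add_re, ofReal_re]

/-- the zeros -/
abbrev ZZ (χ : DirichletCharacter ℂ q) : Type := {u : ℂ // xg χ u = 0}

/-- the multiplicities -/
def mm (χ : DirichletCharacter ℂ q) (u : ℂ) : ℕ := H370.mult (xg χ) u

lemma mm_pos (hq : 1 < q) (hχ : χ.IsPrimitive) (u : ZZ χ) : 1 ≤ mm χ u := by
  have hd := xg_diff (ne_one_of_prim hq hχ)
  have := (H370.Loc.mult_pos (f := xg χ) (K := Set.univ) isPreconnected_univ (fun z _ => hd.analyticAt z)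
    (mem_univ (3 / 2)) (xg_ne hq hχ) (mem_univ (u : ℂ))).2 u.2
  exact this

/-- **the real part of the logarithmic derivative** -/
theorem P_formula (hq : 1 < q) (hχ : χ.IsPrimitive) {δ : ℝ} (hδ : 0 ≤ δ) (hf : Free χ δ) {w : ℂ} (hw : δ < w.re) :
    HasSum (fun u : ZZ χ => (mm χ u : ℝ) * KK u w) (Real.log q / 2 + (logDeriv Gammaℝ (1 / 2 + w + aa χ)).re +
      (logDeriv (DirichletCharacter.LFunction χ) (1 / 2 + w)).re) := by
  have h1 := ne_one_of_prim hq hχ
  obtain ⟨K, hK, hgr⟩ := xg_growth hq hχ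
  have hε : (starRingEnd ℂ) (DirichletCharacter.rootNumber χ) ≠ 0 := by
    rw [map_ne_zero, ← norm_ne_zero_iff, norm_rootNumber hχ]
    norm_num
  rw [← xg_logDeriv h1 (by linarith) (hf _ (by rw [add_re]; norm_num; linarith))]
  exact ld_sum (xg_diff h1) hK hgr hε (xg_sy hq hχ) (xg_ne hq hχ) (by linarith)
    fun u hu => (xg_re hq hχ hδ hf hu).trans_lt hw

end
end Pool.Agent.Helper37.VFG
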